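import Pool.Agent.H929R2.Hart.U22

/-!
# Points at infinity of intersections of translates

The method of `H929R2.Hart.U13`, `U21` (starting library), in a form which allows several base points.
-/

set_option autoImplicit false
set_option maxHeartbeats 400000

namespace Pool.Agent.J4.H17.CI

open MvPolynomial Pool.Agent.H929R2.Hart

variable {σ : Type} [Fintype σ] [DecidableEq σ] {K : Type} [Field K]

/-- `P` is a prime ideal contained in the ideal of the origin, and `y` a point at infinity of its
zero set. -/
structure Inf (P : Ideal (MvPolynomial σ K)) (y : σ → K) : Prop where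
  prime : P.IsPrime
  le : P ≤ idealOfVars σ K
  ne : y ≠ 0
  top : ∀ f ∈ P, ∀ d, (∀ e > d, homogeneousComponent e f = 0) →
    eval y (homogeneousComponent d f) = 0

theorem exists_inf [IsAlgClosed K] {ι : Type} [Fintype ι] (g : ι → MvPolynomial σ K)
    (hg : ∀ a, eval 0 (g a) = 0) (hcard : Fintype.card ι < Fintype.card σ) :
    ∃ (P : Ideal (MvPolynomial σ K)) (y : σ → K), Inf P y ∧ ∀ a, g a ∈ P := by
  classical
  have hgm : Ideal.span (Set.range g) ≤ idealOfVars σ K := by
    rw [Ideal.span_le]
    rintro _ ⟨a, rfl⟩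
    rw [SetLike.mem_coe, mem_idealOfVars]
    exact hg a
  have hvp := vars_prime (σ := σ) (K := K)
  obtain ⟨P, hPmin, hPle⟩ := Ideal.exists_minimalPrimes_le hgm
  have hPprime : P.IsPrime := hPmin.1.1
  have hne : P ≠ idealOfVars σ K := by
    intro heq
    have h1 := Ideal.height_le_card_of_mem_minimalPrimes_span (Set.finite_range g) hPmin
    have h2 : (Set.range g).ncard ≤ Fintype.card ι := by
      have h3 := Set.ncard_image_le (s := (Set.univ : Set ι)) (f := g)
      rw [Set.image_univ, Set.ncard_univ] at h3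
      simpa using h3
    rw [heq] at h1
    have h4 : (Fintype.card σ : ℕ∞) ≤ ((Set.range g).ncard : ℕ∞) := height_vars.trans h1
    have h5 : Fintype.card σ ≤ (Set.range g).ncard := by exact_mod_cast h4
    omega
  have hmax : ¬ P.IsMaximal := fun hm => hne (hm.eq_of_le hvp.ne_top hPle)
  obtain ⟨y, hy0, hy⟩ := exists_infinity P hPprime hmax
  exact ⟨P, y, ⟨hPprime, hPle, hy0, hy⟩, fun a => hPmin.1.2 (Ideal.subset_span ⟨a, rfl⟩)⟩

variable {I : Ideal (MvPolynomial σ K)} {r : ℕ} {P : Ideal (MvPolynomial σ K)} {y : σ → K}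

/-- if the local generators of the ideal at `x`, translated, are in `P`, so is the whole ideal -/
theorem Inf.all [IsAlgClosed K] [CharZero K] (h : Inf P y) (hI : SCone I r) (x : σ → K)
    (hx : x ∈ cone I) (hx0 : x ≠ 0) (F : Fin r → MvPolynomial σ K) (hF : ∀ i, F i ∈ I)
    (hind : LinearIndependent K (fun i => grad (F i) x)) (hFP : ∀ i, sh x (F i) ∈ P) :
    ∀ G ∈ I, sh x G ∈ P := by
  intro G hG
  have hPprime := h.prime
  have hPle := h.le
  have hvp := vars_prime (σ := σ) (K := K)
  set π := Ideal.Quotient.mk P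
  have hmap : (idealOfVars σ K).map π ≠ ⊤ := by
    intro htop
    have h1 : Ideal.comap π ((idealOfVars σ K).map π) = idealOfVars σ K := by
      rw [Ideal.comap_map_of_surjective π Ideal.Quotient.mk_surjective]
      have h2 : Ideal.comap π ⊥ = P := Ideal.mk_ker
      rw [h2, sup_eq_left.2 hPle]
    rw [htop, Ideal.comap_top] at h1
    exact hvp.ne_top h1.symm
  have h0 := Ideal.iInf_pow_eq_bot_of_isDomain ((idealOfVars σ K).map π) hmap
  rw [← Ideal.Quotient.eq_zero_iff_mem, ← Ideal.mem_bot, ← h0, Ideal.mem_iInf]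
  intro e
  rw [← Ideal.map_pow]
  obtain ⟨a, ha, b, hb, hab⟩ := Submodule.mem_sup.1 (LG hI x hx hx0 F hF hind e G hG)
  have haP : a ∈ P := by
    have h2 : (Ideal.span (Set.range F)).map (sh x) ≤ P := by
      rw [Ideal.map_span, Ideal.span_le]
      rintro _ ⟨_, ⟨i, rfl⟩, rfl⟩
      exact hFP i
    exact h2 ha
  rw [← hab, map_add, Ideal.Quotient.eq_zero_iff_mem.2 haP, zero_add]
  exact Ideal.mem_map_of_mem _ hb

lemma hc_zero_of_eval (f : MvPolynomial σ K) [Infinite K] (e : ℕ)
    (h : ∀ x, eval x (homogeneousComponent e f) = 0) : homogeneousComponent e f = 0 := by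
  apply MvPolynomial.funext
  intro x
  rw [h x, map_zero]

/-- homogeneous elements, unshifted -/
theorem Inf.hom (h : Inf P y) (D : MvPolynomial σ K) (d : ℕ) (hD : D.IsHomogeneous d)
    (hDP : D ∈ P) : eval y D = 0 := by
  have h1 := h.top D hDP d (fun e he => by
    rw [homogeneousComponent_of_mem hD, if_neg (by omega)])
  rwa [homogeneousComponent_of_mem hD, if_pos rfl] at h1

/-- homogeneous elements, shifted -/
theorem Inf.shom [Infinite K] (h : Inf P y) (x : σ → K) (D : MvPolynomial σ K) (d : ℕ)
    (hD : D.IsHomogeneous d) (hDP : sh x D ∈ P) : eval y D = 0 := by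
  have h1 := h.top _ hDP d (fun e he => hc_zero_of_eval _ _ (fun z =>
    (line_coeff D d hD z x).1 e he))
  rw [(line_coeff D d hD y x).2 d le_rfl, Nat.sub_self, line_coeff_zero] at h1
  exact h1

theorem Inf.mem_cone [Infinite K] (h : Inf P y) (hI : SCone I r) (x : σ → K)
    (hall : ∀ G ∈ I, sh x G ∈ P) : y ∈ cone I := by
  intro G hG
  rw [← sum_homogeneousComponent G, map_sum]
  exact Finset.sum_eq_zero (fun d _ => h.shom x _ d (homogeneousComponent_isHomogeneous d G)
    (hall _ (hI.homog G hG d)))

/-- the difference of two base points is tangent at infinity -/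
theorem Inf.tangent [Infinite K] (h : Inf P y) (hI : SCone I r) (x p : σ → K)
    (hallx : ∀ G ∈ I, sh x G ∈ P) (hallp : ∀ G ∈ I, sh p G ∈ P) : p - x ∈ tangent I y := by
  rw [mem_tangent]
  intro G hG
  rw [← sum_homogeneousComponent G, grad_sum, map_sum, LinearMap.sum_apply]
  refine Finset.sum_eq_zero (fun d _ => ?_)
  set H := homogeneousComponent d G with hHdef
  have hHI : H ∈ I := hI.homog G hG d
  have hHd : H.IsHomogeneous d := homogeneousComponent_isHomogeneous d G
  rcases Nat.eq_zero_or_pos d with hd0 | hd0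
  · have h1 : grad H y = 0 := by
      rw [hd0] at hHd
      have h2 : H = C (coeff 0 H) := by
        rw [← homogeneousComponent_zero, homogeneousComponent_eq_self hHd]
      rw [h2]
      funext i; simp [grad]
    rw [h1, map_zero, LinearMap.zero_apply]
  · have h1 := h.top _ (P.sub_mem (hallp H hHI) (hallx H hHI)) (d - 1) (fun e he => by
      apply hc_zero_of_eval
      intro z
      rw [map_sub, map_sub]
      by_cases hed : d < e
      · rw [(line_coeff H d hHd z p).1 e hed, (line_coeff H d hHd z x).1 e hed, sub_self]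
      · have : e = d := by omega
        rw [this, (line_coeff H d hHd z p).2 d le_rfl,
          (line_coeff H d hHd z x).2 d le_rfl, Nat.sub_self, line_coeff_zero,
          line_coeff_zero, sub_self])
    rw [map_sub, map_sub, (line_coeff H d hHd y p).2 (d - 1) (by omega),
      (line_coeff H d hHd y x).2 (d - 1) (by omega), show d - (d - 1) = 1 by omega,
      line_coeff_one, line_coeff_one] at h1
    rw [map_sub]
    exact h1

/-- closed conditions which hold near `x` on a subset defined by elements of `P` -/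
theorem Inf.closed [IsAlgClosed K] (h : Inf P y) (x : σ → K) (D T : MvPolynomial σ K) (d : ℕ)
    (hD : D.IsHomogeneous d) (hT : eval x T ≠ 0)
    (hvan : ∀ z, (∀ f ∈ P, eval z f = 0) → eval (z + x) T ≠ 0 → eval (z + x) D = 0) :
    eval y D = 0 := by
  have : Infinite K := IsAlgClosed.instInfinite
  apply h.shom x D d hD
  have h1 : sh x T * sh x D ∈ P := by
    apply mem_of_vanish P h.prime
    intro z hz'
    rw [map_mul, eval_sh, eval_sh]
    by_cases hTz : eval (z + x) T = 0
    · rw [hTz, zero_mul]
    · rw [hvan z hz' hTz, mul_zero]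
  rcases h.prime.mem_or_mem h1 with h2 | h2
  · exfalso
    apply hT
    have h3 := (mem_idealOfVars _).1 (h.le h2)
    rwa [eval_sh, zero_add] at h3
  · exact h2

end Pool.Agent.J4.H17.CI
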