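import Pool.Agent.J4.H17.CI.A

/-!
# Varieties cut out by polynomials linear in `X_o ^ m`: lines through the centre
-/

set_option autoImplicit false
set_option maxHeartbeats 400000

namespace Pool.Agent.J4.H17.CI

open MvPolynomial Pool.Agent.H929R2.Hart

variable {σ : Type} [Fintype σ] [DecidableEq σ] {K : Type} [Field K]

omit [DecidableEq σ] in
/-- Limits of conormal vectors along a line are conormal; almost all points of the line suffice. -/
theorem conormal_closed' [Infinite K] (I : Ideal (MvPolynomial σ K)) (r : ℕ)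
    (hr : ∀ x ∈ cone I, x ≠ 0 → Module.finrank K (conormal I x) = r)
    (x0 x1 : σ → K) (hx0 : x0 ≠ 0) (hx0c : x0 ∈ cone I) (ξ0 : σ → K)
    (b0 : Polynomial K) (hb0 : b0 ≠ 0)
    (h : ∀ t : K, b0.eval t ≠ 0 → x0 + t • x1 ∈ cone I ∧ ξ0 ∈ conormal I (x0 + t • x1)) :
    ξ0 ∈ conormal I x0 := by
  classical
  by_contra hξ
  have hfin := hr x0 hx0c hx0
  let b := Module.finBasisOfFinrankEq K (conormal I x0) hfin
  choose F hF hbF using fun i => exists_grad I x0 (b i : σ → K) (b i).2
  let B : Fin (r + 1) → (σ → K) := Fin.cons ξ0 (fun i => (b i : σ → K))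
  have hB : LinearIndependent K B := by
    rw [linearIndependent_finCons]
    refine ⟨?_, ?_⟩
    · exact b.linearIndependent.map' (conormal I x0).subtype (Submodule.ker_subtype _)
    · intro hmem
      apply hξ
      refine (Submodule.span_le.2 ?_) hmem
      rintro _ ⟨i, rfl⟩
      exact (b i).2
  obtain ⟨v, hv⟩ := exists_dual_vectors B hB
  let G : Fin (r + 1) → (σ → K) → Polynomial K :=
    Fin.cons (fun w => ∑ m, Polynomial.C (ξ0 m) * Polynomial.C (w m))
      (fun i w => ∑ m, line (pderiv m (F i)) x0 x1 * Polynomial.C (w m))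
  let P : Matrix (Fin (r + 1)) (Fin (r + 1)) (Polynomial K) := fun i j => G i (v j)
  have hP : ∀ t : K, P.det.eval t =
      Matrix.det (fun i j => dotB σ K ((Fin.cons ξ0 (fun i => grad (F i) (x0 + t • x1)) :
        Fin (r + 1) → (σ → K)) i) (v j)) := by
    intro t
    have h1 : P.det.eval t = (Polynomial.evalRingHom t) P.det := rfl
    rw [h1, RingHom.map_det]
    congr 1
    ext i j
    refine Fin.cases ?_ (fun i => ?_) i
    · change Polynomial.eval t (∑ m, Polynomial.C (ξ0 m) * Polynomial.C (v j m)) =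
        dotB σ K ξ0 (v j)
      simp only [Polynomial.eval_finsetSum, Polynomial.eval_mul, Polynomial.eval_C, dotB_apply]
    · change Polynomial.eval t (∑ m, line (pderiv m (F i)) x0 x1 * Polynomial.C (v j m)) =
        dotB σ K (grad (F i) (x0 + t • x1)) (v j)
      simp only [Polynomial.eval_finsetSum, Polynomial.eval_mul, eval_line,
        Polynomial.eval_C, dotB_apply, grad]
  have hP0 : P.det.eval 0 = 1 := by
    rw [hP 0]
    have : (fun i j => dotB σ K ((Fin.cons ξ0
        (fun i => grad (F i) (x0 + (0:K) • x1)) :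
        Fin (r + 1) → (σ → K)) i) (v j)) = (1 : Matrix (Fin (r+1)) (Fin (r+1)) K) := by
      ext i j
      rw [Matrix.one_apply, ← hv i j]
      refine Fin.cases ?_ (fun i => ?_) i
      · simp [B]
      · simp [B, hbF]
    rw [this, Matrix.det_one]
  obtain ⟨m, hm⟩ : ∃ m, x0 m ≠ 0 := Function.ne_iff.1 hx0
  let q : Polynomial K := Polynomial.C (x0 m) + Polynomial.X * Polynomial.C (x1 m)
  have hpq : P.det * q * b0 ≠ 0 := by
    refine mul_ne_zero (mul_ne_zero ?_ ?_) hb0
    · intro h0; rw [h0] at hP0; simp at hP0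
    · intro h0
      have := congrArg (Polynomial.eval 0) h0
      simp [q] at this
      exact hm this
  obtain ⟨t, ht0, ht⟩ : ∃ t : K, t ≠ 0 ∧ (P.det * q * b0).eval t ≠ 0 := by
    by_contra hcon
    push Not at hcon
    exact hpq (poly_eq_zero _ hcon)
  rw [Polynomial.eval_mul, Polynomial.eval_mul] at ht
  have htb := right_ne_zero_of_mul ht
  have ht' := left_ne_zero_of_mul ht
  have ht1 := left_ne_zero_of_mul ht'
  have ht2 := right_ne_zero_of_mul ht'
  have hxt : x0 + t • x1 ≠ 0 := by
    intro h0
    apply ht2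
    have := congrFun h0 m
    simp only [Pi.add_apply, Pi.smul_apply, smul_eq_mul, Pi.zero_apply] at this
    simp only [q, Polynomial.eval_add, Polynomial.eval_C, Polynomial.eval_mul, Polynomial.eval_X]
    linear_combination this
  have hrt := hr _ (h t htb).1 hxt
  set Bt : Fin (r + 1) → (σ → K) :=
    Fin.cons ξ0 (fun i => grad (F i) (x0 + t • x1)) with hBt
  have hmem : ∀ i, Bt i ∈ conormal I (x0 + t • x1) := by
    intro i
    refine Fin.cases ?_ (fun i => ?_) i
    · simpa [Bt] using (h t htb).2
    · simpa [Bt] using grad_mem I _ (hF i)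
  have hdep : ¬ LinearIndependent K Bt := by
    intro hli
    have h2 : LinearIndependent K (fun i => (⟨Bt i, hmem i⟩ : conormal I (x0 + t • x1))) :=
      LinearIndependent.of_comp (conormal I (x0 + t • x1)).subtype hli
    have := h2.fintype_card_le_finrank
    rw [hrt, Fintype.card_fin] at this
    omega
  rw [Fintype.not_linearIndependent_iff] at hdep
  obtain ⟨c, hc, i, hci⟩ := hdep
  apply ht1
  rw [hP t]
  rw [← Matrix.exists_vecMul_eq_zero_iff]
  refine ⟨c, fun h0 => hci (congrFun h0 i), ?_⟩
  ext j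
  have := congrArg (fun φ => dotB σ K φ (v j)) hc
  simpa [Matrix.vecMul, dotProduct, map_sum, LinearMap.sum_apply] using this

/-- `F = A + X_o ^ m * B` is a form of degree `d`, and `A`, `B` are forms which do not involve
`X_o`. -/
structure Mon (o : σ) (m : ℕ) (F : MvPolynomial σ K) (d : ℕ) (A B : MvPolynomial σ K) : Prop where
  eq : F = A + X o ^ m * B
  homA : A.IsHomogeneous d
  homB : B = 0 ∨ (m ≤ d ∧ B.IsHomogeneous (d - m))
  supA : A ∈ supported K {i | i ≠ o}
  supB : B ∈ supported K {i | i ≠ o}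

section Lines

variable {o : σ} {m : ℕ} {I : Ideal (MvPolynomial σ K)} {r : ℕ}

lemma eval_add_single {p : MvPolynomial σ K} (hp : p ∈ supported K {i | i ≠ o}) (y : σ → K) (s : K) :
    eval (y + s • (Pi.single o 1 : σ → K)) p = eval y p := by
  apply eval_congr_supported hp
  intro i hi
  have : i ≠ o := hi
  simp [this]

lemma Mon.eval {F A B : MvPolynomial σ K} {d : ℕ} (h : Mon o m F d A B) (x : σ → K) :
    MvPolynomial.eval x F = MvPolynomial.eval x A + x o ^ m * MvPolynomial.eval x B := by
  rw [h.eq, map_add, map_mul, map_pow, eval_X]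

/-- the coefficient of `X_o ^ m` vanishes on the tangent space at the centre -/
lemma Mon.tangent [IsAlgClosed K] [CharZero K] (hm : 1 ≤ m) (hI : SCone I r)
    (hv : (Pi.single o 1 : σ → K) ∈ cone I) {F A B : MvPolynomial σ K} {d : ℕ}
    (h : Mon o m F d A B) (hF : F ∈ I) (u : σ → K)
    (hu : u ∈ H929R2.Hart.tangent I (Pi.single o 1 : σ → K)) : MvPolynomial.eval u B = 0 := by
  rcases h.homB with hB0 | ⟨hmd, hB⟩
  · rw [hB0, map_zero]
  have hv0 : (Pi.single o 1 : σ → K) ≠ 0 := by
    intro h0
    have := congrFun h0 o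
    simp at this
  set v : σ → K := Pi.single o 1 with hvdef
  obtain ⟨G, hG, hind, -⟩ := exists_grads hI v hv hv0
  have hfix : ∀ p : MvPolynomial σ K, p ∈ supported K {i | i ≠ o} → sh v p = p := by
    intro p hp
    rw [sh]
    apply aeval_fix_supported hp
    intro i hi
    have hi' : i ≠ o := hi
    rw [hvdef, Pi.single_apply, if_neg hi', map_zero, add_zero]
  have hE : sh v F = B + (A + ((X o + 1) ^ m - 1) * B) := by
    rw [h.eq, map_add, map_mul, map_pow, hfix A h.supA, hfix B h.supB]
    have : sh v (X o) = X o + 1 := by simp [sh, hvdef]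
    rw [this]; ring
  have hBm : B ∈ idealOfVars σ K ^ (d - m) := by
    rw [mem_pow_idealOfVars_iff]
    intro x hx
    have := hB (mem_support_iff.1 hx)
    rw [← this]
    exact le_of_eq (congrFun (congrArg DFunLike.coe Finsupp.degree_eq_weight_one) x).symm
  have hAm : A ∈ idealOfVars σ K ^ (d - m + 1) := by
    rw [mem_pow_idealOfVars_iff]
    intro x hx
    have := h.homA (mem_support_iff.1 hx)
    have h3 : Finsupp.degree x = d := (congrFun (congrArg DFunLike.coe Finsupp.degree_eq_weight_one) x).trans this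
    omega
  have hq : ((X o + 1) ^ m - 1 : MvPolynomial σ K) * B ∈ idealOfVars σ K ^ (d - m + 1) := by
    have h1 : ((X o + 1) ^ m - 1 : MvPolynomial σ K) ∈ idealOfVars σ K := by
      rw [mem_idealOfVars]
      simp
    rw [pow_succ']
    exact Ideal.mul_mem_mul h1 hBm
  have hrest : A + ((X o + 1) ^ m - 1) * B ∈ idealOfVars σ K ^ (d - m + 1) := Ideal.add_mem _ hAm hq
  have h1 := hc_tangent hI v hv hv0 G hG hind (d - m) F hF (by
    rw [hE]
    exact Ideal.add_mem _ hBm (Ideal.pow_le_pow_right (Nat.le_succ _) hrest)) u hu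
  have h2 : homogeneousComponent (d - m) (A + ((X o + 1) ^ m - 1) * B) = 0 := by
    ext x
    rw [coeff_homogeneousComponent, coeff_zero]
    split_ifs with hx
    · exact (mem_pow_idealOfVars_iff' _ _).1 hrest x (by omega)
    · rfl
  rw [hE, map_add, h2, add_zero, homogeneousComponent_of_mem hB, if_pos rfl] at h1
  exact h1

/-- the cone is cut out, set-theoretically, by forms linear in `X_o ^ m` -/
def CutZ (o : σ) (m : ℕ) (I : Ideal (MvPolynomial σ K)) : Prop :=
  ∀ x : σ → K, (∀ F ∈ I, ∀ d A B, Mon o m F d A B → eval x F = 0) → x ∈ cone I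

/-- lines through the centre -/
theorem line_mem [IsAlgClosed K] [CharZero K] (hm : 1 ≤ m) (hI : SCone I r)
    (hv : (Pi.single o 1 : σ → K) ∈ cone I) (hcut : CutZ o m I) (y : σ → K) (hy : y ∈ cone I)
    (hyt : y ∈ H929R2.Hart.tangent I (Pi.single o 1 : σ → K)) (s : K) :
    y + s • (Pi.single o 1 : σ → K) ∈ cone I := by
  apply hcut
  intro F hF d A B h
  have h1 := h.tangent hm hI hv hF y hyt
  have h2 := h.eval y
  rw [hy F hF, h1, mul_zero, add_zero] at h2
  rw [h.eval, eval_add_single h.supA, eval_add_single h.supB, h1, mul_zero, add_zero, ← h2]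

/-- **Tangent hyperplanes along lines.** -/
theorem phi_mem [IsAlgClosed K] [CharZero K] (hm : 1 ≤ m) (hI : SCone I r)
    (hv : (Pi.single o 1 : σ → K) ∈ cone I) (hcut : CutZ o m I) (y : σ → K) (hy : y ∈ cone I)
    (hy0 : y ≠ 0) (hyt : y ∈ H929R2.Hart.tangent I (Pi.single o 1 : σ → K))
    (β : σ → K) (hβ : β ∈ conormal I (Pi.single o 1 : σ → K))
    (A : MvPolynomial σ K) (hA : A ∈ supported K {i | i ≠ o}) (hg : A + X o ^ m * lin β ∈ I)
    (lam : σ → K) (hlam : lin lam ∈ I) (hgrad : grad (A + X o ^ m * lin β) y = lam) :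
    β ∈ conormal I y := by
  set v : σ → K := Pi.single o 1 with hvdef
  have hyv : ∀ s : K, y + s • v ∈ cone I := line_mem hm hI hv hcut y hy hyt
  have hβy : dotB σ K β y = 0 := tangent_conormal I v hβ hyt
  have hβo : dotB σ K β v = 0 := by
    have hvt : v ∈ H929R2.Hart.tangent I v := by
      apply (cone_of_line I v v _).2
      intro t _
      have : v + t • v = (1 + t) • v := by rw [add_smul, one_smul]
      rw [this]
      exact cone_smul I hI.homog _ v hv
    exact tangent_conormal I v hβ hvt
  have hgr : ∀ s : K, grad (A + X o ^ m * lin β) (y + s • v) = lam + ((y o + s) ^ m - y o ^ m) • β := by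
    intro s
    have h1 : ∀ z : σ → K, grad (A + X o ^ m * lin β) z =
        grad A z + (z o ^ m • β + dotB σ K β z • grad (X o ^ m : MvPolynomial σ K) z) := by
      intro z
      rw [grad_add, grad_mul, grad_lin, eval_lin, map_pow, eval_X, add_comm (dotB σ K β z • _)]
    have h2 : grad A (y + s • v) = grad A y := by
      funext i
      exact eval_add_single (pderiv_mem_supported hA i) y s
    have h3 : dotB σ K β (y + s • v) = 0 := by
      rw [map_add, map_smul, hβy, hβo, smul_zero, add_zero]
    have h4 : (y + s • v) o = y o + s := by simp [hvdef]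
    rw [h1, h2, h3, zero_smul, add_zero, h4]
    rw [h1, hβy, zero_smul, add_zero] at hgrad
    rw [← hgrad, sub_smul]
    abel
  let b0 : Polynomial K := (Polynomial.C (y o) + Polynomial.X) ^ m - Polynomial.C (y o ^ m)
  have hb0 : b0 ≠ 0 := by
    intro h0
    have h1 : b0.natDegree = m := by
      simp only [b0]
      rw [Polynomial.natDegree_sub_C, Polynomial.natDegree_pow, add_comm,
        Polynomial.natDegree_X_add_C, mul_one]
    rw [h0, Polynomial.natDegree_zero] at h1
    omega
  apply conormal_closed' I r hI.rank y v hy0 hy β b0 hb0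
  intro t ht
  refine ⟨hyv t, ?_⟩
  have h1 : grad (A + X o ^ m * lin β) (y + t • v) ∈ conormal I (y + t • v) := grad_mem I _ hg
  rw [hgr t] at h1
  have h2 : lam ∈ conormal I (y + t • v) := by
    have := grad_mem I (y + t • v) hlam
    rwa [grad_lin] at this
  have h3 : ((y o + t) ^ m - y o ^ m) • β ∈ conormal I (y + t • v) := by
    have := Submodule.sub_mem _ h1 h2
    rwa [add_sub_cancel_left] at this
  have h4 : (y o + t) ^ m - y o ^ m ≠ 0 := by
    simpa [b0] using ht
  have h5 := Submodule.smul_mem _ ((y o + t) ^ m - y o ^ m)⁻¹ h3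
  rwa [smul_smul, inv_mul_cancel₀ h4, one_smul] at h5

end Lines

end Pool.Agent.J4.H17.CI
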