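import Pool.Agent.J4.H17.CI.B

/-!
# Independent gradients away from the tangent space at the centre
-/

set_option autoImplicit false
set_option maxHeartbeats 400000

namespace Pool.Agent.J4.H17.CI

open MvPolynomial Pool.Agent.H929R2.Hart

variable {σ : Type} [Fintype σ] [DecidableEq σ] {K : Type} [Field K]
variable {I : Ideal (MvPolynomial σ K)} {r : ℕ}

/-- a frame at `x1` and dual vectors, and the open set where they are good -/
theorem exists_frameT (hI : SCone I r) (x1 : σ → K) (hx1 : x1 ∈ cone I) (hx10 : x1 ≠ 0) :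
    ∃ (F : Fin r → MvPolynomial σ K) (W : Fin r → σ → K) (T : MvPolynomial σ K),
      (∀ i, F i ∈ I) ∧ LinearIndependent K (fun i => grad (F i) x1) ∧ eval x1 T ≠ 0 ∧
      ∀ z ∈ cone I, eval z T ≠ 0 → z ≠ 0 ∧
        ∀ ξ ∈ conormal I z, (∀ i, dotB σ K ξ (W i) = 0) → ξ = 0 := by
  classical
  obtain ⟨F, hF, hind, -⟩ := exists_grads hI x1 hx1 hx10
  obtain ⟨W, hW⟩ := exists_dual_vectors _ hind
  obtain ⟨m, hm⟩ := Function.ne_iff.1 hx10
  let M : Matrix (Fin r) (Fin r) (MvPolynomial σ K) := fun i j => ∑ s, pderiv s (F j) * C (W i s)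
  have hMz : ∀ z, eval z M.det = Matrix.det (fun i j => dotB σ K (grad (F j) z) (W i)) := by
    intro z
    rw [RingHom.map_det]
    congr 1
    ext i j
    simp only [RingHom.mapMatrix_apply, Matrix.map_apply, M, map_sum, map_mul, eval_C, dotB_apply,
      grad]
  refine ⟨F, W, M.det * X m, hF, hind, ?_, ?_⟩
  · rw [map_mul, hMz, eval_X]
    have h1 : (fun i j => dotB σ K (grad (F j) x1) (W i)) = (1 : Matrix (Fin r) (Fin r) K) := by
      ext i j
      rw [hW, Matrix.one_apply]
      by_cases h : i = j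
      · rw [if_pos h, if_pos h.symm]
      · rw [if_neg h, if_neg (fun h' => h h'.symm)]
    rw [h1, Matrix.det_one, one_mul]
    exact hm
  · intro z hz hzT
    rw [map_mul, eval_X, hMz] at hzT
    have h1 := left_ne_zero_of_mul hzT
    have h2 := right_ne_zero_of_mul hzT
    have hz0 : z ≠ 0 := by
      rintro rfl
      exact h2 rfl
    refine ⟨hz0, fun ξ hξ hW0 => ?_⟩
    have hindz : LinearIndependent K (fun j => grad (F j) z) := ind_of_det _ W h1
    obtain ⟨c, hc⟩ := grads_span hI z hz hz0 F hF hindz ξ hξ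
    rw [uu_apply] at hc
    have h3 : Matrix.mulVec (fun i j => dotB σ K (grad (F j) z) (W i)) c = 0 := by
      funext i
      have h4 := hW0 i
      rw [← hc] at h4
      simp only [map_sum, map_smul, LinearMap.sum_apply, LinearMap.smul_apply, smul_eq_mul] at h4
      rw [Matrix.mulVec, dotProduct, Pi.zero_apply, ← h4]
      exact Finset.sum_congr rfl (fun j _ => mul_comm _ _)
    have h5 := Matrix.eq_zero_of_mulVec_eq_zero h1 h3
    rw [← hc, h5]
    simp

/-- a basis of the conormal space at `v`, in the form of elements of the ideal of the origin -/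
theorem exists_conormal_basis (hI : SCone I r) (v : σ → K) (hv : v ∈ cone I) (hv0 : v ≠ 0) :
    ∃ b : Fin r → σ → K, ∀ y : σ → K, (∀ i, dotB σ K (b i) y = 0) → y ∈ H929R2.Hart.tangent I v := by
  obtain ⟨F, hF, -, hspan⟩ := exists_grads hI v hv hv0
  refine ⟨fun i => grad (F i) v, fun y hy => ?_⟩
  rw [mem_tangent]
  intro G hG
  obtain ⟨c, hc⟩ := hspan _ (grad_mem I v hG)
  rw [hc, map_sum, LinearMap.sum_apply]
  refine Finset.sum_eq_zero (fun i _ => ?_)
  rw [map_smul, LinearMap.smul_apply, hy i, smul_zero]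

/-- **Lemma A.** -/
theorem lemmaA [IsAlgClosed K] [CharZero K] {o : σ} {m : ℕ} (hm : 1 ≤ m) (hI : SCone I r)
    (hv : (Pi.single o 1 : σ → K) ∈ cone I) (hcut : CutZ o m I) (hcard : 4 * r < Fintype.card σ)
    (x0 : σ → K) (hx0 : x0 ∈ cone I) (hx00 : x0 ≠ 0)
    (hx0t : x0 ∈ H929R2.Hart.tangent I (Pi.single o 1 : σ → K))
    (β : σ → K) (hβ : β ∈ conormal I (Pi.single o 1 : σ → K)) (hβI : lin β ∉ I)
    (A : MvPolynomial σ K) (hA : A ∈ supported K {i | i ≠ o}) (hAh : A.IsHomogeneous (m + 1))
    (hg : A + X o ^ m * lin β ∈ I)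
    (lam : σ → K) (hlam : lin lam ∈ I) (hgrad : grad (A + X o ^ m * lin β) x0 = lam) : False := by
  classical
  have : Infinite K := IsAlgClosed.instInfinite
  have hv0 : (Pi.single o 1 : σ → K) ≠ 0 := by
    intro h0
    have := congrFun h0 o
    simp at this
  obtain ⟨p, hp, hpβ⟩ : ∃ p ∈ cone I, dotB σ K β p ≠ 0 := by
    by_contra hcon
    push Not at hcon
    apply hβI
    apply mem_of_vanish I hI.prime
    intro z hz
    rw [eval_lin]
    exact hcon z hz
  have hp0 : p ≠ 0 := by
    rintro rfl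
    exact hpβ (map_zero _)
  obtain ⟨i0, hi0⟩ := Function.ne_iff.1 hx00
  set w : σ → K := Pi.single i0 (x0 i0)⁻¹ with hw
  have hwx : dotB σ K w x0 = 1 := by
    rw [dotB_apply, Finset.sum_eq_single i0]
    · simp only [w, Pi.single_eq_same]
      exact inv_mul_cancel₀ hi0
    · intro k _ hk
      rw [hw, Pi.single_apply, if_neg hk, zero_mul]
    · intro h; exact absurd (Finset.mem_univ _) h
  set μ : MvPolynomial σ K := lin w ^ m with hμ
  set g : MvPolynomial σ K := A + X o ^ m * lin β with hgdef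
  set gφ : MvPolynomial σ K := g - lin lam * μ with hgφ
  have hgh : g.IsHomogeneous (m + 1) := by
    apply hAh.add
    exact (isHomogeneous_X_pow o m).mul (lin_homog β)
  have hμh : μ.IsHomogeneous m := by
    have := (lin_homog w).pow m
    rwa [one_mul] at this
  have hgφh : gφ.IsHomogeneous (m + 1) := by
    apply hgh.sub
    have := (lin_homog lam).mul hμh
    rwa [add_comm 1 m] at this
  have hgφI : gφ ∈ I := I.sub_mem hg (I.mul_mem_right _ hlam)
  have hgradφ : ∀ z ∈ cone I, grad gφ z = grad g z - eval z μ • lam := by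
    intro z hz
    have h1 : grad (lin lam * μ) z = eval z μ • lam := by
      rw [grad_mul, grad_lin, hz _ hlam, zero_smul, add_zero]
    have h2 : grad gφ z = grad g z - grad (lin lam * μ) z := by
      funext i
      simp [grad, gφ]
    rw [h2, h1]
  have hφ0 : grad gφ x0 = 0 := by
    rw [hgradφ x0 hx0, hgrad]
    have : eval x0 μ = 1 := by
      rw [hμ, map_pow, eval_lin, hwx, one_pow]
    rw [this, one_smul, sub_self]
  obtain ⟨F, W, T, hF, hind, hT, hgood⟩ := exists_frameT hI x0 hx0 hx00
  obtain ⟨F', hF', hind', -⟩ := exists_grads hI p hp hp0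
  obtain ⟨b, hb⟩ := exists_conormal_basis hI _ hv hv0
  let G : (Fin r ⊕ Fin r) ⊕ (Fin r ⊕ Fin r) → MvPolynomial σ K :=
    Sum.elim (Sum.elim (fun i => sh x0 (F i)) (fun i => sh p (F' i)))
      (Sum.elim (fun i => lin (b i)) (fun i => sh x0 (dd (W i) gφ)))
  obtain ⟨P, y, hinf, hGP⟩ := exists_inf G (by
    rintro ((i | i) | (i | i))
    · show eval 0 (sh x0 (F i)) = 0
      rw [eval_sh, zero_add]; exact hx0 _ (hF i)
    · show eval 0 (sh p (F' i)) = 0
      rw [eval_sh, zero_add]; exact hp _ (hF' i)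
    · show eval 0 (lin (b i)) = 0
      rw [eval_lin, map_zero]
    · show eval 0 (sh x0 (dd (W i) gφ)) = 0
      rw [eval_sh, zero_add, eval_dd, hφ0, map_zero, LinearMap.zero_apply]) (by
    simp only [Fintype.card_sum, Fintype.card_fin]; omega)
  have hallx : ∀ H ∈ I, sh x0 H ∈ P := hinf.all hI x0 hx0 hx00 F hF hind
    (fun i => hGP (Sum.inl (Sum.inl i)))
  have hallp : ∀ H ∈ I, sh p H ∈ P := hinf.all hI p hp hp0 F' hF' hind'
    (fun i => hGP (Sum.inl (Sum.inr i)))
  have hy : y ∈ cone I := hinf.mem_cone hI x0 hallx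
  have hy0 := hinf.ne
  have hyt : y ∈ H929R2.Hart.tangent I (Pi.single o 1 : σ → K) := by
    apply hb
    intro i
    have h1 := hinf.hom (lin (b i)) 1 (lin_homog _) (hGP (Sum.inr (Sum.inl i)))
    rwa [eval_lin] at h1
  have hxy := hinf.tangent hI x0 p hallx hallp
  have hφy : grad gφ y = 0 := by
    funext i
    apply hinf.closed x0 (pderiv i gφ) T m (by
      have := hgφh.pderiv (i := i)
      rwa [Nat.add_sub_cancel] at this) hT
    intro z hz hzT
    have hzc : z + x0 ∈ cone I := by
      intro H hH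
      have := hz _ (hallx H hH)
      rwa [eval_sh] at this
    have h1 := (hgood _ hzc hzT).2 (grad gφ (z + x0)) (grad_mem I _ hgφI) (fun i => by
      have := hz _ (hGP (Sum.inr (Sum.inr i)))
      change eval z (sh x0 (dd (W i) gφ)) = 0 at this
      rwa [eval_sh, eval_dd] at this)
    exact congrFun h1 i
  have hgy : grad g y = eval y μ • lam := by
    have h1 := hgradφ y hy
    rw [hφy] at h1
    exact (sub_eq_zero.1 h1.symm)
  have hlamy : lin (eval y μ • lam) ∈ I := by
    rw [lin_smul]
    exact I.mul_mem_left _ hlam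
  have hβy := phi_mem hm hI hv hcut y hy hy0 hyt β hβ A hA hg _ hlamy hgy
  have h1 := tangent_conormal I y hβy hxy
  rw [map_sub, tangent_conormal I _ hβ hx0t, sub_zero] at h1
  exact hpβ h1

/-- **Lemma B.** -/
theorem lemmaB [IsAlgClosed K] [CharZero K] (hI : SCone I r) (v : σ → K)
    (hv : v ∈ cone I) (hv0 : v ≠ 0) (hcard : 2 * r + 1 < Fintype.card σ)
    {ι : Type} [Fintype ι] (hι : Fintype.card ι = r) (G : ι → MvPolynomial σ K)
    (δ : ι → ℕ) (hG : ∀ b, G b ∈ I) (hGh : ∀ b, (G b).IsHomogeneous (δ b))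
    (x1 : σ → K) (hx1 : x1 ∈ cone I) (hx10 : x1 ≠ 0)
    (hdep : ¬ LinearIndependent K (fun b => grad (G b) x1)) :
    ∃ y ∈ cone I, y ≠ 0 ∧ y ∈ H929R2.Hart.tangent I v ∧
      ¬ LinearIndependent K (fun b => grad (G b) y) := by
  classical
  have : Infinite K := IsAlgClosed.instInfinite
  let e : ι ≃ Fin r := Fintype.equivFinOfCardEq hι
  obtain ⟨F, W, T, hF, hind, hT, hgood⟩ := exists_frameT hI x1 hx1 hx10
  obtain ⟨b, hb⟩ := exists_conormal_basis hI _ hv hv0
  let M : (ι → σ → K) → Matrix ι ι (MvPolynomial σ K) :=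
    fun W i j => ∑ s, pderiv s (G j) * C (W i s)
  have hMz : ∀ W z, eval z (M W).det = Matrix.det (fun i j => dotB σ K (grad (G j) z) (W i)) := by
    intro W z
    rw [RingHom.map_det]
    congr 1
    ext i j
    simp only [RingHom.mapMatrix_apply, Matrix.map_apply, M, map_sum, map_mul, eval_C, dotB_apply,
      grad]
  let W1 : ι → σ → K := fun i => W (e i)
  have hM1 : eval x1 (M W1).det = 0 := by
    by_contra hne
    rw [hMz] at hne
    exact hdep (ind_of_det _ _ hne)
  let L : (Fin r ⊕ Fin r) ⊕ Unit → MvPolynomial σ K :=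
    Sum.elim (Sum.elim (fun i => sh x1 (F i)) (fun i => lin (b i))) (fun _ => sh x1 (M W1).det)
  obtain ⟨P, y, hinf, hLP⟩ := exists_inf L (by
    rintro ((i | i) | i)
    · show eval 0 (sh x1 (F i)) = 0
      rw [eval_sh, zero_add]; exact hx1 _ (hF i)
    · show eval 0 (lin (b i)) = 0
      rw [eval_lin, map_zero]
    · show eval 0 (sh x1 (M W1).det) = 0
      rw [eval_sh, zero_add]; exact hM1) (by
    simp only [Fintype.card_sum, Fintype.card_fin, Fintype.card_unit]; omega)
  have hallx : ∀ H ∈ I, sh x1 H ∈ P := hinf.all hI x1 hx1 hx10 F hF hind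
    (fun i => hLP (Sum.inl (Sum.inl i)))
  have hy : y ∈ cone I := hinf.mem_cone hI x1 hallx
  refine ⟨y, hy, hinf.ne, ?_, ?_⟩
  · apply hb
    intro i
    have h1 := hinf.hom (lin (b i)) 1 (lin_homog _) (hLP (Sum.inl (Sum.inr i)))
    rwa [eval_lin] at h1
  · intro hindy
    obtain ⟨W', hW'⟩ := exists_dual _ hindy
    have hDy : eval y (M W').det = 1 := by
      rw [hMz]
      have h1 : (fun i j => dotB σ K (grad (G j) y) (W' i)) = (1 : Matrix ι ι K) := by
        ext i j
        rw [hW', Matrix.one_apply]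
        by_cases h : i = j
        · rw [if_pos h, if_pos h.symm]
        · rw [if_neg h, if_neg (fun h' => h h'.symm)]
      rw [h1, Matrix.det_one]
    have hDh : (M W').det.IsHomogeneous (∑ b, (δ b - 1)) :=
      det_homog (fun j s => pderiv s (G j)) W' _ (fun j s => (hGh j).pderiv)
    have h1 := hinf.closed x1 (M W').det T _ hDh hT (by
      intro z hz hzT
      have hzc : z + x1 ∈ cone I := by
        intro H hH
        have := hz _ (hallx H hH)
        rwa [eval_sh] at this
      obtain ⟨hz0, hzg⟩ := hgood _ hzc hzT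
      by_contra hne
      rw [hMz] at hne
      have hli := ind_of_det _ W' hne
      have h0 : Matrix.det (fun i j => dotB σ K (grad (G j) (z + x1)) (W1 i)) = 0 := by
        rw [← hMz, ← eval_sh]
        exact hz _ (hLP (Sum.inr ()))
      obtain ⟨c, hc0, hc⟩ := Matrix.exists_mulVec_eq_zero_iff.2 h0
      apply hc0
      have hξ0 : ∑ j, c j • grad (G j) (z + x1) = 0 := by
        apply hzg
        · exact Submodule.sum_mem _ (fun j _ => Submodule.smul_mem _ _ (grad_mem I _ (hG j)))
        · intro i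
          have h2 := congrFun hc (e.symm i)
          rw [Matrix.mulVec, dotProduct, Pi.zero_apply] at h2
          rw [map_sum, LinearMap.sum_apply]
          refine Eq.trans (Finset.sum_congr rfl (fun j _ => ?_)) h2
          rw [map_smul, LinearMap.smul_apply, smul_eq_mul, mul_comm]
          simp only [W1, Equiv.apply_symm_apply]
      exact funext (fun j => Fintype.linearIndependent_iff.1 hli c hξ0 j))
    rw [hDy] at h1
    exact one_ne_zero h1

/-- forms in the ideal, given by a frame at the centre -/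
structure CFrame (o : σ) (m : ℕ) (I : Ideal (MvPolynomial σ K)) (k s : ℕ)
    (lam : Fin k → σ → K) (β : Fin s → σ → K) (A : Fin s → MvPolynomial σ K) : Prop where
  lam_mem : ∀ i, lin (lam i) ∈ I
  lam_span : ∀ u : σ → K, lin u ∈ I → u ∈ Submodule.span K (Set.range lam)
  β_mem : ∀ j, β j ∈ conormal I (Pi.single o 1 : σ → K)
  ind : LinearIndependent K (Sum.elim lam β)
  sup : ∀ j, A j ∈ supported K {i | i ≠ o}
  homog : ∀ j, (A j).IsHomogeneous (m + 1)
  mem : ∀ j, A j + X o ^ m * lin (β j) ∈ I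

/-- **The gradients are independent everywhere.** -/
theorem CFrame.indep [IsAlgClosed K] [CharZero K] {o : σ} {m : ℕ} (hm : 1 ≤ m) (hI : SCone I r)
    (hv : (Pi.single o 1 : σ → K) ∈ cone I) (hcut : CutZ o m I) (hcard : 4 * r < Fintype.card σ)
    {k s : ℕ} (hks : k + s = r) {lam : Fin k → σ → K} {β : Fin s → σ → K}
    {A : Fin s → MvPolynomial σ K} (h : CFrame o m I k s lam β A) (x : σ → K) (hx : x ∈ cone I)
    (hx0 : x ≠ 0) :
    LinearIndependent K (fun b => grad
      ((Sum.elim (fun i => lin (lam i)) (fun j => A j + X o ^ m * lin (β j)) :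
        Fin k ⊕ Fin s → MvPolynomial σ K) b) x) := by
  classical
  have hv0 : (Pi.single o 1 : σ → K) ≠ 0 := by
    intro h0
    have := congrFun h0 o
    simp at this
  rcases Nat.eq_zero_or_pos r with hr | hr
  · have : IsEmpty (Fin k ⊕ Fin s) := by
      rw [isEmpty_sum]
      refine ⟨?_, ?_⟩
      · have : k = 0 := by omega
        subst this; infer_instance
      · have : s = 0 := by omega
        subst this; infer_instance
    exact linearIndependent_empty_type
  by_contra hdep
  obtain ⟨x0, hx0c, hx00, hx0t, hdep0⟩ := lemmaB hI (Pi.single o 1 : σ → K) hv hv0 (by omega)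
    (ι := Fin k ⊕ Fin s) (by simp [hks])
    (Sum.elim (fun i => lin (lam i)) (fun j => A j + X o ^ m * lin (β j)))
    (Sum.elim (fun _ => 1) (fun _ => m + 1)) (by
      rintro (i | j)
      · exact h.lam_mem i
      · exact h.mem j) (by
      rintro (i | j)
      · exact lin_homog _
      · exact (h.homog j).add ((isHomogeneous_X_pow o m).mul (lin_homog (β j)))) x hx hx0 hdep
  rw [Fintype.not_linearIndependent_iff] at hdep0
  obtain ⟨c, hc, hne⟩ := hdep0
  rw [Fintype.sum_sum_type] at hc
  simp only [Sum.elim_inl, Sum.elim_inr, grad_lin] at hc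
  set A' : MvPolynomial σ K := ∑ j, C (c (Sum.inr j)) * A j with hA'
  set β' : σ → K := ∑ j, c (Sum.inr j) • β j with hβ'
  have hsum : A' + X o ^ m * lin β' =
      ∑ j, C (c (Sum.inr j)) * (A j + X o ^ m * lin (β j)) := by
    rw [hA', hβ', lin_sum, Finset.mul_sum, ← Finset.sum_add_distrib]
    refine Finset.sum_congr rfl (fun j _ => ?_)
    rw [lin_smul]
    ring
  apply lemmaA hm hI hv hcut hcard x0 hx0c hx00 hx0t β'
    (Submodule.sum_mem _ (fun j _ => Submodule.smul_mem _ _ (h.β_mem j))) ?_ A' ?_ ?_ ?_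
    (- ∑ i, c (Sum.inl i) • lam i) ?_ ?_
  · intro hβI
    have h1 := h.lam_span β' hβI
    obtain ⟨a, ha⟩ := (Submodule.mem_span_range_iff_exists_fun K).1 h1
    have h2 := Fintype.linearIndependent_iff.1 h.ind (Sum.elim (fun i => - a i)
      (fun j => c (Sum.inr j))) (by
        rw [Fintype.sum_sum_type]
        simp only [Sum.elim_inl, Sum.elim_inr, neg_smul, Finset.sum_neg_distrib]
        rw [ha, hβ', neg_add_cancel])
    have h3 : ∀ j, c (Sum.inr j) = 0 := fun j => h2 (Sum.inr j)
    have h4 : ∑ i, c (Sum.inl i) • lam i = 0 := by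
      rw [← hc]
      simp [h3]
    have h5 := Fintype.linearIndependent_iff.1 h.ind (Sum.elim (fun i => c (Sum.inl i))
      (fun j => 0)) (by
        rw [Fintype.sum_sum_type]
        simp only [Sum.elim_inl, Sum.elim_inr, zero_smul, Finset.sum_const_zero, add_zero]
        exact h4)
    obtain ⟨b, hb⟩ := hne
    rcases b with i | j
    · exact hb (h5 (Sum.inl i))
    · exact hb (h3 j)
  · rw [hA']
    exact Subalgebra.sum_mem _ (fun j _ => Subalgebra.mul_mem _
      (Subalgebra.algebraMap_mem _ (c (Sum.inr j))) (h.sup j))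
  · rw [hA']
    apply IsHomogeneous.sum
    intro j _
    have := (isHomogeneous_C σ (c (Sum.inr j))).mul (h.homog j)
    rwa [zero_add] at this
  · rw [hsum]
    exact I.sum_mem (fun j _ => I.mul_mem_left _ (h.mem j))
  · have h1 : lin (-∑ i, c (Sum.inl i) • lam i) = - ∑ i, C (c (Sum.inl i)) * lin (lam i) := by
      rw [← neg_one_smul K, lin_smul, lin_sum]
      simp only [lin_smul]
      simp
    rw [h1]
    exact I.neg_mem (I.sum_mem (fun i _ => I.mul_mem_left _ (h.lam_mem i)))
  · rw [hsum, grad_sum]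
    have h1 : ∀ j, grad (C (c (Sum.inr j)) * (A j + X o ^ m * lin (β j))) x0 =
        c (Sum.inr j) • grad (A j + X o ^ m * lin (β j)) x0 := fun j => grad_C_mul _ _ _
    rw [Finset.sum_congr rfl (fun j _ => h1 j)]
    exact (eq_neg_of_add_eq_zero_right hc)

end Pool.Agent.J4.H17.CI
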