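import Pool.Agent.J4.H17.CI.C
import Pool.Agent.Helper226.Dim

/-!
# Forms with independent gradients: local generation, minimal primes
-/

set_option autoImplicit false
set_option maxHeartbeats 400000

namespace Pool.Agent.J4.H17.CI

open MvPolynomial Pool.Agent.H929R2.Hart

variable {σ : Type} [Fintype σ] [DecidableEq σ] {K : Type} [Field K]
variable {I : Ideal (MvPolynomial σ K)} {r : ℕ}

attribute [local instance] MvPolynomial.gradedAlgebra

omit [Fintype σ] [DecidableEq σ] in
lemma dec_apply (F : MvPolynomial σ K) (d : ℕ) :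
    ((DirectSum.decompose (homogeneousSubmodule σ K) F d : homogeneousSubmodule σ K d) :
      MvPolynomial σ K) = homogeneousComponent d F :=
  decomposition.decompose'_apply F d

/-- **Local generation.** -/
theorem loc_gen [IsAlgClosed K] [CharZero K] (hI : SCone I r) (x : σ → K) (hx : x ∈ cone I)
    (hx0 : x ≠ 0) (G : Fin r → MvPolynomial σ K) (hG : ∀ i, G i ∈ I)
    (hind : LinearIndependent K (fun i => grad (G i) x)) (F : MvPolynomial σ K) (hF : F ∈ I) :
    ∃ u : MvPolynomial σ K, eval x u ≠ 0 ∧ u * F ∈ Ideal.span (Set.range G) := by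
  classical
  set J := Ideal.span (Set.range G) with hJ
  set J' := J.map (sh x) with hJ'
  have h1 : (Ideal.Quotient.mk J' (sh x F)) ∈
      (⨅ k : ℕ, (idealOfVars σ K) ^ k • (⊤ : Submodule (MvPolynomial σ K) (MvPolynomial σ K ⧸ J'))) := by
    rw [Submodule.mem_iInf]
    intro k
    obtain ⟨a, ha, b, hb, hab⟩ := Submodule.mem_sup.1 (LG hI x hx hx0 G hG hind k F hF)
    have h2 : Ideal.Quotient.mk J' (sh x F) = b • (1 : MvPolynomial σ K ⧸ J') := by
      rw [← hab, map_add, Ideal.Quotient.eq_zero_iff_mem.2 ha, zero_add]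
      show _ = Ideal.Quotient.mk J' (b * 1)
      rw [mul_one]
    rw [h2]
    exact Submodule.smul_mem_smul hb Submodule.mem_top
  obtain ⟨⟨a, ha⟩, h2⟩ := (Ideal.mem_iInf_smul_pow_eq_bot_iff _ _).1 h1
  have h3 : (1 - a) * sh x F ∈ J' := by
    have h2' : Ideal.Quotient.mk J' (a * sh x F) = Ideal.Quotient.mk J' (sh x F) := h2
    rw [← Ideal.Quotient.eq_zero_iff_mem, sub_mul, one_mul, map_sub, h2', sub_self]
  have hinv : ∀ H : MvPolynomial σ K, sh (-x) (sh x H) = H := by
    intro H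
    have := sh_sh (-x) H
    rwa [neg_neg] at this
  refine ⟨sh (-x) (1 - a), ?_, ?_⟩
  · rw [eval_sh, add_neg_cancel, map_sub, map_one, (mem_idealOfVars a).1 ha, sub_zero]
    exact one_ne_zero
  · have h4 : J' ≤ J.comap (sh (-x)) := by
      rw [hJ', Ideal.map_le_iff_le_comap]
      intro H hH
      show sh (-x) (sh x H) ∈ J
      rw [hinv]
      exact hH
    have h5 : sh (-x) ((1 - a) * sh x F) ∈ J := h4 h3
    rwa [map_mul, hinv] at h5

omit [Fintype σ] [DecidableEq σ] in
lemma hom_minimalPrime (J : Ideal (MvPolynomial σ K))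
    (hJ : ∀ F ∈ J, ∀ d, homogeneousComponent d F ∈ J) (p : Ideal (MvPolynomial σ K))
    (hp : p ∈ J.minimalPrimes) : ∀ F ∈ p, ∀ d, homogeneousComponent d F ∈ p := by
  classical
  have hJh : J.IsHomogeneous (homogeneousSubmodule σ K) := by
    intro d F hF
    rw [dec_apply]
    exact hJ F hF d
  have hc : (p.homogeneousCore (homogeneousSubmodule σ K)).toIdeal.IsPrime :=
    Ideal.IsPrime.homogeneousCore hp.1.1
  have hle : J ≤ (p.homogeneousCore (homogeneousSubmodule σ K)).toIdeal := by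
    have h1 := Ideal.homogeneousCore_mono (homogeneousSubmodule σ K) hp.1.2
    rw [← Ideal.IsHomogeneous.toIdeal_homogeneousCore_eq_self hJh]
    exact h1
  have heq := hp.2 ⟨hc, hle⟩ (Ideal.toIdeal_homogeneousCore_le _ p)
  intro F hF d
  have h2 := (p.homogeneousCore (homogeneousSubmodule σ K)).isHomogeneous d (heq hF)
  rw [dec_apply] at h2
  exact Ideal.toIdeal_homogeneousCore_le _ p h2

/-- **Minimal primes.** -/
theorem minimalPrime_ge [IsAlgClosed K] [CharZero K] (hI : SCone I r)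
    (hne : ∃ x ∈ cone I, x ≠ 0) (hcard : 2 * r < Fintype.card σ)
    (G : Fin r → MvPolynomial σ K) (d : Fin r → ℕ) (hG : ∀ i, G i ∈ I)
    (hGh : ∀ i, (G i).IsHomogeneous (d i))
    (hind : ∀ x ∈ cone I, x ≠ 0 → LinearIndependent K (fun i => grad (G i) x))
    (p : Ideal (MvPolynomial σ K)) (hp : p ∈ (Ideal.span (Set.range G)).minimalPrimes) :
    I ≤ p := by
  classical
  have : Infinite K := IsAlgClosed.instInfinite
  set J := Ideal.span (Set.range G) with hJ
  have hJhom : ∀ F ∈ J, ∀ e, homogeneousComponent e F ∈ J := by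
    have h1 : J.IsHomogeneous (homogeneousSubmodule σ K) := by
      apply Ideal.homogeneous_span
      rintro _ ⟨i, rfl⟩
      exact ⟨d i, hGh i⟩
    intro F hF e
    rw [← dec_apply]
    exact h1 e hF
  have hphom := hom_minimalPrime J hJhom p hp
  have hfin := Ideal.finite_minimalPrimes_of_isNoetherianRing (MvPolynomial σ K) J
  have hsep : ∀ q : Ideal (MvPolynomial σ K), ∃ s : MvPolynomial σ K,
      q ∈ J.minimalPrimes → q ≠ p → s ∈ q ∧ s ∉ p := by
    intro q
    by_cases hq : q ∈ J.minimalPrimes ∧ q ≠ p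
    · have hnle : ¬ q ≤ p := fun hle => hq.2 (le_antisymm hle (hp.2 hq.1.1 hle))
      obtain ⟨s, hs, hs'⟩ := SetLike.not_le_iff_exists.1 hnle
      exact ⟨s, fun _ _ => ⟨hs, hs'⟩⟩
    · exact ⟨0, fun h1 h2 => absurd ⟨h1, h2⟩ hq⟩
  choose s hs using hsep
  set S := ∏ q ∈ hfin.toFinset.erase p, s q with hS
  have hSp : S ∉ p := by
    rw [hS, hp.1.1.prod_mem_iff]
    rintro ⟨q, hq, hqp⟩
    rw [Finset.mem_erase, Set.Finite.mem_toFinset] at hq
    exact (hs q hq.2 hq.1).2 hqp
  have hSq : ∀ q ∈ J.minimalPrimes, q ≠ p → S ∈ q := by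
    intro q hq hqp
    rw [hS]
    have hqm : q ∈ hfin.toFinset.erase p := by
      rw [Finset.mem_erase, Set.Finite.mem_toFinset]
      exact ⟨hqp, hq⟩
    rw [← Finset.mul_prod_erase _ _ hqm]
    exact q.mul_mem_right _ (hs q hq hqp).1
  obtain ⟨z, hz, hzS⟩ : ∃ z ∈ cone p, eval z S ≠ 0 := by
    by_contra hcon
    push Not at hcon
    exact hSp (mem_of_vanish p hp.1.1 S hcon)
  obtain ⟨x, hx, hx0⟩ := hne
  have hGp : ∀ i, G i ∈ p := fun i => hp.1.2 (Ideal.subset_span ⟨i, rfl⟩)
  let L : Fin r ⊕ Fin r → MvPolynomial σ K :=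
    Sum.elim (fun i => sh z (G i)) (fun i => sh x (G i))
  obtain ⟨P, y, hinf, hLP⟩ := exists_inf L (by
    rintro (i | i)
    · show eval 0 (sh z (G i)) = 0
      rw [eval_sh, zero_add]; exact hz _ (hGp i)
    · show eval 0 (sh x (G i)) = 0
      rw [eval_sh, zero_add]; exact hx _ (hG i)) (by
    simp only [Fintype.card_sum, Fintype.card_fin]; omega)
  have hallx : ∀ H ∈ I, sh x H ∈ P := hinf.all hI x hx hx0 G hG (hind x hx hx0)
    (fun i => hLP (Sum.inr i))
  have hy : y ∈ cone I := hinf.mem_cone hI x hallx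
  have hPprime := hinf.prime
  have hP' : (P.comap (sh z)).IsPrime := Ideal.comap_isPrime _ _
  have hJP : J ≤ P.comap (sh z) := by
    rw [hJ, Ideal.span_le]
    rintro _ ⟨i, rfl⟩
    exact hLP (Sum.inl i)
  obtain ⟨q, hq, hqP⟩ := Ideal.exists_minimalPrimes_le hJP
  have hqp : q = p := by
    by_contra hne
    apply hzS
    have h1 : sh z S ∈ P := hqP (hSq q hq hne)
    have h2 := (mem_idealOfVars _).1 (hinf.le h1)
    rwa [eval_sh, zero_add] at h2
  subst hqp
  have hyp : ∀ H ∈ q, eval y H = 0 := by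
    intro H hH
    rw [← sum_homogeneousComponent H, map_sum]
    exact Finset.sum_eq_zero (fun e _ => hinf.shom z _ e (homogeneousComponent_isHomogeneous e H)
      (hqP (hphom H hH e)))
  intro F hF
  obtain ⟨u, hu, huF⟩ := loc_gen hI y hy hinf.ne G hG (hind y hy hinf.ne) F hF
  rcases hp.1.1.mem_or_mem (hp.1.2 huF) with h1 | h1
  · exact absurd (hyp u h1) hu
  · exact h1

/-- The forms vanish simultaneously only on the cone. -/
theorem cone_eq [IsAlgClosed K] [CharZero K] (hI : SCone I r)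
    (hne : ∃ x ∈ cone I, x ≠ 0) (hcard : 2 * r < Fintype.card σ)
    (G : Fin r → MvPolynomial σ K) (d : Fin r → ℕ) (hG : ∀ i, G i ∈ I)
    (hGh : ∀ i, (G i).IsHomogeneous (d i))
    (hind : ∀ x ∈ cone I, x ≠ 0 → LinearIndependent K (fun i => grad (G i) x))
    (z : σ → K) (hz : ∀ i, eval z (G i) = 0) : z ∈ cone I := by
  have hker : (RingHom.ker (eval z : MvPolynomial σ K →+* K)).IsPrime := RingHom.ker_isPrime _
  have hJ : Ideal.span (Set.range G) ≤ RingHom.ker (eval z : MvPolynomial σ K →+* K) := by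
    rw [Ideal.span_le]
    rintro _ ⟨i, rfl⟩
    exact hz i
  obtain ⟨p, hp, hple⟩ := Ideal.exists_minimalPrimes_le hJ
  intro F hF
  exact hple (minimalPrime_ge hI hne hcard G d hG hGh hind p hp hF)

end Pool.Agent.J4.H17.CI
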