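import Pool.Agent.J4.H17.CI.D1

/-!
# The dimension of the cone, and linear forms without common zero on it
-/

set_option autoImplicit false
set_option maxHeartbeats 400000

namespace Pool.Agent.J4.H17.CI

open MvPolynomial Pool.Agent.H929R2.Hart

variable {σ : Type} [Fintype σ] [DecidableEq σ] {K : Type} [Field K]
variable {I : Ideal (MvPolynomial σ K)} {r : ℕ}

omit [DecidableEq σ] in
lemma sh_lin (x w : σ → K) : sh x (lin w) = lin w + C (dotB σ K w x) := by
  classical
  rw [lin, map_sum, dotB_apply, map_sum, ← Finset.sum_add_distrib]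
  refine Finset.sum_congr rfl (fun i _ => ?_)
  simp [sh, mul_add]

omit [Fintype σ] [DecidableEq σ] in
lemma sh_inv (x : σ → K) (H : MvPolynomial σ K) : sh (-x) (sh x H) = H := by
  have := sh_sh (-x) H
  rwa [neg_neg] at this

omit [DecidableEq σ] in
/-- Nakayama -/
lemma vars_le_of (q : Ideal (MvPolynomial σ K)) (hq : q.IsPrime) (hqm : q ≤ idealOfVars σ K)
    (hm : idealOfVars σ K ≤ q ⊔ idealOfVars σ K ^ 2) : idealOfVars σ K ≤ q := by
  classical
  have hcomap : Ideal.comap (Ideal.Quotient.mk q) ((idealOfVars σ K).map (Ideal.Quotient.mk q)) =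
      idealOfVars σ K := by
    rw [Ideal.comap_map_of_surjective _ Ideal.Quotient.mk_surjective]
    have h2 : Ideal.comap (Ideal.Quotient.mk q) ⊥ = q := Ideal.mk_ker
    rw [h2, sup_eq_left.2 hqm]
  have hMtop : (idealOfVars σ K).map (Ideal.Quotient.mk q) ≠ ⊤ := by
    intro htop
    rw [htop, Ideal.comap_top] at hcomap
    exact (vars_prime (σ := σ) (K := K)).ne_top hcomap.symm
  have hMM : (idealOfVars σ K).map (Ideal.Quotient.mk q) ≤
      (idealOfVars σ K).map (Ideal.Quotient.mk q) * (idealOfVars σ K).map (Ideal.Quotient.mk q) := by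
    have h1 := Ideal.map_mono (f := Ideal.Quotient.mk q) hm
    rw [Ideal.map_sup, Ideal.map_quotient_self, bot_sup_eq, Ideal.map_pow, pow_two] at h1
    exact h1
  have hid : IsIdempotentElem ((idealOfVars σ K).map (Ideal.Quotient.mk q)) :=
    le_antisymm Ideal.mul_le_left hMM
  have hfg : ((idealOfVars σ K).map (Ideal.Quotient.mk q)).FG :=
    (isNoetherianRing_iff_ideal_fg _).1 inferInstance _
  have hbot := ((Ideal.isIdempotentElem_iff_eq_bot_or_top _ hfg).1 hid).resolve_right hMtop
  rw [hbot] at hcomap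
  have h2 : Ideal.comap (Ideal.Quotient.mk q) ⊥ = q := Ideal.mk_ker
  rw [h2] at hcomap
  exact hcomap.ge

omit [DecidableEq σ] in
lemma vars_le_sup (q : Ideal (MvPolynomial σ K)) (J : Ideal (MvPolynomial σ K))
    (S : Set (σ → K)) (hS : Submodule.span K S = ⊤) (h : ∀ u ∈ S, lin u ∈ q ⊔ J) :
    idealOfVars σ K ≤ q ⊔ J := by
  classical
  have hV : linsub (q ⊔ J) = ⊤ := by
    rw [eq_top_iff, ← hS, Submodule.span_le]
    intro u hu
    exact h u hu
  rw [idealOfVars, Ideal.span_le]
  rintro _ ⟨i, rfl⟩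
  have h1 : (Pi.single i 1 : σ → K) ∈ linsub (q ⊔ J) := by rw [hV]; exact Submodule.mem_top
  rw [mem_linsub, lin_single] at h1
  exact h1

omit [DecidableEq σ] in
/-- a prime ideal between `I` and the maximal ideal of `x`, which contains enough functions -/
lemma maximal_le (x : σ → K) {ι : Type} (G : ι → MvPolynomial σ K) (hGx : ∀ i, eval x (G i) = 0)
    (hspan : Submodule.span K (Set.range (fun i => grad (G i) x)) = ⊤)
    (q : Ideal (MvPolynomial σ K)) (hq : q.IsPrime)
    (hqx : q ≤ RingHom.ker (eval x : MvPolynomial σ K →+* K)) (hGq : ∀ i, G i ∈ q) :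
    RingHom.ker (eval x : MvPolynomial σ K →+* K) ≤ q := by
  classical
  have hq'p : (q.comap (sh (-x))).IsPrime := Ideal.comap_isPrime _ _
  have hq'm : q.comap (sh (-x)) ≤ idealOfVars σ K := by
    intro F hF
    rw [mem_idealOfVars]
    have h1 : sh (-x) F ∈ q := Ideal.mem_comap.1 hF
    have h2 : eval x (sh (-x) F) = 0 := hqx h1
    rwa [eval_sh, add_neg_cancel] at h2
  have hshq : ∀ F ∈ q, sh x F ∈ q.comap (sh (-x)) := by
    intro F hF
    rw [Ideal.mem_comap, sh_inv]
    exact hF
  have hm : idealOfVars σ K ≤ q.comap (sh (-x)) ⊔ idealOfVars σ K ^ 2 := by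
    apply vars_le_sup _ _ _ hspan
    rintro _ ⟨i, rfl⟩
    have h1 := sh_expand x (G i)
    rw [hGx i, map_zero, sub_zero] at h1
    have h2 : lin (grad (G i) x) = sh x (G i) - (sh x (G i) - lin (grad (G i) x)) := by ring
    rw [h2]
    exact Ideal.sub_mem _ (Ideal.mem_sup_left (hshq _ (hGq i))) (Ideal.mem_sup_right h1)
  have hmq := vars_le_of _ hq'p hq'm hm
  intro F hF
  have h1 : sh x F ∈ idealOfVars σ K := by
    rw [mem_idealOfVars, eval_sh, zero_add]
    exact hF
  have h2 : sh (-x) (sh x F) ∈ q := Ideal.mem_comap.1 (hmq h1)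
  rwa [sh_inv] at h2

/-- **Dimension.** -/
theorem dim_le [IsAlgClosed K] (hI : SCone I r) (x : σ → K) (hx : x ∈ cone I) (hx0 : x ≠ 0) :
    ringKrullDim (MvPolynomial σ K ⧸ I) ≤ ((Fintype.card σ - r : ℕ) : WithBot ℕ∞) := by
  classical
  have hIp := hI.prime
  obtain ⟨F, hF, hind, hsp⟩ := exists_grads hI x hx hx0
  obtain ⟨W, hW⟩ := Submodule.exists_isCompl (conormal I x)
  have hfin := Submodule.finrank_add_eq_of_isCompl hW
  rw [hI.rank x hx hx0, Module.finrank_fintype_fun_eq_card] at hfin
  let b := Module.finBasisOfFinrankEq K W (n := Fintype.card σ - r) (by omega)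
  let G : Fin r ⊕ Fin (Fintype.card σ - r) → MvPolynomial σ K :=
    Sum.elim F (fun j => lin (b j : σ → K) - C (dotB σ K (b j : σ → K) x))
  have hGx : ∀ i, eval x (G i) = 0 := by
    rintro (i | j)
    · exact hx _ (hF i)
    · show eval x (lin (b j : σ → K) - C (dotB σ K (b j : σ → K) x)) = 0
      rw [map_sub, eval_lin, eval_C, sub_self]
  have hgC : ∀ u : σ → K, ∀ c : K, grad (lin u - C c) x = u := by
    intro u c
    have h1 := grad_lin u x
    funext i
    have h2 := congrFun h1 i
    simp only [grad, map_sub, pderiv_C, map_zero, sub_zero] at h2 ⊢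
    exact h2
  have hspan : Submodule.span K (Set.range (fun i => grad (G i) x)) = ⊤ := by
    rw [eq_top_iff, ← hW.sup_eq_top, sup_le_iff]
    constructor
    · intro ξ hξ
      obtain ⟨c, hc⟩ := hsp ξ hξ
      rw [hc]
      exact Submodule.sum_mem _ (fun i _ => Submodule.smul_mem _ _
        (Submodule.subset_span ⟨Sum.inl i, rfl⟩))
    · intro ξ hξ
      have h1 := congrArg Subtype.val (b.sum_repr ⟨ξ, hξ⟩)
      simp only [Submodule.coe_sum, Submodule.coe_smul] at h1
      rw [← h1]
      refine Submodule.sum_mem _ (fun i _ => Submodule.smul_mem _ _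
        (Submodule.subset_span ⟨Sum.inr i, ?_⟩))
      exact hgC _ _
  have hmax : (RingHom.ker (eval x : MvPolynomial σ K →+* K)).IsMaximal :=
    RingHom.ker_isMaximal_of_surjective _ (fun c => ⟨C c, eval_C c⟩)
  set Mx := RingHom.ker (eval x : MvPolynomial σ K →+* K) with hMx
  have hIMx : I ≤ Mx := fun H hH => hx H hH
  set π := Ideal.Quotient.mk I with hπ
  set M := Mx.map π with hM
  have hcomap : M.comap π = Mx := by
    rw [hM, Ideal.comap_map_of_surjective π Ideal.Quotient.mk_surjective]
    have h2 : Ideal.comap π ⊥ = I := Ideal.mk_ker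
    rw [h2, sup_eq_left.2 hIMx]
  have hMmax : M.IsMaximal := by
    have h1 := Ideal.map_eq_top_or_isMaximal_of_surjective π Ideal.Quotient.mk_surjective hmax
    rcases h1 with h1 | h1
    · exfalso
      rw [← hM] at h1
      rw [h1, Ideal.comap_top] at hcomap
      exact hmax.ne_top hcomap.symm
    · exact h1
  let S : Set (MvPolynomial σ K ⧸ I) :=
    Set.range (fun j : Fin (Fintype.card σ - r) => π (G (Sum.inr j)))
  have hmin : M ∈ (Ideal.span S).minimalPrimes := by
    refine ⟨⟨hMmax.isPrime, ?_⟩, ?_⟩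
    · rw [Ideal.span_le]
      rintro _ ⟨j, rfl⟩
      exact Ideal.mem_map_of_mem _ (hGx (Sum.inr j))
    · rintro Q ⟨hQp, hQS⟩ hQM
      have hq : (Q.comap π).IsPrime := Ideal.comap_isPrime _ _
      have hqx : Q.comap π ≤ Mx := by
        rw [← hcomap]
        exact Ideal.comap_mono hQM
      have hGq : ∀ i, G i ∈ Q.comap π := by
        rintro (i | j)
        · show π (F i) ∈ Q
          rw [Ideal.Quotient.eq_zero_iff_mem.2 (hF i)]
          exact Q.zero_mem
        · exact hQS (Ideal.subset_span ⟨j, rfl⟩)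
      have h1 := maximal_le x G hGx hspan _ hq hqx hGq
      rw [hM, Ideal.map_le_iff_le_comap]
      exact h1
  have h1 := Ideal.height_le_card_of_mem_minimalPrimes_span (Set.finite_range _) hmin
  have h2 : S.ncard ≤ Fintype.card σ - r := by
    have h3 := Set.ncard_image_le (s := (Set.univ : Set (Fin (Fintype.card σ - r))))
      (f := fun j => π (G (Sum.inr j)))
    rw [Set.image_univ, Set.ncard_univ] at h3
    simpa using h3
  rw [← Pool.Agent.Helper226.height_eq_ringKrullDim K _ M hMmax]
  have h3 : M.height ≤ ((Fintype.card σ - r : ℕ) : ℕ∞) :=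
    h1.trans (by exact_mod_cast h2)
  exact WithBot.coe_le_coe.2 h3

/-- linear forms which cut down the dimension of all components -/
theorem exists_cut [Infinite K] (D : ℕ) (hI : I.IsPrime)
    (hD : ringKrullDim (MvPolynomial σ K ⧸ I) ≤ (D : WithBot ℕ∞)) (i : ℕ) :
    ∃ l : Fin i → σ → K, ∀ q : Ideal (MvPolynomial σ K), q.IsPrime → I ≤ q →
      (∀ j, lin (l j) ∈ q) → idealOfVars σ K ≤ q ∨
        ringKrullDim (MvPolynomial σ K ⧸ q) + (i : WithBot ℕ∞) ≤ (D : WithBot ℕ∞) := by
  classical
  induction i with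
  | zero =>
    refine ⟨fun j => j.elim0, fun q hq hIq _ => Or.inr ?_⟩
    have h1 := ringKrullDim_le_of_surjective (Ideal.Quotient.factor hIq)
      (Ideal.Quotient.factor_surjective hIq)
    rw [Nat.cast_zero, add_zero]
    exact h1.trans hD
  | succ i ih =>
    obtain ⟨l, hl⟩ := ih
    set J : Ideal (MvPolynomial σ K) := I ⊔ Ideal.span (Set.range (fun j => lin (l j))) with hJ
    have hfin := Ideal.finite_minimalPrimes_of_isNoetherianRing (MvPolynomial σ K) J
    set S : Finset (Submodule K (σ → K)) :=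
      (hfin.toFinset.filter (fun p => ¬ idealOfVars σ K ≤ p)).image linsub with hS
    have hStop : ⊤ ∉ S := by
      intro htop
      rw [hS, Finset.mem_image] at htop
      obtain ⟨p, hp, hpt⟩ := htop
      rw [Finset.mem_filter] at hp
      apply hp.2
      rw [idealOfVars, Ideal.span_le]
      rintro _ ⟨a, rfl⟩
      have h1 : (Pi.single a 1 : σ → K) ∈ linsub p := by rw [hpt]; exact Submodule.mem_top
      have h2 : lin (Pi.single a 1 : σ → K) ∈ p := h1
      rwa [lin_single] at h2
    have hne := Subspace.biUnion_ne_univ_of_top_notMem hStop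
    obtain ⟨u, hu⟩ := (Set.ne_univ_iff_exists_notMem _).1 hne
    refine ⟨Fin.snoc l u, fun q hq hIq hlq => ?_⟩
    have hJq : J ≤ q := by
      rw [hJ, sup_le_iff]
      refine ⟨hIq, ?_⟩
      rw [Ideal.span_le]
      rintro _ ⟨j, rfl⟩
      have := hlq j.castSucc
      rwa [Fin.snoc_castSucc] at this
    have huq : lin u ∈ q := by
      have := hlq (Fin.last i)
      rwa [Fin.snoc_last] at this
    obtain ⟨p, hp, hpq⟩ := Ideal.exists_minimalPrimes_le hJq
    by_cases hmp : idealOfVars σ K ≤ p
    · exact Or.inl (hmp.trans hpq)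
    · right
      have hup : lin u ∉ p := by
        intro h
        apply hu
        simp only [Set.mem_iUnion]
        refine ⟨linsub p, ?_, h⟩
        rw [hS, Finset.mem_image]
        exact ⟨p, by rw [Finset.mem_filter, Set.Finite.mem_toFinset]; exact ⟨hp, hmp⟩, rfl⟩
      have hpl := (hl p hp.1.1 (le_sup_left.trans hp.1.2) (fun j => hp.1.2
        (Ideal.mem_sup_right (Ideal.subset_span ⟨j, rfl⟩)))).resolve_left hmp
      have hpp := hp.1.1
      have h1 : ringKrullDim (MvPolynomial σ K ⧸ q) + 1 ≤ ringKrullDim (MvPolynomial σ K ⧸ p) := by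
        apply ringKrullDim_succ_le_of_surjective (Ideal.Quotient.factor hpq)
          (Ideal.Quotient.factor_surjective hpq) (r := Ideal.Quotient.mk p (lin u))
        · rw [mem_nonZeroDivisors_iff_ne_zero]
          intro h
          exact hup (Ideal.Quotient.eq_zero_iff_mem.1 h)
        · rw [Ideal.Quotient.factor_mk]
          exact Ideal.Quotient.eq_zero_iff_mem.2 huq
      calc ringKrullDim (MvPolynomial σ K ⧸ q) + ((i + 1 : ℕ) : WithBot ℕ∞)
          = (ringKrullDim (MvPolynomial σ K ⧸ q) + 1) + (i : WithBot ℕ∞) := by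
            push_cast
            rw [add_assoc, add_comm (1 : WithBot ℕ∞)]
        _ ≤ ringKrullDim (MvPolynomial σ K ⧸ p) + (i : WithBot ℕ∞) := by gcongr
        _ ≤ D := hpl

/-- **Linear forms without common zeros on the cone.** -/
theorem exists_lin_zero [Infinite K] (D : ℕ) (hI : I.IsPrime)
    (hom : ∀ F ∈ I, ∀ d, homogeneousComponent d F ∈ I)
    (hD : ringKrullDim (MvPolynomial σ K ⧸ I) ≤ (D : WithBot ℕ∞)) :
    ∃ l : Fin D → σ → K, ∀ x ∈ cone I, (∀ j, dotB σ K (l j) x = 0) → x = 0 := by
  classical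
  obtain ⟨l, hl⟩ := exists_cut D hI hD D
  refine ⟨l, fun x hx hlx => ?_⟩
  by_contra hx0
  obtain ⟨a, ha⟩ := Function.ne_iff.1 hx0
  let φ : MvPolynomial σ K →ₐ[K] Polynomial K :=
    aeval (fun i => Polynomial.X * Polynomial.C (x i))
  have hφ : ∀ F t, (φ F).eval t = eval (t • x) F := by
    intro F t
    have : (Polynomial.evalRingHom t).comp (φ : MvPolynomial σ K →+* Polynomial K) =
        eval (t • x) := by
      apply MvPolynomial.ringHom_ext
      · intro c; simp [φ]
      · intro i
        simp [φ]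
        exact mul_comm _ _
    exact RingHom.congr_fun this F
  set q := RingHom.ker (φ : MvPolynomial σ K →+* Polynomial K) with hq
  have hqp : q.IsPrime := RingHom.ker_isPrime _
  have hIq : I ≤ q := by
    intro F hF
    rw [hq, RingHom.mem_ker]
    apply Polynomial.funext
    intro t
    have h1 : (φ F).eval t = 0 := by
      rw [hφ]
      exact cone_smul I hom t x hx F hF
    simpa using h1
  have hlq : ∀ j, lin (l j) ∈ q := by
    intro j
    rw [hq, RingHom.mem_ker]
    apply Polynomial.funext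
    intro t
    have h1 : (φ (lin (l j))).eval t = 0 := by
      rw [hφ, eval_lin, map_smul, hlx j, smul_zero]
    simpa using h1
  have haq : X a ∉ q := by
    intro h
    rw [hq, RingHom.mem_ker] at h
    have h1 : (φ (X a)).eval 1 = 0 := by
      have : φ (X a) = 0 := h
      rw [this, Polynomial.eval_zero]
    rw [hφ, one_smul, eval_X] at h1
    exact ha h1
  have hqm : q ≤ idealOfVars σ K := by
    intro F hF
    rw [mem_idealOfVars]
    have h0 : φ F = 0 := hF
    have h1 : (φ F).eval 0 = 0 := by rw [h0, Polynomial.eval_zero]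
    rwa [hφ, zero_smul] at h1
  rcases hl q hqp hIq hlq with h | h
  · exact haq (h (Ideal.subset_span ⟨a, rfl⟩))
  · have hmp := vars_prime (σ := σ) (K := K)
    have h1 : ringKrullDim (MvPolynomial σ K ⧸ idealOfVars σ K) + 1 ≤
        ringKrullDim (MvPolynomial σ K ⧸ q) := by
      apply ringKrullDim_succ_le_of_surjective (Ideal.Quotient.factor hqm)
        (Ideal.Quotient.factor_surjective hqm) (r := Ideal.Quotient.mk q (X a))
      · rw [mem_nonZeroDivisors_iff_ne_zero]
        intro h
        exact haq (Ideal.Quotient.eq_zero_iff_mem.1 h)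
      · rw [Ideal.Quotient.factor_mk]
        exact Ideal.Quotient.eq_zero_iff_mem.2 (Ideal.subset_span ⟨a, rfl⟩)
    have h2 : (0 : WithBot ℕ∞) ≤ ringKrullDim (MvPolynomial σ K ⧸ idealOfVars σ K) :=
      ringKrullDim_nonneg_of_nontrivial
    have h3 : (1 : WithBot ℕ∞) ≤ ringKrullDim (MvPolynomial σ K ⧸ q) := by
      calc (1 : WithBot ℕ∞) = 0 + 1 := by rw [zero_add]
        _ ≤ ringKrullDim (MvPolynomial σ K ⧸ idealOfVars σ K) + 1 := by gcongr
        _ ≤ _ := h1
    have h4 : (1 : WithBot ℕ∞) + (D : WithBot ℕ∞) ≤ (D : WithBot ℕ∞) := by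
      refine le_trans ?_ h
      gcongr
    have h5 : (((1 + D : ℕ) : ℕ∞) : WithBot ℕ∞) ≤ ((D : ℕ∞) : WithBot ℕ∞) := by
      push_cast
      exact h4
    have h6 : (1 + D : ℕ) ≤ D := by exact_mod_cast h5
    omega

end Pool.Agent.J4.H17.CI
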