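import Pool.Agent.J4.H17.CI.D2
import Pool.Agent.Y204.LF.Unmixed
import Pool.Agent.TH130.CI.Cz

/-!
# Forms with independent gradients generate the ideal
-/

set_option autoImplicit false
set_option maxHeartbeats 400000

namespace Pool.Agent.J4.H17.CI

open MvPolynomial Pool.Agent.H929R2.Hart

variable {n : ℕ} {K : Type} [Field K]
variable {I : Ideal (MvPolynomial (Fin n) K)} {r : ℕ}

/-- positive depth of a regular sequence shorter than the number of variables -/
lemma depth_of_reg [Infinite K] (hrn : r < n) {G : Fin r → MvPolynomial (Fin n) K} {d : Fin r → ℕ}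
    (hd : ∀ i, 1 ≤ d i) (hGh : ∀ i, (G i).IsHomogeneous (d i)) (hreg : H503R3.QCI.Reg G)
    (w : MvPolynomial (Fin n) K) (hw : ∀ i, X i * w ∈ Ideal.span (Set.range G)) :
    w ∈ Ideal.span (Set.range G) :=
  TH130CI.no_socle hrn _ G d hGh hd (TH130CI.sreg_of_reg hGh hd hreg) rfl w hw

/-- the forms are a regular sequence -/
theorem reg_of_indep [IsAlgClosed K] [CharZero K] (hI : SCone I r)
    (hne : ∃ x ∈ cone I, x ≠ 0) (hcard : 2 * r < n)
    (G : Fin r → MvPolynomial (Fin n) K) (d : Fin r → ℕ) (hd : ∀ i, 1 ≤ d i) (hG : ∀ i, G i ∈ I)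
    (hGh : ∀ i, (G i).IsHomogeneous (d i))
    (hind : ∀ x ∈ cone I, x ≠ 0 → LinearIndependent K (fun i => grad (G i) x)) :
    H503R3.QCI.Reg G := by
  classical
  have : Infinite K := IsAlgClosed.instInfinite
  obtain ⟨x0, hx0, hx00⟩ := hne
  have hdim := dim_le hI x0 hx0 hx00
  rw [Fintype.card_fin] at hdim
  obtain ⟨l, hl⟩ := exists_lin_zero (n - r) hI.prime hI.homog hdim
  let f : Fin n → MvPolynomial (Fin n) K := fun i =>
    if h : i.1 < r then G ⟨i.1, h⟩ else lin (l ⟨i.1 - r, by omega⟩)
  let e : Fin n → ℕ := fun i => if h : i.1 < r then d ⟨i.1, h⟩ else 1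
  have hfG : ∀ i : Fin r, f (Fin.castLE (by omega) i) = G i := by
    intro i
    simp [f]
  have hfl : ∀ j : Fin (n - r), f ⟨r + j.1, by omega⟩ = lin (l j) := by
    intro j
    simp [f]
  have hreg := TH130CI.reg_of_common_zero f e (by
    intro i
    simp only [e]
    split_ifs with h
    · exact hd _
    · exact one_pos) (by
    intro i
    simp only [e, f]
    split_ifs with h
    · exact hGh _
    · exact lin_homog _) (by
    intro x hx
    apply hl x
    · apply cone_eq hI ⟨x0, hx0, hx00⟩ (by rw [Fintype.card_fin]; exact hcard) G d hG hGh hind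
      intro i
      rw [← hfG]
      exact hx _
    · intro j
      rw [← eval_lin, ← hfl]
      exact hx _)
  have h1 := Pool.Agent.Y204.LF.reg_prefix (m := r) (k := n) (by omega) hreg
  have h2 : (fun i : Fin r => f (Fin.castLE (by omega) i)) = G := funext hfG
  rwa [h2] at h1

/-- **Complete intersections.** -/
theorem ci_of_indep [IsAlgClosed K] [CharZero K] (hI : SCone I r)
    (hne : ∃ x ∈ cone I, x ≠ 0) (hcard : 2 * r < n)
    (G : Fin r → MvPolynomial (Fin n) K) (d : Fin r → ℕ) (hd : ∀ i, 1 ≤ d i) (hG : ∀ i, G i ∈ I)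
    (hGh : ∀ i, (G i).IsHomogeneous (d i))
    (hind : ∀ x ∈ cone I, x ≠ 0 → LinearIndependent K (fun i => grad (G i) x)) :
    I = Ideal.span (Set.range G) := by
  classical
  have : Infinite K := IsAlgClosed.instInfinite
  have hreg := reg_of_indep hI hne hcard G d hd hG hGh hind
  have hdep := depth_of_reg (by omega) hd hGh hreg
  set J := Ideal.span (Set.range G) with hJ
  apply le_antisymm
  · intro F hF
    let 𝔞 : Ideal (MvPolynomial (Fin n) K) :=
      Submodule.comap (LinearMap.toSpanSingleton (MvPolynomial (Fin n) K)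
        (MvPolynomial (Fin n) K) F) J
    have hmem : ∀ u, u ∈ 𝔞 ↔ u * F ∈ J := fun u => Iff.rfl
    have hrad : idealOfVars (Fin n) K ≤ 𝔞.radical := by
      rw [idealOfVars, Ideal.span_le]
      rintro _ ⟨i, rfl⟩
      rw [SetLike.mem_coe, ← MvPolynomial.vanishingIdeal_zeroLocus_eq_radical (K := K),
        mem_vanishingIdeal_iff]
      intro x hx
      rw [mem_zeroLocus_iff] at hx
      have hxc : x ∈ cone I := by
        apply cone_eq hI hne (by rw [Fintype.card_fin]; exact hcard) G d hG hGh hind
        intro i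
        have h1 : G i ∈ 𝔞 := by
          rw [hmem]
          exact J.mul_mem_right _ (Ideal.subset_span ⟨i, rfl⟩)
        have := hx _ h1
        rwa [aeval_eq_eval] at this
      have hx0 : x = 0 := by
        by_contra hx0
        obtain ⟨u, hu, huF⟩ := loc_gen hI x hxc hx0 G hG (hind x hxc hx0) F hF
        apply hu
        have := hx u huF
        rwa [aeval_eq_eval] at this
      rw [hx0]
      simp
    obtain ⟨a, ha⟩ := Ideal.exists_pow_le_of_le_radical_of_fg hrad
      ((isNoetherianRing_iff_ideal_fg _).1 inferInstance _)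
    apply Pool.Agent.Y204.LF.mem_of_forms (Q := J) hdep a
    intro h hh
    apply (hmem h).1
    apply ha
    rw [mem_pow_idealOfVars_iff]
    intro x hx
    have := hh (mem_support_iff.1 hx)
    have h3 : Finsupp.degree x = a :=
      (congrFun (congrArg DFunLike.coe Finsupp.degree_eq_weight_one) x).trans this
    exact h3.ge
  · rw [hJ, Ideal.span_le]
    rintro _ ⟨i, rfl⟩
    exact hG i

end Pool.Agent.J4.H17.CI
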