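import Pool.Agent.J4.H17.CI.D3

/-!
# Transversal points on the components of special linear sections
-/

set_option autoImplicit false
set_option maxHeartbeats 400000

namespace Pool.Agent.J4.H17.CI

open MvPolynomial Pool.Agent.H929R2.Hart

variable {σ : Type} [Fintype σ] [DecidableEq σ] {K : Type} [Field K]
variable {I : Ideal (MvPolynomial σ K)} {r : ℕ}

/-- `Q` is a prime ideal which contains `I` and the linear forms `l i`, and the only minimal one
which does not contain `S`. -/
structure Comp (I : Ideal (MvPolynomial σ K)) {q : ℕ} (l : Fin q → σ → K)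
    (Q : Ideal (MvPolynomial σ K)) (S : MvPolynomial σ K) : Prop where
  prime : Q.IsPrime
  le : I ≤ Q
  lin : ∀ i, lin (l i) ∈ Q
  ne : ¬ idealOfVars σ K ≤ Q
  notMem : S ∉ Q
  sep : ∀ Q' : Ideal (MvPolynomial σ K), Q'.IsPrime → I ≤ Q' → (∀ i, H929R2.Hart.lin (l i) ∈ Q') →
    S ∉ Q' → Q ≤ Q'

theorem gen_step [IsAlgClosed K] [CharZero K] (hI : SCone I r)
    {k q : ℕ} (l : Fin q → σ → K) {Q : Ideal (MvPolynomial σ K)} {S : MvPolynomial σ K}
    (hQ : Comp I l Q S)
    (x : σ → K) (hx : x ∈ cone Q) (hx0 : x ≠ 0) (hxS : eval x S ≠ 0)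
    (e0 : σ → K) (e : Fin k → σ → K)
    (he : LinearIndependent K (Fin.cons e0 e : Fin (k + 1) → σ → K))
    (heI : ∀ u ∈ Submodule.span K (Set.range (Fin.cons e0 e : Fin (k + 1) → σ → K)),
      lin u ∈ I → u = 0)
    (hgen : ∀ ξ ∈ conormal I x, ξ ∈ Submodule.span K (Set.range e) → ξ = 0)
    (hcard : 2 * r + q + k < Fintype.card σ)
    (hbad : ∀ z ∈ cone Q, z ≠ 0 → eval z S ≠ 0 →
      ∃ ξ ∈ conormal I z, ξ ≠ 0 ∧ ∃ (α : K) (β : Fin k → K), ξ = α • e0 + ∑ i, β i • e i) :
    False := by
  classical
  have : Infinite K := IsAlgClosed.instInfinite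
  have hQI : ∀ z ∈ cone Q, z ∈ cone I := fun z hz F hF => hz F (hQ.le hF)
  have hxI := hQI x hx
  obtain ⟨F, hF, hind, -⟩ := exists_grads hI x hxI hx0
  -- columns
  let a : Fin k ⊕ Fin r → σ → MvPolynomial σ K :=
    Sum.elim (fun i s => C (e i s)) (fun j s => pderiv s (F j))
  let av : (σ → K) → Fin k ⊕ Fin r → σ → K := fun z => Sum.elim e (fun j => grad (F j) z)
  have hav : ∀ z b s, eval z (a b s) = av z b s := by
    intro z b s
    rcases b with i | j
    · simp [a, av]
    · rfl
  have he' : LinearIndependent K e := (linearIndependent_finCons.1 he).1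
  have hindx : LinearIndependent K (av x) := by
    apply LinearIndependent.sum_type he' hind
    rw [Submodule.disjoint_def]
    intro ξ h1 h2
    apply hgen ξ _ h1
    refine (Submodule.span_le.2 ?_) h2
    rintro _ ⟨j, rfl⟩
    exact grad_mem I x (hF j)
  obtain ⟨W, hW⟩ := exists_dual _ hindx
  let Mp : Matrix (Fin k ⊕ Fin r) (Fin k ⊕ Fin r) (MvPolynomial σ K) :=
    fun b b' => ∑ s, a b' s * C (W b s)
  let Mz : (σ → K) → Matrix (Fin k ⊕ Fin r) (Fin k ⊕ Fin r) K :=
    fun z b b' => dotB σ K (av z b') (W b)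
  have hMz : ∀ z, (eval z).mapMatrix Mp = Mz z := by
    intro z
    ext b b'
    simp only [RingHom.mapMatrix_apply, Matrix.map_apply, Mp, Mz, map_sum, map_mul, eval_C, hav,
      dotB_apply]
  have hMx : Mz x = 1 := by
    ext b b'
    simp only [Mz]
    rw [hW, Matrix.one_apply]
    by_cases hbb : b = b'
    · rw [if_pos hbb, if_pos hbb.symm]
    · rw [if_neg hbb, if_neg (fun h => hbb h.symm)]
  set Δ := Mp.det with hΔdef
  have hΔ : ∀ z, eval z Δ = (Mz z).det := by
    intro z
    rw [← hMz, ← RingHom.map_det]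
  set c : Fin k ⊕ Fin r → K := fun b => dotB σ K e0 (W b) with hc
  set lam : Fin k ⊕ Fin r → MvPolynomial σ K := Mp.adjugate.mulVec (fun b => C (c b)) with hlamdef
  have hlam : ∀ z b, eval z (lam b) = ((Mz z).adjugate.mulVec c) b := by
    intro z b
    rw [← hMz, ← RingHom.map_adjugate]
    simp only [lam, Matrix.mulVec, dotProduct, map_sum, map_mul, eval_C, RingHom.mapMatrix_apply,
      Matrix.map_apply]
  set h : Fin k → MvPolynomial σ K := fun i => lam (Sum.inl i) - C (c (Sum.inl i)) * Δ with hhdef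
  have hΔx : eval x Δ = 1 := by rw [hΔ, hMx, Matrix.det_one]
  have hh : ∀ i, eval x (h i) = 0 := by
    intro i
    simp only [h, map_sub, map_mul, eval_C, hlam, hΔx, hMx, Matrix.adjugate_one,
      Matrix.one_mulVec]
    ring
  set u0 : σ → K := e0 - ∑ i, c (Sum.inl i) • e i with hu0
  have hu0mem : u0 ∈ Submodule.span K (Set.range (Fin.cons e0 e : Fin (k + 1) → σ → K)) := by
    apply Submodule.sub_mem
    · exact Submodule.subset_span ⟨0, rfl⟩
    · refine Submodule.sum_mem _ (fun i _ => Submodule.smul_mem _ _ (Submodule.subset_span ⟨i.succ, ?_⟩))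
      exact Fin.cons_succ _ _ _
  have hu00 : u0 ≠ 0 := by
    intro h0
    apply (linearIndependent_finCons.1 he).2
    rw [sub_eq_zero.1 h0]
    exact Submodule.sum_mem _ (fun i _ => Submodule.smul_mem _ _ (Submodule.subset_span ⟨i, rfl⟩))
  have key : ∀ z ∈ cone Q, z ≠ 0 → eval z S ≠ 0 → (∀ i, eval z (h i) = 0) →
      eval z Δ ≠ 0 → u0 ∈ conormal I z := by
    intro z hz hz0 hzS hzh hzΔ
    rw [hΔ] at hzΔ
    have hindz : LinearIndependent K (av z) := ind_of_det _ W hzΔ
    have hindF : LinearIndependent K (fun j => grad (F j) z) :=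
      hindz.comp Sum.inr Sum.inr_injective
    obtain ⟨ξ, hξ, hξ0, α, β, hξe⟩ := hbad z hz hz0 hzS
    obtain ⟨b, hb⟩ := grads_span hI z (hQI z hz) hz0 F hF hindF ξ hξ
    rw [uu_apply] at hb
    have hα : α ≠ 0 := by
      intro h0
      apply hξ0
      have h1 : ∑ t, (Sum.elim β (fun j => - b j) : Fin k ⊕ Fin r → K) t • av z t = 0 := by
        rw [Fintype.sum_sum_type]
        simp only [Sum.elim_inl, Sum.elim_inr, av, neg_smul, Finset.sum_neg_distrib]
        rw [hb, hξe, h0, zero_smul, zero_add, add_neg_cancel]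
      have h2 := Fintype.linearIndependent_iff.1 hindz _ h1
      rw [← hb]
      refine Finset.sum_eq_zero (fun j _ => ?_)
      have h3 := h2 (Sum.inr j)
      simp only [Sum.elim_inr, neg_eq_zero] at h3
      rw [h3, zero_smul]
    set μ : Fin k ⊕ Fin r → K := Sum.elim (fun i => -(α⁻¹ * β i)) (fun j => α⁻¹ * b j) with hμdef
    have hμ : ∑ t, μ t • av z t = e0 := by
      have h1 : e0 = α⁻¹ • ξ - ∑ i, (α⁻¹ * β i) • e i := by
        have h2 : ∑ i, (α⁻¹ * β i) • e i = α⁻¹ • ∑ i, β i • e i := by
          rw [Finset.smul_sum]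
          exact Finset.sum_congr rfl (fun i _ => (smul_smul _ _ _).symm)
        rw [h2, hξe, smul_add, smul_smul, inv_mul_cancel₀ hα, one_smul, add_sub_cancel_right]
      rw [Fintype.sum_sum_type, h1, ← hb, Finset.smul_sum]
      simp only [μ, Sum.elim_inl, Sum.elim_inr, av, neg_smul, Finset.sum_neg_distrib, smul_smul]
      abel
    have h3 : (Mz z).adjugate.mulVec c = (Mz z).det • μ := adj_formula (av z) W μ e0 hμ _ rfl
    have h4 : ∀ i, μ (Sum.inl i) = c (Sum.inl i) := by
      intro i
      have h5 := hzh i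
      simp only [h, map_sub, map_mul, eval_C, hlam, hΔ, h3, Pi.smul_apply, smul_eq_mul] at h5
      have h6 : (Mz z).det * (μ (Sum.inl i) - c (Sum.inl i)) = 0 := by rw [← h5]; ring
      exact sub_eq_zero.1 ((mul_eq_zero.1 h6).resolve_left hzΔ)
    have h5 : u0 = ∑ j, μ (Sum.inr j) • grad (F j) z := by
      have h6 : ∑ t, μ t • av z t = ∑ i, c (Sum.inl i) • e i +
          ∑ j, μ (Sum.inr j) • grad (F j) z := by
        rw [Fintype.sum_sum_type]
        congr 1
        exact Finset.sum_congr rfl (fun i _ => by rw [h4 i]; rfl)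
      rw [hu0, ← hμ, h6, add_sub_cancel_left]
    rw [h5]
    exact Submodule.sum_mem _ (fun j _ => Submodule.smul_mem _ _ (grad_mem I z (hF j)))
  have hux : u0 ∈ conormal I x := key x hx hx0 hxS hh (by rw [hΔx]; exact one_ne_zero)
  have hu0x : dotB σ K u0 x = 0 := tangent_conormal I x hux (self_tangent hI x hxI)
  obtain ⟨p, hp, hup⟩ : ∃ p ∈ cone I, dotB σ K u0 p ≠ 0 := by
    by_contra hcon
    push Not at hcon
    apply hu00
    apply heI u0 hu0mem
    apply mem_of_vanish I hI.prime
    intro z hz
    rw [eval_lin]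
    exact hcon z hz
  have hp0 : p ≠ 0 := by
    rintro rfl
    exact hup (map_zero _)
  obtain ⟨F', hF', hind', -⟩ := exists_grads hI p hp hp0
  have hlx : ∀ i, dotB σ K (l i) x = 0 := by
    intro i
    rw [← eval_lin]
    exact hx _ (hQ.lin i)
  let G : ((Fin r ⊕ Fin r) ⊕ Fin q) ⊕ Fin k → MvPolynomial σ K :=
    Sum.elim (Sum.elim (Sum.elim (fun i => sh x (F i)) (fun i => sh p (F' i)))
      (fun i => lin (l i))) (fun i => sh x (h i))
  obtain ⟨P, y, hinf, hGP⟩ := exists_inf G (by
    rintro (((i | i) | i) | i)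
    · show eval 0 (sh x (F i)) = 0
      rw [eval_sh, zero_add]
      exact hxI _ (hF i)
    · show eval 0 (sh p (F' i)) = 0
      rw [eval_sh, zero_add]
      exact hp _ (hF' i)
    · show eval 0 (lin (l i)) = 0
      rw [eval_lin, map_zero]
    · show eval 0 (sh x (h i)) = 0
      rw [eval_sh, zero_add]
      exact hh i) (by
    simp only [Fintype.card_sum, Fintype.card_fin]; omega)
  have hallx : ∀ H ∈ I, sh x H ∈ P := hinf.all hI x hxI hx0 F hF hind
    (fun i => hGP (Sum.inl (Sum.inl (Sum.inl i))))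
  have hallp : ∀ H ∈ I, sh p H ∈ P := hinf.all hI p hp hp0 F' hF' hind'
    (fun i => hGP (Sum.inl (Sum.inl (Sum.inr i))))
  have hlP : ∀ i, sh x (lin (l i)) ∈ P := by
    intro i
    rw [sh_lin, hlx i, map_zero, add_zero]
    exact hGP (Sum.inl (Sum.inr i))
  have hQP : Q ≤ P.comap (sh x) := by
    have hPprime := hinf.prime
    apply hQ.sep _ (Ideal.comap_isPrime _ _) (fun H hH => hallx H hH) hlP
    intro hS
    apply hxS
    have h1 : sh x S ∈ P := hS
    have h2 := (mem_idealOfVars _).1 (hinf.le h1)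
    rwa [eval_sh, zero_add] at h2
  have hy : y ∈ cone I := hinf.mem_cone hI x hallx
  have hy0 := hinf.ne
  have hyt := hinf.tangent hI x p hallx hallp
  have huy : u0 ∈ conormal I y := by
    by_contra hcon
    obtain ⟨H, d, hH, hHd, hHind⟩ := exists_hframe hI y hy hy0
    let a' : Fin (r + 1) → σ → MvPolynomial σ K :=
      Fin.cons (fun s => C (u0 s)) (fun j s => pderiv s (H j))
    let av' : (σ → K) → Fin (r + 1) → σ → K := fun z => Fin.cons u0 (fun j => grad (H j) z)
    have hav' : ∀ z b s, eval z (a' b s) = av' z b s := by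
      intro z b s
      refine Fin.cases ?_ (fun j => ?_) b
      · simp [a', av']
      · rfl
    have hindy : LinearIndependent K (av' y) := by
      apply linearIndependent_finCons.2
      refine ⟨hHind, fun hmem => hcon ?_⟩
      refine (Submodule.span_le.2 ?_) hmem
      rintro _ ⟨j, rfl⟩
      exact grad_mem I y (hH j)
    obtain ⟨W', hW'⟩ := exists_dual _ hindy
    let Dp : Matrix (Fin (r + 1)) (Fin (r + 1)) (MvPolynomial σ K) :=
      fun b b' => ∑ s, a' b' s * C (W' b s)
    have hDz : ∀ z, eval z Dp.det = Matrix.det (fun b b' => dotB σ K (av' z b') (W' b)) := by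
      intro z
      rw [RingHom.map_det]
      congr 1
      ext b b'
      simp only [RingHom.mapMatrix_apply, Matrix.map_apply, Dp, map_sum, map_mul, eval_C, hav',
        dotB_apply]
    have hDy : eval y Dp.det = 1 := by
      rw [hDz]
      have h1 : (fun b b' => dotB σ K (av' y b') (W' b)) =
          (1 : Matrix (Fin (r + 1)) (Fin (r + 1)) K) := by
        ext b b'
        rw [hW', Matrix.one_apply]
        by_cases hbb : b = b'
        · rw [if_pos hbb, if_pos hbb.symm]
        · rw [if_neg hbb, if_neg (fun h => hbb h.symm)]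
      rw [h1, Matrix.det_one]
    have hDh : Dp.det.IsHomogeneous (∑ b, (Fin.cons 0 (fun j => d j - 1) : Fin (r + 1) → ℕ) b) := by
      apply det_homog
      intro b s
      refine Fin.cases ?_ (fun j => ?_) b
      · exact isHomogeneous_C σ (u0 s)
      · exact (hHd j).pderiv
    obtain ⟨m, hm⟩ := Function.ne_iff.1 hx0
    have h1 := hinf.closed x Dp.det (Δ * X m * S) _ hDh (by
      rw [map_mul, map_mul, hΔx, eval_X, one_mul]; exact mul_ne_zero hm hxS) (by
      intro z hzP hzT
      have hzQ : z + x ∈ cone Q := by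
        intro H hH
        have := hzP _ (hQP hH)
        rwa [eval_sh] at this
      rw [map_mul, map_mul, eval_X] at hzT
      have hzS := right_ne_zero_of_mul hzT
      have hzT' := left_ne_zero_of_mul hzT
      have hzΔ := left_ne_zero_of_mul hzT'
      have hz0 : z + x ≠ 0 := by
        intro h0
        rw [h0] at hzT'
        exact hzT' (by simp)
      have hzh : ∀ i, eval (z + x) (h i) = 0 := by
        intro i
        have := hzP _ (hGP (Sum.inr i))
        change eval z (sh x (h i)) = 0 at this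
        rwa [eval_sh] at this
      have huz := key (z + x) hzQ hz0 hzS hzh hzΔ
      by_contra hne
      rw [hDz] at hne
      have hli := ind_of_det _ W' hne
      have hmem : ∀ b, av' (z + x) b ∈ conormal I (z + x) := by
        intro b
        refine Fin.cases ?_ (fun j => ?_) b
        · exact huz
        · exact grad_mem I _ (hH j)
      have h2 : LinearIndependent K (fun b => (⟨av' (z + x) b, hmem b⟩ : conormal I (z + x))) :=
        LinearIndependent.of_comp (conormal I (z + x)).subtype hli
      have h3 := h2.fintype_card_le_finrank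
      rw [Fintype.card_fin, hI.rank _ (hQI _ hzQ) hz0] at h3
      omega)
    rw [hDy] at h1
    exact one_ne_zero h1
  have h1 := tangent_conormal I y huy hyt
  rw [map_sub, hu0x, sub_zero] at h1
  exact hup h1

/-- **Transversal points.** -/
theorem exists_transversal [IsAlgClosed K] [CharZero K] (hI : SCone I r)
    {q : ℕ} (l : Fin q → σ → K) {Q : Ideal (MvPolynomial σ K)} {S : MvPolynomial σ K}
    (hQ : Comp I l Q S) :
    ∀ (k : ℕ) (U : Submodule K (σ → K)), (∀ u ∈ U, lin u ∈ I → u = 0) →
      Module.finrank K U ≤ k → 2 * r + q + k ≤ Fintype.card σ →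
      ∃ x ∈ cone Q, x ≠ 0 ∧ eval x S ≠ 0 ∧ ∀ ξ ∈ conormal I x, ξ ∈ U → ξ = 0 := by
  classical
  intro k
  induction k with
  | zero =>
    intro U _ hU hcard
    obtain ⟨m, hm⟩ : ∃ m, (X m : MvPolynomial σ K) ∉ Q := by
      by_contra hcon
      push Not at hcon
      apply hQ.ne
      rw [idealOfVars, Ideal.span_le]
      rintro _ ⟨m, rfl⟩
      exact hcon m
    obtain ⟨x, hx, hxS⟩ : ∃ x ∈ cone Q, eval x (S * X m) ≠ 0 := by
      by_contra hcon
      push Not at hcon
      have h1 := mem_of_vanish Q hQ.prime (S * X m) hcon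
      rcases hQ.prime.mem_or_mem h1 with h | h
      · exact hQ.notMem h
      · exact hm h
    rw [map_mul, eval_X] at hxS
    refine ⟨x, hx, ?_, left_ne_zero_of_mul hxS, fun ξ _ hξ => ?_⟩
    · rintro rfl
      exact hxS (by simp)
    · have h1 : U = ⊥ := Submodule.finrank_eq_zero.1 (by omega)
      rw [h1] at hξ
      exact (Submodule.mem_bot K).1 hξ
  | succ k ih =>
    intro U hUI hU hcard
    by_cases hU' : Module.finrank K U ≤ k
    · exact ih U hUI hU' (by omega)
    · have hUk : Module.finrank K U = k + 1 := by omega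
      let b := Module.finBasisOfFinrankEq K U hUk
      set e : Fin (k + 1) → σ → K := fun i => (b i : σ → K) with hedef
      have he : LinearIndependent K e :=
        b.linearIndependent.map' U.subtype (Submodule.ker_subtype U)
      have hcons : (Fin.cons (e 0) (fun i : Fin k => e i.succ) : Fin (k + 1) → σ → K) = e :=
        Fin.cons_self_tail e
      have heU : Submodule.span K (Set.range e) ≤ U := by
        rw [Submodule.span_le]
        rintro _ ⟨i, rfl⟩
        exact (b i).2
      have heU' : Submodule.span K (Set.range (fun i : Fin k => e i.succ)) ≤ U := by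
        rw [Submodule.span_le]
        rintro _ ⟨i, rfl⟩
        exact (b i.succ).2
      obtain ⟨x, hx, hx0, hxS, hxU⟩ := ih
        (Submodule.span K (Set.range (fun i : Fin k => e i.succ)))
        (fun u hu => hUI u (heU' hu)) (by
          have := finrank_range_le_card (R := K) (fun i : Fin k => e i.succ)
          simpa [Set.finrank] using this) (by omega)
      by_contra hcon
      push Not at hcon
      apply gen_step hI l hQ x hx hx0 hxS (e 0) (fun i => e i.succ)
        (by rw [hcons]; exact he) (by rw [hcons]; exact fun u hu => hUI u (heU hu)) hxU (by omega)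
      intro z hz hz0 hzS
      obtain ⟨ξ, hξ, hξU, hξ0⟩ := hcon z hz hz0 hzS
      refine ⟨ξ, hξ, hξ0, b.repr ⟨ξ, hξU⟩ 0, fun i => b.repr ⟨ξ, hξU⟩ i.succ, ?_⟩
      have h1 := congrArg Subtype.val (b.sum_repr ⟨ξ, hξU⟩)
      rw [Fin.sum_univ_succ] at h1
      simp only [Submodule.coe_add, Submodule.coe_sum, Submodule.coe_smul] at h1
      exact h1.symm

end Pool.Agent.J4.H17.CI
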