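import Pool.Agent.J4.H17.CI.E1

/-!
# Dimension of special linear sections, Cohen-Macaulay cones
-/

set_option autoImplicit false
set_option maxHeartbeats 400000

namespace Pool.Agent.J4.H17.CI

open MvPolynomial Pool.Agent.H929R2.Hart

variable {σ : Type} [Fintype σ] [DecidableEq σ] {K : Type} [Field K]
variable {I : Ideal (MvPolynomial σ K)} {r : ℕ}

/-- functions of the form (linear form minus its value at `x`) which complete a subspace -/
lemma exists_complement (x : σ → K) (V : Submodule K (σ → K)) (c : ℕ)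
    (hc : Fintype.card σ = Module.finrank K V + c) :
    ∃ b : Fin c → σ → K,
      V ⊔ Submodule.span K (Set.range (fun j => grad (lin (b j) - C (dotB σ K (b j) x)) x)) = ⊤ := by
  classical
  obtain ⟨W, hW⟩ := Submodule.exists_isCompl V
  have hfin := Submodule.finrank_add_eq_of_isCompl hW
  rw [Module.finrank_fintype_fun_eq_card] at hfin
  let b := Module.finBasisOfFinrankEq K W (n := c) (by omega)
  have hgC : ∀ u : σ → K, ∀ c : K, grad (lin u - C c) x = u := by
    intro u c
    have h1 := grad_lin u x
    funext i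
    have h2 := congrFun h1 i
    simp only [grad, map_sub, pderiv_C, sub_zero] at h2 ⊢
    exact h2
  refine ⟨fun j => (b j : σ → K), ?_⟩
  rw [eq_top_iff, ← hW.sup_eq_top]
  apply sup_le_sup_left
  intro ξ hξ
  have h1 := congrArg Subtype.val (b.sum_repr ⟨ξ, hξ⟩)
  simp only [Submodule.coe_sum, Submodule.coe_smul] at h1
  rw [← h1]
  refine Submodule.sum_mem _ (fun i _ => Submodule.smul_mem _ _ (Submodule.subset_span ⟨i, ?_⟩))
  exact hgC _ _

/-- **Upper bound for the dimension.** -/
theorem dim_quot_le (Q : Ideal (MvPolynomial σ K)) (hQ : Q.IsPrime) (x : σ → K) (hx : x ∈ cone Q) :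
    ringKrullDim (MvPolynomial σ K ⧸ Q) ≤
      ((Fintype.card σ - Module.finrank K (conormal Q x) : ℕ) : WithBot ℕ∞) := by
  classical
  have hle : Module.finrank K (conormal Q x) ≤ Fintype.card σ := by
    have := Submodule.finrank_le (conormal Q x)
    rwa [Module.finrank_fintype_fun_eq_card] at this
  set c := Fintype.card σ - Module.finrank K (conormal Q x) with hc
  obtain ⟨b, hb⟩ := exists_complement x (conormal Q x) c (by omega)
  let lam : Fin c → MvPolynomial σ K := fun j => lin (b j) - C (dotB σ K (b j) x)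
  have hlamx : ∀ j, eval x (lam j) = 0 := by
    intro j
    simp only [lam]
    rw [map_sub, eval_lin, eval_C, sub_self]
  let G : Q ⊕ Fin c → MvPolynomial σ K := Sum.elim (fun F => (F : MvPolynomial σ K)) lam
  have hGx : ∀ i, eval x (G i) = 0 := by
    rintro (F | j)
    · exact hx _ F.2
    · exact hlamx j
  have hspan : Submodule.span K (Set.range (fun i => grad (G i) x)) = ⊤ := by
    rw [eq_top_iff, ← hb, sup_le_iff]
    constructor
    · rw [conormal, Submodule.span_le]
      rintro _ ⟨F, hF, rfl⟩
      exact Submodule.subset_span ⟨Sum.inl ⟨F, hF⟩, rfl⟩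
    · rw [Submodule.span_le]
      rintro _ ⟨j, rfl⟩
      exact Submodule.subset_span ⟨Sum.inr j, rfl⟩
  have hmax : (RingHom.ker (eval x : MvPolynomial σ K →+* K)).IsMaximal :=
    RingHom.ker_isMaximal_of_surjective _ (fun c => ⟨C c, eval_C c⟩)
  set Mx := RingHom.ker (eval x : MvPolynomial σ K →+* K) with hMx
  have hIMx : Q ≤ Mx := fun H hH => hx H hH
  set π := Ideal.Quotient.mk Q with hπ
  set M := Mx.map π with hM
  have hcomap : M.comap π = Mx := by
    rw [hM, Ideal.comap_map_of_surjective π Ideal.Quotient.mk_surjective]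
    have h2 : Ideal.comap π ⊥ = Q := Ideal.mk_ker
    rw [h2, sup_eq_left.2 hIMx]
  have hMmax : M.IsMaximal := by
    have h1 := Ideal.map_eq_top_or_isMaximal_of_surjective π Ideal.Quotient.mk_surjective hmax
    rcases h1 with h1 | h1
    · exfalso
      rw [← hM] at h1
      rw [h1, Ideal.comap_top] at hcomap
      exact hmax.ne_top hcomap.symm
    · exact h1
  let S : Set (MvPolynomial σ K ⧸ Q) := Set.range (fun j : Fin c => π (lam j))
  have hmin : M ∈ (Ideal.span S).minimalPrimes := by
    refine ⟨⟨hMmax.isPrime, ?_⟩, ?_⟩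
    · rw [Ideal.span_le]
      rintro _ ⟨j, rfl⟩
      exact Ideal.mem_map_of_mem _ (hlamx j)
    · rintro P ⟨hPp, hPS⟩ hPM
      have hq : (P.comap π).IsPrime := Ideal.comap_isPrime _ _
      have hqx : P.comap π ≤ Mx := by
        rw [← hcomap]
        exact Ideal.comap_mono hPM
      have hGq : ∀ i, G i ∈ P.comap π := by
        rintro (F | j)
        · show π (F : MvPolynomial σ K) ∈ P
          rw [Ideal.Quotient.eq_zero_iff_mem.2 F.2]
          exact P.zero_mem
        · exact hPS (Ideal.subset_span ⟨j, rfl⟩)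
      have h1 := maximal_le x G hGx hspan _ hq hqx hGq
      rw [hM, Ideal.map_le_iff_le_comap]
      exact h1
  have h1 := Ideal.height_le_card_of_mem_minimalPrimes_span (Set.finite_range _) hmin
  have h2 : S.ncard ≤ c := by
    have h3 := Set.ncard_image_le (s := (Set.univ : Set (Fin c))) (f := fun j => π (lam j))
    rw [Set.image_univ, Set.ncard_univ] at h3
    simpa using h3
  rw [← Pool.Agent.Helper226.height_eq_ringKrullDim K _ M hMmax]
  have h3 : M.height ≤ (c : ℕ∞) := h1.trans (by exact_mod_cast h2)
  exact WithBot.coe_le_coe.2 h3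

lemma height_ker (x : σ → K) :
    (Fintype.card σ : ℕ∞) ≤ (RingHom.ker (eval x : MvPolynomial σ K →+* K)).height := by
  classical
  let e : MvPolynomial σ K ≃ₐ[K] MvPolynomial σ K :=
    AlgEquiv.ofAlgHom (sh x) (sh (-x)) (AlgHom.ext fun H => sh_sh x H)
      (AlgHom.ext fun H => sh_inv x H)
  have h1 : RingHom.ker (eval x : MvPolynomial σ K →+* K) =
      (idealOfVars σ K).comap e.toRingEquiv := by
    ext F
    rw [Ideal.mem_comap, RingHom.mem_ker]
    have h2 : e.toRingEquiv F = sh x F := rfl
    rw [h2, mem_idealOfVars, eval_sh, zero_add]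
  rw [h1, RingEquiv.height_comap]
  exact height_vars

/-- **Lower bound for the dimension of the tangent space.** -/
theorem conormal_finrank_le {ι : Type} [Fintype ι] (f : ι → MvPolynomial σ K)
    (P : Ideal (MvPolynomial σ K)) (hP : P ∈ (Ideal.span (Set.range f)).minimalPrimes)
    (S : MvPolynomial σ K)
    (hS : ∀ P' ∈ (Ideal.span (Set.range f)).minimalPrimes, P' ≠ P → S ∈ P')
    (z : σ → K) (hz : z ∈ cone P) (hzS : eval z S ≠ 0) :
    Module.finrank K (conormal P z) ≤ Fintype.card ι := by
  classical
  have hle : Module.finrank K (conormal P z) ≤ Fintype.card σ := by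
    have := Submodule.finrank_le (conormal P z)
    rwa [Module.finrank_fintype_fun_eq_card] at this
  set c := Fintype.card σ - Module.finrank K (conormal P z) with hc
  obtain ⟨b, hb⟩ := exists_complement z (conormal P z) c (by omega)
  let lam : Fin c → MvPolynomial σ K := fun j => lin (b j) - C (dotB σ K (b j) z)
  have hlamz : ∀ j, eval z (lam j) = 0 := by
    intro j
    simp only [lam]
    rw [map_sub, eval_lin, eval_C, sub_self]
  let G : P ⊕ Fin c → MvPolynomial σ K := Sum.elim (fun F => (F : MvPolynomial σ K)) lam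
  have hGz : ∀ i, eval z (G i) = 0 := by
    rintro (F | j)
    · exact hz _ F.2
    · exact hlamz j
  have hspan : Submodule.span K (Set.range (fun i => grad (G i) z)) = ⊤ := by
    rw [eq_top_iff, ← hb, sup_le_iff]
    constructor
    · rw [conormal, Submodule.span_le]
      rintro _ ⟨F, hF, rfl⟩
      exact Submodule.subset_span ⟨Sum.inl ⟨F, hF⟩, rfl⟩
    · rw [Submodule.span_le]
      rintro _ ⟨j, rfl⟩
      exact Submodule.subset_span ⟨Sum.inr j, rfl⟩
  have hmax : (RingHom.ker (eval z : MvPolynomial σ K →+* K)).IsMaximal :=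
    RingHom.ker_isMaximal_of_surjective _ (fun c => ⟨C c, eval_C c⟩)
  let L : ι ⊕ Fin c → MvPolynomial σ K := Sum.elim f lam
  have hLz : ∀ a, L a ∈ RingHom.ker (eval z : MvPolynomial σ K →+* K) := by
    rintro (a | j)
    · exact hz _ (hP.1.2 (Ideal.subset_span ⟨a, rfl⟩))
    · exact hlamz j
  have hmin : RingHom.ker (eval z : MvPolynomial σ K →+* K) ∈
      (Ideal.span (Set.range L)).minimalPrimes := by
    refine ⟨⟨hmax.isPrime, ?_⟩, ?_⟩
    · rw [Ideal.span_le]
      rintro _ ⟨a, rfl⟩
      exact hLz a
    · rintro Q ⟨hQp, hQL⟩ hQM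
      have hfQ : Ideal.span (Set.range f) ≤ Q := by
        rw [Ideal.span_le]
        rintro _ ⟨a, rfl⟩
        exact hQL (Ideal.subset_span ⟨Sum.inl a, rfl⟩)
      obtain ⟨P', hP', hPQ⟩ := Ideal.exists_minimalPrimes_le hfQ
      have hPP : P' = P := by
        by_contra hne
        exact hzS (hQM (hPQ (hS P' hP' hne)))
      rw [hPP] at hPQ
      exact maximal_le z G hGz hspan Q hQp hQM (by
        rintro (F | j)
        · exact hPQ F.2
        · exact hQL (Ideal.subset_span ⟨Sum.inr j, rfl⟩))
  have h1 := Ideal.height_le_card_of_mem_minimalPrimes_span (Set.finite_range _) hmin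
  have h2 : (Set.range L).ncard ≤ Fintype.card ι + c := by
    have h3 := Set.ncard_image_le (s := (Set.univ : Set (ι ⊕ Fin c))) (f := L)
    rw [Set.image_univ, Set.ncard_univ] at h3
    simpa using h3
  have h3 := (height_ker z).trans h1
  have h4 : Fintype.card σ ≤ (Set.range L).ncard := by exact_mod_cast h3
  omega

end Pool.Agent.J4.H17.CI
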