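import Pool.Agent.J4.H17.CI.E2

/-!
# Quadratic and cubic forms which are singular at a point of the variety
-/

set_option autoImplicit false
set_option maxHeartbeats 400000

namespace Pool.Agent.J4.H17.CI

open MvPolynomial Pool.Agent.H929R2.Hart

variable {σ : Type} [Fintype σ] [DecidableEq σ] {K : Type} [Field K]
variable {I : Ideal (MvPolynomial σ K)} {r : ℕ}

omit [DecidableEq σ] in
lemma dd_mul (a : σ → K) (p q : MvPolynomial σ K) : dd a (p * q) = p * dd a q + q * dd a p := by
  simp only [dd, Finset.mul_sum, ← Finset.sum_add_distrib]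
  refine Finset.sum_congr rfl (fun i _ => ?_)
  rw [Derivation.leibniz, smul_eq_mul, smul_eq_mul]
  ring

omit [DecidableEq σ] in
lemma dd_plus (a : σ → K) (p q : MvPolynomial σ K) : dd a (p + q) = dd a p + dd a q := by
  simp only [dd, map_add, mul_add, Finset.sum_add_distrib]

omit [DecidableEq σ] in
lemma dd_sum {ι : Type} (a : σ → K) (s : Finset ι) (p : ι → MvPolynomial σ K) :
    dd a (∑ i ∈ s, p i) = ∑ i ∈ s, dd a (p i) := by
  simp only [dd, map_sum, Finset.mul_sum]
  exact Finset.sum_comm

omit [DecidableEq σ] in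
lemma dd_C_mul (a : σ → K) (c : K) (p : MvPolynomial σ K) : dd a (C c * p) = C c * dd a p := by
  simp only [dd, pderiv_C_mul, Finset.mul_sum]
  exact Finset.sum_congr rfl (fun i _ => by ring)

lemma dd_comm (a b : σ → K) (p : MvPolynomial σ K) : dd a (dd b p) = dd b (dd a p) := by
  conv_lhs => rw [dd]
  simp only [pderiv_dd]
  rw [← Finset.sum_congr rfl (fun i _ => dd_C_mul b (a i) (pderiv i p)), ← dd_sum]
  rfl

omit [DecidableEq σ] in
lemma dd_homog (a : σ → K) {p : MvPolynomial σ K} {m : ℕ} (hp : p.IsHomogeneous m) :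
    (dd a p).IsHomogeneous (m - 1) := by
  apply IsHomogeneous.sum
  intro i _
  have := (isHomogeneous_C σ (a i)).mul (hp.pderiv (i := i))
  rwa [zero_add] at this

omit [DecidableEq σ] in
lemma euler (w : σ → K) {p : MvPolynomial σ K} {m : ℕ} (hp : p.IsHomogeneous m) :
    eval w (dd w p) = m * eval w p := by
  have h1 := congrArg (eval w) hp.sum_X_mul_pderiv
  rw [map_sum, nsmul_eq_mul, map_mul, map_natCast] at h1
  rw [dd, map_sum, ← h1]
  exact Finset.sum_congr rfl (fun i _ => by simp)

omit [Fintype σ] [DecidableEq σ] in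
lemma eval_const {p : MvPolynomial σ K} (hp : p.IsHomogeneous 0) (z w : σ → K) :
    eval z p = eval w p := by
  have h2 : p = C (coeff 0 p) := by
    rw [← homogeneousComponent_zero, homogeneousComponent_eq_self hp]
  rw [h2]
  simp

omit [DecidableEq σ] in
/-- the derivative of a bordered determinant, if the border is zero -/
lemma dd_det_border {n : ℕ} (N : Matrix (Fin (n + 1)) (Fin (n + 1)) (MvPolynomial σ K))
    (w z : σ → K) (h1 : ∀ j, eval z (N 0 j) = 0) (h2 : ∀ i, eval z (N i 0) = 0) :
    eval z (dd w N.det) = eval z (N.submatrix Fin.succ Fin.succ).det * eval z (dd w (N 0 0)) := by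
  classical
  have hprod : ∀ a b : MvPolynomial σ K, eval z (dd w (a * b)) =
      eval z a * eval z (dd w b) + eval z b * eval z (dd w a) := by
    intro a b
    rw [dd_mul, map_add, map_mul, map_mul]
  have hsign : ∀ k : ℕ, eval z (dd w ((-1) ^ k : MvPolynomial σ K)) = 0 := by
    intro k
    have : ((-1) ^ k : MvPolynomial σ K) = C ((-1) ^ k) * 1 := by simp
    rw [this, dd_C_mul]
    have h0 : dd w (1 : MvPolynomial σ K) = 0 := by
      simp [dd]
    rw [h0, mul_zero, map_zero]
  rw [Matrix.det_succ_row_zero, dd_sum, map_sum, Fin.sum_univ_succ]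
  have h5 : ∀ j : Fin n, eval z (dd w ((-1) ^ ((j.succ : Fin (n + 1)) : ℕ) * N 0 j.succ *
      (N.submatrix Fin.succ (j.succ).succAbove).det)) = 0 := by
    intro j
    have h7 : eval z (N.submatrix Fin.succ (j.succ).succAbove).det = 0 := by
      have hnpos : 0 < n := j.pos
      obtain ⟨n', rfl⟩ : ∃ n', n = n' + 1 := ⟨n - 1, by omega⟩
      rw [RingHom.map_det]
      apply Matrix.det_eq_zero_of_column_eq_zero 0
      intro i
      rw [RingHom.mapMatrix_apply, Matrix.map_apply, Matrix.submatrix_apply]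
      have h8 : (j.succ).succAbove (0 : Fin (n' + 1)) = 0 := by
        apply Fin.succAbove_ne_zero_zero
        exact Fin.succ_ne_zero j
      rw [h8]
      exact h2 _
    rw [hprod, h7, zero_mul, add_zero, map_mul, h1, mul_zero, zero_mul]
  rw [Finset.sum_eq_zero (fun j _ => h5 j), add_zero, hprod, map_mul (eval z), h1, mul_zero,
    zero_mul, zero_add, hprod, hsign, mul_zero, add_zero, Fin.succAbove_zero]
  simp

omit [Fintype σ] [DecidableEq σ] in
lemma exists_sep_min [Finite σ] (J : Ideal (MvPolynomial σ K)) (p : Ideal (MvPolynomial σ K))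
    (hp : p ∈ J.minimalPrimes) :
    ∃ S, S ∉ p ∧ ∀ q ∈ J.minimalPrimes, q ≠ p → S ∈ q := by
  classical
  have hfin := Ideal.finite_minimalPrimes_of_isNoetherianRing (MvPolynomial σ K) J
  have hsep : ∀ q : Ideal (MvPolynomial σ K), ∃ s : MvPolynomial σ K,
      q ∈ J.minimalPrimes → q ≠ p → s ∈ q ∧ s ∉ p := by
    intro q
    by_cases hq : q ∈ J.minimalPrimes ∧ q ≠ p
    · have hnle : ¬ q ≤ p := fun hle => hq.2 (le_antisymm hle (hp.2 hq.1.1 hle))
      obtain ⟨s, hs, hs'⟩ := SetLike.not_le_iff_exists.1 hnle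
      exact ⟨s, fun _ _ => ⟨hs, hs'⟩⟩
    · exact ⟨0, fun h1 h2 => absurd ⟨h1, h2⟩ hq⟩
  choose s hs using hsep
  refine ⟨∏ q ∈ hfin.toFinset.erase p, s q, ?_, ?_⟩
  · rw [hp.1.1.prod_mem_iff]
    rintro ⟨q, hq, hqp⟩
    rw [Finset.mem_erase, Set.Finite.mem_toFinset] at hq
    exact (hs q hq.2 hq.1).2 hqp
  · intro q hq hqp
    have hqm : q ∈ hfin.toFinset.erase p := by
      rw [Finset.mem_erase, Set.Finite.mem_toFinset]
      exact ⟨hqp, hq⟩
    rw [← Finset.mul_prod_erase _ _ hqm]
    exact q.mul_mem_right _ (hs q hq hqp).1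

/-- **Singular quadratic and cubic forms** vanish on a linear space of small codimension. -/
theorem sing_form [IsAlgClosed K] [CharZero K] (hI : SCone I r) (g : MvPolynomial σ K) (e : ℕ)
    (he : e = 2 ∨ e = 3) (hg : g ∈ I) (hgh : g.IsHomogeneous e) (x0 : σ → K) (hx0 : x0 ∈ cone I)
    (hx00 : x0 ≠ 0) (hgrad : grad g x0 = 0) :
    ∃ N0 : Submodule K (σ → K), Module.finrank K N0 ≤ 2 * r ∧
      ∀ w, (∀ ξ ∈ N0, dotB σ K ξ w = 0) → eval w g = 0 := by
  classical
  obtain ⟨F, W, T, hF, hind, hT, hgood⟩ := exists_frameT hI x0 hx0 hx00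
  let f : Fin r ⊕ Fin r → MvPolynomial σ K := Sum.elim F (fun i => dd (W i) g)
  have hker : (RingHom.ker (eval x0 : MvPolynomial σ K →+* K)).IsPrime := RingHom.ker_isPrime _
  have hfx : Ideal.span (Set.range f) ≤ RingHom.ker (eval x0 : MvPolynomial σ K →+* K) := by
    rw [Ideal.span_le]
    rintro _ ⟨a, rfl⟩
    rcases a with i | i
    · exact hx0 _ (hF i)
    · show eval x0 (dd (W i) g) = 0
      rw [eval_dd, hgrad, map_zero, LinearMap.zero_apply]
  obtain ⟨P, hP, hPx⟩ := Ideal.exists_minimalPrimes_le hfx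
  have hPp : P.IsPrime := hP.1.1
  have hfP : ∀ a, f a ∈ P := fun a => hP.1.2 (Ideal.subset_span ⟨a, rfl⟩)
  have hTP : T ∉ P := fun h => hT (hPx h)
  have hIP : I ≤ P := by
    intro H hH
    obtain ⟨u, hu, huH⟩ := loc_gen hI x0 hx0 hx00 F hF hind H hH
    have h1 : u * H ∈ P := by
      refine (?_ : Ideal.span (Set.range F) ≤ P) huH
      rw [Ideal.span_le]
      rintro _ ⟨i, rfl⟩
      exact hfP (Sum.inl i)
    rcases hPp.mem_or_mem h1 with h | h
    · exact absurd (hPx h) hu
    · exact h
  have hPI : ∀ z ∈ cone P, z ∈ cone I := fun z hz H hH => hz H (hIP hH)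
  -- the derivatives of `g` are in `P`
  have hdg : ∀ a : σ → K, dd a g ∈ P := by
    intro a
    have h1 : dd a g * T ∈ P := by
      apply mem_of_vanish P hPp
      intro z hz
      rw [map_mul]
      by_cases hzT : eval z T = 0
      · rw [hzT, mul_zero]
      · have h2 := (hgood z (hPI z hz) hzT).2 (grad g z) (grad_mem I z hg) (fun i => by
          rw [← eval_dd]
          exact hz _ (hfP (Sum.inr i)))
        rw [eval_dd, h2, map_zero, LinearMap.zero_apply, zero_mul]
    exact (hPp.mem_or_mem h1).resolve_right hTP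
  -- maximal rank
  let B : (σ → K) → (σ → K) → MvPolynomial σ K := fun a b => dd a (dd b g)
  have hBc : ∀ a b, B a b = B b a := fun a b => dd_comm a b g
  let Pr : ℕ → Prop := fun ρ => ∃ z ∈ cone P, ∃ α β : Fin ρ → σ → K,
    Matrix.det (fun i j => eval z (B (α i) (β j))) ≠ 0
  have hPr0 : Pr 0 := by
    refine ⟨x0, fun H hH => hPx hH, fun i => i.elim0, fun i => i.elim0, ?_⟩
    rw [Matrix.det_fin_zero]
    exact one_ne_zero
  have hBlin : ∀ (n : ℕ) (c : Fin n → K) (α : Fin n → σ → K) (b : σ → K) (z : σ → K),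
      ∑ i, c i * eval z (B (α i) b) = eval z (B (∑ i, c i • α i) b) := by
    intro n c α b z
    have h1 : ∀ a : σ → K, eval z (B a b) = dotB σ K (grad (dd b g) z) a := fun a => eval_dd _ _ _
    simp only [h1, map_sum, map_smul, smul_eq_mul]
  have hPrM : ¬ Pr (Fintype.card σ + 1) := by
    rintro ⟨z, -, α, β, hdet⟩
    have hdep : ¬ LinearIndependent K α := by
      intro hli
      have := hli.fintype_card_le_finrank
      rw [Fintype.card_fin, Module.finrank_fintype_fun_eq_card] at this
      omega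
    rw [Fintype.not_linearIndependent_iff] at hdep
    obtain ⟨c, hc, i, hci⟩ := hdep
    apply hdet
    rw [← Matrix.exists_vecMul_eq_zero_iff]
    refine ⟨c, fun h0 => hci (congrFun h0 i), ?_⟩
    funext j
    rw [Matrix.vecMul, dotProduct, Pi.zero_apply]
    have h1 := hBlin _ c α (β j) z
    rw [hc] at h1
    rw [h1]
    show eval z (dd 0 (dd (β j) g)) = 0
    rw [eval_dd, map_zero]
  have hex : ∃ ρ, ¬ Pr ρ := ⟨_, hPrM⟩
  obtain ⟨ρ, hρ, hρ1⟩ : ∃ ρ, Pr ρ ∧ ¬ Pr (ρ + 1) := by
    refine ⟨Nat.find hex - 1, ?_, ?_⟩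
    · have h1 : 0 < Nat.find hex := by
        rw [Nat.pos_iff_ne_zero]
        intro h0
        have := Nat.find_spec hex
        rw [h0] at this
        exact this hPr0
      have := Nat.find_min hex (m := Nat.find hex - 1) (by omega)
      exact not_not.1 this
    · have h1 : 0 < Nat.find hex := by
        rw [Nat.pos_iff_ne_zero]
        intro h0
        have := Nat.find_spec hex
        rw [h0] at this
        exact this hPr0
      rw [Nat.sub_add_cancel h1]
      exact Nat.find_spec hex
  obtain ⟨z1, hz1, α, β, hdet⟩ := hρ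
  -- polynomial determinants
  have hdetp : ∀ (n : ℕ) (α β : Fin n → σ → K) (z : σ → K),
      eval z (Matrix.det (fun i j => B (α i) (β j) : Matrix (Fin n) (Fin n) (MvPolynomial σ K))) =
        Matrix.det (fun i j => eval z (B (α i) (β j))) := by
    intro n α β z
    rw [RingHom.map_det]
    rfl
  set Δ : MvPolynomial σ K :=
    Matrix.det (fun i j => B (α i) (β j) : Matrix (Fin ρ) (Fin ρ) (MvPolynomial σ K)) with hΔ
  have hΔP : Δ ∉ P := by
    intro h
    apply hdet
    rw [← hdetp]
    exact hz1 _ h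
  have hΘ : ∀ α' β' : Fin (ρ + 1) → σ → K,
      Matrix.det (fun i j => B (α' i) (β' j) :
        Matrix (Fin (ρ + 1)) (Fin (ρ + 1)) (MvPolynomial σ K)) ∈ P := by
    intro α' β'
    apply mem_of_vanish P hPp
    intro z hz
    by_contra hne
    rw [hdetp] at hne
    exact hρ1 ⟨z, hz, α', β', hne⟩
  obtain ⟨S, hSP, hS⟩ := exists_sep_min _ P hP
  obtain ⟨z0, hz0, hz0S⟩ : ∃ z ∈ cone P, eval z (Δ * S) ≠ 0 := by
    by_contra hcon
    push Not at hcon
    rcases hPp.mem_or_mem (mem_of_vanish P hPp _ hcon) with h | h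
    · exact hΔP h
    · exact hSP h
  rw [map_mul] at hz0S
  have hz0Δ := left_ne_zero_of_mul hz0S
  refine ⟨conormal P z0, ?_, ?_⟩
  · have h1 := conormal_finrank_le f P hP S (fun P' h1 h2 => hS P' h1 h2) z0 hz0
      (right_ne_zero_of_mul hz0S)
    simp only [Fintype.card_sum, Fintype.card_fin] at h1
    omega
  · intro w hw
    have hwP : ∀ H ∈ P, eval z0 (dd w H) = 0 := by
      intro H hH
      rw [eval_dd]
      exact hw _ (grad_mem P z0 hH)
    have hwB : ∀ a, eval z0 (B w a) = 0 := fun a => hwP _ (hdg a)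
    have hwB' : ∀ a, eval z0 (B a w) = 0 := fun a => by rw [hBc]; exact hwB a
    rcases he with he | he
    · -- quadratic forms
      have h1 : (dd w (dd w g)).IsHomogeneous 0 := by
        have := dd_homog w (dd_homog w hgh)
        rwa [he] at this
      have h2 := eval_const h1 z0 w
      rw [show eval z0 (dd w (dd w g)) = 0 from hwB w, euler w (dd_homog w hgh), euler w hgh,
        he] at h2
      have h3 : (2 : K) * eval w g = 0 := by
        rw [h2]
        push_cast
        ring
      exact (mul_eq_zero.1 h3).resolve_left two_ne_zero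
    · -- cubic forms
      have h1 : (dd w (dd w (dd w g))).IsHomogeneous 0 := by
        have := dd_homog w (dd_homog w (dd_homog w hgh))
        rwa [he] at this
      have h2 := eval_const h1 z0 w
      rw [euler w (dd_homog w (dd_homog w hgh)), euler w (dd_homog w hgh), euler w hgh, he] at h2
      have h4 := hwP _ (hΘ (Fin.cons w α) (Fin.cons w β))
      rw [dd_det_border _ w z0 (fun j => by rw [Fin.cons_zero]; exact hwB _)
        (fun j => by rw [Fin.cons_zero]; exact hwB' _), Fin.cons_zero, Fin.cons_zero] at h4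
      have h9 : Matrix.submatrix (fun i j => B ((Fin.cons w α : Fin (ρ + 1) → σ → K) i)
            ((Fin.cons w β : Fin (ρ + 1) → σ → K) j) :
            Matrix (Fin (ρ + 1)) (Fin (ρ + 1)) (MvPolynomial σ K)) Fin.succ Fin.succ =
          (fun i j => B (α i) (β j)) := by
        ext1 i j
        rw [Matrix.submatrix_apply, Fin.cons_succ, Fin.cons_succ]
      rw [h9] at h4
      have h10 : eval z0 (dd w (B w w)) = 0 := by
        exact (mul_eq_zero.1 h4).resolve_left hz0Δ
      rw [show eval z0 (dd w (dd w (dd w g))) = 0 from h10] at h2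
      have h3 : (6 : K) * eval w g = 0 := by
        rw [h2]
        push_cast
        ring
      exact (mul_eq_zero.1 h3).resolve_left (by norm_num)

end Pool.Agent.J4.H17.CI
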