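import Pool.Agent.J4.H17.CI.E3

/-!
# Regular sequences of linear forms on Cohen-Macaulay cones
-/

set_option autoImplicit false
set_option maxHeartbeats 400000

namespace Pool.Agent.J4.H17.CI

open MvPolynomial Pool.Agent.H929R2.Hart

variable {σ : Type} [Fintype σ] [DecidableEq σ] {K : Type} [Field K]
variable {I : Ideal (MvPolynomial σ K)} {r : ℕ}

/-- Polynomials which vanish on a linear space. -/
lemma mem_span_lin [Infinite K] {ι : Type} [Fintype ι] [DecidableEq ι] (l : ι → σ → K)
    (hl : LinearIndependent K l) (F : MvPolynomial σ K)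
    (hF : ∀ w, (∀ i, dotB σ K (l i) w = 0) → eval w F = 0) :
    F ∈ Ideal.span (Set.range (fun i => lin (l i))) := by
  classical
  obtain ⟨v, hv⟩ := exists_dual l hl
  set J := Ideal.span (Set.range (fun i => lin (l i))) with hJ
  let π : MvPolynomial σ K →ₐ[K] MvPolynomial σ K :=
    aeval (fun m => X m - ∑ i, lin (l i) * C (v i m))
  have h1 : ∀ G : MvPolynomial σ K, Ideal.Quotient.mk J (π G) = Ideal.Quotient.mk J G := by
    intro G
    have h2 : (Ideal.Quotient.mkₐ K J).comp π = Ideal.Quotient.mkₐ K J := by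
      apply MvPolynomial.algHom_ext
      intro m
      simp only [AlgHom.comp_apply, π, aeval_X]
      show Ideal.Quotient.mk J (X m - ∑ i, lin (l i) * C (v i m)) = Ideal.Quotient.mk J (X m)
      rw [Ideal.Quotient.eq, sub_sub_cancel_left]
      apply J.neg_mem
      exact J.sum_mem (fun i _ => J.mul_mem_right _ (Ideal.subset_span ⟨i, rfl⟩))
    exact AlgHom.congr_fun h2 G
  have h3 : π F = 0 := by
    apply MvPolynomial.funext
    intro w
    have h4 : eval w (π F) = eval (w - ∑ i, dotB σ K (l i) w • v i) F := by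
      have h5 : (eval w).comp (π : MvPolynomial σ K →+* MvPolynomial σ K) =
          eval (w - ∑ i, dotB σ K (l i) w • v i) := by
        apply MvPolynomial.ringHom_ext
        · intro c; simp [π]
        · intro m
          simp [π, map_sum, eval_lin]
      exact RingHom.congr_fun h5 F
    rw [h4, map_zero]
    apply hF
    intro i
    rw [map_sub, map_sum]
    have h6 : ∀ j, dotB σ K (l i) (dotB σ K (l j) w • v j) =
        if i = j then dotB σ K (l j) w else 0 := by
      intro j
      rw [map_smul, smul_eq_mul, hv]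
      split_ifs <;> simp
    rw [Finset.sum_congr rfl (fun j _ => h6 j), Finset.sum_ite_eq, if_pos (Finset.mem_univ _),
      sub_self]
  have h4 := h1 F
  rw [h3, map_zero] at h4
  exact Ideal.Quotient.eq_zero_iff_mem.1 h4.symm

omit [DecidableEq σ] in
/-- homogeneous coefficients -/
lemma homog_coeff {ι : Type} [Fintype ι] (l : ι → σ → K) (F : MvPolynomial σ K) (e : ℕ)
    (hFh : F.IsHomogeneous (e + 1)) (hF : F ∈ Ideal.span (Set.range (fun i => lin (l i)))) :
    ∃ c : ι → MvPolynomial σ K, (∀ i, (c i).IsHomogeneous e) ∧ F = ∑ i, c i * lin (l i) := by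
  classical
  obtain ⟨c, hc⟩ := (Ideal.mem_span_range_iff_exists_fun).1 hF
  refine ⟨fun i => homogeneousComponent e (c i), fun i => homogeneousComponent_isHomogeneous _ _, ?_⟩
  have h1 := homogeneousComponent_eq_self hFh
  rw [← h1, ← hc, map_sum]
  refine Finset.sum_congr rfl (fun i _ => ?_)
  rw [mul_comm (c i), add_comm e 1, H503R3.QCI.comp_mul (lin_homog _), mul_comm]

/-- linear forms which cut down the dimension of all components -/
theorem exists_cut' [Infinite K] (D : ℕ) (J0 : Ideal (MvPolynomial σ K))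
    (hD : ∀ q : Ideal (MvPolynomial σ K), q.IsPrime → J0 ≤ q → idealOfVars σ K ≤ q ∨
      ringKrullDim (MvPolynomial σ K ⧸ q) ≤ (D : WithBot ℕ∞)) (i : ℕ) :
    ∃ l : Fin i → σ → K, ∀ q : Ideal (MvPolynomial σ K), q.IsPrime → J0 ≤ q →
      (∀ j, lin (l j) ∈ q) → idealOfVars σ K ≤ q ∨
        ringKrullDim (MvPolynomial σ K ⧸ q) + (i : WithBot ℕ∞) ≤ (D : WithBot ℕ∞) := by
  classical
  induction i with
  | zero =>
    refine ⟨fun j => j.elim0, fun q hq hIq _ => ?_⟩
    rcases hD q hq hIq with h | h
    · exact Or.inl h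
    · right
      rwa [Nat.cast_zero, add_zero]
  | succ i ih =>
    obtain ⟨l, hl⟩ := ih
    set J : Ideal (MvPolynomial σ K) := J0 ⊔ Ideal.span (Set.range (fun j => lin (l j))) with hJ
    have hfin := Ideal.finite_minimalPrimes_of_isNoetherianRing (MvPolynomial σ K) J
    set S : Finset (Submodule K (σ → K)) :=
      (hfin.toFinset.filter (fun p => ¬ idealOfVars σ K ≤ p)).image linsub with hS
    have hStop : ⊤ ∉ S := by
      intro htop
      rw [hS, Finset.mem_image] at htop
      obtain ⟨p, hp, hpt⟩ := htop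
      rw [Finset.mem_filter] at hp
      apply hp.2
      rw [idealOfVars, Ideal.span_le]
      rintro _ ⟨a, rfl⟩
      have h1 : (Pi.single a 1 : σ → K) ∈ linsub p := by rw [hpt]; exact Submodule.mem_top
      have h2 : lin (Pi.single a 1 : σ → K) ∈ p := h1
      rwa [lin_single] at h2
    have hne := Subspace.biUnion_ne_univ_of_top_notMem hStop
    obtain ⟨u, hu⟩ := (Set.ne_univ_iff_exists_notMem _).1 hne
    refine ⟨Fin.snoc l u, fun q hq hIq hlq => ?_⟩
    have hJq : J ≤ q := by
      rw [hJ, sup_le_iff]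
      refine ⟨hIq, ?_⟩
      rw [Ideal.span_le]
      rintro _ ⟨j, rfl⟩
      have := hlq j.castSucc
      rwa [Fin.snoc_castSucc] at this
    have huq : lin u ∈ q := by
      have := hlq (Fin.last i)
      rwa [Fin.snoc_last] at this
    obtain ⟨p, hp, hpq⟩ := Ideal.exists_minimalPrimes_le hJq
    by_cases hmp : idealOfVars σ K ≤ p
    · exact Or.inl (hmp.trans hpq)
    · right
      have hup : lin u ∉ p := by
        intro h
        apply hu
        simp only [Set.mem_iUnion]
        refine ⟨linsub p, ?_, h⟩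
        rw [hS, Finset.mem_image]
        exact ⟨p, by rw [Finset.mem_filter, Set.Finite.mem_toFinset]; exact ⟨hp, hmp⟩, rfl⟩
      have hpl := (hl p hp.1.1 (le_sup_left.trans hp.1.2) (fun j => hp.1.2
        (Ideal.mem_sup_right (Ideal.subset_span ⟨j, rfl⟩)))).resolve_left hmp
      have hpp := hp.1.1
      have h1 : ringKrullDim (MvPolynomial σ K ⧸ q) + 1 ≤ ringKrullDim (MvPolynomial σ K ⧸ p) := by
        apply ringKrullDim_succ_le_of_surjective (Ideal.Quotient.factor hpq)
          (Ideal.Quotient.factor_surjective hpq) (r := Ideal.Quotient.mk p (lin u))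
        · rw [mem_nonZeroDivisors_iff_ne_zero]
          intro h
          exact hup (Ideal.Quotient.eq_zero_iff_mem.1 h)
        · rw [Ideal.Quotient.factor_mk]
          exact Ideal.Quotient.eq_zero_iff_mem.2 huq
      calc ringKrullDim (MvPolynomial σ K ⧸ q) + ((i + 1 : ℕ) : WithBot ℕ∞)
          = (ringKrullDim (MvPolynomial σ K ⧸ q) + 1) + (i : WithBot ℕ∞) := by
            push_cast
            rw [add_assoc, add_comm (1 : WithBot ℕ∞)]
        _ ≤ ringKrullDim (MvPolynomial σ K ⧸ p) + (i : WithBot ℕ∞) := by gcongr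
        _ ≤ D := hpl

/-- **Linear forms without common zeros.** -/
theorem exists_lin_zero' [Infinite K] (D : ℕ) (J0 : Ideal (MvPolynomial σ K))
    (hD : ∀ q : Ideal (MvPolynomial σ K), q.IsPrime → J0 ≤ q → idealOfVars σ K ≤ q ∨
      ringKrullDim (MvPolynomial σ K ⧸ q) ≤ (D : WithBot ℕ∞)) :
    ∃ l : Fin D → σ → K, ∀ x : σ → K, (∀ t : K, t • x ∈ cone J0) →
      (∀ j, dotB σ K (l j) x = 0) → x = 0 := by
  classical
  obtain ⟨l, hl⟩ := exists_cut' D J0 hD D
  refine ⟨l, fun x hx hlx => ?_⟩
  by_contra hx0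
  obtain ⟨a, ha⟩ := Function.ne_iff.1 hx0
  let φ : MvPolynomial σ K →ₐ[K] Polynomial K :=
    aeval (fun i => Polynomial.X * Polynomial.C (x i))
  have hφ : ∀ F t, (φ F).eval t = eval (t • x) F := by
    intro F t
    have : (Polynomial.evalRingHom t).comp (φ : MvPolynomial σ K →+* Polynomial K) =
        eval (t • x) := by
      apply MvPolynomial.ringHom_ext
      · intro c; simp [φ]
      · intro i
        simp [φ]
        exact mul_comm _ _
    exact RingHom.congr_fun this F
  set q := RingHom.ker (φ : MvPolynomial σ K →+* Polynomial K) with hq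
  have hqp : q.IsPrime := RingHom.ker_isPrime _
  have hIq : J0 ≤ q := by
    intro F hF
    rw [hq, RingHom.mem_ker]
    apply Polynomial.funext
    intro t
    have h1 : (φ F).eval t = 0 := by
      rw [hφ]
      exact hx t F hF
    simpa using h1
  have hlq : ∀ j, lin (l j) ∈ q := by
    intro j
    rw [hq, RingHom.mem_ker]
    apply Polynomial.funext
    intro t
    have h1 : (φ (lin (l j))).eval t = 0 := by
      rw [hφ, eval_lin, map_smul, hlx j, smul_zero]
    simpa using h1
  have haq : X a ∉ q := by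
    intro h
    rw [hq, RingHom.mem_ker] at h
    have h1 : (φ (X a)).eval 1 = 0 := by
      have : φ (X a) = 0 := h
      rw [this, Polynomial.eval_zero]
    rw [hφ, one_smul, eval_X] at h1
    exact ha h1
  have hqm : q ≤ idealOfVars σ K := by
    intro F hF
    rw [mem_idealOfVars]
    have h0 : φ F = 0 := hF
    have h1 : (φ F).eval 0 = 0 := by rw [h0, Polynomial.eval_zero]
    rwa [hφ, zero_smul] at h1
  rcases hl q hqp hIq hlq with h | h
  · exact haq (h (Ideal.subset_span ⟨a, rfl⟩))
  · have hmp := vars_prime (σ := σ) (K := K)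
    have h1 : ringKrullDim (MvPolynomial σ K ⧸ idealOfVars σ K) + 1 ≤
        ringKrullDim (MvPolynomial σ K ⧸ q) := by
      apply ringKrullDim_succ_le_of_surjective (Ideal.Quotient.factor hqm)
        (Ideal.Quotient.factor_surjective hqm) (r := Ideal.Quotient.mk q (X a))
      · rw [mem_nonZeroDivisors_iff_ne_zero]
        intro h
        exact haq (Ideal.Quotient.eq_zero_iff_mem.1 h)
      · rw [Ideal.Quotient.factor_mk]
        exact Ideal.Quotient.eq_zero_iff_mem.2 (Ideal.subset_span ⟨a, rfl⟩)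
    have h2 : (0 : WithBot ℕ∞) ≤ ringKrullDim (MvPolynomial σ K ⧸ idealOfVars σ K) :=
      ringKrullDim_nonneg_of_nontrivial
    have h3 : (1 : WithBot ℕ∞) ≤ ringKrullDim (MvPolynomial σ K ⧸ q) := by
      calc (1 : WithBot ℕ∞) = 0 + 1 := by rw [zero_add]
        _ ≤ ringKrullDim (MvPolynomial σ K ⧸ idealOfVars σ K) + 1 := by gcongr
        _ ≤ _ := h1
    have h4 : (1 : WithBot ℕ∞) + (D : WithBot ℕ∞) ≤ (D : WithBot ℕ∞) := by
      refine le_trans ?_ h
      gcongr
    have h5 : (((1 + D : ℕ) : ℕ∞) : WithBot ℕ∞) ≤ ((D : ℕ∞) : WithBot ℕ∞) := by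
      push_cast
      exact h4
    have h6 : (1 + D : ℕ) ≤ D := by exact_mod_cast h5
    omega

/-- The linear forms `l` are a regular sequence modulo `I`. -/
def RegLin (I : Ideal (MvPolynomial σ K)) {d : ℕ} (l : Fin d → σ → K) : Prop :=
  ∀ (j : Fin d) (F : MvPolynomial σ K),
    lin (l j) * F ∈ I ⊔ Ideal.span ((fun i => lin (l i)) '' {i | i < j}) →
    F ∈ I ⊔ Ideal.span ((fun i => lin (l i)) '' {i | i < j})

/-- The cone is Cohen-Macaulay, of dimension `d`: linear systems of parameters are regular. -/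
def ACM (I : Ideal (MvPolynomial σ K)) (d : ℕ) : Prop :=
  ∀ l : Fin d → σ → K, (∀ x ∈ cone I, (∀ j, dotB σ K (l j) x = 0) → x = 0) → RegLin I l

omit [DecidableEq σ] in
/-- elements of `I` in the ideal generated by a regular sequence -/
lemma RegLin.mem {k : ℕ} {l : Fin k → σ → K} (h : RegLin I l) :
    ∀ m ≤ k, ∀ g ∈ I, g ∈ Ideal.span ((fun i => lin (l i)) '' {i | i.1 < m}) →
      g ∈ I * Ideal.span (Set.range (fun i => lin (l i))) := by
  classical
  intro m
  induction m with
  | zero =>
    intro _ g _ hg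
    have h1 : ((fun i => lin (l i)) '' {i : Fin k | i.1 < 0}) = ∅ := by simp
    rw [h1, Ideal.span_empty, Ideal.mem_bot] at hg
    rw [hg]
    exact Ideal.zero_mem _
  | succ m ih =>
    intro hm g hgI hg
    have h1 : {i : Fin k | i.1 < m + 1} = insert (⟨m, by omega⟩ : Fin k) {i : Fin k | i.1 < m} := by
      ext i
      simp only [Set.mem_ofPred_eq, Set.mem_insert_iff, Fin.ext_iff]
      omega
    rw [h1, Set.image_insert_eq, Ideal.span_insert] at hg
    obtain ⟨p, hp, s, hs, hps⟩ := Submodule.mem_sup.1 hg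
    obtain ⟨a, rfl⟩ := Ideal.mem_span_singleton'.1 hp
    have h2 : {i : Fin k | i < (⟨m, by omega⟩ : Fin k)} = {i : Fin k | i.1 < m} := by
      ext i
      simp [Fin.lt_def]
    have h3 : a ∈ I ⊔ Ideal.span ((fun i => lin (l i)) '' {i : Fin k | i.1 < m}) := by
      have h4 := h ⟨m, by omega⟩ a
      rw [h2] at h4
      apply h4
      have h5 : lin (l ⟨m, by omega⟩) * a = g - s := by rw [← hps]; ring
      rw [h5]
      exact Ideal.sub_mem _ (Ideal.mem_sup_left hgI) (Ideal.mem_sup_right hs)
    obtain ⟨a1, ha1, s1, hs1, has⟩ := Submodule.mem_sup.1 h3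
    have h6 : g = (s + s1 * lin (l ⟨m, by omega⟩)) + a1 * lin (l ⟨m, by omega⟩) := by
      rw [← hps, ← has]; ring
    have h7 : s + s1 * lin (l ⟨m, by omega⟩) ∈
        Ideal.span ((fun i => lin (l i)) '' {i : Fin k | i.1 < m}) :=
      Ideal.add_mem _ hs (Ideal.mul_mem_right _ _ hs1)
    have h8 : s + s1 * lin (l ⟨m, by omega⟩) ∈ I := by
      have : s + s1 * lin (l ⟨m, by omega⟩) = g - a1 * lin (l ⟨m, by omega⟩) := by
        rw [eq_sub_iff_add_eq]; exact h6.symm
      rw [this]
      exact I.sub_mem hgI (I.mul_mem_right _ ha1)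
    rw [h6]
    exact Ideal.add_mem _ (ih (by omega) _ h8 h7)
      (Ideal.mul_mem_mul ha1 (Ideal.subset_span ⟨_, rfl⟩))

omit [DecidableEq σ] in
/-- part of a linear system of parameters -/
lemma ACM.initSeg {d : ℕ} (h : ACM I d) {k : ℕ} (hk : k ≤ d) (l : Fin k → σ → K)
    (l' : Fin (d - k) → σ → K)
    (hz : ∀ x ∈ cone I, (∀ j, dotB σ K (l j) x = 0) → (∀ j, dotB σ K (l' j) x = 0) → x = 0) :
    RegLin I l := by
  classical
  let L : Fin d → σ → K := fun i => if hi : i.1 < k then l ⟨i.1, hi⟩ else l' ⟨i.1 - k, by omega⟩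
  have hL : ∀ i : Fin k, L ⟨i.1, by omega⟩ = l i := by
    intro i
    simp [L]
  have hL' : ∀ j : Fin (d - k), L ⟨k + j.1, by omega⟩ = l' j := by
    intro j
    simp [L]
  have hreg := h L (fun x hx hLx => hz x hx (fun j => by rw [← hL]; exact hLx _)
    (fun j => by rw [← hL']; exact hLx _))
  intro j F hF
  have h1 : (fun i => lin (l i)) '' {i | i < j} =
      (fun i => lin (L i)) '' {i | i < (⟨j.1, by omega⟩ : Fin d)} := by
    ext p
    constructor
    · rintro ⟨i, hi, rfl⟩
      refine ⟨⟨i.1, by omega⟩, hi, ?_⟩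
      simp only [hL]
    · rintro ⟨i, hi, rfl⟩
      have hi' : i.1 < j.1 := hi
      refine ⟨⟨i.1, by omega⟩, hi', ?_⟩
      simp only [← hL]
  rw [h1] at hF ⊢
  have h2 := hreg ⟨j.1, by omega⟩ F
  rw [hL] at h2
  exact h2 hF

/-- **Regular sequences** in a subspace which does not meet the space of the linear forms in `I`. -/
theorem regLin_of_disjoint [IsAlgClosed K] [CharZero K] (hI : SCone I r)
    (hcm : ACM I (Fintype.card σ - r)) {k : ℕ} (hk : k ≤ 2 * r) (hcard : 6 * r ≤ Fintype.card σ)
    (u : Fin k → σ → K) (hu : LinearIndependent K u)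
    (hu0 : ∀ v ∈ Submodule.span K (Set.range u), lin v ∈ I → v = 0) : RegLin I u := by
  classical
  have : Infinite K := IsAlgClosed.instInfinite
  set J0 : Ideal (MvPolynomial σ K) := I ⊔ Ideal.span (Set.range (fun i => lin (u i))) with hJ0
  have hle : ∀ q : Ideal (MvPolynomial σ K), I ≤ q → (∀ i, lin (u i) ∈ q) → J0 ≤ q := by
    intro q h1 h2
    rw [hJ0, sup_le_iff]
    refine ⟨h1, ?_⟩
    rw [Ideal.span_le]
    rintro _ ⟨i, rfl⟩
    exact h2 i
  have hdim : ∀ q : Ideal (MvPolynomial σ K), q.IsPrime → J0 ≤ q → idealOfVars σ K ≤ q ∨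
      ringKrullDim (MvPolynomial σ K ⧸ q) ≤
        ((Fintype.card σ - r - k : ℕ) : WithBot ℕ∞) := by
    intro q hq hJq
    obtain ⟨Q, hQ, hQq⟩ := Ideal.exists_minimalPrimes_le hJq
    by_cases hmQ : idealOfVars σ K ≤ Q
    · exact Or.inl (hmQ.trans hQq)
    right
    obtain ⟨S, hSQ, hS⟩ := exists_sep_min _ Q hQ
    have hcomp : Comp I u Q S :=
      { prime := hQ.1.1
        le := le_sup_left.trans hQ.1.2
        lin := fun i => hQ.1.2 (Ideal.mem_sup_right (Ideal.subset_span ⟨i, rfl⟩))
        ne := hmQ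
        notMem := hSQ
        sep := by
          intro Q' hQ' h1 h2 hSQ'
          obtain ⟨P', hP', hPQ'⟩ := Ideal.exists_minimalPrimes_le (hle Q' h1 h2)
          by_cases hne : P' = Q
          · rw [← hne]; exact hPQ'
          · exact absurd (hPQ' (hS P' hP' hne)) hSQ' }
    have hfinU : Module.finrank K (Submodule.span K (Set.range u)) = k := by
      rw [finrank_span_eq_card hu, Fintype.card_fin]
    obtain ⟨x, hx, hx0, -, hxU⟩ := exists_transversal hI u hcomp k
      (Submodule.span K (Set.range u)) hu0 hfinU.le (by omega)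
    have hxI : x ∈ cone I := fun H hH => hx H (hcomp.le hH)
    have h1 := dim_quot_le Q hQ.1.1 x hx
    have h2 : r + k ≤ Module.finrank K (conormal Q x) := by
      have h3 : conormal I x ⊔ Submodule.span K (Set.range u) ≤ conormal Q x := by
        rw [sup_le_iff]
        constructor
        · rw [conormal, Submodule.span_le]
          rintro _ ⟨H, hH, rfl⟩
          exact grad_mem Q x (hcomp.le hH)
        · rw [Submodule.span_le]
          rintro _ ⟨i, rfl⟩
          have := grad_mem Q x (hcomp.lin i)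
          rwa [grad_lin] at this
      have h4 := Submodule.finrank_mono h3
      have h5 := Submodule.finrank_sup_add_finrank_inf_eq (conormal I x)
        (Submodule.span K (Set.range u))
      have h6 : conormal I x ⊓ Submodule.span K (Set.range u) = ⊥ := by
        rw [eq_bot_iff]
        rintro ξ ⟨h7, h8⟩
        exact (Submodule.mem_bot K).2 (hxU ξ h7 h8)
      rw [h6, finrank_bot, add_zero, hI.rank x hxI hx0, hfinU] at h5
      omega
    have h3 := ringKrullDim_le_of_surjective (Ideal.Quotient.factor hQq)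
      (Ideal.Quotient.factor_surjective hQq)
    refine h3.trans (h1.trans ?_)
    have h4 : Fintype.card σ - Module.finrank K (conormal Q x) ≤ Fintype.card σ - r - k := by omega
    exact_mod_cast h4
  obtain ⟨l', hl'⟩ := exists_lin_zero' _ J0 hdim
  refine hcm.initSeg (by omega) u l' (fun x hx h1 h2 => ?_)
  apply hl' x _ h2
  intro t H hH
  have h3 : cone J0 = {z | z ∈ cone I ∧ ∀ i, dotB σ K (u i) z = 0} := by
    ext z
    constructor
    · intro hz
      refine ⟨fun H hH => hz H (Ideal.mem_sup_left hH), fun i => ?_⟩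
      rw [← eval_lin]
      exact hz _ (Ideal.mem_sup_right (Ideal.subset_span ⟨i, rfl⟩))
    · rintro ⟨hz1, hz2⟩ H hH
      have hker : J0 ≤ RingHom.ker (eval z : MvPolynomial σ K →+* K) := by
        apply hle
        · exact fun G hG => hz1 G hG
        · intro i
          rw [RingHom.mem_ker, eval_lin]
          exact hz2 i
      exact hker hH
  have h4 : t • x ∈ cone J0 := by
    rw [h3]
    refine ⟨cone_smul I hI.homog t x hx, fun i => ?_⟩
    rw [map_smul, h1 i, smul_zero]
  exact h4 H hH

end Pool.Agent.J4.H17.CI
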