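import Pool.Agent.J4.H17.CI.E4

/-!
# Minimal generators of degree at most three have independent gradients
-/

set_option autoImplicit false
set_option maxHeartbeats 400000

namespace Pool.Agent.J4.H17.CI

open MvPolynomial Pool.Agent.H929R2.Hart

variable {σ : Type} [Fintype σ] [DecidableEq σ] {K : Type} [Field K]
variable {I : Ideal (MvPolynomial σ K)} {r : ℕ}

omit [DecidableEq σ] in
lemma homog_mem_vars {p : MvPolynomial σ K} {e : ℕ} (he : 1 ≤ e) (hp : p.IsHomogeneous e) :
    p ∈ idealOfVars σ K := by
  rw [mem_idealOfVars]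
  have h1 : eval 0 p = coeff 0 p := by
    rw [MvPolynomial.eval_zero]
    rfl
  rw [h1]
  by_contra hne
  have h2 := hp hne
  simp at h2
  omega

/-- **Forms of degree at most three in `I` which are singular at a point of the variety** are not
minimal generators. -/
theorem sing_mem [IsAlgClosed K] [CharZero K] (hI : SCone I r)
    (hcm : ACM I (Fintype.card σ - r)) (hcard : 6 * r ≤ Fintype.card σ)
    (g : MvPolynomial σ K) (e : ℕ) (he : e ≤ 3) (hg : g ∈ I) (hgh : g.IsHomogeneous e)
    (x0 : σ → K) (hx0 : x0 ∈ cone I) (hx00 : x0 ≠ 0) (hgrad : grad g x0 = 0) :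
    g ∈ idealOfVars σ K * I := by
  classical
  have : Infinite K := IsAlgClosed.instInfinite
  rcases Nat.lt_or_ge e 2 with he2 | he2
  · have h0 : g = 0 := by
      rcases Nat.lt_or_ge e 1 with he1 | he1
      · have he0 : e = 0 := by omega
        rw [he0] at hgh
        have h2 : g = C (coeff 0 g) := by
          rw [← homogeneousComponent_zero, homogeneousComponent_eq_self hgh]
        have h3 := hx0 g hg
        rw [h2, eval_C] at h3
        rw [h2, h3, map_zero]
      · have he0 : e = 1 := by omega
        rw [he0] at hgh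
        have h1 := hgh.sum_X_mul_pderiv
        rw [one_smul] at h1
        rw [← h1]
        refine Finset.sum_eq_zero (fun i _ => ?_)
        have h2 : (pderiv i g).IsHomogeneous 0 := hgh.pderiv
        have h3 : pderiv i g = C (coeff 0 (pderiv i g)) := by
          rw [← homogeneousComponent_zero, homogeneousComponent_eq_self h2]
        have h4 := congrFun hgrad i
        rw [grad, h3, eval_C, Pi.zero_apply] at h4
        rw [h3, h4, map_zero, mul_zero]
    rw [h0]
    exact Ideal.zero_mem _
  obtain ⟨e', rfl⟩ : ∃ e', e = e' + 1 := ⟨e - 1, by omega⟩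
  obtain ⟨N0, hN0, hvan⟩ := sing_form hI g (e' + 1) (by omega) hg hgh x0 hx0 hx00 hgrad
  obtain ⟨C0, hC0⟩ := Submodule.exists_isCompl (N0 ⊓ linsub I)
  set A := N0 ⊓ linsub I with hA
  set U := C0 ⊓ N0 with hU
  have hAN : A ≤ N0 := inf_le_left
  have hUA : U ⊓ A = ⊥ := by
    rw [eq_bot_iff, ← hC0.inf_eq_bot, hU]
    exact fun v hv => ⟨hv.2, hv.1.1⟩
  have hUA' : A ⊔ U = N0 := by
    rw [hU, ← sup_inf_assoc_of_le C0 hAN, hC0.sup_eq_top, top_inf_eq]
  set k := Module.finrank K U with hk
  have hk2 : k ≤ 2 * r := (Submodule.finrank_mono (inf_le_right : U ≤ N0)).trans hN0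
  let bU := Module.finBasisOfFinrankEq K U (n := k) rfl
  let bA := Module.finBasisOfFinrankEq K A (n := Module.finrank K A) rfl
  let u : Fin k → σ → K := fun i => (bU i : σ → K)
  let lam : Fin (Module.finrank K A) → σ → K := fun i => (bA i : σ → K)
  have hu : LinearIndependent K u := bU.linearIndependent.map' U.subtype (Submodule.ker_subtype U)
  have hlam : LinearIndependent K lam :=
    bA.linearIndependent.map' A.subtype (Submodule.ker_subtype A)
  have huU : Submodule.span K (Set.range u) = U := by
    have h1 : Set.range u = U.subtype '' Set.range bU := by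
      rw [← Set.range_comp]; rfl
    rw [h1, ← Submodule.map_span, bU.span_eq, Submodule.map_top, Submodule.range_subtype]
  have hlamA : Submodule.span K (Set.range lam) = A := by
    have h1 : Set.range lam = A.subtype '' Set.range bA := by
      rw [← Set.range_comp]; rfl
    rw [h1, ← Submodule.map_span, bA.span_eq, Submodule.map_top, Submodule.range_subtype]
  have hnind : LinearIndependent K (Sum.elim u lam) := by
    apply LinearIndependent.sum_type hu hlam
    rw [huU, hlamA, disjoint_iff]
    exact hUA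
  have hgspan : g ∈ Ideal.span (Set.range (fun i => lin (Sum.elim u lam i))) := by
    apply mem_span_lin _ hnind
    intro w hw
    apply hvan
    intro ξ hξ
    rw [← hUA', ← huU, ← hlamA] at hξ
    obtain ⟨a, ha, b, hb, rfl⟩ := Submodule.mem_sup.1 hξ
    rw [map_add, LinearMap.add_apply]
    have h1 : ∀ (m : ℕ) (v : Fin m → σ → K), (∀ i, dotB σ K (v i) w = 0) →
        ∀ ξ ∈ Submodule.span K (Set.range v), dotB σ K ξ w = 0 := by
      intro m v hv ξ hξ
      induction hξ using Submodule.span_induction with
      | mem x hx => obtain ⟨i, rfl⟩ := hx; exact hv i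
      | zero => rw [map_zero, LinearMap.zero_apply]
      | add x y _ _ hx hy => rw [map_add, LinearMap.add_apply, hx, hy, add_zero]
      | smul c x _ hx => rw [map_smul, LinearMap.smul_apply, hx, smul_zero]
    rw [h1 _ lam (fun i => hw (Sum.inr i)) a ha, h1 _ u (fun i => hw (Sum.inl i)) b hb, add_zero]
  obtain ⟨c, hch, hgc⟩ := homog_coeff _ g e' hgh hgspan
  rw [Fintype.sum_sum_type] at hgc
  simp only [Sum.elim_inl, Sum.elim_inr] at hgc
  have hlamI : ∀ i, lin (lam i) ∈ I := fun i => (bA i).2.2
  have h2 : ∑ i, c (Sum.inr i) * lin (lam i) ∈ idealOfVars σ K * I :=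
    Ideal.sum_mem _ (fun i _ => Ideal.mul_mem_mul (homog_mem_vars (by omega) (hch _)) (hlamI i))
  have hreg : RegLin I u := regLin_of_disjoint hI hcm hk2 hcard u hu (by
    intro v hv hvI
    rw [huU] at hv
    have h4 : v ∈ U ⊓ A := ⟨hv, hv.2, hvI⟩
    rw [hUA] at h4
    exact (Submodule.mem_bot K).1 h4)
  have h1 : ∑ i, c (Sum.inl i) * lin (u i) ∈
      Ideal.span ((fun i => lin (u i)) '' {i : Fin k | i.1 < k}) := by
    have h5 : {i : Fin k | i.1 < k} = Set.univ := by
      ext i; simp
    rw [h5, Set.image_univ]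
    exact Ideal.sum_mem _ (fun i _ => Ideal.mul_mem_left _ _ (Ideal.subset_span ⟨i, rfl⟩))
  have h6 : Ideal.span (Set.range (fun i => lin (u i))) ≤ idealOfVars σ K := by
    rw [Ideal.span_le]
    rintro _ ⟨i, rfl⟩
    exact lin_mem _
  clear_value u lam
  generalize (∑ i, c (Sum.inl i) * lin (u i)) = s1 at hgc h1
  generalize (∑ i, c (Sum.inr i) * lin (lam i)) = s2 at hgc h2
  have h2I : s2 ∈ I := (Ideal.mul_le_right : idealOfVars σ K * I ≤ I) h2
  have h3 : s1 ∈ I := by
    have : s1 = g - s2 := by rw [hgc, add_sub_cancel_right]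
    rw [this]
    exact I.sub_mem hg h2I
  have h4 := hreg.mem k le_rfl _ h3 h1
  have h7 : s1 ∈ idealOfVars σ K * I := by
    rw [mul_comm]
    exact Ideal.mul_mono_right h6 h4
  rw [hgc]
  exact Ideal.add_mem _ h7 h2

end Pool.Agent.J4.H17.CI
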