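import Pool.Agent.J4.H17.CI.E5

/-!
# Varieties with enough cubic equations at one point
-/

set_option autoImplicit false
set_option maxHeartbeats 400000

namespace Pool.Agent.J4.H17.CI

open MvPolynomial Pool.Agent.H929R2.Hart

variable {σ : Type} [Fintype σ] [DecidableEq σ] {K : Type} [Field K]
variable {I : Ideal (MvPolynomial σ K)} {r : ℕ}

/-- homogeneous elements of degree at most `D` which are part of a minimal system of generators -/
structure MinFam (I : Ideal (MvPolynomial σ K)) (D : ℕ) {s : ℕ} (G : Fin s → MvPolynomial σ K)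
    (d : Fin s → ℕ) : Prop where
  mem : ∀ i, G i ∈ I
  hom : ∀ i, (G i).IsHomogeneous (d i)
  le : ∀ i, d i ≤ D
  min : ∀ (e : ℕ) (c : Fin s → K), (∀ i, d i ≠ e → c i = 0) →
    ∑ i, C (c i) * G i ∈ idealOfVars σ K * I → ∀ i, c i = 0

/-- **Independent gradients.** -/
theorem MinFam.indep [IsAlgClosed K] [CharZero K] (hI : SCone I r)
    (hcm : ACM I (Fintype.card σ - r)) (hcard : 6 * r ≤ Fintype.card σ) {s : ℕ}
    {G : Fin s → MvPolynomial σ K} {d : Fin s → ℕ} (h : MinFam I 3 G d) (x : σ → K)
    (hx : x ∈ cone I) (hx0 : x ≠ 0) : LinearIndependent K (fun i => grad (G i) x) := by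
  classical
  rw [Fintype.linearIndependent_iff]
  by_contra hcon
  push Not at hcon
  obtain ⟨c, hc, i0, hi0⟩ := hcon
  -- the largest degree
  have hne : (Finset.univ.filter (fun i => c i ≠ 0)).Nonempty :=
    ⟨i0, by rw [Finset.mem_filter]; exact ⟨Finset.mem_univ _, hi0⟩⟩
  obtain ⟨i1, hi1, hmax⟩ := Finset.exists_max_image _ d hne
  rw [Finset.mem_filter] at hi1
  set e := d i1 with he
  have hle : ∀ i, c i ≠ 0 → d i ≤ e := fun i hi =>
    hmax i (by rw [Finset.mem_filter]; exact ⟨Finset.mem_univ _, hi⟩)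
  obtain ⟨a, ha⟩ := Function.ne_iff.1 hx0
  set w : σ → K := Pi.single a (x a)⁻¹ with hw
  have hwx : dotB σ K w x = 1 := by
    rw [dotB_apply, Finset.sum_eq_single a]
    · simp only [w, Pi.single_eq_same]
      exact inv_mul_cancel₀ ha
    · intro k _ hk
      rw [hw, Pi.single_apply, if_neg hk, zero_mul]
    · intro h; exact absurd (Finset.mem_univ _) h
  let T : Fin s → MvPolynomial σ K := fun i => C (c i) * (lin w ^ (e - d i) * G i)
  have hTI : ∀ i, T i ∈ I := fun i => I.mul_mem_left _ (I.mul_mem_left _ (h.mem i))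
  have hTh : ∀ i, (T i).IsHomogeneous e := by
    intro i
    by_cases hi : c i = 0
    · simp only [T, hi, map_zero, zero_mul]
      exact isHomogeneous_zero _ _ _
    · have h1 := ((lin_homog w).pow (e - d i)).mul (h.hom i)
      rw [one_mul, Nat.sub_add_cancel (hle i hi)] at h1
      have h2 := (isHomogeneous_C σ (c i)).mul h1
      rwa [zero_add] at h2
  have hgrad : ∀ i, grad (T i) x = c i • grad (G i) x := by
    intro i
    simp only [T]
    rw [grad_C_mul, grad_mul, map_pow, eval_lin, hwx, one_pow, one_smul, hx _ (h.mem i),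
      zero_smul, zero_add]
  have hsum : ∑ i, T i ∈ idealOfVars σ K * I := by
    apply sing_mem hI hcm hcard _ e (h.le i1) (I.sum_mem (fun i _ => hTI i))
      (IsHomogeneous.sum _ _ _ (fun i _ => hTh i)) x hx hx0
    rw [grad_sum, Finset.sum_congr rfl (fun i _ => hgrad i), hc]
  let c' : Fin s → K := fun i => if d i = e then c i else 0
  have hc' : ∑ i, C (c' i) * G i ∈ idealOfVars σ K * I := by
    have h1 : ∀ i, C (c' i) * G i = T i - (if d i = e then 0 else T i) := by
      intro i
      by_cases hi : d i = e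
      · simp [c', T, hi]
      · simp [c', hi]
    rw [Finset.sum_congr rfl (fun i _ => h1 i), Finset.sum_sub_distrib]
    refine Ideal.sub_mem _ hsum (Ideal.sum_mem _ (fun i _ => ?_))
    split_ifs with hi
    · exact Ideal.zero_mem _
    · by_cases hci : c i = 0
      · simp only [T, hci, map_zero, zero_mul]
        exact Ideal.zero_mem _
      · have h2 : T i = (C (c i) * lin w ^ (e - d i)) * G i := by simp only [T]; ring
        rw [h2]
        apply Ideal.mul_mem_mul _ (h.mem i)
        apply Ideal.mul_mem_left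
        apply Ideal.pow_mem_of_mem _ (lin_mem w)
        have := hle i hci
        omega
  have h3 := h.min e c' (fun i hi => by simp [c', hi]) hc' i1
  simp only [c', he, if_true] at h3
  exact hi1.2 h3

omit [DecidableEq σ] in
lemma exists_sum_X (H : MvPolynomial σ K) (hH : H ∈ idealOfVars σ K * I) :
    ∃ b : σ → MvPolynomial σ K, (∀ j, b j ∈ I) ∧ H = ∑ j, X j * b j := by
  classical
  refine Submodule.mul_induction_on hH ?_ ?_
  · intro m hm n hn
    rw [idealOfVars] at hm
    obtain ⟨c, hc⟩ := (Ideal.mem_span_range_iff_exists_fun).1 hm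
    refine ⟨fun j => c j * n, fun j => I.mul_mem_left _ hn, ?_⟩
    rw [← hc, Finset.sum_mul]
    exact Finset.sum_congr rfl (fun j _ => by ring)
  · rintro x y ⟨b, hb, rfl⟩ ⟨b', hb', rfl⟩
    refine ⟨fun j => b j + b' j, fun j => I.add_mem (hb j) (hb' j), ?_⟩
    rw [← Finset.sum_add_distrib]
    exact Finset.sum_congr rfl (fun j _ => by ring)

/-- a maximal family spans -/
theorem MinFam.spans {D s : ℕ} {G : Fin s → MvPolynomial σ K} {d : Fin s → ℕ}
    (h : MinFam I D G d)
    (hmax : ¬ ∃ (G' : Fin (s + 1) → MvPolynomial σ K) (d' : Fin (s + 1) → ℕ), MinFam I D G' d')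
    (e : ℕ) (heD : e ≤ D) (F : MvPolynomial σ K) (hF : F ∈ I) (hFh : F.IsHomogeneous e) :
    ∃ c : Fin s → K, (∀ i, d i ≠ e → c i = 0) ∧ F - ∑ i, C (c i) * G i ∈ idealOfVars σ K * I := by
  classical
  by_contra hcon
  push Not at hcon
  apply hmax
  refine ⟨Fin.cons F G, Fin.cons e d, ?_, ?_, ?_, ?_⟩
  · intro i
    refine Fin.cases ?_ (fun i => ?_) i
    · exact hF
    · exact h.mem i
  · intro i
    refine Fin.cases ?_ (fun i => ?_) i
    · exact hFh
    · exact h.hom i
  · intro i
    refine Fin.cases ?_ (fun i => ?_) i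
    · exact heD
    · exact h.le i
  · intro e' c' hc' hsum
    rw [Fin.sum_univ_succ] at hsum
    simp only [Fin.cons_zero, Fin.cons_succ] at hsum
    have h0 : c' 0 = 0 := by
      by_contra h0
      have hee : e = e' := by
        by_contra hne
        exact h0 (hc' 0 hne)
      subst hee
      apply hcon (fun i => - ((c' 0)⁻¹ * c' i.succ)) (fun i hi => by
        rw [hc' i.succ hi, mul_zero, neg_zero])
      have h1 := Ideal.mul_mem_left _ (C (c' 0)⁻¹) hsum
      have h2 : C (c' 0)⁻¹ * (C (c' 0) * F + ∑ i : Fin s, C (c' i.succ) * G i) =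
          F - ∑ i, C (-((c' 0)⁻¹ * c' i.succ)) * G i := by
        rw [mul_add, ← mul_assoc, ← map_mul, inv_mul_cancel₀ h0, map_one, one_mul,
          Finset.mul_sum, sub_eq_add_neg, ← Finset.sum_neg_distrib]
        congr 1
        refine Finset.sum_congr rfl (fun i _ => ?_)
        rw [map_neg, map_mul]
        ring
      rwa [h2] at h1
    rw [h0, map_zero, zero_mul, zero_add] at hsum
    have h1 := h.min e' (fun i => c' i.succ) (fun i hi => hc' i.succ hi) hsum
    intro i
    refine Fin.cases ?_ (fun i => ?_) i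
    · exact h0
    · exact h1 i

/-- gradients of the forms of degree at most `D` -/
theorem MinFam.grads {D s : ℕ} {G : Fin s → MvPolynomial σ K} {d : Fin s → ℕ}
    (hom : ∀ F ∈ I, ∀ d, homogeneousComponent d F ∈ I)
    (h : MinFam I D G d)
    (hmax : ¬ ∃ (G' : Fin (s + 1) → MvPolynomial σ K) (d' : Fin (s + 1) → ℕ), MinFam I D G' d')
    (x : σ → K) (hx : x ∈ cone I) :
    ∀ (e : ℕ), e ≤ D → ∀ F ∈ I, F.IsHomogeneous e →
      grad F x ∈ Submodule.span K (Set.range (fun i => grad (G i) x)) := by
  classical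
  intro e
  induction e with
  | zero =>
    intro _ F hF hFh
    have h2 : F = C (coeff 0 F) := by
      rw [← homogeneousComponent_zero, homogeneousComponent_eq_self hFh]
    have h3 : grad F x = 0 := by
      rw [h2]
      funext i; simp [grad]
    rw [h3]
    exact Submodule.zero_mem _
  | succ e ih =>
    intro heD F hF hFh
    obtain ⟨c, hc, hH⟩ := h.spans hmax (e + 1) heD F hF hFh
    obtain ⟨b, hb, hHb⟩ := exists_sum_X _ hH
    have hHh : (F - ∑ i, C (c i) * G i).IsHomogeneous (e + 1) := by
      apply hFh.sub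
      apply IsHomogeneous.sum
      intro i _
      by_cases hi : d i = e + 1
      · have := (isHomogeneous_C σ (c i)).mul (h.hom i)
        rwa [zero_add, hi] at this
      · rw [hc i hi, map_zero, zero_mul]
        exact isHomogeneous_zero _ _ _
    have hH2 : F - ∑ i, C (c i) * G i = ∑ j, X j * homogeneousComponent e (b j) := by
      conv_lhs => rw [← homogeneousComponent_eq_self hHh, hHb, map_sum]
      refine Finset.sum_congr rfl (fun j _ => ?_)
      rw [add_comm e 1, H503R3.QCI.comp_mul (isHomogeneous_X K j)]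
    have hF2 : F = ∑ i, C (c i) * G i + ∑ j, X j * homogeneousComponent e (b j) := by
      rw [← hH2]; ring
    rw [hF2, grad_add, grad_sum, grad_sum]
    apply Submodule.add_mem
    · refine Submodule.sum_mem _ (fun i _ => ?_)
      rw [grad_C_mul]
      exact Submodule.smul_mem _ _ (Submodule.subset_span ⟨i, rfl⟩)
    · refine Submodule.sum_mem _ (fun j _ => ?_)
      have hbI := hom _ (hb j) e
      rw [grad_mul, hx _ hbI, zero_smul, zero_add]
      exact Submodule.smul_mem _ _ (ih (by omega) _ hbI (homogeneousComponent_isHomogeneous _ _))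

/-- **Main theorem.** -/
theorem cubic_main {n r : ℕ} {K : Type} [Field K] [IsAlgClosed K] [CharZero K]
    {I : Ideal (MvPolynomial (Fin n) K)} (hI : SCone I r) (hcm : ACM I (n - r))
    (hcard : 6 * r ≤ n) (hn : 1 ≤ n) (x1 : Fin n → K) (hx1 : x1 ∈ cone I) (hx10 : x1 ≠ 0)
    (hcub : conormal I x1 ≤ Submodule.span K {ξ | ∃ F ∈ I, F.totalDegree ≤ 3 ∧ ξ = grad F x1}) :
    ∃ (G : Fin r → MvPolynomial (Fin n) K) (d : Fin r → ℕ), (∀ i, 1 ≤ d i ∧ d i ≤ 3) ∧
      (∀ i, (G i).IsHomogeneous (d i)) ∧ I = Ideal.span (Set.range G) := by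
  classical
  have hcm' : ACM I (Fintype.card (Fin n) - r) := by rwa [Fintype.card_fin]
  have hcard' : 6 * r ≤ Fintype.card (Fin n) := by rwa [Fintype.card_fin]
  have hbound : ∀ (s : ℕ) (G : Fin s → MvPolynomial (Fin n) K) (d : Fin s → ℕ),
      MinFam I 3 G d → s ≤ r := by
    intro s G d h
    have h1 := h.indep hI hcm' hcard' x1 hx1 hx10
    have h2 : LinearIndependent K
        (fun i => (⟨grad (G i) x1, grad_mem I x1 (h.mem i)⟩ : conormal I x1)) :=
      LinearIndependent.of_comp (conormal I x1).subtype h1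
    have h3 := h2.fintype_card_le_finrank
    rwa [Fintype.card_fin, hI.rank x1 hx1 hx10] at h3
  let Pr : ℕ → Prop := fun s => ∃ (G : Fin s → MvPolynomial (Fin n) K) (d : Fin s → ℕ),
    MinFam I 3 G d
  have hPr0 : Pr 0 := by
    refine ⟨fun i => i.elim0, fun i => i.elim0, fun i => i.elim0, fun i => i.elim0,
      fun i => i.elim0, fun _ _ _ _ i => i.elim0⟩
  have hex : ∃ s, ¬ Pr s := ⟨r + 1, fun ⟨G, d, h⟩ => by have := hbound _ G d h; omega⟩
  have hpos : 0 < Nat.find hex := by
    rw [Nat.pos_iff_ne_zero]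
    intro h0
    have := Nat.find_spec hex
    rw [h0] at this
    exact this hPr0
  obtain ⟨s, hs, hs1⟩ : ∃ s, Pr s ∧ ¬ Pr (s + 1) := by
    refine ⟨Nat.find hex - 1, ?_, ?_⟩
    · have := Nat.find_min hex (m := Nat.find hex - 1) (by omega)
      exact not_not.1 this
    · rw [Nat.sub_add_cancel hpos]
      exact Nat.find_spec hex
  obtain ⟨G, d, h⟩ := hs
  have hspan : conormal I x1 ≤ Submodule.span K (Set.range (fun i => grad (G i) x1)) := by
    refine hcub.trans ?_
    rw [Submodule.span_le]
    rintro _ ⟨F, hF, hF3, rfl⟩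
    rw [SetLike.mem_coe, ← sum_homogeneousComponent F, grad_sum]
    refine Submodule.sum_mem _ (fun e he => ?_)
    rw [Finset.mem_range] at he
    exact h.grads hI.homog hs1 x1 hx1 e (by omega) _ (hI.homog F hF e)
      (homogeneousComponent_isHomogeneous e F)
  have hrs : r ≤ s := by
    have h1 := Submodule.finrank_mono hspan
    rw [hI.rank x1 hx1 hx10] at h1
    have h2 := finrank_range_le_card (R := K) (fun i => grad (G i) x1)
    rw [Fintype.card_fin] at h2
    exact h1.trans h2
  have hsr : s = r := le_antisymm (hbound s G d h) hrs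
  subst hsr
  have hind : ∀ x ∈ cone I, x ≠ 0 → LinearIndependent K (fun i => grad (G i) x) :=
    fun x hx hx0 => h.indep hI hcm' hcard' x hx hx0
  have hd1 : ∀ i, 1 ≤ d i := by
    intro i
    by_contra h0
    have h0' : d i = 0 := by omega
    have h1 := h.hom i
    rw [h0'] at h1
    have h2 : G i = C (coeff 0 (G i)) := by
      rw [← homogeneousComponent_zero, homogeneousComponent_eq_self h1]
    have h3 : grad (G i) x1 = 0 := by
      rw [h2]
      funext j; simp [grad]
    exact (hind x1 hx1 hx10).ne_zero i h3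
  refine ⟨G, d, fun i => ⟨hd1 i, h.le i⟩, h.hom, ?_⟩
  exact ci_of_indep hI ⟨x1, hx1, hx10⟩ (by omega) G d hd1 h.mem h.hom hind

end Pool.Agent.J4.H17.CI
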