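import Pool.Agent.J4.H17.CI.E5

/-!
# Differences of points of a smooth cone are not on a hypersurface
-/

set_option autoImplicit false
set_option maxHeartbeats 400000

namespace Pool.Agent.J4.H17.CI

open MvPolynomial Pool.Agent.H929R2.Hart

variable {σ : Type} [Fintype σ] [DecidableEq σ] {K : Type} [Field K]
variable {I : Ideal (MvPolynomial σ K)} {r : ℕ}

omit [DecidableEq σ] in
/-- a frame which contains given linear forms -/
lemma exists_lframe (hI : SCone I r) {lam : ℕ} (e : Fin lam → σ → K)
    (he : LinearIndependent K e) (heI : ∀ i, lin (e i) ∈ I) (x : σ → K) (hx : x ∈ cone I)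
    (hx0 : x ≠ 0) :
    lam ≤ r ∧ ∃ F : Fin (r - lam) → MvPolynomial σ K, (∀ i, F i ∈ I) ∧
      LinearIndependent K (Sum.elim e (fun i => grad (F i) x)) := by
  classical
  set E := Submodule.span K (Set.range e) with hE
  have hEC : E ≤ conormal I x := by
    rw [hE, Submodule.span_le]
    rintro _ ⟨i, rfl⟩
    have := grad_mem I x (heI i)
    rwa [grad_lin] at this
  have hfE : Module.finrank K E = lam := by
    rw [hE, finrank_span_eq_card he, Fintype.card_fin]
  have hfC := hI.rank x hx hx0
  have hle : lam ≤ r := by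
    rw [← hfE, ← hfC]
    exact Submodule.finrank_mono hEC
  refine ⟨hle, ?_⟩
  obtain ⟨W', hW'⟩ := Submodule.exists_isCompl E
  set W := W' ⊓ conormal I x with hW
  have h1 : E ⊔ W = conormal I x := by
    rw [hW, ← sup_inf_assoc_of_le _ hEC, hW'.sup_eq_top, top_inf_eq]
  have h2 : E ⊓ W = ⊥ := by
    rw [eq_bot_iff, ← hW'.inf_eq_bot]
    exact inf_le_inf_left _ inf_le_left
  have h3 := Submodule.finrank_sup_add_finrank_inf_eq E W
  rw [h1, h2, finrank_bot, hfC, hfE] at h3
  let b := Module.finBasisOfFinrankEq K W (n := r - lam) (by omega)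
  have hbC : ∀ i, (b i : σ → K) ∈ conormal I x := fun i => (b i).2.2
  choose F hF hbF using fun i => exists_grad I x (b i : σ → K) (hbC i)
  refine ⟨F, hF, ?_⟩
  have h4 : (fun i => grad (F i) x) = fun i => ((b i : W) : σ → K) := by
    funext i; exact (hbF i).symm
  rw [h4]
  apply LinearIndependent.sum_type he (b.linearIndependent.map' W.subtype (Submodule.ker_subtype W))
  have h5 : Submodule.span K (Set.range (fun i => ((b i : W) : σ → K))) ≤ W := by
    rw [Submodule.span_le]
    rintro _ ⟨i, rfl⟩
    exact (b i).2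
  have h6 : Disjoint E W := disjoint_iff.2 h2
  exact h6.mono_right h5

variable {P : Ideal (MvPolynomial σ K)} {y : σ → K}

lemma Inf.all' [IsAlgClosed K] [CharZero K] (h : Inf P y) (hI : SCone I r) {lam : ℕ}
    (e : Fin lam → σ → K) (heI : ∀ i, lin (e i) ∈ I) (hle : lam ≤ r) (x : σ → K)
    (hx : x ∈ cone I) (hx0 : x ≠ 0) (F : Fin (r - lam) → MvPolynomial σ K) (hF : ∀ i, F i ∈ I)
    (hind : LinearIndependent K (Sum.elim e (fun i => grad (F i) x)))
    (heP : ∀ i, lin (e i) ∈ P) (hFP : ∀ i, sh x (F i) ∈ P) : ∀ G ∈ I, sh x G ∈ P := by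
  classical
  let ε : Fin r ≃ Fin lam ⊕ Fin (r - lam) :=
    (finCongr (by omega : r = lam + (r - lam))).trans finSumFinEquiv.symm
  let F' : Fin r → MvPolynomial σ K := fun i => Sum.elim (fun i => lin (e i)) F (ε i)
  have hF' : ∀ i, F' i ∈ I := by
    intro i
    show Sum.elim (fun i => lin (e i)) F (ε i) ∈ I
    rcases ε i with j | j
    · exact heI j
    · exact hF j
  have hgr : (fun i => grad (F' i) x) = (Sum.elim e (fun i => grad (F i) x)) ∘ ε := by
    funext i
    show grad (Sum.elim (fun i => lin (e i)) F (ε i)) x = Sum.elim e (fun i => grad (F i) x) (ε i)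
    rcases ε i with j | j
    · simp only [Sum.elim_inl]; exact grad_lin _ _
    · rfl
  apply h.all hI x hx hx0 F' hF'
  · rw [hgr]
    exact hind.comp _ ε.injective
  · intro i
    show sh x (Sum.elim (fun i => lin (e i)) F (ε i)) ∈ P
    rcases ε i with j | j
    · show sh x (lin (e j)) ∈ P
      have h1 : dotB σ K (e j) x = 0 := by rw [← eval_lin]; exact hx _ (heI j)
      rw [sh_lin, h1, map_zero, add_zero]
      exact heP j
    · exact hFP j

/-- conormal vectors at infinity -/
lemma Inf.conormal_mem [IsAlgClosed K] [CharZero K] (h : Inf P y) (hI : SCone I r)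
    (x : σ → K) (hallx : ∀ G ∈ I, sh x G ∈ P) (ξ : σ → K) (T : MvPolynomial σ K)
    (hT : eval x T ≠ 0)
    (hξ : ∀ z, (∀ f ∈ P, eval z f = 0) → eval (z + x) T ≠ 0 → z + x ≠ 0 ∧
      ξ ∈ conormal I (z + x)) : ξ ∈ conormal I y := by
  classical
  have : Infinite K := IsAlgClosed.instInfinite
  by_contra hcon
  have hy : y ∈ cone I := h.mem_cone hI x hallx
  have hy0 := h.ne
  obtain ⟨H, d, hH, hHd, hHind⟩ := exists_hframe hI y hy hy0
  let a' : Fin (r + 1) → σ → MvPolynomial σ K :=
    Fin.cons (fun s => C (ξ s)) (fun j s => pderiv s (H j))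
  let av' : (σ → K) → Fin (r + 1) → σ → K := fun z => Fin.cons ξ (fun j => grad (H j) z)
  have hav' : ∀ z b s, eval z (a' b s) = av' z b s := by
    intro z b s
    refine Fin.cases ?_ (fun j => ?_) b
    · simp [a', av']
    · rfl
  have hindy : LinearIndependent K (av' y) := by
    apply linearIndependent_finCons.2
    refine ⟨hHind, fun hmem => hcon ?_⟩
    refine (Submodule.span_le.2 ?_) hmem
    rintro _ ⟨j, rfl⟩
    exact grad_mem I y (hH j)
  obtain ⟨W', hW'⟩ := exists_dual _ hindy
  let Dp : Matrix (Fin (r + 1)) (Fin (r + 1)) (MvPolynomial σ K) :=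
    fun b b' => ∑ s, a' b' s * C (W' b s)
  have hDz : ∀ z, eval z Dp.det = Matrix.det (fun b b' => dotB σ K (av' z b') (W' b)) := by
    intro z
    rw [RingHom.map_det]
    congr 1
    ext b b'
    simp only [RingHom.mapMatrix_apply, Matrix.map_apply, Dp, map_sum, map_mul, eval_C, hav',
      dotB_apply]
  have hDy : eval y Dp.det = 1 := by
    rw [hDz]
    have h1 : (fun b b' => dotB σ K (av' y b') (W' b)) =
        (1 : Matrix (Fin (r + 1)) (Fin (r + 1)) K) := by
      ext b b'
      rw [hW', Matrix.one_apply]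
      by_cases hbb : b = b'
      · rw [if_pos hbb, if_pos hbb.symm]
      · rw [if_neg hbb, if_neg (fun h => hbb h.symm)]
    rw [h1, Matrix.det_one]
  have hDh : Dp.det.IsHomogeneous (∑ b, (Fin.cons 0 (fun j => d j - 1) : Fin (r + 1) → ℕ) b) := by
    apply det_homog
    intro b s
    refine Fin.cases ?_ (fun j => ?_) b
    · exact isHomogeneous_C σ (ξ s)
    · exact (hHd j).pderiv
  have h1 := h.closed x Dp.det T _ hDh hT (by
    intro z hzP hzT
    obtain ⟨hz0, hzξ⟩ := hξ z hzP hzT
    have hzI : z + x ∈ cone I := by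
      intro G hG
      have := hzP _ (hallx G hG)
      rwa [eval_sh] at this
    by_contra hne
    rw [hDz] at hne
    have hli := ind_of_det _ W' hne
    have hmem : ∀ b, av' (z + x) b ∈ conormal I (z + x) := by
      intro b
      refine Fin.cases ?_ (fun j => ?_) b
      · exact hzξ
      · exact grad_mem I _ (hH j)
    have h2 : LinearIndependent K (fun b => (⟨av' (z + x) b, hmem b⟩ : conormal I (z + x))) :=
      LinearIndependent.of_comp (conormal I (z + x)).subtype hli
    have h3 := h2.fintype_card_le_finrank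
    rw [Fintype.card_fin, hI.rank _ hzI hz0] at h3
    omega)
  rw [hDy] at h1
  exact one_ne_zero h1

/-- the gradient, at differences of points, of a polynomial which vanishes on these differences -/
theorem join_grad [IsAlgClosed K] [CharZero K] (hI : SCone I r) {lam : ℕ} (e : Fin lam → σ → K)
    (he : LinearIndependent K e) (heI : ∀ i, lin (e i) ∈ I)
    (hcard : 3 * (r - lam) + lam < Fintype.card σ) (F : MvPolynomial σ K)
    (hF : ∀ x ∈ cone I, x ≠ 0 → ∀ z ∈ cone I, z ≠ 0 → eval (z - x) F = 0)
    (x : σ → K) (hx : x ∈ cone I) (hx0 : x ≠ 0) (z : σ → K) (hz : z ∈ cone I) (hz0 : z ≠ 0) :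
    lin (grad F (z - x)) ∈ I := by
  classical
  have : Infinite K := IsAlgClosed.instInfinite
  -- the gradient is conormal
  have hsh : ∀ x ∈ cone I, x ≠ 0 → sh (-x) F ∈ I := by
    intro x hx hx0
    obtain ⟨a, ha⟩ := Function.ne_iff.1 hx0
    have h1 : X a * sh (-x) F ∈ I := by
      apply mem_of_vanish I hI.prime
      intro z hz
      rw [map_mul, eval_X, eval_sh]
      by_cases hz0 : z = 0
      · rw [hz0]; simp
      · rw [← sub_eq_add_neg, hF x hx hx0 z hz hz0, mul_zero]
    rcases hI.prime.mem_or_mem h1 with h2 | h2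
    · exfalso
      apply ha
      have := hx _ h2
      rwa [eval_X] at this
    · exact h2
  have hgsh : ∀ (p z : σ → K), grad (sh p F) z = grad F (z + p) := by
    intro p z
    funext i
    have h1 : pderiv i (sh p F) = sh p (pderiv i F) := by
      have h2 : pderiv i (sh p F) = ∑ j, sh p (pderiv j F) * pderiv i (X j + C (p j)) := by
        rw [sh]
        exact deriv_aeval (pderiv i) (fun j => X j + C (p j)) F
      rw [h2, Finset.sum_eq_single i]
      · simp
      · intro j _ hj
        rw [map_add, pderiv_C, add_zero, pderiv_X_of_ne hj, mul_zero]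
      · intro h; exact absurd (Finset.mem_univ _) h
    show eval z (pderiv i (sh p F)) = eval (z + p) (pderiv i F)
    rw [h1, eval_sh]
  have hcon : ∀ x ∈ cone I, x ≠ 0 → ∀ z, grad F (z - x) ∈ conormal I z := by
    intro x hx hx0 z
    have h1 := grad_mem I z (hsh x hx hx0)
    rwa [hgsh, ← sub_eq_add_neg] at h1
  set ξ := grad F (z - x) with hξdef
  -- points at infinity
  have key : ∀ p ∈ cone I, p ≠ 0 → dotB σ K ξ p = 0 := by
    intro p hp hp0
    obtain ⟨hle, Fx, hFx, hix⟩ := exists_lframe hI e he heI x hx hx0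
    obtain ⟨-, Fz, hFz, hiz⟩ := exists_lframe hI e he heI z hz hz0
    obtain ⟨-, Fp, hFp, hip⟩ := exists_lframe hI e he heI p hp hp0
    let G : ((Fin (r - lam) ⊕ Fin (r - lam)) ⊕ Fin (r - lam)) ⊕ Fin lam → MvPolynomial σ K :=
      Sum.elim (Sum.elim (Sum.elim (fun i => sh x (Fx i)) (fun i => sh z (Fz i)))
        (fun i => sh p (Fp i))) (fun i => lin (e i))
    obtain ⟨P, y, hinf, hGP⟩ := exists_inf G (by
      rintro (((i | i) | i) | i)
      · show eval 0 (sh x (Fx i)) = 0
        rw [eval_sh, zero_add]
        exact hx _ (hFx i)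
      · show eval 0 (sh z (Fz i)) = 0
        rw [eval_sh, zero_add]
        exact hz _ (hFz i)
      · show eval 0 (sh p (Fp i)) = 0
        rw [eval_sh, zero_add]
        exact hp _ (hFp i)
      · show eval 0 (lin (e i)) = 0
        rw [eval_lin, map_zero]) (by
      simp only [Fintype.card_sum, Fintype.card_fin]; omega)
    have heP : ∀ i, lin (e i) ∈ P := fun i => hGP (Sum.inr i)
    have hallx := hinf.all' hI e heI hle x hx hx0 Fx hFx hix heP
      (fun i => hGP (Sum.inl (Sum.inl (Sum.inl i))))
    have hallz := hinf.all' hI e heI hle z hz hz0 Fz hFz hiz heP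
      (fun i => hGP (Sum.inl (Sum.inl (Sum.inr i))))
    have hallp := hinf.all' hI e heI hle p hp hp0 Fp hFp hip heP
      (fun i => hGP (Sum.inl (Sum.inr i)))
    have hyt := hinf.tangent hI z p hallz hallp
    obtain ⟨a, ha⟩ := Function.ne_iff.1 hx0
    obtain ⟨b, hb⟩ := Function.ne_iff.1 hz0
    have hξy : ξ ∈ conormal I y := by
      apply hinf.conormal_mem hI z hallz ξ (X b * sh (x - z) (X a))
      · rw [map_mul, eval_X, eval_sh, add_sub_cancel, eval_X]
        exact mul_ne_zero hb ha
      · intro w hw hwT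
        rw [map_mul, eval_X, eval_sh, eval_X] at hwT
        have h1 := left_ne_zero_of_mul hwT
        have h2 := right_ne_zero_of_mul hwT
        have h3 : w + z + (x - z) = w + x := by abel
        rw [h3] at h2
        have hwx : w + x ∈ cone I := by
          intro H hH
          have := hw _ (hallx H hH)
          rwa [eval_sh] at this
        have hwx0 : w + x ≠ 0 := by
          intro h0
          rw [h0] at h2
          exact h2 rfl
        refine ⟨?_, ?_⟩
        · intro h0
          rw [h0] at h1
          exact h1 rfl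
        · have h4 := hcon (w + x) hwx hwx0 (w + z)
          have h5 : w + z - (w + x) = z - x := by abel
          rwa [h5] at h4
    have h1 := tangent_conormal I y hξy hyt
    have h2 : dotB σ K ξ z = 0 :=
      tangent_conormal I z (hcon x hx hx0 z) (self_tangent hI z hz)
    rw [map_sub, h2, sub_zero] at h1
    exact h1
  apply mem_of_vanish I hI.prime
  intro p hp
  rw [eval_lin]
  by_cases hp0 : p = 0
  · rw [hp0, map_zero]
  · exact key p hp hp0

/-- **Join theorem.** -/
theorem join [IsAlgClosed K] [CharZero K] (hI : SCone I r) (hne : ∃ x ∈ cone I, x ≠ 0) {lam : ℕ}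
    (e : Fin lam → σ → K) (he : LinearIndependent K e) (heI : ∀ i, lin (e i) ∈ I)
    (hcard : 3 * (r - lam) + lam < Fintype.card σ) :
    ∀ (d : ℕ) (F : MvPolynomial σ K), F.IsHomogeneous d →
    (∀ x ∈ cone I, x ≠ 0 → ∀ z ∈ cone I, z ≠ 0 → eval (z - x) F = 0) →
    ∀ v : σ → K, (∀ u : σ → K, lin u ∈ I → dotB σ K u v = 0) → eval v F = 0 := by
  classical
  have : Infinite K := IsAlgClosed.instInfinite
  intro d
  induction d with
  | zero =>
    intro F hFh hF v _
    obtain ⟨x, hx, hx0⟩ := hne
    have h1 : F = C (coeff 0 F) := by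
      rw [← homogeneousComponent_zero, homogeneousComponent_eq_self hFh]
    have h2 := hF x hx hx0 x hx hx0
    rw [h1, eval_C] at h2
    rw [h1, eval_C, h2]
  | succ d ih =>
    intro F hFh hF v hv
    have hgrad := join_grad hI e he heI hcard F hF
    -- the derivative
    let D : MvPolynomial σ K := ∑ i, C (v i) * pderiv i F
    have hD : ∀ x, eval x D = dotB σ K (grad F x) v := by
      intro x
      rw [dotB_apply, map_sum]
      exact Finset.sum_congr rfl (fun i _ => by rw [map_mul, eval_C, grad, mul_comm])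
    have hDh : D.IsHomogeneous d := by
      apply IsHomogeneous.sum
      intro i _
      have h1 := (isHomogeneous_C σ (v i)).mul (hFh.pderiv (i := i))
      rwa [zero_add, Nat.add_sub_cancel] at h1
    have hDv : eval v D = 0 := by
      apply ih D hDh _ v hv
      intro x hx hx0 z hz hz0
      rw [hD]
      exact hv _ (hgrad x hx hx0 z hz hz0)
    -- Euler
    have h2 : dotB σ K (grad F v) v = ((d + 1 : ℕ) : K) * eval v F := by
      have h3 := congrArg (eval v) (hFh.sum_X_mul_pderiv)
      rw [dotB_apply]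
      simp only [map_sum, map_mul, eval_X, nsmul_eq_mul, map_natCast] at h3
      rw [← h3]
      exact Finset.sum_congr rfl (fun i _ => by rw [grad, mul_comm])
    rw [hD, h2] at hDv
    rcases mul_eq_zero.1 hDv with h4 | h4
    · exact absurd h4 (by exact_mod_cast Nat.succ_ne_zero d)
    · exact h4

end Pool.Agent.J4.H17.CI
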