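import Pool.Agent.J4.H17.CI.F1

/-!
# A form of the theorem of Cayley and Hamilton; powers of the maximal ideal; denominators
-/

set_option autoImplicit false
set_option maxHeartbeats 400000

namespace Pool.Agent.J4.H17.CI

open MvPolynomial Pool.Agent.H929R2.Hart

variable {σ : Type} [Fintype σ] [DecidableEq σ] {K : Type} [Field K]

/-- a family of matrix identities -/
lemma CH {Pt κ ι : Type} [Fintype κ] [DecidableEq κ] [Fintype ι] (S : Set Pt)
    (ev : Pt → κ → K) (δ : Pt → K) (z : Pt → ι → K) (ν : ℕ)
    (h : ∀ m : κ →₀ ℕ, m.degree = ν → ∃ N : ι → MvPolynomial κ K,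
      (∀ j, (N j).IsHomogeneous ν) ∧
      ∀ p ∈ S, δ p * eval (ev p) (monomial m 1) = ∑ j, z p j * eval (ev p) (N j)) :
    ∃ (n : ℕ) (F : MvPolynomial (Option ι) K), F.IsHomogeneous n ∧
      (∀ τ : K, eval (fun o : Option ι => o.elim τ (fun _ => 0)) F = τ ^ n) ∧
      ∀ p ∈ S, ev p ≠ 0 → eval (fun o : Option ι => o.elim (δ p) (z p)) F = 0 := by
  classical
  let T : Finset (κ →₀ ℕ) := Finset.finsuppAntidiag Finset.univ ν
  have hT : ∀ m : κ →₀ ℕ, m ∈ T ↔ m.degree = ν := by
    intro m
    rw [Finset.mem_finsuppAntidiag, Finsupp.degree_eq_sum]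
    constructor
    · exact fun h => h.1
    · exact fun h => ⟨h, Finset.subset_univ _⟩
  have h' : ∀ m : T, ∃ N : ι → MvPolynomial κ K, (∀ j, (N j).IsHomogeneous ν) ∧
      ∀ p ∈ S, δ p * eval (ev p) (monomial m.1 1) = ∑ j, z p j * eval (ev p) (N j) :=
    fun m => h m.1 ((hT m.1).1 m.2)
  choose N hN hNp using h'
  let Mat : Matrix T T (MvPolynomial (Option ι) K) := fun m m' =>
    (if m = m' then X none else 0) - ∑ j, X (some j) * C (coeff m'.1 (N m j))
  have hMat : ∀ m m', (Mat m m').IsHomogeneous 1 := by
    intro m m'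
    apply IsHomogeneous.sub
    · split_ifs
      · exact isHomogeneous_X K none
      · exact isHomogeneous_zero _ _ _
    · apply IsHomogeneous.sum
      intro j _
      have h1 := (isHomogeneous_X K (some j)).mul (isHomogeneous_C (Option ι) (coeff m'.1 (N m j)))
      rwa [add_zero] at h1
  have hev : ∀ (w : Option ι → K), eval w Mat.det =
      Matrix.det (fun m m' : T => (if m = m' then w none else 0) -
        ∑ j, w (some j) * coeff m'.1 (N m j)) := by
    intro w
    rw [RingHom.map_det]
    congr 1
    ext m m'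
    simp only [RingHom.mapMatrix_apply, Matrix.map_apply, Mat, map_sub, map_sum, map_mul, eval_X,
      eval_C]
    congr 1
    split_ifs
    · rw [eval_X]
    · rw [map_zero]
  refine ⟨Fintype.card T, Mat.det, ?_, ?_, ?_⟩
  · rw [Matrix.det_apply']
    apply MvPolynomial.IsHomogeneous.sum
    intro π _
    have h1 : (∏ i, Mat (π i) i).IsHomogeneous (∑ _i : T, 1) := by
      apply MvPolynomial.IsHomogeneous.prod
      intro i _
      exact hMat _ _
    rw [Finset.sum_const, Finset.card_univ, smul_eq_mul, mul_one] at h1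
    rcases Int.units_eq_one_or (Equiv.Perm.sign π) with h | h
    · rw [h]
      simpa using h1
    · rw [h]
      simpa using h1.neg
  · intro τ
    rw [hev]
    have h1 : (fun m m' : T => (if m = m' then
          ((none : Option ι).elim τ (fun _ => 0) : K) else 0) -
        ∑ j : ι, ((some j : Option ι).elim τ (fun _ => 0) : K) * coeff m'.1 (N m j)) =
        τ • (1 : Matrix T T K) := by
      ext m m'
      simp only [Option.elim_none, Option.elim_some, zero_mul, Finset.sum_const_zero, sub_zero,
        Matrix.smul_apply, Matrix.one_apply, smul_eq_mul, mul_ite, mul_one, mul_zero]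
    rw [h1, Matrix.det_smul, Matrix.det_one, mul_one]
  · intro p hp hp0
    rw [hev]
    rw [← Matrix.exists_mulVec_eq_zero_iff]
    refine ⟨fun m => eval (ev p) (monomial m.1 1), ?_, ?_⟩
    · intro h0
      obtain ⟨i, hi⟩ := Function.ne_iff.1 hp0
      have h1 : (Finsupp.single i ν : κ →₀ ℕ) ∈ T := by
        rw [hT, Finsupp.degree_single]
      have h2 := congrFun h0 ⟨_, h1⟩
      simp only [Pi.zero_apply, eval_monomial, one_mul, Finsupp.prod_single_index, pow_zero] at h2
      exact pow_ne_zero ν hi h2
    · funext m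
      have hNe : ∀ j, eval (ev p) (N m j) =
          ∑ m' : T, coeff m'.1 (N m j) * eval (ev p) (monomial m'.1 1) := by
        intro j
        have h1 : N m j = ∑ m' ∈ T, monomial m' (coeff m' (N m j)) := by
          conv_lhs => rw [← support_sum_monomial_coeff (N m j)]
          apply Finset.sum_subset
          · intro m' hm'
            rw [hT]
            have h2 := hN m j (mem_support_iff.1 hm')
            rw [← h2]
            exact congrFun (congrArg DFunLike.coe Finsupp.degree_eq_weight_one) m'
          · intro m' _ hm'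
            rw [notMem_support_iff.1 hm', monomial_zero]
        conv_lhs => rw [h1, map_sum]
        rw [← Finset.sum_coe_sort T]
        refine Finset.sum_congr rfl (fun m' _ => ?_)
        simp only [eval_monomial, one_mul]
      show ∑ m' : T, ((if m = m' then δ p else 0) - ∑ j, z p j * coeff m'.1 (N m j)) *
        eval (ev p) (monomial m'.1 1) = 0
      have h3 : ∑ m' : T, ((if m = m' then δ p else 0) - ∑ j, z p j * coeff m'.1 (N m j)) *
          eval (ev p) (monomial m'.1 1) = δ p * eval (ev p) (monomial m.1 1) -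
          ∑ j, z p j * eval (ev p) (N m j) := by
        simp only [sub_mul, Finset.sum_sub_distrib, ite_mul, zero_mul, Finset.sum_ite_eq,
          Finset.mem_univ, if_true]
        congr 1
        simp only [hNe, Finset.mul_sum, Finset.sum_mul]
        rw [Finset.sum_comm]
        exact Finset.sum_congr rfl (fun j _ => Finset.sum_congr rfl (fun m' _ => by ring))
      rw [h3, hNp m p hp, sub_self]

omit [DecidableEq σ] in
/-- ideals without zeros other than the origin -/
lemma pow_le_of_zero [IsAlgClosed K] (J : Ideal (MvPolynomial σ K)) (hJ : ∀ x ∈ cone J, x = 0) :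
    ∃ s : ℕ, idealOfVars σ K ^ s ≤ J := by
  classical
  apply Ideal.exists_pow_le_of_le_radical_of_fg
  · rw [← vanishingIdeal_zeroLocus_eq_radical (K := K)]
    intro F hF
    rw [mem_vanishingIdeal_iff]
    intro x hx
    rw [mem_zeroLocus_iff] at hx
    have h1 : x = 0 := hJ x (fun G hG => by
      have := hx G hG
      rwa [aeval_eval] at this)
    rw [aeval_eval, h1]
    exact (mem_idealOfVars F).1 hF
  · exact (inferInstance : IsNoetherianRing (MvPolynomial σ K)).noetherian _

/-- the embedding of the polynomial ring -/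
noncomputable abbrev rho : MvPolynomial σ K →ₐ[K] MvPolynomial (Option σ) K := rename some

omit [Fintype σ] [DecidableEq σ] in
/-- clearing denominators -/
lemma clear_denom (a b : MvPolynomial σ K) (G : MvPolynomial (Option σ) K) :
    ∃ (e : ℕ) (g : MvPolynomial σ K) (H : MvPolynomial (Option σ) K),
      rho b ^ e * G = rho g + (rho b * X none - rho a) * H := by
  induction G using MvPolynomial.induction_on with
  | C c =>
    refine ⟨0, C c, 0, ?_⟩
    simp [rho]
  | add G1 G2 h1 h2 =>
    obtain ⟨e1, g1, H1, h1⟩ := h1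
    obtain ⟨e2, g2, H2, h2⟩ := h2
    refine ⟨e1 + e2, b ^ e2 * g1 + b ^ e1 * g2, rho b ^ e2 * H1 + rho b ^ e1 * H2, ?_⟩
    rw [map_add, map_mul, map_mul, map_pow, map_pow]
    linear_combination (rho b ^ e2) * h1 + (rho b ^ e1) * h2
  | mul_X G o h =>
    obtain ⟨e, g, H, h⟩ := h
    cases o with
    | some i =>
      refine ⟨e, g * X i, H * X (some i), ?_⟩
      have h1 : rho (g * X i) = rho g * (X (some i) : MvPolynomial (Option σ) K) := by
        rw [map_mul]; simp [rho]
      rw [h1]
      linear_combination X (some i) * h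
    | none =>
      refine ⟨e + 1, g * a, rho g + H * (rho b * X none), ?_⟩
      rw [map_mul]
      linear_combination (rho b * X none) * h

lemma sup_pow_le {R : Type} [CommRing R] (A B : Ideal R) (s : ℕ) :
    (A ⊔ B) ^ s ≤ A ^ s ⊔ B := by
  induction s with
  | zero => rw [pow_zero, pow_zero]; exact le_sup_left
  | succ s ih =>
    rw [pow_succ, Ideal.mul_le]
    intro x hx t ht
    obtain ⟨a, ha, b, hb, hab⟩ := Submodule.mem_sup.1 (ih hx)
    obtain ⟨a', ha', b', hb', hab'⟩ := Submodule.mem_sup.1 ht
    refine Submodule.mem_sup.2 ⟨a * a', ?_, b * (a' + b') + a * b', ?_, ?_⟩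
    · rw [pow_succ]
      exact Ideal.mul_mem_mul ha ha'
    · exact B.add_mem (B.mul_mem_right _ hb) (B.mul_mem_left _ hb')
    · rw [← hab, ← hab']; ring

end Pool.Agent.J4.H17.CI
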