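import Pool.Agent.J4.H17.CI.F2

/-!
# The graph of a rational function on a smooth cone
-/

set_option autoImplicit false
set_option maxHeartbeats 400000

namespace Pool.Agent.J4.H17.CI

open MvPolynomial Pool.Agent.H929R2.Hart

variable {σ : Type} [Fintype σ] [DecidableEq σ] {K : Type} [Field K]
variable {I : Ideal (MvPolynomial σ K)} {r : ℕ} {h q : MvPolynomial σ K}

/-- the point `(x, τ)` -/
def pt (x : σ → K) (τ : K) : Option σ → K := fun o => o.elim τ x

omit [Fintype σ] [DecidableEq σ] in
@[simp] lemma eval_pt_rho (x : σ → K) (τ : K) (F : MvPolynomial σ K) :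
    eval (pt x τ) (rho F) = eval x F := by
  rw [rho, eval_rename]
  rfl

omit [Fintype σ] [DecidableEq σ] in
@[simp] lemma eval_pt_none (x : σ → K) (τ : K) :
    eval (pt x τ) (X none : MvPolynomial (Option σ) K) = τ := by
  rw [eval_X]; rfl

omit [Fintype σ] [DecidableEq σ] in
lemma pt_eta (p : Option σ → K) : pt (fun i => p (some i)) (p none) = p := by
  funext o
  cases o <;> rfl

/-- `q / h` is a regular function, outside of the vertex -/
structure GData (I : Ideal (MvPolynomial σ K)) (h q : MvPolynomial σ K) : Prop where
  hh : h.IsHomogeneous 1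
  qh : q.IsHomogeneous 2
  nmem : h ∉ I
  reg : ∀ z ∈ cone I, z ≠ 0 → ∃ a b, eval z b ≠ 0 ∧ b * q - h * a ∈ I

/-- the ideal of the graph of `q / h` -/
noncomputable def graphI (I : Ideal (MvPolynomial σ K)) (h q : MvPolynomial σ K) :
    Ideal (MvPolynomial (Option σ) K) where
  carrier := {G | ∀ x ∈ cone I, eval x h ≠ 0 → eval (pt x (eval x q / eval x h)) G = 0}
  zero_mem' := fun x _ _ => map_zero _
  add_mem' := fun {a b} ha hb x hx hh => by rw [map_add, ha x hx hh, hb x hx hh, add_zero]
  smul_mem' := fun c a ha x hx hh => by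
    rw [smul_eq_mul, map_mul, ha x hx hh, mul_zero]

omit [Fintype σ] [DecidableEq σ] in
lemma mem_graphI (G : MvPolynomial (Option σ) K) : G ∈ graphI I h q ↔
    ∀ x ∈ cone I, eval x h ≠ 0 → eval (pt x (eval x q / eval x h)) G = 0 := Iff.rfl

omit [DecidableEq σ] in
lemma vanish_mem [IsAlgClosed K] (hp : I.IsPrime) (hn : h ∉ I) (g : MvPolynomial σ K)
    (hg : ∀ x ∈ cone I, eval x h ≠ 0 → eval x g = 0) : g ∈ I := by
  classical
  have h1 : h * g ∈ I := by
    apply mem_of_vanish I hp
    intro x hx
    rw [map_mul]
    by_cases hh : eval x h = 0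
    · rw [hh, zero_mul]
    · rw [hg x hx hh, mul_zero]
  exact (hp.mem_or_mem h1).resolve_left hn

omit [Fintype σ] [DecidableEq σ] in
lemma rho_mem (F : MvPolynomial σ K) (hF : F ∈ I) : rho F ∈ graphI I h q := by
  intro x hx _
  rw [eval_pt_rho]
  exact hx F hF

omit [DecidableEq σ] in
lemma of_rho_mem [IsAlgClosed K] (hp : I.IsPrime) (hn : h ∉ I) (F : MvPolynomial σ K)
    (hF : rho F ∈ graphI I h q) : F ∈ I := by
  apply vanish_mem hp hn
  intro x hx hh
  have := hF x hx hh
  rwa [eval_pt_rho] at this

omit [Fintype σ] [DecidableEq σ] in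
lemma bt_mem (a b : MvPolynomial σ K) (hab : b * q - h * a ∈ I) :
    rho b * X none - rho a ∈ graphI I h q := by
  intro x hx hh
  have h1 := hx _ hab
  rw [map_sub, map_mul, map_mul] at h1
  rw [map_sub, map_mul, eval_pt_rho, eval_pt_rho, eval_pt_none]
  field_simp
  linear_combination h1

omit [DecidableEq σ] in
lemma graphI_clear [IsAlgClosed K] (hp : I.IsPrime) (hn : h ∉ I) {a b : MvPolynomial σ K}
    (hab : b * q - h * a ∈ I) {G H : MvPolynomial (Option σ) K} {e : ℕ} {g : MvPolynomial σ K}
    (hc : rho b ^ e * G = rho g + (rho b * X none - rho a) * H) (hG : G ∈ graphI I h q) :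
    g ∈ I := by
  apply of_rho_mem hp hn (h := h) (q := q)
  have h1 : rho g = rho b ^ e * G - (rho b * X none - rho a) * H := by rw [hc]; ring
  rw [h1]
  exact Ideal.sub_mem _ (Ideal.mul_mem_left _ _ hG) (Ideal.mul_mem_right _ _ (bt_mem a b hab))

omit [DecidableEq σ] in
lemma graphI_prime [IsAlgClosed K] (hp : I.IsPrime) (hn : h ∉ I) : (graphI I h q).IsPrime := by
  classical
  have hab : h * q - h * q ∈ I := by rw [sub_self]; exact I.zero_mem
  have key : ∀ (G H : MvPolynomial (Option σ) K) (e : ℕ) (g : MvPolynomial σ K),
      rho h ^ e * G = rho g + (rho h * X none - rho q) * H → g ∈ I → G ∈ graphI I h q := by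
    intro G H e g hc hg x hx hh
    have h1 := congrArg (eval (pt x (eval x q / eval x h))) hc
    rw [map_mul, map_pow, map_add, map_mul, map_sub, map_mul, eval_pt_rho, eval_pt_rho,
      eval_pt_rho, eval_pt_none, hx _ hg, mul_div_cancel₀ _ hh, sub_self, zero_mul, add_zero] at h1
    exact (mul_eq_zero.1 h1).resolve_left (pow_ne_zero _ hh)
  constructor
  · intro htop
    have h1 : (1 : MvPolynomial (Option σ) K) ∈ graphI I h q := by rw [htop]; trivial
    have h2 : (1 : MvPolynomial σ K) ∈ I := by
      apply of_rho_mem hp hn (h := h) (q := q)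
      rw [map_one]; exact h1
    exact hp.ne_top ((Ideal.eq_top_iff_one I).2 h2)
  · intro G1 G2 hG
    obtain ⟨e1, g1, H1, h1⟩ := clear_denom q h G1
    obtain ⟨e2, g2, H2, h2⟩ := clear_denom q h G2
    have h3 : rho h ^ (e1 + e2) * (G1 * G2) = rho (g1 * g2) + (rho h * X none - rho q) *
        (H1 * rho g2 + rho g1 * H2 + (rho h * X none - rho q) * H1 * H2) := by
      rw [map_mul, pow_add]
      linear_combination (rho h ^ e2 * G2) * h1 + (rho g1 + (rho h * X none - rho q) * H1) * h2
    have h4 := graphI_clear hp hn hab h3 hG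
    rcases hp.mem_or_mem h4 with h5 | h5
    · exact Or.inl (key _ _ _ _ h1 h5)
    · exact Or.inr (key _ _ _ _ h2 h5)

lemma graphI_hom [IsAlgClosed K] (hI : SCone I r) (hd : GData I h q) :
    ∀ F ∈ graphI I h q, ∀ d, homogeneousComponent d F ∈ graphI I h q := by
  classical
  intro F hF d
  apply wcomp_mem (graphI I h q) (graphI_prime hI.prime hd.nmem) 1 _ F hF d
  intro t ht p hp G hG
  let G' : MvPolynomial (Option σ) K := aeval (fun o => C t * X o) G
  have hG' : ∀ w : Option σ → K, eval w G' = eval (fun o => t * w o) G := by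
    intro w
    have : (eval w).comp (aeval (R := K) (fun o => C t * X o)).toRingHom =
        eval (fun o => t * w o) := by
      apply MvPolynomial.ringHom_ext
      · intro c; simp
      · intro i; simp
    exact RingHom.congr_fun this G
  have h1 : G' ∈ graphI I h q := by
    intro x hx hh
    rw [hG']
    have h2 : (fun o => t * pt x (eval x q / eval x h) o) =
        pt (t • x) (eval (t • x) q / eval (t • x) h) := by
      funext o
      cases o with
      | none =>
        show t * (eval x q / eval x h) = eval (t • x) q / eval (t • x) h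
        rw [eval_hscale hd.hh, eval_hscale hd.qh]
        field_simp
      | some i => rfl
    rw [h2]
    apply hG (t • x) (cone_smul I hI.homog t x hx)
    rw [eval_hscale hd.hh, pow_one]
    exact mul_ne_zero ht hh
  have h3 := hp _ h1
  rw [hG'] at h3
  have h4 : (fun i => t ^ (1 : Option σ → ℕ) i * p i) = fun o => t * p o := by
    funext i; simp
  rw [h4]
  exact h3

omit [Fintype σ] [DecidableEq σ] in
lemma hc_rho (a : MvPolynomial σ K) (n : ℕ) :
    homogeneousComponent n (rho a : MvPolynomial (Option σ) K) =
      rho (homogeneousComponent n a) := by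
  classical
  conv_lhs => rw [← sum_homogeneousComponent a, map_sum, map_sum]
  have h1 : ∀ d, homogeneousComponent n (rho (homogeneousComponent d a) :
      MvPolynomial (Option σ) K) = if n = d then rho (homogeneousComponent d a) else 0 := by
    intro d
    exact homogeneousComponent_of_mem
      ((homogeneousComponent_isHomogeneous d a).rename_isHomogeneous)
  rw [Finset.sum_congr rfl (fun d _ => h1 d), Finset.sum_ite_eq]
  split_ifs with h2
  · rfl
  · rw [Finset.mem_range, not_lt] at h2
    rw [homogeneousComponent_eq_zero n a (by omega), map_zero]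

/-- denominators of large degree -/
lemma exists_hstep [IsAlgClosed K] (hI : SCone I r) (hd : GData I h q) :
    ∃ s : ℕ, ∀ (p : ℕ), s ≤ p → ∀ g : MvPolynomial σ K, g.IsHomogeneous p →
      ∃ c : MvPolynomial σ K, c.IsHomogeneous (p + 1) ∧
        rho g * X none - rho c ∈ graphI I h q := by
  classical
  let B : Ideal (MvPolynomial σ K) :=
    { carrier := {b | ∃ a, b * q - h * a ∈ I}
      zero_mem' := ⟨0, by rw [zero_mul, mul_zero, sub_zero]; exact I.zero_mem⟩
      add_mem' := by
        rintro b b' ⟨a, ha⟩ ⟨a', ha'⟩
        refine ⟨a + a', ?_⟩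
        have := I.add_mem ha ha'
        have h2 : (b + b') * q - h * (a + a') = (b * q - h * a) + (b' * q - h * a') := by ring
        rwa [h2]
      smul_mem' := by
        rintro c b ⟨a, ha⟩
        refine ⟨c * a, ?_⟩
        have := I.mul_mem_left c ha
        have h2 : c • b * q - h * (c * a) = c * (b * q - h * a) := by
          rw [smul_eq_mul]; ring
        rwa [h2] }
  have hIB : I ≤ B := by
    intro F hF
    exact ⟨0, by rw [mul_zero, sub_zero]; exact I.mul_mem_right _ hF⟩
  obtain ⟨s, hs⟩ := pow_le_of_zero B (by
    intro x hx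
    by_contra hx0
    have hxI : x ∈ cone I := fun F hF => hx F (hIB hF)
    obtain ⟨a, b, hb, hab⟩ := hd.reg x hxI hx0
    exact hb (hx b ⟨a, hab⟩))
  refine ⟨s, fun p hp g hg => ?_⟩
  have h1 : g ∈ idealOfVars σ K ^ s := by
    rw [mem_pow_idealOfVars_iff]
    intro x hx
    have h2 := hg (mem_support_iff.1 hx)
    have h3 : Finsupp.degree x = p :=
      (congrFun (congrArg DFunLike.coe Finsupp.degree_eq_weight_one) x).trans h2
    omega
  obtain ⟨a, ha⟩ := hs h1
  refine ⟨homogeneousComponent (p + 1) a, homogeneousComponent_isHomogeneous _ _, ?_⟩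
  have h2 := graphI_hom hI hd _ (bt_mem (h := h) (q := q) a g ha) (p + 1)
  rw [map_sub] at h2
  have h3 : homogeneousComponent (p + 1) (rho g * X none : MvPolynomial (Option σ) K) =
      rho g * X none := by
    apply homogeneousComponent_eq_self
    apply IsHomogeneous.mul _ (isHomogeneous_X K none)
    exact hg.rename_isHomogeneous
  have h4 : homogeneousComponent (p + 1) (rho a : MvPolynomial (Option σ) K) =
      rho (homogeneousComponent (p + 1) a) := by
    exact hc_rho a (p + 1)
  rwa [h3, h4] at h2

/-- the vertex -/
lemma graph_vertex [IsAlgClosed K] (hI : SCone I r) (hd : GData I h q) (p : Option σ → K)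
    (hp : p ∈ cone (graphI I h q)) (hp0 : ∀ i, p (some i) = 0) : p = 0 := by
  classical
  have : Infinite K := IsAlgClosed.instInfinite
  obtain ⟨s, hs⟩ := exists_hstep hI hd
  obtain ⟨n, F, hFh, hF1, hF2⟩ := CH (κ := σ) (ι := σ) (cone (graphI I h q))
    (fun p i => p (some i)) (fun p => p none) (fun p i => p (some i)) s (by
      intro m hm
      have h1 : (monomial m (1 : K)).IsHomogeneous s := isHomogeneous_monomial _ hm
      obtain ⟨c, hc, hcm⟩ := hs s le_rfl _ h1
      have h2 : c ∈ Ideal.span (Set.range (fun i : σ => lin (Pi.single i (1 : K)))) := by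
        have h3 := homog_mem_vars (by omega) hc
        simp only [lin_single]
        exact h3
      obtain ⟨N, hN, hcN⟩ := homog_coeff _ c s hc h2
      refine ⟨N, hN, fun p hp => ?_⟩
      have h3 := hp _ hcm
      rw [← pt_eta p, map_sub, map_mul, eval_pt_rho, eval_pt_rho, eval_pt_none, hcN, map_sum] at h3
      have h4 : ∀ i, eval (fun i => p (some i)) (N i * lin (Pi.single i (1 : K))) =
          p (some i) * eval (fun i => p (some i)) (N i) := by
        intro i
        rw [map_mul, lin_single, eval_X, mul_comm]
      rw [Finset.sum_congr rfl (fun i _ => h4 i)] at h3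
      linear_combination h3)
  have hprime := graphI_prime (q := q) hI.prime hd.nmem
  obtain ⟨i, hi⟩ : ∃ i, rho (X i) ∉ graphI I h q := by
    by_contra hcon
    push Not at hcon
    apply hd.nmem
    have h1 : idealOfVars σ K ≤ I := by
      rw [idealOfVars, Ideal.span_le]
      rintro _ ⟨i, rfl⟩
      exact of_rho_mem hI.prime hd.nmem _ (hcon i)
    exact h1 (homog_mem_vars le_rfl hd.hh)
  have hFm : F ∈ graphI I h q := by
    have h1 : rho (X i) * F ∈ graphI I h q := by
      apply mem_of_vanish _ hprime
      intro p hp
      rw [map_mul]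
      by_cases hp0 : (fun i => p (some i)) = 0
      · have h2 := congrFun hp0 i
        rw [rho, rename_X, eval_X]
        show p (some i) * _ = 0
        rw [show p (some i) = 0 from h2, zero_mul]
      · have h2 := hF2 p hp hp0
        have h3 : (fun o : Option σ => (o.elim (p none) (fun i => p (some i)) : K)) = p := pt_eta p
        rw [h3] at h2
        rw [h2, mul_zero]
    exact (hprime.mem_or_mem h1).resolve_left hi
  have h1 := hp _ hFm
  have h2 : p = fun o : Option σ => o.elim (p none) (fun _ => 0) := by
    funext o
    cases o with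
    | none => rfl
    | some i => exact hp0 i
  rw [h2, hF1] at h1
  have h3 : p none = 0 := by
    by_contra h3
    exact pow_ne_zero n h3 h1
  funext o
  cases o with
  | none => exact h3
  | some i => exact hp0 i

/-- extension of conormal vectors by zero -/
def extL (σ : Type) (K : Type) [Field K] : (σ → K) →ₗ[K] (Option σ → K) where
  toFun ν := fun o => o.elim 0 ν
  map_add' u v := by
    funext o
    cases o <;> simp
  map_smul' c u := by
    funext o
    cases o <;> simp

omit [Fintype σ] [DecidableEq σ] in
lemma extL_inj : Function.Injective (extL σ K) := by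
  intro u v huv
  funext i
  exact congrFun huv (some i)

omit [Fintype σ] in
lemma grad_rho (F : MvPolynomial σ K) (p : Option σ → K) :
    grad (rho F) p = extL σ K (grad F (fun i => p (some i))) := by
  funext o
  cases o with
  | none =>
    show eval p (pderiv none (rename some F)) = 0
    have h1 : pderiv none (rename some F : MvPolynomial (Option σ) K) = 0 := by
      apply pderiv_eq_zero_of_notMem_vars
      intro hv
      have h2 := vars_rename some F hv
      rw [Finset.mem_image] at h2
      obtain ⟨i, _, hi⟩ := h2
      exact Option.some_ne_none i hi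
    rw [h1, map_zero]
  | some i =>
    show eval p (pderiv (some i) (rename some F)) = eval (fun i => p (some i)) (pderiv i F)
    rw [pderiv_rename (Option.some_injective σ), eval_rename]
    rfl

/-- **The graph is smooth.** -/
theorem graph_scone [IsAlgClosed K] (hI : SCone I r) (hd : GData I h q) :
    SCone (graphI I h q) (r + 1) := by
  classical
  have : Infinite K := IsAlgClosed.instInfinite
  refine ⟨graphI_prime hI.prime hd.nmem, graphI_hom hI hd, fun p hp hp0 => ?_⟩
  set x : σ → K := fun i => p (some i) with hx
  have hx0 : x ≠ 0 := by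
    intro h0
    apply hp0
    exact graph_vertex hI hd p hp (fun i => congrFun h0 i)
  have hpe : p = pt x (p none) := (pt_eta p).symm
  have hxI : x ∈ cone I := by
    intro F hF
    have := hp _ (rho_mem (h := h) (q := q) F hF)
    rwa [hpe, eval_pt_rho] at this
  obtain ⟨a, b, hb, hab⟩ := hd.reg x hxI hx0
  set E : MvPolynomial (Option σ) K := rho b * X none - rho a with hE
  have hEm : E ∈ graphI I h q := bt_mem a b hab
  have hEn : grad E p none = eval x b := by
    show eval p (pderiv none E) = _
    have h1 : ∀ F : MvPolynomial σ K, eval p (pderiv none (rho F)) = 0 := fun F =>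
      congrFun (grad_rho F p) none
    rw [hE, map_sub, Derivation.leibniz, map_sub, map_add, pderiv_X_self, smul_eq_mul,
      smul_eq_mul, map_mul, map_mul, h1, h1, map_one, mul_zero, mul_one, add_zero, sub_zero, hpe,
      eval_pt_rho]
  have hA : conormal (graphI I h q) p =
      (conormal I x).map (extL σ K) ⊔ Submodule.span K {grad E p} := by
    apply le_antisymm
    · rw [conormal, Submodule.span_le]
      rintro _ ⟨G, hG, rfl⟩
      obtain ⟨e, g, H, hc⟩ := clear_denom a b G
      have hg := graphI_clear hI.prime hd.nmem hab hc hG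
      have h1 : grad (rho b ^ e * G) p = eval p (rho b ^ e) • grad G p := by
        rw [grad_mul, hp _ hG, zero_smul, zero_add]
      have h2 : grad (rho g + E * H) p = extL σ K (grad g x) + eval p H • grad E p := by
        rw [grad_add, grad_rho, grad_mul, hp _ hEm, zero_smul, add_zero]
      rw [hc, h2] at h1
      have h3 : eval p (rho b ^ e) ≠ 0 := by
        rw [map_pow, hpe, eval_pt_rho]
        exact pow_ne_zero _ hb
      have h4 : grad G p = (eval p (rho b ^ e))⁻¹ •
          (extL σ K (grad g x) + eval p H • grad E p) := by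
        rw [h1, smul_smul, inv_mul_cancel₀ h3, one_smul]
      rw [h4]
      apply Submodule.smul_mem
      apply Submodule.add_mem_sup
      · exact Submodule.mem_map_of_mem (grad_mem I x hg)
      · exact Submodule.smul_mem _ _ (Submodule.subset_span rfl)
    · rw [sup_le_iff]
      constructor
      · rw [conormal, Submodule.map_span, Submodule.span_le]
        rintro _ ⟨_, ⟨F, hF, rfl⟩, rfl⟩
        rw [hx, ← grad_rho]
        exact grad_mem _ _ (rho_mem F hF)
      · rw [Submodule.span_le, Set.singleton_subset_iff]
        exact grad_mem _ _ hEm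
  have hnot : grad E p ∉ (conormal I x).map (extL σ K) := by
    rintro ⟨ν, _, hν⟩
    have h1 := congrFun hν none
    rw [hEn] at h1
    exact hb h1.symm
  have h0 : grad E p ≠ 0 := by
    intro h0
    rw [h0] at hEn
    exact hb hEn.symm
  have hinf : (conormal I x).map (extL σ K) ⊓ Submodule.span K {grad E p} = ⊥ := by
    rw [eq_bot_iff]
    rintro ξ ⟨h1, h2⟩
    obtain ⟨c, rfl⟩ := Submodule.mem_span_singleton.1 h2
    by_cases hc : c = 0
    · rw [hc, zero_smul]; exact Submodule.zero_mem _
    · exfalso
      apply hnot
      have := Submodule.smul_mem _ c⁻¹ h1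
      rwa [smul_smul, inv_mul_cancel₀ hc, one_smul] at this
  have h1 := Submodule.finrank_sup_add_finrank_inf_eq ((conormal I x).map (extL σ K))
    (Submodule.span K {grad E p})
  have h2 := (Submodule.equivMapOfInjective (extL σ K) extL_inj (conormal I x)).finrank_eq
  rw [← hA, hinf, finrank_bot, add_zero, finrank_span_singleton h0, ← h2,
    hI.rank x hxI hx0] at h1
  exact h1

end Pool.Agent.J4.H17.CI
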