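import Pool.Agent.J4.H17.CI.F3

/-!
# Linear normality
-/

set_option autoImplicit false
set_option maxHeartbeats 400000

namespace Pool.Agent.J4.H17.CI

open MvPolynomial Pool.Agent.H929R2.Hart

variable {σ : Type} [Fintype σ] [DecidableEq σ] {K : Type} [Field K]
variable {I : Ideal (MvPolynomial σ K)} {r : ℕ} {h q : MvPolynomial σ K}

omit [DecidableEq σ] in
lemma homog_mem_pow {p s : ℕ} (hp : s ≤ p) {g : MvPolynomial σ K} (hg : g.IsHomogeneous p) :
    g ∈ idealOfVars σ K ^ s := by
  rw [mem_pow_idealOfVars_iff]
  intro x hx
  have h2 := hg (mem_support_iff.1 hx)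
  have h3 : Finsupp.degree x = p :=
    (congrFun (congrArg DFunLike.coe Finsupp.degree_eq_weight_one) x).trans h2
  omega

/-- forms of large degree on the graph -/
theorem graph_H [IsAlgClosed K] (hI : SCone I r) (hd : GData I h q) :
    ∃ p0 : ℕ, ∀ p : ℕ, p0 ≤ p → ∀ G : MvPolynomial (Option σ) K, G.IsHomogeneous p →
      ∃ g : MvPolynomial σ K, g.IsHomogeneous p ∧ G - rho g ∈ graphI I h q := by
  classical
  obtain ⟨s, hs⟩ := exists_hstep hI hd
  -- multiplication by the new variable
  have hT : ∀ g ∈ idealOfVars σ K ^ s, ∃ c ∈ idealOfVars σ K ^ s,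
      rho g * X none - rho c ∈ graphI I h q := by
    intro g hg
    have h1 : ∀ d, ∃ c ∈ idealOfVars σ K ^ s,
        rho (homogeneousComponent d g) * X none - rho c ∈ graphI I h q := by
      intro d
      rcases Nat.lt_or_ge d s with hds | hds
      · refine ⟨0, Ideal.zero_mem _, ?_⟩
        have h2 : homogeneousComponent d g = 0 := by
          ext x
          rw [coeff_homogeneousComponent, coeff_zero]
          split_ifs with hx
          · exact (mem_pow_idealOfVars_iff' _ _).1 hg x (by omega)
          · rfl
        rw [h2, map_zero, zero_mul, sub_zero]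
        exact Ideal.zero_mem _
      · obtain ⟨c, hc, hcm⟩ := hs d hds _ (homogeneousComponent_isHomogeneous d g)
        exact ⟨c, homog_mem_pow (by omega) hc, hcm⟩
    choose c hc hcm using h1
    refine ⟨∑ d ∈ Finset.range (g.totalDegree + 1), c d,
      Ideal.sum_mem _ (fun d _ => hc d), ?_⟩
    have h2 : rho g * X none - rho (∑ d ∈ Finset.range (g.totalDegree + 1), c d) =
        ∑ d ∈ Finset.range (g.totalDegree + 1),
          (rho (homogeneousComponent d g) * X none - rho (c d)) := by
      conv_lhs => rw [← sum_homogeneousComponent g]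
      rw [map_sum, map_sum, Finset.sum_mul, Finset.sum_sub_distrib]
      simp only [sum_homogeneousComponent]
    rw [h2]
    exact Ideal.sum_mem _ (fun d _ => hcm d)
  let W : Ideal (MvPolynomial (Option σ) K) :=
    { carrier := {G | ∃ g ∈ idealOfVars σ K ^ s, G - rho g ∈ graphI I h q}
      zero_mem' := ⟨0, Ideal.zero_mem _, by rw [map_zero, sub_zero]; exact Ideal.zero_mem _⟩
      add_mem' := by
        rintro G G' ⟨g, hg, hG⟩ ⟨g', hg', hG'⟩
        refine ⟨g + g', Ideal.add_mem _ hg hg', ?_⟩
        have h1 : G + G' - rho (g + g') = (G - rho g) + (G' - rho g') := by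
          rw [map_add]; ring
        rw [h1]
        exact Ideal.add_mem _ hG hG'
      smul_mem' := by
        intro c G hG
        induction c using MvPolynomial.induction_on with
        | C c =>
          obtain ⟨g, hg, hG⟩ := hG
          refine ⟨C c * g, Ideal.mul_mem_left _ _ hg, ?_⟩
          have h1 : (C c : MvPolynomial (Option σ) K) • G - rho (C c * g) =
              C c * (G - rho g) := by
            rw [map_mul, smul_eq_mul, rho, rename_C]; ring
          rw [h1]
          exact Ideal.mul_mem_left _ _ hG
        | add c c' hc hc' =>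
          obtain ⟨g, hg, hG⟩ := hc
          obtain ⟨g', hg', hG'⟩ := hc'
          refine ⟨g + g', Ideal.add_mem _ hg hg', ?_⟩
          have h1 : (c + c') • G - rho (g + g') = (c • G - rho g) + (c' • G - rho g') := by
            rw [map_add, add_smul]; ring
          rw [h1]
          exact Ideal.add_mem _ hG hG'
        | mul_X c o hc =>
          obtain ⟨g, hg, hG⟩ := hc
          cases o with
          | some i =>
            refine ⟨g * X i, Ideal.mul_mem_right _ _ hg, ?_⟩
            have h1 : (c * X (some i)) • G - rho (g * X i) = X (some i) * (c • G - rho g) := by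
              rw [map_mul, smul_eq_mul, smul_eq_mul, rho, rename_X]; ring
            rw [h1]
            exact Ideal.mul_mem_left _ _ hG
          | none =>
            obtain ⟨g', hg', hG'⟩ := hT g hg
            refine ⟨g', hg', ?_⟩
            have h1 : (c * X none) • G - rho g' = X none * (c • G - rho g) +
                (rho g * X none - rho g') := by
              rw [smul_eq_mul, smul_eq_mul]; ring
            rw [h1]
            exact Ideal.add_mem _ (Ideal.mul_mem_left _ _ hG) hG' }
  obtain ⟨n, hn⟩ := pow_le_of_zero ((idealOfVars σ K).map (rho (σ := σ) (K := K)) ⊔ graphI I h q) (by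
    intro p hp
    apply graph_vertex hI hd p (fun G hG => hp G (Ideal.mem_sup_right hG))
    intro i
    have h1 := hp (rho (X i)) (Ideal.mem_sup_left (Ideal.mem_map_of_mem _
      (Ideal.subset_span ⟨i, rfl⟩)))
    rwa [rho, rename_X, eval_X] at h1)
  refine ⟨n * s, fun p hp G hG => ?_⟩
  have h1 : G ∈ W := by
    have h2 : G ∈ idealOfVars (Option σ) K ^ (n * s) := homog_mem_pow hp hG
    rw [pow_mul] at h2
    have h3 := sup_pow_le _ _ s (Ideal.pow_right_mono hn s h2)
    rw [← Ideal.map_pow] at h3
    refine (sup_le ?_ ?_ : _ ≤ W) h3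
    · rw [Ideal.map_le_iff_le_comap]
      intro g hg
      exact ⟨g, hg, by rw [sub_self]; exact Ideal.zero_mem _⟩
    · intro G hG
      exact ⟨0, Ideal.zero_mem _, by rw [map_zero, sub_zero]; exact hG⟩
  obtain ⟨g, _, hg⟩ := h1
  refine ⟨homogeneousComponent p g, homogeneousComponent_isHomogeneous _ _, ?_⟩
  have h2 := graphI_hom hI hd _ hg p
  rwa [map_sub, homogeneousComponent_eq_self hG, hc_rho] at h2

omit [Fintype σ] in
lemma diff_mem [Fintype σ] [IsAlgClosed K] (E1 E2 : MvPolynomial (Option σ ⊕ Option σ) K) (ν : ℕ)
    (h1 : E1.IsHomogeneous (ν + 1)) (h2 : E2.IsHomogeneous (ν + 1))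
    (hE : ∀ w : Option σ ⊕ Option σ → K,
      (∀ j : σ, w (Sum.inr (some j)) = w (Sum.inl (some j))) → eval w E1 = eval w E2) :
    ∃ N : σ → MvPolynomial (Option σ ⊕ Option σ) K, (∀ j, (N j).IsHomogeneous ν) ∧
      ∀ w, eval w E1 - eval w E2 =
        ∑ j, (w (Sum.inr (some j)) - w (Sum.inl (some j))) * eval w (N j) := by
  classical
  have : Infinite K := IsAlgClosed.instInfinite
  let l : σ → (Option σ ⊕ Option σ) → K := fun j =>
    Pi.single (Sum.inr (some j)) 1 - Pi.single (Sum.inl (some j)) 1
  have hdot : ∀ j w, dotB _ K (l j) w = w (Sum.inr (some j)) - w (Sum.inl (some j)) := by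
    intro j w
    rw [← eval_lin]
    have h3 : lin (l j) = X (Sum.inr (some j)) - X (Sum.inl (some j)) := by
      have h4 : l j = Pi.single (Sum.inr (some j)) 1 +
          (-1 : K) • Pi.single (Sum.inl (some j)) (1 : K) := by
        simp only [l]
        rw [neg_smul, one_smul, sub_eq_add_neg]
      rw [h4, lin_add, lin_smul, lin_single, lin_single, map_neg, map_one]
      ring
    rw [h3, map_sub, eval_X, eval_X]
  have hl : LinearIndependent K l := by
    rw [Fintype.linearIndependent_iff]
    intro c hc i
    have h3 := congrFun hc (Sum.inr (some i))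
    simp only [Finset.sum_apply, Pi.smul_apply, l, Pi.sub_apply, smul_eq_mul, Pi.zero_apply,
      Pi.single_apply, Sum.inr.injEq, Option.some.injEq, reduceCtorEq, if_false, sub_zero,
      mul_ite, mul_one, mul_zero, Finset.sum_ite_eq, Finset.mem_univ, if_true] at h3
    exact h3
  have h3 := mem_span_lin l hl (E1 - E2) (by
    intro w hw
    rw [map_sub, hE w (fun j => ?_), sub_self]
    have h4 := hw j
    rw [hdot] at h4
    exact sub_eq_zero.1 h4)
  obtain ⟨N, hN, hE12⟩ := homog_coeff l (E1 - E2) ν (h1.sub h2) h3
  refine ⟨N, hN, fun w => ?_⟩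
  rw [← map_sub, hE12, map_sum]
  exact Finset.sum_congr rfl (fun j _ => by rw [map_mul, eval_lin, hdot, mul_comm])

/-- the polynomial which vanishes at the differences of the points of the graph -/
theorem graph_poly [IsAlgClosed K] (hI : SCone I r) (hd : GData I h q) :
    ∃ (n : ℕ) (F : MvPolynomial (Option σ) K), F.IsHomogeneous n ∧
      (∀ τ : K, eval (fun o : Option σ => o.elim τ (fun _ => 0)) F = τ ^ n) ∧
      ∀ p ∈ cone (graphI I h q), p ≠ 0 → ∀ p' ∈ cone (graphI I h q), p' ≠ 0 →
        eval (p' - p) F = 0 := by
  classical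
  obtain ⟨p0, hH⟩ := graph_H hI hd
  obtain ⟨n, F, hFh, hF1, hF2⟩ := CH (κ := Option σ ⊕ Option σ) (ι := σ)
    {pp : (Option σ → K) × (Option σ → K) |
      pp.1 ∈ cone (graphI I h q) ∧ pp.2 ∈ cone (graphI I h q)}
    (fun pp => Sum.elim pp.1 pp.2) (fun pp => pp.2 none - pp.1 none)
    (fun pp j => pp.2 (some j) - pp.1 (some j)) (2 * p0) (by
      intro m hm
      let α : Option σ →₀ ℕ := Finsupp.equivFunOnFinite.symm (fun o => m (Sum.inl o))
      let β : Option σ →₀ ℕ := Finsupp.equivFunOnFinite.symm (fun o => m (Sum.inr o))
      have hdeg : α.degree + β.degree = 2 * p0 := by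
        rw [← hm, Finsupp.degree_eq_sum, Finsupp.degree_eq_sum, Finsupp.degree_eq_sum,
          Fintype.sum_sum_type]
        rfl
      have hmon : ∀ p p' : Option σ → K, eval (Sum.elim p p') (monomial m (1 : K)) =
          eval p (monomial α (1 : K)) * eval p' (monomial β (1 : K)) := by
        intro p p'
        rw [eval_monomial, eval_monomial, eval_monomial, one_mul, one_mul, one_mul,
          Finsupp.prod_pow, Finsupp.prod_pow, Finsupp.prod_pow, Fintype.prod_sum_type]
        rfl
      have hAh : (monomial α (1 : K)).IsHomogeneous α.degree := isHomogeneous_monomial _ rfl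
      have hBh : (monomial β (1 : K)).IsHomogeneous β.degree := isHomogeneous_monomial _ rfl
      have hel : ∀ (g : MvPolynomial σ K) (p p' : Option σ → K),
          eval (Sum.elim p p') (rename (fun i => Sum.inl (some i)) g) =
            eval (fun i => p (some i)) g := by
        intro g p p'
        rw [eval_rename]; rfl
      have her : ∀ (g : MvPolynomial σ K) (p p' : Option σ → K),
          eval (Sum.elim p p') (rename (fun i => Sum.inr (some i)) g) =
            eval (fun i => p' (some i)) g := by
        intro g p p'
        rw [eval_rename]; rfl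
      have hel' : ∀ (g : MvPolynomial (Option σ) K) (p p' : Option σ → K),
          eval (Sum.elim p p') (rename Sum.inl g) = eval p g := by
        intro g p p'
        rw [eval_rename]; rfl
      have her' : ∀ (g : MvPolynomial (Option σ) K) (p p' : Option σ → K),
          eval (Sum.elim p p') (rename Sum.inr g) = eval p' g := by
        intro g p p'
        rw [eval_rename]; rfl
      have hgr : ∀ (G : MvPolynomial (Option σ) K) (g : MvPolynomial σ K),
          G - rho g ∈ graphI I h q → ∀ p ∈ cone (graphI I h q),
            eval p G = eval (fun i => p (some i)) g := by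
        intro G g hGg p hp
        have h1 := hp _ hGg
        rw [map_sub, sub_eq_zero] at h1
        rw [h1]
        conv_lhs => rw [← pt_eta p]
        rw [eval_pt_rho]
      rcases Nat.lt_or_ge α.degree p0 with hα | hα
      · -- use the second factor
        obtain ⟨g1, hg1h, hg1⟩ := hH β.degree (by omega) _ hBh
        obtain ⟨g2, hg2h, hg2⟩ := hH (β.degree + 1) (by omega) _
          (hBh.mul (isHomogeneous_X K none))
        let E1 : MvPolynomial (Option σ ⊕ Option σ) K :=
          (rename (fun i => Sum.inr (some i)) g2 -
            X (Sum.inl none) * rename (fun i => Sum.inr (some i)) g1) *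
            rename Sum.inl (monomial α (1 : K))
        let E2 : MvPolynomial (Option σ ⊕ Option σ) K :=
          (rename (fun i => Sum.inl (some i)) g2 -
            X (Sum.inl none) * rename (fun i => Sum.inl (some i)) g1) *
            rename Sum.inl (monomial α (1 : K))
        have hX : ∀ (f : σ → Option σ ⊕ Option σ),
            ((rename f g2 - X (Sum.inl none) * rename f g1) *
            rename Sum.inl (monomial α (1 : K)) :
              MvPolynomial (Option σ ⊕ Option σ) K).IsHomogeneous (2 * p0 + 1) := by
          intro f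
          have h1 : (rename f g2 - X (Sum.inl none) * rename f g1).IsHomogeneous
              (β.degree + 1) := by
            apply hg2h.rename_isHomogeneous.sub
            have := (isHomogeneous_X K (Sum.inl none : Option σ ⊕ Option σ)).mul
              (hg1h.rename_isHomogeneous (f := f))
            rwa [add_comm] at this
          have h2 := h1.mul (hAh.rename_isHomogeneous (f := (Sum.inl : Option σ → Option σ ⊕ Option σ)))
          have h3 : β.degree + 1 + α.degree = 2 * p0 + 1 := by omega
          rwa [h3] at h2
        obtain ⟨N, hN, hE⟩ := diff_mem E1 E2 (2 * p0) (hX _) (hX _) (by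
          intro w hw
          have h1 : ∀ g : MvPolynomial σ K, eval w (rename (fun i => Sum.inr (some i)) g) =
              eval w (rename (fun i => Sum.inl (some i)) g) := by
            intro g
            rw [eval_rename, eval_rename]
            have h0 : (w ∘ fun i : σ => Sum.inr (some i)) =
              (w ∘ fun i : σ => Sum.inl (some i)) := _root_.funext hw
            rw [h0]
          simp only [E1, E2, map_mul, map_sub, h1])
        refine ⟨N, hN, ?_⟩
        rintro ⟨p, p'⟩ ⟨hp, hp'⟩
        have h1 := hE (Sum.elim p p')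
        simp only [Sum.elim_inl, Sum.elim_inr] at h1 ⊢
        rw [← h1]
        simp only [E1, E2, map_mul, map_sub, hel, her, hel', eval_X, Sum.elim_inl]
        rw [hmon]
        have h2 := hgr _ _ hg1 p' hp'
        have h3 := hgr _ _ hg2 p' hp'
        have h4 := hgr _ _ hg1 p hp
        have h5 := hgr _ _ hg2 p hp
        rw [map_mul, eval_X] at h3 h5
        rw [← h2, ← h3, ← h4, ← h5]
        ring
      · obtain ⟨g1, hg1h, hg1⟩ := hH α.degree hα _ hAh
        obtain ⟨g2, hg2h, hg2⟩ := hH (α.degree + 1) (by omega) _
          (hAh.mul (isHomogeneous_X K none))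
        let E1 : MvPolynomial (Option σ ⊕ Option σ) K :=
          (X (Sum.inr none) * rename (fun i => Sum.inl (some i)) g1 -
            rename (fun i => Sum.inl (some i)) g2) *
            rename Sum.inr (monomial β (1 : K))
        let E2 : MvPolynomial (Option σ ⊕ Option σ) K :=
          (X (Sum.inr none) * rename (fun i => Sum.inr (some i)) g1 -
            rename (fun i => Sum.inr (some i)) g2) *
            rename Sum.inr (monomial β (1 : K))
        have hX : ∀ (f : σ → Option σ ⊕ Option σ),
            ((X (Sum.inr none) * rename f g1 - rename f g2) *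
            rename Sum.inr (monomial β (1 : K)) :
              MvPolynomial (Option σ ⊕ Option σ) K).IsHomogeneous (2 * p0 + 1) := by
          intro f
          have h1 : (X (Sum.inr none) * rename f g1 - rename f g2).IsHomogeneous
              (α.degree + 1) := by
            refine IsHomogeneous.sub ?_ hg2h.rename_isHomogeneous
            have := (isHomogeneous_X K (Sum.inr none : Option σ ⊕ Option σ)).mul
              (hg1h.rename_isHomogeneous (f := f))
            rwa [add_comm] at this
          have h2 := h1.mul (hBh.rename_isHomogeneous (f := (Sum.inr : Option σ → Option σ ⊕ Option σ)))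
          have h3 : α.degree + 1 + β.degree = 2 * p0 + 1 := by omega
          rwa [h3] at h2
        obtain ⟨N, hN, hE⟩ := diff_mem E1 E2 (2 * p0) (hX _) (hX _) (by
          intro w hw
          have h1 : ∀ g : MvPolynomial σ K, eval w (rename (fun i => Sum.inr (some i)) g) =
              eval w (rename (fun i => Sum.inl (some i)) g) := by
            intro g
            rw [eval_rename, eval_rename]
            have h0 : (w ∘ fun i : σ => Sum.inr (some i)) =
              (w ∘ fun i : σ => Sum.inl (some i)) := _root_.funext hw
            rw [h0]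
          simp only [E1, E2, map_mul, map_sub, h1])
        refine ⟨N, hN, ?_⟩
        rintro ⟨p, p'⟩ ⟨hp, hp'⟩
        have h1 := hE (Sum.elim p p')
        simp only [Sum.elim_inl, Sum.elim_inr] at h1 ⊢
        rw [← h1]
        simp only [E1, E2, map_mul, map_sub, hel, her, her', eval_X, Sum.elim_inr]
        rw [hmon]
        have h2 := hgr _ _ hg1 p' hp'
        have h3 := hgr _ _ hg2 p' hp'
        have h4 := hgr _ _ hg1 p hp
        have h5 := hgr _ _ hg2 p hp
        rw [map_mul, eval_X] at h3 h5
        rw [← h2, ← h3, ← h4, ← h5]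
        ring)
  refine ⟨n, F, hFh, hF1, fun p hp hp0 p' hp' hp0' => ?_⟩
  have h1 := hF2 (p, p') ⟨hp, hp'⟩ (by
    intro h0
    apply hp0
    funext o
    exact congrFun h0 (Sum.inl o))
  have h2 : (fun o : Option σ => (o.elim (p' none - p none)
      (fun j => p' (some j) - p (some j)) : K)) = p' - p := by
    funext o
    cases o <;> rfl
  rwa [h2] at h1

lemma lin_extL (u : σ → K) : lin (extL σ K u) = rho (lin u) := by
  rw [lin, lin, Fintype.sum_option, map_sum]
  have h1 : extL σ K u none = 0 := rfl
  rw [h1, map_zero, zero_mul, zero_add]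
  refine Finset.sum_congr rfl (fun i _ => ?_)
  rw [map_mul, rho, rename_C, rename_X]
  rfl

/-- **Linear normality.** -/
theorem LN2 [IsAlgClosed K] [CharZero K] (hI : SCone I r) (hd : GData I h q) {lam : ℕ}
    (e : Fin lam → σ → K) (he : LinearIndependent K e) (heI : ∀ i, lin (e i) ∈ I)
    (hcard : 3 * (r + 1 - lam) + lam < Fintype.card σ + 1) :
    ∃ m : σ → K, q - h * lin m ∈ I := by
  classical
  obtain ⟨n, F, hFh, hF1, hF2⟩ := graph_poly hI hd
  by_contra hcon
  push Not at hcon
  have hnone : ∀ u : Option σ → K, lin u ∈ graphI I h q → u none = 0 := by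
    intro u hu
    by_contra hu0
    apply hcon (fun i => - ((u none)⁻¹ * u (some i)))
    apply vanish_mem hI.prime hd.nmem
    intro x hx hh
    have h1 := hu x hx hh
    rw [eval_lin, dotB_apply, Fintype.sum_option] at h1
    rw [map_sub, map_mul, eval_lin, dotB_apply]
    have h2 : ∑ i, -((u none)⁻¹ * u (some i)) * x i = -((u none)⁻¹ * ∑ i, u (some i) * x i) := by
      rw [Finset.mul_sum, ← Finset.sum_neg_distrib]
      exact Finset.sum_congr rfl (fun i _ => by ring)
    rw [h2]
    have h3 : u none * (eval x q / eval x h) + ∑ i, u (some i) * x i = 0 := h1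
    have h4 : ∑ i, u (some i) * x i = - (u none * (eval x q / eval x h)) := by
      linear_combination h3
    rw [h4]
    field_simp
    ring
  obtain ⟨x, hx, hxh⟩ : ∃ x ∈ cone I, eval x h ≠ 0 := by
    by_contra hcon
    push Not at hcon
    exact hd.nmem (mem_of_vanish I hI.prime h hcon)
  have hx0 : x ≠ 0 := by
    rintro rfl
    exact hxh ((mem_idealOfVars h).1 (homog_mem_vars le_rfl hd.hh))
  have hne : ∃ p ∈ cone (graphI I h q), p ≠ 0 := by
    refine ⟨pt x (eval x q / eval x h), fun G hG => hG x hx hxh, fun h0 => hx0 ?_⟩
    funext i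
    exact congrFun h0 (some i)
  have h1 := join (graph_scone hI hd) hne (fun i => extL σ K (e i))
    (he.map' (extL σ K) (LinearMap.ker_eq_bot.2 extL_inj)) (fun i => by
      rw [lin_extL]
      exact rho_mem _ (heI i)) (by
      rw [Fintype.card_option]
      exact hcard) n F hFh hF2 (pt 0 1) (by
      intro u hu
      rw [dotB_apply, Fintype.sum_option]
      have h2 : ∑ i, u (some i) * (pt 0 1 : Option σ → K) (some i) = 0 := by
        refine Finset.sum_eq_zero (fun i _ => ?_)
        show u (some i) * 0 = 0
        rw [mul_zero]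
      rw [h2, hnone u hu, zero_mul, add_zero])
  have h2 := hF1 1
  rw [one_pow] at h2
  have h3 : (fun o : Option σ => (o.elim (1 : K) (fun _ => 0) : K)) = pt 0 1 := rfl
  rw [h3, h1] at h2
  exact zero_ne_one h2

/-- **Hyperplane sections span.** -/
theorem LN1 [IsAlgClosed K] [CharZero K] (hI : SCone I r) (hh : h.IsHomogeneous 1)
    (hq : q.IsHomogeneous 1) (hn : h ∉ I)
    (hreg : ∀ z ∈ cone I, z ≠ 0 → ∃ a b, eval z b ≠ 0 ∧ b * q - h * a ∈ I) {lam : ℕ}
    (e : Fin lam → σ → K) (he : LinearIndependent K e) (heI : ∀ i, lin (e i) ∈ I)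
    (hcard : 3 * (r + 1 - lam) + lam < Fintype.card σ + 1) :
    ∃ c : K, q - h * C c ∈ I := by
  classical
  have h1 : ∀ i : σ, ∃ m : σ → K, X i * q - h * lin m ∈ I := by
    intro i
    apply LN2 hI _ e he heI hcard
    refine ⟨hh, ?_, hn, fun z hz hz0 => ?_⟩
    · exact (isHomogeneous_X K i).mul hq
    · obtain ⟨a, b, hb, hab⟩ := hreg z hz hz0
      refine ⟨X i * a, b, hb, ?_⟩
      have h2 : b * (X i * q) - h * (X i * a) = X i * (b * q - h * a) := by ring
      rw [h2]
      exact I.mul_mem_left _ hab
  choose m hm using h1
  let f : Module.End K (σ → K) :=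
    { toFun := fun x i => dotB σ K (m i) x
      map_add' := fun x y => by funext i; simp
      map_smul' := fun c x => by funext i; simp }
  have hfin := Module.End.finite_hasEigenvalue f
  set Rt := hfin.toFinset with hRt
  have h2 : ∏ μ ∈ Rt, (q - h * C μ) ∈ I := by
    apply vanish_mem hI.prime hn
    intro x hx hxh
    rw [map_prod]
    have hx0 : x ≠ 0 := by
      rintro rfl
      exact hxh ((mem_idealOfVars h).1 (homog_mem_vars le_rfl hh))
    have h3 : f.HasEigenvector (eval x q / eval x h) x := by
      refine ⟨?_, hx0⟩
      rw [Module.End.mem_eigenspace_iff]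
      funext i
      show dotB σ K (m i) x = (eval x q / eval x h) * x i
      have h4 := hx _ (hm i)
      rw [map_sub, map_mul, map_mul, eval_X, eval_lin] at h4
      field_simp
      linear_combination - h4
    apply Finset.prod_eq_zero (i := eval x q / eval x h)
    · rw [hRt, Set.Finite.mem_toFinset]
      exact Module.End.hasEigenvalue_of_hasEigenvector h3
    · rw [map_sub, map_mul, eval_C, mul_div_cancel₀ _ hxh, sub_self]
  obtain ⟨μ, _, hμ⟩ := hI.prime.prod_mem_iff.1 h2
  exact ⟨μ, hμ⟩

end Pool.Agent.J4.H17.CI
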