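import Pool.Agent.J4.H17.CI.F4
import Pool.Agent.H248R5.Bert

/-!
# Smooth hyperplane sections
-/

set_option autoImplicit false
set_option maxHeartbeats 400000

namespace Pool.Agent.J4.H17.CI

open MvPolynomial Pool.Agent.H929R2.Hart

variable {σ : Type} [Fintype σ] [DecidableEq σ] {K : Type} [Field K]
variable {I : Ideal (MvPolynomial σ K)} {r : ℕ}

omit [DecidableEq σ] in
/-- a general point of a component -/
lemma exists_sep_point [IsAlgClosed K] (J p : Ideal (MvPolynomial σ K))
    (hp : p ∈ J.minimalPrimes) (T : MvPolynomial σ K) (hT : T ∉ p) :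
    ∃ S : MvPolynomial σ K, S ∉ p ∧ (∀ q ∈ J.minimalPrimes, q ≠ p → S ∈ q) ∧
      ∃ z ∈ cone p, eval z S ≠ 0 ∧ eval z T ≠ 0 := by
  classical
  have hfin := Ideal.finite_minimalPrimes_of_isNoetherianRing (MvPolynomial σ K) J
  have hsep : ∀ q : Ideal (MvPolynomial σ K), ∃ s : MvPolynomial σ K,
      q ∈ J.minimalPrimes → q ≠ p → s ∈ q ∧ s ∉ p := by
    intro q
    by_cases hq : q ∈ J.minimalPrimes ∧ q ≠ p
    · have hnle : ¬ q ≤ p := fun hle => hq.2 (le_antisymm hle (hp.2 hq.1.1 hle))
      obtain ⟨s, hs, hs'⟩ := SetLike.not_le_iff_exists.1 hnle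
      exact ⟨s, fun _ _ => ⟨hs, hs'⟩⟩
    · exact ⟨0, fun h1 h2 => absurd ⟨h1, h2⟩ hq⟩
  choose s hs using hsep
  set S := ∏ q ∈ hfin.toFinset.erase p, s q with hS
  have hSp : S ∉ p := by
    rw [hS, hp.1.1.prod_mem_iff]
    rintro ⟨q, hq, hqp⟩
    rw [Finset.mem_erase, Set.Finite.mem_toFinset] at hq
    exact (hs q hq.2 hq.1).2 hqp
  refine ⟨S, hSp, ?_, ?_⟩
  · intro q hq hqp
    rw [hS]
    have hqm : q ∈ hfin.toFinset.erase p := by
      rw [Finset.mem_erase, Set.Finite.mem_toFinset]
      exact ⟨hqp, hq⟩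
    rw [← Finset.mul_prod_erase _ _ hqm]
    exact q.mul_mem_right _ (hs q hq hqp).1
  · by_contra hcon
    push Not at hcon
    have h1 : S * T ∈ p := by
      apply mem_of_vanish p hp.1.1
      intro z hz
      rw [map_mul]
      by_cases h : eval z S = 0
      · rw [h, zero_mul]
      · rw [hcon z hz h, mul_zero]
    rcases hp.1.1.mem_or_mem h1 with h | h
    · exact hSp h
    · exact hT h

/-- **Krull's height theorem**, for the dimension of the components. -/
theorem dim_ge [IsAlgClosed K] {ι : Type} [Fintype ι] (f : ι → MvPolynomial σ K)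
    (P : Ideal (MvPolynomial σ K)) (hP : P ∈ (Ideal.span (Set.range f)).minimalPrimes) :
    ((Fintype.card σ - Fintype.card ι : ℕ) : WithBot ℕ∞) ≤
      ringKrullDim (MvPolynomial σ K ⧸ P) := by
  classical
  have hPp := hP.1.1
  obtain ⟨S, hSP, hS, z, hz, hzS, -⟩ := exists_sep_point _ P hP 1
    (fun h => hPp.ne_top ((Ideal.eq_top_iff_one P).2 h))
  set Mz := RingHom.ker (eval z : MvPolynomial σ K →+* K) with hMz
  have hmax : Mz.IsMaximal :=
    RingHom.ker_isMaximal_of_surjective _ (fun c => ⟨C c, eval_C c⟩)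
  have hPMz : P ≤ Mz := fun H hH => hz H hH
  set π := Ideal.Quotient.mk P with hπ
  set M := Mz.map π with hM
  have hcomap : M.comap π = Mz := by
    rw [hM, Ideal.comap_map_of_surjective π Ideal.Quotient.mk_surjective]
    have h2 : Ideal.comap π ⊥ = P := Ideal.mk_ker
    rw [h2, sup_eq_left.2 hPMz]
  have hMmax : M.IsMaximal := by
    have h1 := Ideal.map_eq_top_or_isMaximal_of_surjective π Ideal.Quotient.mk_surjective hmax
    rcases h1 with h1 | h1
    · exfalso
      rw [← hM] at h1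
      rw [h1, Ideal.comap_top] at hcomap
      exact hmax.ne_top hcomap.symm
    · exact h1
  have hMp := hMmax.isPrime
  obtain ⟨s, hs, hcard⟩ := Ideal.exists_finset_card_eq_height_of_isNoetherianRing M
  rw [← Pool.Agent.Helper226.height_eq_ringKrullDim K _ M hMmax, ← hcard]
  have hlift : ∀ a : MvPolynomial σ K ⧸ P, ∃ A, π A = a := Ideal.Quotient.mk_surjective
  choose A hA using hlift
  let G : ι ⊕ s → MvPolynomial σ K := Sum.elim f (fun a => A a.1)
  have hmin : Mz ∈ (Ideal.span (Set.range G)).minimalPrimes := by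
    refine ⟨⟨hmax.isPrime, ?_⟩, ?_⟩
    · rw [Ideal.span_le]
      rintro _ ⟨i | a, rfl⟩
      · exact hPMz (hP.1.2 (Ideal.subset_span ⟨i, rfl⟩))
      · show A a.1 ∈ Mz
        rw [← hcomap, Ideal.mem_comap, hA]
        exact hs.1.2 (Ideal.subset_span a.2)
    · rintro q ⟨hq, hGq⟩ hqM
      have hfq : Ideal.span (Set.range f) ≤ q := by
        rw [Ideal.span_le]
        rintro _ ⟨i, rfl⟩
        exact hGq (Ideal.subset_span ⟨Sum.inl i, rfl⟩)
      obtain ⟨P', hP', hPq⟩ := Ideal.exists_minimalPrimes_le hfq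
      have hPP : P' = P := by
        by_contra hne
        exact hzS (hqM (hPq (hS P' hP' hne)))
      rw [hPP] at hPq
      have hcq : (q.map π).comap π = q := by
        rw [Ideal.comap_map_of_surjective π Ideal.Quotient.mk_surjective]
        have h2 : Ideal.comap π ⊥ = P := Ideal.mk_ker
        rw [h2, sup_eq_left.2 hPq]
      have hqp : (q.map π).IsPrime := by
        apply Ideal.map_isPrime_of_surjective Ideal.Quotient.mk_surjective
        rw [Ideal.mk_ker]; exact hPq
      have h1 : M ≤ q.map π := by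
        apply hs.2 ⟨hqp, ?_⟩ (Ideal.map_mono hqM)
        rw [Ideal.span_le]
        intro a ha
        have h3 : A a ∈ q := hGq (Ideal.subset_span ⟨Sum.inr ⟨a, ha⟩, rfl⟩)
        have h4 := Ideal.mem_map_of_mem π h3
        rwa [hA] at h4
      rw [← hcomap, ← hcq]
      exact Ideal.comap_mono h1
  have h1 := Ideal.height_le_card_of_mem_minimalPrimes_span (Set.finite_range _) hmin
  have h2 : (Set.range G).ncard ≤ Fintype.card ι + s.card := by
    have h3 := Set.ncard_image_le (s := (Set.univ : Set (ι ⊕ s))) (f := G)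
    rw [Set.image_univ, Set.ncard_univ] at h3
    simpa using h3
  have h3 := (height_ker z).trans h1
  have h4 : Fintype.card σ ≤ (Set.range G).ncard := by exact_mod_cast h3
  have h5 : Fintype.card σ - Fintype.card ι ≤ s.card := by omega
  have h6 : ((Fintype.card σ - Fintype.card ι : ℕ) : WithBot ℕ∞) ≤ ((s.card : ℕ) : WithBot ℕ∞) := by
    exact_mod_cast h5
  exact h6

/-- **Smooth hyperplane sections.** -/
theorem exists_section [IsAlgClosed K] [CharZero K] (hI : SCone I r)
    (hne : ∃ x ∈ cone I, x ≠ 0) (c : σ → K)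
    (hc : ∀ z ∈ cone I, z ≠ 0 → dotB σ K c z = 0 → c ∉ conormal I z)
    {lam : ℕ} (e : Fin lam → σ → K) (he : LinearIndependent K e) (heI : ∀ i, lin (e i) ∈ I)
    (hcard : 2 * (r - lam) + lam + 1 < Fintype.card σ) :
    ∃ Q : Ideal (MvPolynomial σ K), SCone Q (r + 1) ∧ I ≤ Q ∧ lin c ∈ Q ∧
      (∀ z ∈ cone I, dotB σ K c z = 0 → z ∈ cone Q) ∧
      (∀ z ∈ cone Q, z ≠ 0 → ∀ F ∈ Q, ∃ a u, eval z u ≠ 0 ∧ u * F - lin c * a ∈ I) ∧
      ∃ z ∈ cone Q, z ≠ 0 := by
  classical
  have : Infinite K := IsAlgClosed.instInfinite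
  -- a point of the section
  obtain ⟨x0, hx0, hx00⟩ := hne
  obtain ⟨hlr, F0, hF0, hind0⟩ := exists_lframe hI e he heI x0 hx0 hx00
  obtain ⟨P0, y0, hinf0, hP0⟩ := exists_inf
    (Sum.elim (Sum.elim (fun i => sh x0 (F0 i)) (fun i => lin (e i))) (fun _ : Unit => lin c)) (by
    rintro ((i | i) | i)
    · show eval 0 (sh x0 (F0 i)) = 0
      rw [eval_sh, zero_add]
      exact hx0 _ (hF0 i)
    · show eval 0 (lin (e i)) = 0
      rw [eval_lin, map_zero]
    · show eval 0 (lin c) = 0
      rw [eval_lin, map_zero]) (by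
    simp only [Fintype.card_sum, Fintype.card_fin, Fintype.card_unit]; omega)
  have hy0I : y0 ∈ cone I := hinf0.mem_cone hI x0
    (hinf0.all' hI e heI hlr x0 hx0 hx00 F0 hF0 hind0 (fun i => hP0 (Sum.inl (Sum.inr i)))
      (fun i => hP0 (Sum.inl (Sum.inl i))))
  have hy0c : dotB σ K c y0 = 0 := by
    rw [← eval_lin]
    exact hinf0.hom (lin c) 1 (lin_homog c) (hP0 (Sum.inr ()))
  set J : Ideal (MvPolynomial σ K) := I ⊔ Ideal.span {lin c} with hJ
  have hJle : ∀ q : Ideal (MvPolynomial σ K), I ≤ q → lin c ∈ q → J ≤ q := by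
    intro q h1 h2
    rw [hJ, sup_le_iff, Ideal.span_le, Set.singleton_subset_iff]
    exact ⟨h1, h2⟩
  have hIJ : I ≤ J := le_sup_left
  have hcJ : lin c ∈ J := Ideal.mem_sup_right (Ideal.subset_span rfl)
  have hJhom : ∀ F ∈ J, ∀ e, homogeneousComponent e F ∈ J := by
    intro F hF e
    rw [hJ] at hF
    obtain ⟨a, ha, b, hb, rfl⟩ := Submodule.mem_sup.1 hF
    rw [map_add]
    apply J.add_mem (hIJ (hI.homog a ha e))
    obtain ⟨d, rfl⟩ := Ideal.mem_span_singleton'.1 hb
    rcases Nat.eq_zero_or_pos e with he | he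
    · rw [he]
      have h1 : homogeneousComponent 0 (d * lin c) = 0 := by
        rw [homogeneousComponent_zero]
        have h2 : d * lin c ∈ idealOfVars σ K := Ideal.mul_mem_left _ _ (lin_mem c)
        have h3 := (mem_idealOfVars _).1 h2
        have h4 : coeff 0 (d * lin c) = eval 0 (d * lin c) := by
          rw [MvPolynomial.eval_zero]; rfl
        rw [h4, h3, map_zero]
      rw [h1]
      exact J.zero_mem
    · obtain ⟨e', rfl⟩ := Nat.exists_eq_add_of_le he
      rw [mul_comm, H503R3.QCI.comp_mul (lin_homog c)]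
      exact J.mul_mem_right _ hcJ
  -- generators near a point
  have hloc : ∀ z ∈ cone I, z ≠ 0 → ∃ f : Option (Fin r) → MvPolynomial σ K,
      (∀ i, f i ∈ J) ∧ ∀ p : Ideal (MvPolynomial σ K), p.IsPrime → z ∈ cone p →
        (∀ i, f i ∈ p) → J ≤ p := by
    intro z hz hz0
    obtain ⟨G, hG, hind, -⟩ := exists_grads hI z hz hz0
    refine ⟨fun o => o.elim (lin c) G, ?_, ?_⟩
    · intro o
      cases o with
      | none => exact hcJ
      | some i => exact hIJ (hG i)
    · intro p hp hzp hfp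
      apply hJle p _ (hfp none)
      intro F hF
      obtain ⟨u, hu, huF⟩ := loc_gen hI z hz hz0 G hG hind F hF
      have h1 : u * F ∈ p := by
        refine (Ideal.span_le.2 ?_) huF
        rintro _ ⟨i, rfl⟩
        exact hfp (some i)
      rcases hp.mem_or_mem h1 with h2 | h2
      · exact absurd (hzp u h2) hu
      · exact h2
  have hmaxker : ∀ z : σ → K, (RingHom.ker (eval z : MvPolynomial σ K →+* K)).IsPrime :=
    fun z => RingHom.ker_isPrime _
  -- the component
  have hJy : J ≤ RingHom.ker (eval y0 : MvPolynomial σ K →+* K) := by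
    apply hJle
    · intro F hF
      exact hy0I F hF
    · show eval y0 (lin c) = 0
      rw [eval_lin, hy0c]
  have hkp := hmaxker y0
  obtain ⟨Q, hQ, hQy⟩ := Ideal.exists_minimalPrimes_le hJy
  have hQp := hQ.1.1
  have hQhom := hom_minimalPrime J hJhom Q hQ
  have hIQ : I ≤ Q := hIJ.trans hQ.1.2
  have hcQ : lin c ∈ Q := hQ.1.2 hcJ
  have hQI : ∀ z ∈ cone Q, z ∈ cone I := fun z hz F hF => hz F (hIQ hF)
  have hQc : ∀ z ∈ cone Q, dotB σ K c z = 0 := by
    intro z hz
    rw [← eval_lin]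
    exact hz _ hcQ
  have hy0Q : y0 ∈ cone Q := fun F hF => hQy hF
  have hdim : ((Fintype.card σ - (r + 1) : ℕ) : WithBot ℕ∞) ≤
      ringKrullDim (MvPolynomial σ K ⧸ Q) := by
    obtain ⟨f, hfJ, hf⟩ := hloc y0 hy0I hinf0.ne
    have h1 : Q ∈ (Ideal.span (Set.range f)).minimalPrimes := by
      refine ⟨⟨hQp, ?_⟩, ?_⟩
      · rw [Ideal.span_le]
        rintro _ ⟨i, rfl⟩
        exact hQ.1.2 (hfJ i)
      · rintro p ⟨hp, hfp⟩ hpQ
        apply hQ.2 ⟨hp, ?_⟩ hpQ
        exact hf p hp (fun F hF => hy0Q F (hpQ hF)) (fun i => hfp (Ideal.subset_span ⟨i, rfl⟩))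
    have h2 := dim_ge f Q h1
    rwa [Fintype.card_option, Fintype.card_fin] at h2
  have hQS : SCone Q (r + 1) := by
    refine ⟨hQp, hQhom, fun z hz hz0 => ?_⟩
    apply le_antisymm
    · have h1 := hdim.trans (dim_quot_le Q hQp z hz)
      have h2 : Fintype.card σ - (r + 1) ≤ Fintype.card σ - Module.finrank K (conormal Q z) := by
        exact_mod_cast h1
      have h3 : Module.finrank K (conormal Q z) ≤ Fintype.card σ := by
        have := Submodule.finrank_le (conormal Q z)
        rwa [Module.finrank_fintype_fun_eq_card] at this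
      omega
    · have h1 := hc z (hQI z hz) hz0 (hQc z hz)
      have hc0 : c ≠ 0 := by
        rintro rfl
        exact h1 (Submodule.zero_mem _)
      have h2 : conormal I z ⊔ Submodule.span K {c} ≤ conormal Q z := by
        rw [sup_le_iff, Submodule.span_le, Set.singleton_subset_iff]
        constructor
        · rw [conormal, Submodule.span_le]
          rintro _ ⟨F, hF, rfl⟩
          exact grad_mem Q z (hIQ hF)
        · have := grad_mem Q z hcQ
          rwa [grad_lin] at this
      have h3 : conormal I z ⊓ Submodule.span K {c} = ⊥ := by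
        rw [eq_bot_iff]
        rintro ξ ⟨h3, h4⟩
        obtain ⟨a, rfl⟩ := Submodule.mem_span_singleton.1 h4
        by_cases ha : a = 0
        · rw [ha, zero_smul]; exact Submodule.zero_mem _
        · exfalso
          apply h1
          have := Submodule.smul_mem _ a⁻¹ h3
          rwa [smul_smul, inv_mul_cancel₀ ha, one_smul] at this
      have h4 := Submodule.finrank_sup_add_finrank_inf_eq (conormal I z) (Submodule.span K {c})
      rw [h3, finrank_bot, hI.rank z (hQI z hz) hz0, finrank_span_singleton hc0] at h4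
      have h5 := Submodule.finrank_mono h2
      omega
  have hlocQ : ∀ z ∈ cone Q, z ≠ 0 → ∀ F ∈ Q, ∃ a u, eval z u ≠ 0 ∧ u * F - lin c * a ∈ I := by
    intro z hz hz0 F hF
    obtain ⟨G, hG, hind, -⟩ := exists_grads hI z (hQI z hz) hz0
    let G' : Fin (r + 1) → MvPolynomial σ K := Fin.cons (lin c) G
    have hG' : ∀ i, G' i ∈ Q := by
      intro i
      refine Fin.cases ?_ (fun i => ?_) i
      · exact hcQ
      · exact hIQ (hG i)
    have hind' : LinearIndependent K (fun i => grad (G' i) z) := by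
      have h1 : (fun i => grad (G' i) z) = (Fin.cons c (fun i => grad (G i) z) :
          Fin (r + 1) → σ → K) := by
        funext i
        refine Fin.cases ?_ (fun i => ?_) i
        · show grad (lin c) z = c
          exact grad_lin c z
        · rfl
      rw [h1]
      apply linearIndependent_finCons.2
      refine ⟨hind, fun hmem => hc z (hQI z hz) hz0 (hQc z hz) ?_⟩
      refine (Submodule.span_le.2 ?_) hmem
      rintro _ ⟨j, rfl⟩
      exact grad_mem I z (hG j)
    obtain ⟨u, hu, huF⟩ := loc_gen hQS z hz hz0 G' hG' hind' F hF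
    obtain ⟨b, hb⟩ := (Ideal.mem_span_range_iff_exists_fun).1 huF
    refine ⟨b 0, u, hu, ?_⟩
    rw [← hb, Fin.sum_univ_succ]
    have h1 : b 0 * G' 0 + ∑ i : Fin r, b i.succ * G' i.succ - lin c * b 0 =
        ∑ i : Fin r, b i.succ * G i := by
      have h2 : G' 0 = lin c := rfl
      have h3 : ∀ i : Fin r, G' i.succ = G i := fun i => rfl
      simp only [h2, h3]
      ring
    rw [h1]
    exact I.sum_mem (fun i _ => I.mul_mem_left _ (hG i))
  refine ⟨Q, hQS, hIQ, hcQ, ?_, hlocQ, y0, hy0Q, hinf0.ne⟩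
  -- uniqueness of the component
  intro z hz hzc
  by_cases hz0 : z = 0
  · have := cone_smul Q hQhom (0 : K) y0 hy0Q
    rwa [zero_smul, ← hz0] at this
  have hJz : J ≤ RingHom.ker (eval z : MvPolynomial σ K →+* K) := by
    apply hJle
    · intro F hF
      exact hz F hF
    · show eval z (lin c) = 0
      rw [eval_lin, hzc]
  have hkz := hmaxker z
  obtain ⟨p, hp, hpz⟩ := Ideal.exists_minimalPrimes_le hJz
  have hpp := hp.1.1
  have hphom := hom_minimalPrime J hJhom p hp
  -- general points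
  obtain ⟨a, ha⟩ := Function.ne_iff.1 hz0
  obtain ⟨b, hb⟩ := Function.ne_iff.1 hinf0.ne
  obtain ⟨S1, hS1p, hS1, z1, hz1, hz1S, hz1a⟩ := exists_sep_point J p hp (X a) (by
    intro h1
    have := hpz h1
    rw [RingHom.mem_ker, eval_X] at this
    exact ha this)
  obtain ⟨S2, hS2p, hS2, z2, hz2, hz2S, hz2b⟩ := exists_sep_point J Q hQ (X b) (by
    intro h1
    have := hQy h1
    rw [RingHom.mem_ker, eval_X] at this
    exact hb this)
  have hz10 : z1 ≠ 0 := by
    rintro rfl
    exact hz1a (by simp)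
  have hz20 : z2 ≠ 0 := by
    rintro rfl
    exact hz2b (by simp)
  have hz1I : z1 ∈ cone I := fun F hF => hz1 F (hp.1.2 (hIJ hF))
  have hz1c : dotB σ K c z1 = 0 := by
    rw [← eval_lin]
    exact hz1 _ (hp.1.2 hcJ)
  obtain ⟨-, G1, hG1, hind1⟩ := exists_lframe hI e he heI z1 hz1I hz10
  obtain ⟨-, G2, hG2, hind2⟩ := exists_lframe hI e he heI z2 (hQI z2 hz2) hz20
  obtain ⟨P, y, hinf, hGP⟩ := exists_inf
    (Sum.elim (Sum.elim (Sum.elim (fun i => sh z1 (G1 i)) (fun i => sh z2 (G2 i)))
      (fun _ : Unit => lin c)) (fun i => lin (e i))) (by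
    rintro (((i | i) | i) | i)
    · show eval 0 (sh z1 (G1 i)) = 0
      rw [eval_sh, zero_add]
      exact hz1I _ (hG1 i)
    · show eval 0 (sh z2 (G2 i)) = 0
      rw [eval_sh, zero_add]
      exact hQI z2 hz2 _ (hG2 i)
    · show eval 0 (lin c) = 0
      rw [eval_lin, map_zero]
    · show eval 0 (lin (e i)) = 0
      rw [eval_lin, map_zero]) (by
    simp only [Fintype.card_sum, Fintype.card_fin, Fintype.card_unit]; omega)
  have hPp := hinf.prime
  have heP : ∀ i, lin (e i) ∈ P := fun i => hGP (Sum.inr i)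
  have hall1 := hinf.all' hI e heI hlr z1 hz1I hz10 G1 hG1 hind1 heP
    (fun i => hGP (Sum.inl (Sum.inl (Sum.inl i))))
  have hall2 := hinf.all' hI e heI hlr z2 (hQI z2 hz2) hz20 G2 hG2 hind2 heP
    (fun i => hGP (Sum.inl (Sum.inl (Sum.inr i))))
  have hcP : lin c ∈ P := hGP (Sum.inl (Sum.inr ()))
  have hgen : ∀ (w : σ → K) (_ : dotB σ K c w = 0) (_ : ∀ G ∈ I, sh w G ∈ P)
      (p' : Ideal (MvPolynomial σ K)) (_ : p' ∈ J.minimalPrimes) (S : MvPolynomial σ K)
      (_ : ∀ q ∈ J.minimalPrimes, q ≠ p' → S ∈ q) (_ : eval w S ≠ 0), y ∈ cone p' := by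
    intro w hwc hw p' hp' S hS hwS
    have h1 : J ≤ P.comap (sh w) := by
      apply hJle
      · intro G hG
        exact hw G hG
      · show sh w (lin c) ∈ P
        rw [sh_lin, hwc, map_zero, add_zero]
        exact hcP
    have h2 : (P.comap (sh w)).IsPrime := Ideal.comap_isPrime _ _
    obtain ⟨q, hq, hqP⟩ := Ideal.exists_minimalPrimes_le h1
    have hqp : q = p' := by
      by_contra hne
      apply hwS
      have h3 : sh w S ∈ P := hqP (hS q hq hne)
      have h4 := (mem_idealOfVars _).1 (hinf.le h3)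
      rwa [eval_sh, zero_add] at h4
    subst hqp
    have hqhom := hom_minimalPrime J hJhom q hq
    intro H hH
    rw [← sum_homogeneousComponent H, map_sum]
    exact Finset.sum_eq_zero (fun e _ => hinf.shom w _ e (homogeneousComponent_isHomogeneous e H)
      (hqP (hqhom H hH e)))
  have hyp := hgen z1 hz1c hall1 p hp S1 hS1 hz1S
  have hyQ := hgen z2 (hQc z2 hz2) hall2 Q hQ S2 hS2 hz2S
  have hQp' : Q ≤ p := by
    intro F hF
    obtain ⟨a, u, hu, huF⟩ := hlocQ y hyQ hinf.ne F hF
    have h1 : u * F ∈ p := by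
      have h2 : u * F = (u * F - lin c * a) + lin c * a := by ring
      rw [h2]
      exact p.add_mem (hp.1.2 (hIJ huF)) (p.mul_mem_right _ (hp.1.2 hcJ))
    rcases hpp.mem_or_mem h1 with h2 | h2
    · exact absurd (hyp u h2) hu
    · exact h2
  intro F hF
  exact hpz (hQp' hF)

end Pool.Agent.J4.H17.CI
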