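import Pool.Agent.J4.H17.CI.F5

/-!
# General members of linear systems of hyperplanes
-/

set_option autoImplicit false
set_option maxHeartbeats 400000

namespace Pool.Agent.J4.H17.CI

open MvPolynomial Pool.Agent.H929R2.Hart

variable {σ : Type} [Fintype σ] [DecidableEq σ] {K : Type} [Field K]
variable {I : Ideal (MvPolynomial σ K)} {r : ℕ}

omit [DecidableEq σ] in
/-- conormal spaces from generators -/
lemma conormal_gens {n : ℕ} (G : Fin n → MvPolynomial σ K) (J : Ideal (MvPolynomial σ K))
    (hJ : J = Ideal.span (Set.range G)) (z : σ → K) (hz : z ∈ cone J) (ξ : σ → K)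
    (hξ : ξ ∈ conormal J z) : ∃ μ : Fin n → K, ξ = ∑ i, μ i • grad (G i) z := by
  classical
  obtain ⟨F, hF, rfl⟩ := exists_grad J z ξ hξ
  rw [hJ] at hF
  obtain ⟨a, rfl⟩ := (Ideal.mem_span_range_iff_exists_fun).1 hF
  refine ⟨fun i => eval z (a i), ?_⟩
  rw [grad_sum]
  refine Finset.sum_congr rfl (fun i _ => ?_)
  have h1 : eval z (G i) = 0 := hz _ (by rw [hJ]; exact Ideal.subset_span ⟨i, rfl⟩)
  rw [grad_mul, h1, zero_smul, zero_add]

/-- **The theorem of Bertini.** -/
theorem bert [IsAlgClosed K] [CharZero K] (J : Ideal (MvPolynomial σ K)) {k : ℕ}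
    (l : Fin k → σ → K) :
    ∃ Φ : MvPolynomial (Fin k) K, Φ ≠ 0 ∧ ∀ t : Fin k → K, eval t Φ ≠ 0 → ∀ z ∈ cone J,
      dotB σ K (∑ j, t j • l j) z = 0 → ∑ j, t j • l j ∈ conormal J z →
        ∀ j, dotB σ K (l j) z = 0 := by
  classical
  have : Infinite K := IsAlgClosed.instInfinite
  obtain ⟨n, G, hG⟩ := Submodule.fg_iff_exists_fin_generating_family.1
    ((inferInstance : IsNoetherianRing (MvPolynomial σ K)).noetherian J)
  have hJ : J = Ideal.span (Set.range G) := hG.symm
  let b : Fin (k + 1) → MvPolynomial (σ ⊕ Fin n) K :=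
    Fin.cons (∑ i, X (Sum.inr i) * rename Sum.inl (G i)) (fun j => rename Sum.inl (lin (l j)))
  obtain ⟨Φ0, hΦ0, hΦ⟩ := Pool.Agent.H248R5.bertini b
  obtain ⟨w, hw⟩ : ∃ w, eval w (Φ0 * X 0) ≠ 0 := by
    by_contra hcon
    push Not at hcon
    have h1 : Φ0 * X 0 = 0 := MvPolynomial.funext (fun w => by rw [hcon w, map_zero])
    rcases mul_eq_zero.1 h1 with h2 | h2
    · exact hΦ0 h2
    · exact X_ne_zero _ h2
  rw [map_mul, eval_X] at hw
  set τ := w 0 with hτ
  have hτ0 : τ ≠ 0 := right_ne_zero_of_mul hw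
  let Φ : MvPolynomial (Fin k) K := aeval (Fin.cons (C τ) X : Fin (k + 1) → MvPolynomial (Fin k) K) Φ0
  have hΦe : ∀ t : Fin k → K, eval t Φ = eval (Fin.cons τ t : Fin (k + 1) → K) Φ0 := by
    intro t
    have h1 : (eval t).comp (aeval (R := K)
        (Fin.cons (C τ) X : Fin (k + 1) → MvPolynomial (Fin k) K)).toRingHom =
        eval (Fin.cons τ t : Fin (k + 1) → K) := by
      apply MvPolynomial.ringHom_ext
      · intro c; simp
      · intro i
        refine Fin.cases ?_ (fun i => ?_) i
        · simp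
        · simp
    exact RingHom.congr_fun h1 Φ0
  refine ⟨Φ, ?_, ?_⟩
  · intro h0
    apply left_ne_zero_of_mul hw
    have h1 := hΦe (fun j => w j.succ)
    rw [h0, map_zero] at h1
    have h2 : (Fin.cons τ (fun j => w j.succ) : Fin (k + 1) → K) = w := Fin.cons_self_tail w
    rw [h2] at h1
    exact h1.symm
  · intro t ht z hz hcz hc j
    rw [hΦe] at ht
    set c : σ → K := ∑ j, t j • l j with hcdef
    obtain ⟨μ, hμ⟩ := conormal_gens G J hJ z hz c hc
    have hGz : ∀ i, eval z (G i) = 0 := fun i =>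
      hz _ (by rw [hJ]; exact Ideal.subset_span ⟨i, rfl⟩)
    set Qp : σ ⊕ Fin n → K := Sum.elim z (fun i => -(μ i / τ)) with hQp
    have hren : ∀ F : MvPolynomial σ K, eval Qp (rename Sum.inl F) = eval z F := by
      intro F
      rw [eval_rename]; rfl
    have hsum : ∑ i, (Fin.cons τ t : Fin (k + 1) → K) i • b i =
        C τ * (∑ i, X (Sum.inr i) * rename Sum.inl (G i)) + rename Sum.inl (lin c) := by
      rw [Fin.sum_univ_succ]
      simp only [Fin.cons_zero, Fin.cons_succ, b]
      rw [smul_eq_C_mul]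
      congr 1
      rw [hcdef, lin_sum, map_sum]
      refine Finset.sum_congr rfl (fun j _ => ?_)
      rw [lin_smul, map_mul, rename_C, smul_eq_C_mul]
    have hd1 : ∀ (a : σ) (F : MvPolynomial σ K),
        eval Qp (pderiv (Sum.inl a) (rename Sum.inl F)) = eval z (pderiv a F) := by
      intro a F
      rw [pderiv_rename Sum.inl_injective, hren]
    have hd2 : ∀ (i : Fin n) (F : MvPolynomial σ K),
        pderiv (Sum.inr i) (rename Sum.inl F : MvPolynomial (σ ⊕ Fin n) K) = 0 := by
      intro i F
      apply pderiv_eq_zero_of_notMem_vars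
      intro hv
      have h2 := vars_rename Sum.inl F hv
      rw [Finset.mem_image] at h2
      obtain ⟨i, _, hi⟩ := h2
      exact Sum.inl_ne_inr hi
    have h1 := hΦ (Fin.cons τ t) ht Qp (by
      rw [hsum, map_add, map_mul, eval_C, map_sum, hren, eval_lin, hcz, add_zero]
      rw [Finset.sum_eq_zero, mul_zero]
      intro i _
      rw [map_mul, hren, hGz, mul_zero]) (by
      intro a
      rw [hsum, map_add, pderiv_C_mul, map_add, map_mul, eval_C, map_sum, map_sum]
      rcases a with a | i
      · have h2 : ∀ i, eval Qp (pderiv (Sum.inl a) (X (Sum.inr i) * rename Sum.inl (G i))) =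
            -(μ i / τ) * eval z (pderiv a (G i)) := by
          intro i
          rw [Derivation.leibniz, pderiv_X_of_ne (by simp), smul_zero, add_zero,
            smul_eq_mul, map_mul, eval_X, hd1]
          rfl
        rw [Finset.sum_congr rfl (fun i _ => h2 i), hd1]
        have h3 : eval z (pderiv a (lin c)) = c a := congrFun (grad_lin c z) a
        rw [h3, hμ, Finset.sum_apply, Finset.mul_sum, ← Finset.sum_add_distrib]
        refine Finset.sum_eq_zero (fun i _ => ?_)
        show τ * (-(μ i / τ) * eval z (pderiv a (G i))) + μ i * eval z (pderiv a (G i)) = 0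
        field_simp
        ring
      · rw [hd2, map_zero, add_zero, Finset.sum_eq_zero, mul_zero]
        intro i' _
        rw [Derivation.leibniz, hd2, smul_zero, zero_add, smul_eq_mul, map_mul, hren, hGz,
          zero_mul]) j.succ
    have h2 : b j.succ = rename Sum.inl (lin (l j)) := rfl
    rw [h2, hren, eval_lin] at h1
    exact h1

omit [DecidableEq σ] in
/-- proper subspaces are avoided by a general vector -/
lemma exists_avoid {k : ℕ} (W : Submodule K (Fin k → K)) (hW : W ≠ ⊤) :
    ∃ Φ : MvPolynomial (Fin k) K, Φ ≠ 0 ∧ ∀ t : Fin k → K, eval t Φ ≠ 0 → t ∉ W := by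
  classical
  obtain ⟨f, hf0, hf⟩ := Submodule.exists_le_ker_of_lt_top W (lt_top_iff_ne_top.2 hW)
  let u : Fin k → K := fun i => f (Pi.single i 1)
  have hfu : ∀ t, f t = dotB (Fin k) K u t := by
    intro t
    have h1 : t = ∑ i, t i • (Pi.single i (1 : K) : Fin k → K) := by
      funext j
      simp [Finset.sum_apply, Pi.single_apply]
    conv_lhs => rw [h1]
    rw [map_sum, dotB_apply]
    exact Finset.sum_congr rfl (fun i _ => by rw [map_smul, smul_eq_mul, mul_comm])
  refine ⟨lin u, ?_, ?_⟩
  · intro h0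
    apply hf0
    ext i
    have h1 := congrArg (fun G => grad G (0 : Fin k → K)) h0
    simp only [grad_lin] at h1
    have h2 := congrFun h1 i
    simp [grad] at h2
    simpa [u] using h2
  · intro t ht htW
    apply ht
    rw [eval_lin, ← hfu]
    exact hf htW

end Pool.Agent.J4.H17.CI
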