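import Pool.Agent.J4.H17.CI.F6

/-!
# The locus of the points where the section is not transversal
-/

set_option autoImplicit false
set_option maxHeartbeats 400000

namespace Pool.Agent.J4.H17.CI

open MvPolynomial Pool.Agent.H929R2.Hart

variable {σ : Type} [Fintype σ] [DecidableEq σ] {K : Type} [Field K]
variable {I : Ideal (MvPolynomial σ K)} {r : ℕ}

lemma cast_aux (n : ℕ) (h : ℕ∞) (h1 : h ≤ (n : ℕ∞))
    (h2 : ((n + 1 : ℕ) : WithBot ℕ∞) ≤ (h : WithBot ℕ∞)) : False := by
  have h3 : ((n + 1 : ℕ) : ℕ∞) ≤ h := WithBot.coe_le_coe.1 h2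
  have h4 : ((n + 1 : ℕ) : ℕ∞) ≤ (n : ℕ∞) := h3.trans h1
  have h5 : n + 1 ≤ n := by exact_mod_cast h4
  omega

/-- points at infinity of subsets of a variety of large dimension -/
theorem exists_infQ [IsAlgClosed K] (Q : Ideal (MvPolynomial σ K)) (hQ : Q.IsPrime)
    (x : σ → K) (hx : x ∈ cone Q) {ι : Type} [Fintype ι] (g : ι → MvPolynomial σ K)
    (hg : ∀ a, eval 0 (g a) = 0)
    (hdim : ((Fintype.card ι + 1 : ℕ) : WithBot ℕ∞) ≤ ringKrullDim (MvPolynomial σ K ⧸ Q)) :
    ∃ (P : Ideal (MvPolynomial σ K)) (y : σ → K), Inf P y ∧ (∀ F ∈ Q, sh x F ∈ P) ∧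
      ∀ a, g a ∈ P := by
  classical
  set Mx := RingHom.ker (eval x : MvPolynomial σ K →+* K) with hMx
  have hmax : Mx.IsMaximal :=
    RingHom.ker_isMaximal_of_surjective _ (fun c => ⟨C c, eval_C c⟩)
  have hMxp := hmax.isPrime
  have hQM : Q ≤ Mx := fun H hH => hx H hH
  let g' : ι → MvPolynomial σ K := fun a => sh (-x) (g a)
  have hg' : ∀ a, g' a ∈ Mx := by
    intro a
    show eval x (sh (-x) (g a)) = 0
    rw [eval_sh, add_neg_cancel, hg]
  set J := Q ⊔ Ideal.span (Set.range g') with hJ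
  have hJM : J ≤ Mx := by
    rw [hJ, sup_le_iff, Ideal.span_le]
    refine ⟨hQM, ?_⟩
    rintro _ ⟨a, rfl⟩
    exact hg' a
  obtain ⟨P', hP', hP'M⟩ := Ideal.exists_minimalPrimes_le hJM
  have hP'p := hP'.1.1
  have hne : P' ≠ Mx := by
    intro heq
    rw [heq] at hP'
    set π := Ideal.Quotient.mk Q with hπ
    set M := Mx.map π with hM
    have hcomap : M.comap π = Mx := by
      rw [hM, Ideal.comap_map_of_surjective π Ideal.Quotient.mk_surjective]
      have h2 : Ideal.comap π ⊥ = Q := Ideal.mk_ker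
      rw [h2, sup_eq_left.2 hQM]
    have hMmax : M.IsMaximal := by
      have h1 := Ideal.map_eq_top_or_isMaximal_of_surjective π Ideal.Quotient.mk_surjective hmax
      rcases h1 with h1 | h1
      · exfalso
        rw [← hM] at h1
        rw [h1, Ideal.comap_top] at hcomap
        exact hmax.ne_top hcomap.symm
      · exact h1
    let S : Set (MvPolynomial σ K ⧸ Q) := Set.range (fun a => π (g' a))
    have hmin : M ∈ (Ideal.span S).minimalPrimes := by
      refine ⟨⟨hMmax.isPrime, ?_⟩, ?_⟩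
      · rw [Ideal.span_le]
        rintro _ ⟨j, rfl⟩
        exact Ideal.mem_map_of_mem _ (hg' j)
      · rintro P ⟨hPp, hPS⟩ hPM
        have hq : (P.comap π).IsPrime := Ideal.comap_isPrime _ _
        have hqx : P.comap π ≤ Mx := by
          rw [← hcomap]
          exact Ideal.comap_mono hPM
        have h1 : Mx ≤ P.comap π := by
          apply hP'.2 ⟨hq, ?_⟩ hqx
          rw [hJ, sup_le_iff, Ideal.span_le]
          constructor
          · intro F hF
            show π F ∈ P
            rw [Ideal.Quotient.eq_zero_iff_mem.2 hF]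
            exact P.zero_mem
          · rintro _ ⟨a, rfl⟩
            exact hPS (Ideal.subset_span ⟨a, rfl⟩)
        rw [hM, Ideal.map_le_iff_le_comap]
        exact h1
    have h1 := Ideal.height_le_card_of_mem_minimalPrimes_span (Set.finite_range _) hmin
    have h2 : S.ncard ≤ Fintype.card ι := by
      have h3 := Set.ncard_image_le (s := (Set.univ : Set ι)) (f := fun a => π (g' a))
      rw [Set.image_univ, Set.ncard_univ] at h3
      simpa using h3
    rw [← Pool.Agent.Helper226.height_eq_ringKrullDim K _ M hMmax] at hdim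
    have h3 : M.height ≤ (Fintype.card ι : ℕ∞) := h1.trans (by exact_mod_cast h2)
    exact cast_aux _ _ h3 hdim
  obtain ⟨P, hPdef⟩ : ∃ P : Ideal (MvPolynomial σ K), ∀ F, F ∈ P ↔ sh (-x) F ∈ P' :=
    ⟨P'.comap (sh (-x)), fun F => Ideal.mem_comap⟩
  have hPp : P.IsPrime := by
    have h1 : P = P'.comap (sh (-x)) := by
      ext F
      rw [hPdef, Ideal.mem_comap]
    rw [h1]
    exact Ideal.comap_isPrime _ _
  have hinv : ∀ F : MvPolynomial σ K, sh (-x) (sh x F) = F := fun F => sh_inv x F
  have hle : P ≤ idealOfVars σ K := by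
    intro F hF
    rw [mem_idealOfVars]
    have h1 : eval x (sh (-x) F) = 0 := hP'M ((hPdef F).1 hF)
    rwa [eval_sh, add_neg_cancel] at h1
  have hnm : ¬ P.IsMaximal := by
    intro hm
    have h1 : P = idealOfVars σ K := hm.eq_of_le (vars_prime (σ := σ) (K := K)).ne_top hle
    apply hne
    apply le_antisymm hP'M
    intro F hF
    have h2 : sh x F ∈ P := by
      rw [h1, mem_idealOfVars, eval_sh, zero_add]
      exact hF
    have h3 : sh (-x) (sh x F) ∈ P' := (hPdef _).1 h2
    rwa [hinv] at h3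
  obtain ⟨y, hy0, hy⟩ := exists_infinity P hPp hnm
  refine ⟨P, y, ⟨hPp, hle, hy0, hy⟩, ?_, ?_⟩
  · intro F hF
    rw [hPdef, hinv]
    exact hP'.1.2 (Ideal.mem_sup_left hF)
  · intro a
    rw [hPdef]
    exact hP'.1.2 (Ideal.mem_sup_right (Ideal.subset_span ⟨a, rfl⟩))

theorem gen_step' [IsAlgClosed K] [CharZero K] (hI : SCone I r)
    {k : ℕ} {Q : Ideal (MvPolynomial σ K)} (hQp : Q.IsPrime) (hIQ : I ≤ Q)
    (x : σ → K) (hx : x ∈ cone Q) (hx0 : x ≠ 0)
    (e0 : σ → K) (e : Fin k → σ → K)
    (he : LinearIndependent K (Fin.cons e0 e : Fin (k + 1) → σ → K))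
    (heI : ∀ u ∈ Submodule.span K (Set.range (Fin.cons e0 e : Fin (k + 1) → σ → K)),
      lin u ∈ I → u = 0)
    (hgen : ∀ ξ ∈ conormal I x, ξ ∈ Submodule.span K (Set.range e) → ξ = 0)
    (hdim : ((r + k + 1 : ℕ) : WithBot ℕ∞) ≤ ringKrullDim (MvPolynomial σ K ⧸ Q))
    (hbad : ∀ z ∈ cone Q, z ≠ 0 →
      ∃ ξ ∈ conormal I z, ξ ≠ 0 ∧ ∃ (α : K) (β : Fin k → K), ξ = α • e0 + ∑ i, β i • e i) :
    False := by
  classical
  have : Infinite K := IsAlgClosed.instInfinite
  have hQI : ∀ z ∈ cone Q, z ∈ cone I := fun z hz F hF => hz F (hIQ hF)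
  have hxI := hQI x hx
  obtain ⟨F, hF, hind, -⟩ := exists_grads hI x hxI hx0
  -- columns
  let a : Fin k ⊕ Fin r → σ → MvPolynomial σ K :=
    Sum.elim (fun i s => C (e i s)) (fun j s => pderiv s (F j))
  let av : (σ → K) → Fin k ⊕ Fin r → σ → K := fun z => Sum.elim e (fun j => grad (F j) z)
  have hav : ∀ z b s, eval z (a b s) = av z b s := by
    intro z b s
    rcases b with i | j
    · simp [a, av]
    · rfl
  have he' : LinearIndependent K e := (linearIndependent_finCons.1 he).1
  have hindx : LinearIndependent K (av x) := by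
    apply LinearIndependent.sum_type he' hind
    rw [Submodule.disjoint_def]
    intro ξ h1 h2
    apply hgen ξ _ h1
    refine (Submodule.span_le.2 ?_) h2
    rintro _ ⟨j, rfl⟩
    exact grad_mem I x (hF j)
  obtain ⟨W, hW⟩ := exists_dual _ hindx
  let Mp : Matrix (Fin k ⊕ Fin r) (Fin k ⊕ Fin r) (MvPolynomial σ K) :=
    fun b b' => ∑ s, a b' s * C (W b s)
  let Mz : (σ → K) → Matrix (Fin k ⊕ Fin r) (Fin k ⊕ Fin r) K :=
    fun z b b' => dotB σ K (av z b') (W b)
  have hMz : ∀ z, (eval z).mapMatrix Mp = Mz z := by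
    intro z
    ext b b'
    simp only [RingHom.mapMatrix_apply, Matrix.map_apply, Mp, Mz, map_sum, map_mul, eval_C, hav,
      dotB_apply]
  have hMx : Mz x = 1 := by
    ext b b'
    simp only [Mz]
    rw [hW, Matrix.one_apply]
    by_cases hbb : b = b'
    · rw [if_pos hbb, if_pos hbb.symm]
    · rw [if_neg hbb, if_neg (fun h => hbb h.symm)]
  set Δ := Mp.det with hΔdef
  have hΔ : ∀ z, eval z Δ = (Mz z).det := by
    intro z
    rw [← hMz, ← RingHom.map_det]
  set c : Fin k ⊕ Fin r → K := fun b => dotB σ K e0 (W b) with hc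
  set lam : Fin k ⊕ Fin r → MvPolynomial σ K := Mp.adjugate.mulVec (fun b => C (c b)) with hlamdef
  have hlam : ∀ z b, eval z (lam b) = ((Mz z).adjugate.mulVec c) b := by
    intro z b
    rw [← hMz, ← RingHom.map_adjugate]
    simp only [lam, Matrix.mulVec, dotProduct, map_sum, map_mul, eval_C, RingHom.mapMatrix_apply,
      Matrix.map_apply]
  set h : Fin k → MvPolynomial σ K := fun i => lam (Sum.inl i) - C (c (Sum.inl i)) * Δ with hhdef
  have hΔx : eval x Δ = 1 := by rw [hΔ, hMx, Matrix.det_one]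
  have hh : ∀ i, eval x (h i) = 0 := by
    intro i
    simp only [h, map_sub, map_mul, eval_C, hlam, hΔx, hMx, Matrix.adjugate_one,
      Matrix.one_mulVec]
    ring
  set u0 : σ → K := e0 - ∑ i, c (Sum.inl i) • e i with hu0
  have hu0mem : u0 ∈ Submodule.span K (Set.range (Fin.cons e0 e : Fin (k + 1) → σ → K)) := by
    apply Submodule.sub_mem
    · exact Submodule.subset_span ⟨0, rfl⟩
    · refine Submodule.sum_mem _ (fun i _ => Submodule.smul_mem _ _ (Submodule.subset_span ⟨i.succ, ?_⟩))
      exact Fin.cons_succ _ _ _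
  have hu00 : u0 ≠ 0 := by
    intro h0
    apply (linearIndependent_finCons.1 he).2
    rw [sub_eq_zero.1 h0]
    exact Submodule.sum_mem _ (fun i _ => Submodule.smul_mem _ _ (Submodule.subset_span ⟨i, rfl⟩))
  have key : ∀ z ∈ cone Q, z ≠ 0 → (∀ i, eval z (h i) = 0) →
      eval z Δ ≠ 0 → u0 ∈ conormal I z := by
    intro z hz hz0 hzh hzΔ
    rw [hΔ] at hzΔ
    have hindz : LinearIndependent K (av z) := ind_of_det _ W hzΔ
    have hindF : LinearIndependent K (fun j => grad (F j) z) :=
      hindz.comp Sum.inr Sum.inr_injective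
    obtain ⟨ξ, hξ, hξ0, α, β, hξe⟩ := hbad z hz hz0
    obtain ⟨b, hb⟩ := grads_span hI z (hQI z hz) hz0 F hF hindF ξ hξ
    rw [uu_apply] at hb
    have hα : α ≠ 0 := by
      intro h0
      apply hξ0
      have h1 : ∑ t, (Sum.elim β (fun j => - b j) : Fin k ⊕ Fin r → K) t • av z t = 0 := by
        rw [Fintype.sum_sum_type]
        simp only [Sum.elim_inl, Sum.elim_inr, av, neg_smul, Finset.sum_neg_distrib]
        rw [hb, hξe, h0, zero_smul, zero_add, add_neg_cancel]
      have h2 := Fintype.linearIndependent_iff.1 hindz _ h1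
      rw [← hb]
      refine Finset.sum_eq_zero (fun j _ => ?_)
      have h3 := h2 (Sum.inr j)
      simp only [Sum.elim_inr, neg_eq_zero] at h3
      rw [h3, zero_smul]
    set μ : Fin k ⊕ Fin r → K := Sum.elim (fun i => -(α⁻¹ * β i)) (fun j => α⁻¹ * b j) with hμdef
    have hμ : ∑ t, μ t • av z t = e0 := by
      have h1 : e0 = α⁻¹ • ξ - ∑ i, (α⁻¹ * β i) • e i := by
        have h2 : ∑ i, (α⁻¹ * β i) • e i = α⁻¹ • ∑ i, β i • e i := by
          rw [Finset.smul_sum]
          exact Finset.sum_congr rfl (fun i _ => (smul_smul _ _ _).symm)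
        rw [h2, hξe, smul_add, smul_smul, inv_mul_cancel₀ hα, one_smul, add_sub_cancel_right]
      rw [Fintype.sum_sum_type, h1, ← hb, Finset.smul_sum]
      simp only [μ, Sum.elim_inl, Sum.elim_inr, av, neg_smul, Finset.sum_neg_distrib, smul_smul]
      abel
    have h3 : (Mz z).adjugate.mulVec c = (Mz z).det • μ := adj_formula (av z) W μ e0 hμ _ rfl
    have h4 : ∀ i, μ (Sum.inl i) = c (Sum.inl i) := by
      intro i
      have h5 := hzh i
      simp only [h, map_sub, map_mul, eval_C, hlam, hΔ, h3, Pi.smul_apply, smul_eq_mul] at h5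
      have h6 : (Mz z).det * (μ (Sum.inl i) - c (Sum.inl i)) = 0 := by rw [← h5]; ring
      exact sub_eq_zero.1 ((mul_eq_zero.1 h6).resolve_left hzΔ)
    have h5 : u0 = ∑ j, μ (Sum.inr j) • grad (F j) z := by
      have h6 : ∑ t, μ t • av z t = ∑ i, c (Sum.inl i) • e i +
          ∑ j, μ (Sum.inr j) • grad (F j) z := by
        rw [Fintype.sum_sum_type]
        congr 1
        exact Finset.sum_congr rfl (fun i _ => by rw [h4 i]; rfl)
      rw [hu0, ← hμ, h6, add_sub_cancel_left]
    rw [h5]
    exact Submodule.sum_mem _ (fun j _ => Submodule.smul_mem _ _ (grad_mem I z (hF j)))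
  have hux : u0 ∈ conormal I x := key x hx hx0 hh (by rw [hΔx]; exact one_ne_zero)
  have hu0x : dotB σ K u0 x = 0 := tangent_conormal I x hux (self_tangent hI x hxI)
  obtain ⟨p, hp, hup⟩ : ∃ p ∈ cone I, dotB σ K u0 p ≠ 0 := by
    by_contra hcon
    push Not at hcon
    apply hu00
    apply heI u0 hu0mem
    apply mem_of_vanish I hI.prime
    intro z hz
    rw [eval_lin]
    exact hcon z hz
  have hp0 : p ≠ 0 := by
    rintro rfl
    exact hup (map_zero _)
  obtain ⟨F', hF', hind', -⟩ := exists_grads hI p hp hp0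
  let G : Fin r ⊕ Fin k → MvPolynomial σ K :=
    Sum.elim (fun i => sh p (F' i)) (fun i => sh x (h i))
  obtain ⟨P, y, hinf, hQP, hGP⟩ := exists_infQ Q hQp x hx G (by
    rintro (i | i)
    · show eval 0 (sh p (F' i)) = 0
      rw [eval_sh, zero_add]
      exact hp _ (hF' i)
    · show eval 0 (sh x (h i)) = 0
      rw [eval_sh, zero_add]
      exact hh i) (by
    simp only [Fintype.card_sum, Fintype.card_fin]; exact hdim)
  have hallx : ∀ H ∈ I, sh x H ∈ P := fun H hH => hQP H (hIQ hH)
  have hallp : ∀ H ∈ I, sh p H ∈ P := hinf.all hI p hp hp0 F' hF' hind'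
    (fun i => hGP (Sum.inl i))
  have hyt := hinf.tangent hI x p hallx hallp
  obtain ⟨m, hm⟩ := Function.ne_iff.1 hx0
  have huy : u0 ∈ conormal I y := by
    apply hinf.conormal_mem hI x hallx u0 (Δ * X m)
    · rw [map_mul, hΔx, eval_X, one_mul]
      exact hm
    · intro z hzP hzT
      have hzQ : z + x ∈ cone Q := by
        intro H hH
        have := hzP _ (hQP H hH)
        rwa [eval_sh] at this
      rw [map_mul, eval_X] at hzT
      have hzΔ := left_ne_zero_of_mul hzT
      have hz0 : z + x ≠ 0 := by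
        intro h0
        rw [h0] at hzT
        exact hzT (by simp)
      refine ⟨hz0, ?_⟩
      apply key (z + x) hzQ hz0 _ hzΔ
      intro i
      have := hzP _ (hGP (Sum.inr i))
      change eval z (sh x (h i)) = 0 at this
      rwa [eval_sh] at this
  have h1 := tangent_conormal I y huy hyt
  rw [map_sub, hu0x, sub_zero] at h1
  exact hup h1

/-- **Transversal points**, on subvarieties of large dimension. -/
theorem exists_transversal' [IsAlgClosed K] [CharZero K] (hI : SCone I r)
    {Q : Ideal (MvPolynomial σ K)} (hQp : Q.IsPrime) (hIQ : I ≤ Q)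
    (hQne : ¬ idealOfVars σ K ≤ Q) :
    ∀ (k : ℕ) (U : Submodule K (σ → K)), (∀ u ∈ U, lin u ∈ I → u = 0) →
      Module.finrank K U ≤ k →
      ((r + k : ℕ) : WithBot ℕ∞) ≤ ringKrullDim (MvPolynomial σ K ⧸ Q) →
      ∃ x ∈ cone Q, x ≠ 0 ∧ ∀ ξ ∈ conormal I x, ξ ∈ U → ξ = 0 := by
  classical
  intro k
  induction k with
  | zero =>
    intro U _ hU hcard
    obtain ⟨m, hm⟩ : ∃ m, (X m : MvPolynomial σ K) ∉ Q := by
      by_contra hcon
      push Not at hcon
      apply hQne
      rw [idealOfVars, Ideal.span_le]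
      rintro _ ⟨m, rfl⟩
      exact hcon m
    obtain ⟨x, hx, hxS⟩ : ∃ x ∈ cone Q, eval x (X m : MvPolynomial σ K) ≠ 0 := by
      by_contra hcon
      push Not at hcon
      exact hm (mem_of_vanish Q hQp (X m) hcon)
    rw [eval_X] at hxS
    refine ⟨x, hx, ?_, fun ξ _ hξ => ?_⟩
    · rintro rfl
      exact hxS rfl
    · have h1 : U = ⊥ := Submodule.finrank_eq_zero.1 (by omega)
      rw [h1] at hξ
      exact (Submodule.mem_bot K).1 hξ
  | succ k ih =>
    intro U hUI hU hcard
    have hcard' : ((r + k : ℕ) : WithBot ℕ∞) ≤ ringKrullDim (MvPolynomial σ K ⧸ Q) := by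
      refine le_trans ?_ hcard
      exact_mod_cast (by omega : r + k ≤ r + (k + 1))
    by_cases hU' : Module.finrank K U ≤ k
    · exact ih U hUI hU' hcard'
    · have hUk : Module.finrank K U = k + 1 := by omega
      let b := Module.finBasisOfFinrankEq K U hUk
      set e : Fin (k + 1) → σ → K := fun i => (b i : σ → K) with hedef
      have he : LinearIndependent K e :=
        b.linearIndependent.map' U.subtype (Submodule.ker_subtype U)
      have hcons : (Fin.cons (e 0) (fun i : Fin k => e i.succ) : Fin (k + 1) → σ → K) = e :=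
        Fin.cons_self_tail e
      have heU : Submodule.span K (Set.range e) ≤ U := by
        rw [Submodule.span_le]
        rintro _ ⟨i, rfl⟩
        exact (b i).2
      have heU' : Submodule.span K (Set.range (fun i : Fin k => e i.succ)) ≤ U := by
        rw [Submodule.span_le]
        rintro _ ⟨i, rfl⟩
        exact (b i.succ).2
      obtain ⟨x, hx, hx0, hxU⟩ := ih
        (Submodule.span K (Set.range (fun i : Fin k => e i.succ)))
        (fun u hu => hUI u (heU' hu)) (by
          have := finrank_range_le_card (R := K) (fun i : Fin k => e i.succ)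
          simpa [Set.finrank] using this) hcard'
      by_contra hcon
      push Not at hcon
      apply gen_step' hI hQp hIQ x hx hx0 (e 0) (fun i => e i.succ)
        (by rw [hcons]; exact he) (by rw [hcons]; exact fun u hu => hUI u (heU hu)) hxU
        (by rw [add_assoc]; exact hcard)
      intro z hz hz0
      obtain ⟨ξ, hξ, hξU, hξ0⟩ := hcon z hz hz0
      refine ⟨ξ, hξ, hξ0, b.repr ⟨ξ, hξU⟩ 0, fun i => b.repr ⟨ξ, hξU⟩ i.succ, ?_⟩
      have h1 := congrArg Subtype.val (b.sum_repr ⟨ξ, hξU⟩)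
      rw [Fin.sum_univ_succ] at h1
      simp only [Submodule.coe_add, Submodule.coe_sum, Submodule.coe_smul] at h1
      exact h1.symm

end Pool.Agent.J4.H17.CI
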