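import Pool.Agent.J4.H17.CI.F7
import Pool.Agent.J4.H17.CI.E6

/-!
# Forms of low degree in the ideal of a smooth variety and in an ideal of linear forms
-/

set_option autoImplicit false
set_option maxHeartbeats 400000

namespace Pool.Agent.J4.H17.CI

open MvPolynomial Pool.Agent.H929R2.Hart

variable {σ : Type} [Fintype σ] [DecidableEq σ] {K : Type} [Field K]
variable {I Q Q' : Ideal (MvPolynomial σ K)} {r : ℕ}

/-- `Q'` is the ideal of a smooth hyperplane section -/
structure Sect (Q Q' : Ideal (MvPolynomial σ K)) (r : ℕ) (c : σ → K) : Prop where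
  sc : SCone Q r
  sc' : SCone Q' (r + 1)
  le : Q ≤ Q'
  mem : lin c ∈ Q'
  tr : ∀ z ∈ cone Q, z ≠ 0 → dotB σ K c z = 0 → c ∉ conormal Q z
  cone : ∀ z ∈ H929R2.Hart.cone Q, dotB σ K c z = 0 → z ∈ H929R2.Hart.cone Q'
  loc : ∀ z ∈ H929R2.Hart.cone Q', z ≠ 0 → ∀ F ∈ Q', ∃ a u, eval z u ≠ 0 ∧ u * F - lin c * a ∈ Q
  ne : ∃ z ∈ H929R2.Hart.cone Q', z ≠ 0

lemma Sect.coneI {c : σ → K} (h : Sect Q Q' r c) (z : σ → K) (hz : z ∈ H929R2.Hart.cone Q') :
    z ∈ H929R2.Hart.cone Q := fun F hF => hz F (h.le hF)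

lemma Sect.dot {c : σ → K} (h : Sect Q Q' r c) (z : σ → K) (hz : z ∈ H929R2.Hart.cone Q') :
    dotB σ K c z = 0 := by
  rw [← eval_lin]
  exact hz _ h.mem

lemma Sect.notMem {c : σ → K} (h : Sect Q Q' r c) : lin c ∉ Q := by
  intro hc
  obtain ⟨z, hz, hz0⟩ := h.ne
  apply h.tr z (h.coneI z hz) hz0 (h.dot z hz)
  have := grad_mem Q z hc
  rwa [grad_lin] at this

lemma Sect.conormal {c : σ → K} (h : Sect Q Q' r c) (z : σ → K)
    (hz : z ∈ H929R2.Hart.cone Q') (hz0 : z ≠ 0) :
    H929R2.Hart.conormal Q' z = H929R2.Hart.conormal Q z ⊔ Submodule.span K {c} := by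
  have h1 := h.tr z (h.coneI z hz) hz0 (h.dot z hz)
  have hc0 : c ≠ 0 := by
    rintro rfl
    exact h1 (Submodule.zero_mem _)
  have h2 : H929R2.Hart.conormal Q z ⊔ Submodule.span K {c} ≤ H929R2.Hart.conormal Q' z := by
    rw [sup_le_iff, Submodule.span_le, Set.singleton_subset_iff]
    constructor
    · rw [H929R2.Hart.conormal, Submodule.span_le]
      rintro _ ⟨F, hF, rfl⟩
      exact grad_mem Q' z (h.le hF)
    · have := grad_mem Q' z h.mem
      rwa [grad_lin] at this
  have h3 : H929R2.Hart.conormal Q z ⊓ Submodule.span K {c} = ⊥ := by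
    rw [eq_bot_iff]
    rintro ξ ⟨h3, h4⟩
    obtain ⟨a, rfl⟩ := Submodule.mem_span_singleton.1 h4
    by_cases ha : a = 0
    · rw [ha, zero_smul]; exact Submodule.zero_mem _
    · exfalso
      apply h1
      have := Submodule.smul_mem _ a⁻¹ h3
      rwa [smul_smul, inv_mul_cancel₀ ha, one_smul] at this
  have h4 := Submodule.finrank_sup_add_finrank_inf_eq (H929R2.Hart.conormal Q z)
    (Submodule.span K {c})
  rw [h3, finrank_bot, h.sc.rank z (h.coneI z hz) hz0, finrank_span_singleton hc0] at h4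
  symm
  apply Submodule.eq_of_le_of_finrank_eq h2
  rw [h.sc'.rank z hz hz0]
  omega

theorem exists_sect [IsAlgClosed K] [CharZero K] (hQ : SCone Q r)
    (hne : ∃ x ∈ cone Q, x ≠ 0) (c : σ → K)
    (hc : ∀ z ∈ cone Q, z ≠ 0 → dotB σ K c z = 0 → c ∉ conormal Q z)
    {lam : ℕ} (e : Fin lam → σ → K) (he : LinearIndependent K e) (heQ : ∀ i, lin (e i) ∈ Q)
    (hcard : 2 * (r - lam) + lam + 1 < Fintype.card σ) : ∃ Q', Sect Q Q' r c := by
  obtain ⟨Q', h1, h2, h3, h4, h5, h6⟩ := exists_section hQ hne c hc e he heQ hcard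
  exact ⟨Q', hQ, h1, h2, h3, hc, h4, h5, h6⟩

/-- lifting of forms of degree one and two -/
theorem Sect.lift [IsAlgClosed K] [CharZero K] {c : σ → K} (h : Sect Q Q' r c)
    {lam : ℕ} (e : Fin lam → σ → K) (he : LinearIndependent K e) (heQ : ∀ i, lin (e i) ∈ Q)
    (hcard : 3 * (r + 1 - lam) + lam < Fintype.card σ + 1) (d : ℕ) (hd : d = 1 ∨ d = 2)
    (F : MvPolynomial σ K) (hF : F ∈ Q') (hFh : F.IsHomogeneous d) :
    ∃ m : MvPolynomial σ K, F - lin c * m ∈ Q := by
  classical
  have hreg : ∀ z ∈ H929R2.Hart.cone Q, z ≠ 0 → ∃ a b, eval z b ≠ 0 ∧ b * F - lin c * a ∈ Q := by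
    intro z hz hz0
    by_cases hcz : dotB σ K c z = 0
    · obtain ⟨a, u, hu, hua⟩ := h.loc z (h.cone z hz hcz) hz0 F hF
      exact ⟨a, u, hu, hua⟩
    · refine ⟨F, lin c, by rw [eval_lin]; exact hcz, ?_⟩
      rw [sub_self]
      exact Q.zero_mem
  rcases hd with rfl | rfl
  · obtain ⟨a, ha⟩ := LN1 h.sc (lin_homog c) hFh h.notMem hreg e he heQ hcard
    exact ⟨C a, ha⟩
  · obtain ⟨m, hm⟩ := LN2 h.sc ⟨lin_homog c, hFh, h.notMem, hreg⟩ e he heQ hcard
    exact ⟨lin m, hm⟩

/-- products of linear forms with elements of the ideal of the section -/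
theorem Sect.step [IsAlgClosed K] [CharZero K] {c : σ → K} (h : Sect Q Q' r c)
    {lam : ℕ} (e : Fin lam → σ → K) (he : LinearIndependent K e) (heQ : ∀ i, lin (e i) ∈ Q)
    (hcard : 3 * (r + 1 - lam) + lam < Fintype.card σ + 1) (d : ℕ) (hd : d = 1 ∨ d = 2)
    (g f : MvPolynomial σ K) (hg : g ∈ Q) (hgh : g.IsHomogeneous (d + 1))
    (hgf : g - lin c * f ∈ idealOfVars σ K * Q') : g ∈ idealOfVars σ K * Q := by
  classical
  obtain ⟨b, hb, hgb⟩ := exists_sum_X _ hgf
  have h1 : ∀ j, ∃ m : MvPolynomial σ K, homogeneousComponent d (b j) - lin c * m ∈ Q :=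
    fun j => h.lift e he heQ hcard d hd _ (h.sc'.homog _ (hb j) d)
      (homogeneousComponent_isHomogeneous _ _)
  choose m hm using h1
  have h2 : g = lin c * homogeneousComponent d f + ∑ j, X j * homogeneousComponent d (b j) := by
    have h3 : g = lin c * f + ∑ j, X j * b j := by rw [← hgb]; ring
    conv_lhs => rw [← homogeneousComponent_eq_self hgh, h3]
    rw [map_add, map_sum, add_comm d 1, H503R3.QCI.comp_mul (lin_homog c)]
    congr 1
    exact Finset.sum_congr rfl (fun j _ => H503R3.QCI.comp_mul (isHomogeneous_X K j))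
  have h3 : g = lin c * (homogeneousComponent d f + ∑ j, X j * m j) +
      ∑ j, X j * (homogeneousComponent d (b j) - lin c * m j) := by
    conv_lhs => rw [h2]
    rw [mul_add, Finset.mul_sum, add_assoc, ← Finset.sum_add_distrib]
    congr 1
    exact Finset.sum_congr rfl (fun j _ => by ring)
  have h4 : ∑ j, X j * (homogeneousComponent d (b j) - lin c * m j) ∈ idealOfVars σ K * Q :=
    Ideal.sum_mem _ (fun j _ => Ideal.mul_mem_mul (Ideal.subset_span ⟨j, rfl⟩) (hm j))
  have h5 : lin c * (homogeneousComponent d f + ∑ j, X j * m j) ∈ Q := by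
    have h6 : lin c * (homogeneousComponent d f + ∑ j, X j * m j) =
        g - ∑ j, X j * (homogeneousComponent d (b j) - lin c * m j) := by
      rw [eq_sub_iff_add_eq]; exact h3.symm
    rw [h6]
    exact Q.sub_mem hg ((Ideal.mul_le_right : idealOfVars σ K * Q ≤ Q) h4)
  have h6 := (h.sc.prime.mem_or_mem h5).resolve_left h.notMem
  rw [h3]
  exact Ideal.add_mem _ (Ideal.mul_mem_mul (lin_mem c) h6) h4

/-- `g` is a combination, with coefficients of degree `d`, of linear forms with coefficients in the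
space `U` -/
def InU (U : Submodule K (σ → K)) (d : ℕ) (g : MvPolynomial σ K) : Prop :=
  ∃ (n : ℕ) (a : Fin n → MvPolynomial σ K) (w : Fin n → σ → K),
    (∀ i, (a i).IsHomogeneous d) ∧ (∀ i, w i ∈ U) ∧ g = ∑ i, a i * lin (w i)

omit [DecidableEq σ] in
lemma InU.homog {U : Submodule K (σ → K)} {d : ℕ} {g : MvPolynomial σ K} (h : InU U d g) :
    g.IsHomogeneous (d + 1) := by
  obtain ⟨n, a, w, ha, -, rfl⟩ := h
  exact IsHomogeneous.sum _ _ _ (fun i _ => (ha i).mul (lin_homog _))

omit [DecidableEq σ] in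
lemma InU.split {U U' : Submodule K (σ → K)} {d : ℕ} {g : MvPolynomial σ K} {l : σ → K}
    (h : InU U d g) (hU : U ≤ Submodule.span K {l} ⊔ U') :
    ∃ f g' : MvPolynomial σ K, InU U' d g' ∧ g = lin l * f + g' := by
  obtain ⟨n, a, w, ha, hw, rfl⟩ := h
  have h1 : ∀ i, ∃ (t : K) (w' : σ → K), w' ∈ U' ∧ w i = t • l + w' := by
    intro i
    obtain ⟨x, hx, y, hy, hxy⟩ := Submodule.mem_sup.1 (hU (hw i))
    obtain ⟨t, rfl⟩ := Submodule.mem_span_singleton.1 hx
    exact ⟨t, y, hy, hxy.symm⟩
  choose t w' hw' hwe using h1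
  refine ⟨∑ i, C (t i) * a i, ∑ i, a i * lin (w' i), ⟨n, a, w', ha, hw', rfl⟩, ?_⟩
  rw [Finset.mul_sum, ← Finset.sum_add_distrib]
  refine Finset.sum_congr rfl (fun i _ => ?_)
  rw [hwe i, lin_add, lin_smul]
  ring

/-- the points at which the linear section is not transversal -/
def BadP (Q : Ideal (MvPolynomial σ K)) (U : Submodule K (σ → K)) (z : σ → K) : Prop :=
  z ∈ cone Q ∧ z ≠ 0 ∧ (∀ u ∈ U, dotB σ K u z = 0) ∧ ∃ ξ ∈ conormal Q z, ξ ∈ U ∧ ξ ≠ 0

omit [DecidableEq σ] in
lemma exists_nonzero_t {k : ℕ} [Infinite K] (Φ : MvPolynomial (Fin k) K) (hΦ : Φ ≠ 0) :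
    ∃ t : Fin k → K, eval t Φ ≠ 0 := by
  by_contra hcon
  push Not at hcon
  exact hΦ (MvPolynomial.funext (fun w => by rw [hcon w, map_zero]))

omit [DecidableEq σ] in
lemma snoc_ind {lam : ℕ} {e : Fin lam → σ → K} (he : LinearIndependent K e)
    (heQ : ∀ i, lin (e i) ∈ Q) {c : σ → K} (hc : lin c ∉ Q) (hQQ : Q ≤ Q') (hcQ' : lin c ∈ Q') :
    LinearIndependent K (Fin.cons c e : Fin (lam + 1) → σ → K) ∧
      ∀ i, lin ((Fin.cons c e : Fin (lam + 1) → σ → K) i) ∈ Q' := by
  constructor
  · rw [linearIndependent_finCons]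
    refine ⟨he, fun h => hc ?_⟩
    have h1 : Submodule.span K (Set.range e) ≤ linsub Q := by
      rw [Submodule.span_le]
      rintro _ ⟨i, rfl⟩
      exact heQ i
    exact h1 h
  · intro i
    refine Fin.cases ?_ (fun i => ?_) i
    · exact hcQ'
    · exact hQQ (heQ i)

/-- **Transversal linear sections.** -/
theorem trans_mem [IsAlgClosed K] [CharZero K] (d : ℕ) (hd : d = 1 ∨ d = 2) :
    ∀ (k : ℕ) (Q : Ideal (MvPolynomial σ K)) (r lam : ℕ) (e : Fin lam → σ → K)
      (U : Submodule K (σ → K)), SCone Q r → (∃ x ∈ cone Q, x ≠ 0) →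
      LinearIndependent K e → (∀ i, lin (e i) ∈ Q) → Module.finrank K U = k →
      (∀ z, ¬ BadP Q U z) → 3 * (r + 1 - lam) + lam + k < Fintype.card σ + 3 →
      ∀ g ∈ Q, InU U d g → g ∈ idealOfVars σ K * Q := by
  classical
  have : Infinite K := IsAlgClosed.instInfinite
  intro k
  induction k with
  | zero =>
    intro Q r lam e U _ _ _ _ hU _ _ g hg hgU
    obtain ⟨n, a, w, ha, hw, rfl⟩ := hgU
    have h1 : U = ⊥ := Submodule.finrank_eq_zero.1 hU
    have h2 : ∑ i, a i * lin (w i) = 0 := by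
      refine Finset.sum_eq_zero (fun i _ => ?_)
      have h3 := hw i
      rw [h1, Submodule.mem_bot] at h3
      rw [h3, lin_zero, mul_zero]
    rw [h2]
    exact Ideal.zero_mem _
  | succ k ih =>
    intro Q r lam e U hQ hne he heQ hU hbad hnum g hg hgU
    -- a general element of `U`
    let b := Module.finBasisOfFinrankEq K U hU
    set u : Fin (k + 1) → σ → K := fun i => (b i : σ → K) with hudef
    have hu : LinearIndependent K u :=
      b.linearIndependent.map' U.subtype (Submodule.ker_subtype U)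
    have huU : ∀ i, u i ∈ U := fun i => (b i).2
    have hspan : ∀ v ∈ U, v ∈ Submodule.span K (Set.range u) := by
      intro v hv
      have h1 := congrArg Subtype.val (b.sum_repr ⟨v, hv⟩)
      simp only [Submodule.coe_sum, Submodule.coe_smul] at h1
      have h2 : v = ∑ i, (b.repr ⟨v, hv⟩ i) • u i := h1.symm
      rw [h2]
      exact Submodule.sum_mem _ (fun i _ => Submodule.smul_mem _ _ (Submodule.subset_span ⟨i, rfl⟩))
    obtain ⟨Φ, hΦ0, hΦ⟩ := bert Q u
    obtain ⟨t, ht⟩ := exists_nonzero_t (Φ * X 0) (mul_ne_zero hΦ0 (X_ne_zero _))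
    rw [map_mul, eval_X] at ht
    set l : σ → K := ∑ j, t j • u j with hl
    have hlU : l ∈ U := Submodule.sum_mem _ (fun j _ => Submodule.smul_mem _ _ (huU j))
    have hl0 : l ≠ 0 := by
      intro h0
      exact right_ne_zero_of_mul ht (Fintype.linearIndependent_iff.1 hu t h0 0)
    have htr : ∀ z ∈ cone Q, z ≠ 0 → dotB σ K l z = 0 → l ∉ conormal Q z := by
      intro z hz hz0 hlz hlc
      have h1 := hΦ t (left_ne_zero_of_mul ht) z hz hlz hlc
      apply hbad z
      refine ⟨hz, hz0, ?_, l, hlc, hlU, hl0⟩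
      intro v hv
      have h2 := hspan v hv
      induction h2 using Submodule.span_induction with
      | mem x hx => obtain ⟨i, rfl⟩ := hx; exact h1 i
      | zero => rw [map_zero, LinearMap.zero_apply]
      | add x y _ _ hx hy =>
        rename_i hx' hy'
        have h3 : ∀ w ∈ Submodule.span K (Set.range u), dotB σ K w z = 0 := by
          intro w hw
          have h4 : Submodule.span K (Set.range u) ≤ (LinearMap.ker ((dotB σ K).flip z)) := by
            rw [Submodule.span_le]
            rintro _ ⟨i, rfl⟩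
            exact h1 i
          exact h4 hw
        exact h3 _ (Submodule.add_mem _ hx' hy')
      | smul a x hx' hx =>
        have h3 : ∀ w ∈ Submodule.span K (Set.range u), dotB σ K w z = 0 := by
          intro w hw
          have h4 : Submodule.span K (Set.range u) ≤ (LinearMap.ker ((dotB σ K).flip z)) := by
            rw [Submodule.span_le]
            rintro _ ⟨i, rfl⟩
            exact h1 i
          exact h4 hw
        exact h3 _ (Submodule.smul_mem _ _ hx')
    -- a complement of `l` in `U`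
    obtain ⟨V, hV⟩ := Submodule.exists_isCompl (Submodule.span K {l})
    set U' : Submodule K (σ → K) := V ⊓ U with hU'def
    have hspanlU : Submodule.span K {l} ≤ U := by
      rw [Submodule.span_le, Set.singleton_subset_iff]
      exact hlU
    have hsup : Submodule.span K {l} ⊔ U' = U := by
      rw [hU'def, ← sup_inf_assoc_of_le _ hspanlU, hV.sup_eq_top, top_inf_eq]
    have hinf : Submodule.span K {l} ⊓ U' = ⊥ := by
      rw [eq_bot_iff, ← hV.inf_eq_bot]
      exact inf_le_inf_left _ inf_le_left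
    have hU'k : Module.finrank K U' = k := by
      have h1 := Submodule.finrank_sup_add_finrank_inf_eq (Submodule.span K {l}) U'
      rw [hsup, hinf, finrank_bot, hU, finrank_span_singleton hl0] at h1
      omega
    have hU'U : U' ≤ U := inf_le_right
    obtain ⟨f, g', hg'U, hgf⟩ := hgU.split (l := l) (U' := U') hsup.symm.le
    rcases Nat.eq_zero_or_pos k with hk0 | hk0
    · -- the last linear form
      have hlQ : lin l ∉ Q := by
        intro h1
        obtain ⟨x, hx, hx0⟩ := hne
        apply htr x hx hx0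
        · rw [← eval_lin]; exact hx _ h1
        · have := grad_mem Q x h1
          rwa [grad_lin] at this
      have hg'0 : g' = 0 := by
        obtain ⟨n, a, w, ha, hw, rfl⟩ := hg'U
        have h1 : U' = ⊥ := Submodule.finrank_eq_zero.1 (by omega)
        refine Finset.sum_eq_zero (fun i _ => ?_)
        have h3 := hw i
        rw [h1, Submodule.mem_bot] at h3
        rw [h3, lin_zero, mul_zero]
      rw [hg'0, add_zero] at hgf
      rw [hgf] at hg ⊢
      exact Ideal.mul_mem_mul (lin_mem l) ((hQ.prime.mem_or_mem hg).resolve_left hlQ)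
    · have hlr : lam ≤ r := by
        obtain ⟨x, hx, hx0⟩ := hne
        exact (exists_lframe hQ e he heQ x hx hx0).1
      obtain ⟨Q', hS⟩ := exists_sect hQ hne l htr e he heQ (by omega)
      obtain ⟨he', heQ'⟩ := snoc_ind he heQ hS.notMem hS.le hS.mem
      have hg'Q : g' ∈ Q' := by
        have h1 : g' = g - lin l * f := by rw [hgf]; ring
        rw [h1]
        exact Q'.sub_mem (hS.le hg) (Q'.mul_mem_right _ hS.mem)
      have h1 := ih Q' (r + 1) (lam + 1) _ U' hS.sc' hS.ne he' heQ' hU'k (by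
        rintro z ⟨hz, hz0, hzU, ξ, hξ, hξU, hξ0⟩
        rw [hS.conormal z hz hz0] at hξ
        obtain ⟨ν, hν, y, hy, hνy⟩ := Submodule.mem_sup.1 hξ
        obtain ⟨a, rfl⟩ := Submodule.mem_span_singleton.1 hy
        have hνU : ν ∈ U := by
          have h2 : ν = ξ - a • l := by rw [← hνy]; abel
          rw [h2]
          exact U.sub_mem (hU'U hξU) (U.smul_mem _ hlU)
        have hν0 : ν = 0 := by
          by_contra hν0
          apply hbad z
          refine ⟨hS.coneI z hz, hz0, ?_, ν, hν, hνU, hν0⟩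
          intro v hv
          rw [← hsup] at hv
          obtain ⟨v1, hv1, v2, hv2, rfl⟩ := Submodule.mem_sup.1 hv
          obtain ⟨s, rfl⟩ := Submodule.mem_span_singleton.1 hv1
          rw [map_add, LinearMap.add_apply, map_smul, LinearMap.smul_apply, hS.dot z hz,
            smul_zero, zero_add]
          exact hzU v2 hv2
        apply hξ0
        have h3 : ξ ∈ Submodule.span K {l} ⊓ U' := by
          refine ⟨?_, hξU⟩
          rw [← hνy, hν0, zero_add]
          exact hy
        rw [hinf] at h3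
        exact (Submodule.mem_bot K).1 h3) (by omega) g' hg'Q hg'U
      apply hS.step e he heQ (by omega) d hd g f hg hgU.homog
      have h2 : g - lin l * f = g' := by rw [hgf]; ring
      rw [h2]
      exact h1

end Pool.Agent.J4.H17.CI
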