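import Pool.Agent.J4.H17.CI.F8

/-!
# Special linear sections of small codimension
-/

set_option autoImplicit false
set_option maxHeartbeats 400000

namespace Pool.Agent.J4.H17.CI

open MvPolynomial Pool.Agent.H929R2.Hart

variable {σ : Type} [Fintype σ] [DecidableEq σ] {K : Type} [Field K]
variable {I Q Q' : Ideal (MvPolynomial σ K)} {r : ℕ}

lemma wb_cancel (a : WithBot ℕ∞) (D : ℕ) (h : a + 1 ≤ ((D + 1 : ℕ) : WithBot ℕ∞)) :
    a ≤ (D : WithBot ℕ∞) := by
  induction a with
  | bot => exact bot_le
  | coe x =>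
    have h1 : x + 1 ≤ ((D + 1 : ℕ) : ℕ∞) := by exact_mod_cast h
    have h2 : x ≤ (D : ℕ∞) := by
      induction x with
      | top => simp at h1
      | coe n =>
        have h3 : n + 1 ≤ D + 1 := by exact_mod_cast h1
        exact_mod_cast (by omega : n ≤ D)
    exact_mod_cast h2

lemma wb_lt (a : WithBot ℕ∞) (D : ℕ) (h : ¬ ((D + 1 : ℕ) : WithBot ℕ∞) ≤ a) :
    a ≤ (D : WithBot ℕ∞) := by
  induction a with
  | bot => exact bot_le
  | coe x =>
    have h1 : ¬ ((D + 1 : ℕ) : ℕ∞) ≤ x := by
      intro h1
      apply h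
      exact_mod_cast h1
    have h2 : x ≤ (D : ℕ∞) := by
      induction x with
      | top => simp at h1
      | coe n =>
        have h3 : ¬ D + 1 ≤ n := by exact_mod_cast h1
        exact_mod_cast (by omega : n ≤ D)
    exact_mod_cast h2

/-- the ideal of the locus of the non-transversal points -/
def badI (Q : Ideal (MvPolynomial σ K)) (U : Submodule K (σ → K)) :
    Ideal (MvPolynomial σ K) where
  carrier := {F | ∀ z, BadP Q U z → eval z F = 0}
  zero_mem' := fun _ _ => map_zero _
  add_mem' := fun {a b} ha hb z hz => by rw [map_add, ha z hz, hb z hz, add_zero]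
  smul_mem' := fun c a ha z hz => by rw [smul_eq_mul, map_mul, ha z hz, mul_zero]

lemma le_badI (U : Submodule K (σ → K)) : Q ≤ badI Q U := fun F hF z hz => hz.1 F hF

/-- the locus is closed -/
theorem bad_closed (hQ : SCone Q r) (U : Submodule K (σ → K)) (z : σ → K)
    (hz : z ∈ cone (badI Q U)) (hz0 : z ≠ 0) : BadP Q U z := by
  classical
  have hzQ : z ∈ cone Q := fun F hF => hz F (le_badI U hF)
  refine ⟨hzQ, hz0, ?_, ?_⟩
  · intro u hu
    rw [← eval_lin]
    apply hz
    intro w hw
    rw [eval_lin]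
    exact hw.2.2.1 u hu
  · by_contra hcon
    push Not at hcon
    obtain ⟨F, hF, hind, -⟩ := exists_grads hQ z hzQ hz0
    let b := Module.finBasis K U
    set k := Module.finrank K U
    set e : Fin k → σ → K := fun i => (b i : σ → K) with hedef
    have he : LinearIndependent K e :=
      b.linearIndependent.map' U.subtype (Submodule.ker_subtype U)
    have heU : Submodule.span K (Set.range e) ≤ U := by
      rw [Submodule.span_le]
      rintro _ ⟨i, rfl⟩
      exact (b i).2
    let a : Fin k ⊕ Fin r → σ → MvPolynomial σ K :=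
      Sum.elim (fun i s => C (e i s)) (fun j s => pderiv s (F j))
    let av : (σ → K) → Fin k ⊕ Fin r → σ → K := fun z => Sum.elim e (fun j => grad (F j) z)
    have hav : ∀ z b s, eval z (a b s) = av z b s := by
      intro z b s
      rcases b with i | j
      · simp [a, av]
      · rfl
    have hindz : LinearIndependent K (av z) := by
      apply LinearIndependent.sum_type he hind
      rw [Submodule.disjoint_def]
      intro ξ h1 h2
      apply hcon ξ _ (heU h1)
      refine (Submodule.span_le.2 ?_) h2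
      rintro _ ⟨j, rfl⟩
      exact grad_mem Q z (hF j)
    obtain ⟨W, hW⟩ := exists_dual _ hindz
    let Mp : Matrix (Fin k ⊕ Fin r) (Fin k ⊕ Fin r) (MvPolynomial σ K) :=
      fun b b' => ∑ s, a b' s * C (W b s)
    have hDz : ∀ w, eval w Mp.det = Matrix.det (fun b b' => dotB σ K (av w b') (W b)) := by
      intro w
      rw [RingHom.map_det]
      congr 1
      ext b b'
      simp only [RingHom.mapMatrix_apply, Matrix.map_apply, Mp, map_sum, map_mul, eval_C, hav,
        dotB_apply]
    have hD1 : eval z Mp.det = 1 := by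
      rw [hDz]
      have h1 : (fun b b' => dotB σ K (av z b') (W b)) =
          (1 : Matrix (Fin k ⊕ Fin r) (Fin k ⊕ Fin r) K) := by
        ext b b'
        rw [hW, Matrix.one_apply]
        by_cases hbb : b = b'
        · rw [if_pos hbb, if_pos hbb.symm]
        · rw [if_neg hbb, if_neg (fun h => hbb h.symm)]
      rw [h1, Matrix.det_one]
    have hD0 : Mp.det ∈ badI Q U := by
      rintro w ⟨hw, hw0, -, ξ, hξ, hξU, hξ0⟩
      by_contra hne
      rw [hDz] at hne
      have hindw := ind_of_det _ W hne
      have hindF : LinearIndependent K (fun j => grad (F j) w) :=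
        hindw.comp Sum.inr Sum.inr_injective
      obtain ⟨c, hc⟩ := grads_span hQ w hw hw0 F hF hindF ξ hξ
      rw [uu_apply] at hc
      have h1 := congrArg Subtype.val (b.sum_repr ⟨ξ, hξU⟩)
      simp only [Submodule.coe_sum, Submodule.coe_smul] at h1
      have h2 : ∑ t, (Sum.elim (fun i => b.repr ⟨ξ, hξU⟩ i) (fun j => - c j) :
          Fin k ⊕ Fin r → K) t • av w t = 0 := by
        rw [Fintype.sum_sum_type]
        simp only [Sum.elim_inl, Sum.elim_inr, av, neg_smul, Finset.sum_neg_distrib]
        rw [hc]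
        show ∑ i, (b.repr ⟨ξ, hξU⟩ i) • (b i : σ → K) + -ξ = 0
        rw [h1, add_neg_cancel]
      have h3 := Fintype.linearIndependent_iff.1 hindw _ h2
      apply hξ0
      rw [← hc]
      refine Finset.sum_eq_zero (fun j _ => ?_)
      have h4 := h3 (Sum.inr j)
      simp only [Sum.elim_inr, neg_eq_zero] at h4
      rw [h4, zero_smul]
    have h1 := hz _ hD0
    rw [hD1] at h1
    exact one_ne_zero h1

omit [DecidableEq σ] in
lemma BadP.smul (hQ : SCone Q r) {U : Submodule K (σ → K)} {z : σ → K} (h : BadP Q U z) (t : K)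
    (ht : t ≠ 0) : BadP Q U (t • z) := by
  obtain ⟨hz, hz0, hzU, ξ, hξ, hξU, hξ0⟩ := h
  refine ⟨cone_smul Q hQ.homog t z hz, smul_ne_zero ht hz0, ?_, ξ, ?_, hξU, hξ0⟩
  · intro u hu
    rw [map_smul, hzU u hu, smul_zero]
  · have h1 := conormal_smul_le Q hQ.homog t⁻¹ (t • z)
    rw [smul_smul, inv_mul_cancel₀ ht, one_smul] at h1
    exact h1 hξ

/-- a general hyperplane -/
lemma exists_c [IsAlgClosed K] [CharZero K] (Q JU : Ideal (MvPolynomial σ K))
    (ps : Finset (Ideal (MvPolynomial σ K))) (hps : ∀ p ∈ ps, ¬ idealOfVars σ K ≤ p) :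
    ∃ c : σ → K, (∀ z ∈ cone Q, z ≠ 0 → dotB σ K c z = 0 → c ∉ conormal Q z) ∧
      (∀ z ∈ cone JU, z ≠ 0 → dotB σ K c z = 0 → c ∉ conormal JU z) ∧ ∀ p ∈ ps, lin c ∉ p := by
  classical
  have : Infinite K := IsAlgClosed.instInfinite
  set ε := Fintype.equivFin σ
  let l : Fin (Fintype.card σ) → σ → K := fun j => Pi.single (ε.symm j) 1
  have hl : ∀ a z, dotB σ K (l (ε a)) z = z a := by
    intro a z
    rw [← eval_lin]
    show eval z (lin (Pi.single (ε.symm (ε a)) 1)) = z a
    rw [lin_single, eval_X, Equiv.symm_apply_apply]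
  obtain ⟨Φ1, hΦ10, hΦ1⟩ := bert Q l
  obtain ⟨Φ2, hΦ20, hΦ2⟩ := bert JU l
  let T : (Fin (Fintype.card σ) → K) →ₗ[K] (σ → K) := Fintype.linearCombination K l
  have hT : ∀ t, T t = ∑ j, t j • l j := fun t => Fintype.linearCombination_apply K l t
  have h3 : ∀ p : Ideal (MvPolynomial σ K), ∃ Φ : MvPolynomial (Fin (Fintype.card σ)) K,
      p ∈ ps → Φ ≠ 0 ∧ ∀ t, eval t Φ ≠ 0 → lin (∑ j, t j • l j) ∉ p := by
    intro p
    by_cases hp : p ∈ ps
    · obtain ⟨Φ, hΦ0, hΦ⟩ := exists_avoid ((linsub p).comap T) (by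
        intro htop
        apply hps p hp
        rw [idealOfVars, Ideal.span_le]
        rintro _ ⟨a, rfl⟩
        have h4 : (Pi.single (ε a) 1 : Fin (Fintype.card σ) → K) ∈ (linsub p).comap T := by
          rw [htop]; exact Submodule.mem_top
        have h5 : lin (T (Pi.single (ε a) 1)) ∈ p := h4
        rw [hT, Finset.sum_eq_single (ε a)] at h5
        · rw [Pi.single_eq_same, one_smul] at h5
          have h6 : l (ε a) = Pi.single a 1 := by
            show Pi.single (ε.symm (ε a)) 1 = _
            rw [Equiv.symm_apply_apply]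
          rw [h6, lin_single] at h5
          exact h5
        · intro j _ hj
          rw [Pi.single_eq_of_ne hj, zero_smul]
        · intro h; exact absurd (Finset.mem_univ _) h)
      refine ⟨Φ, fun _ => ⟨hΦ0, fun t ht hm => hΦ t ht ?_⟩⟩
      show lin (T t) ∈ p
      rw [hT]
      exact hm
    · exact ⟨0, fun h => absurd h hp⟩
  choose Φp hΦp using h3
  obtain ⟨t, ht⟩ := exists_nonzero_t (Φ1 * Φ2 * ∏ p ∈ ps, Φp p)
    (mul_ne_zero (mul_ne_zero hΦ10 hΦ20)
      (Finset.prod_ne_zero_iff.2 (fun p hp => (hΦp p hp).1)))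
  rw [map_mul, map_mul, map_prod] at ht
  have ht12 := left_ne_zero_of_mul ht
  have ht3 := Finset.prod_ne_zero_iff.1 (right_ne_zero_of_mul ht)
  refine ⟨∑ j, t j • l j, ?_, ?_, ?_⟩
  · intro z hz hz0 hcz hc
    obtain ⟨a, ha⟩ := Function.ne_iff.1 hz0
    have := hΦ1 t (left_ne_zero_of_mul ht12) z hz hcz hc (ε a)
    rw [hl] at this
    exact ha this
  · intro z hz hz0 hcz hc
    obtain ⟨a, ha⟩ := Function.ne_iff.1 hz0
    have := hΦ2 t (right_ne_zero_of_mul ht12) z hz hcz hc (ε a)
    rw [hl] at this
    exact ha this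
  · intro p hp
    exact (hΦp p hp).2 t (ht3 p hp)

/-- **Linear sections with a small locus of non-transversal points.** -/
theorem inU_mem [IsAlgClosed K] [CharZero K] (d : ℕ) (hd : d = 1 ∨ d = 2) (k : ℕ)
    (U : Submodule K (σ → K)) (hU : Module.finrank K U = k) :
    ∀ (D : ℕ) (Q : Ideal (MvPolynomial σ K)) (r lam : ℕ) (e : Fin lam → σ → K),
      SCone Q r → (∃ x ∈ cone Q, x ≠ 0) →
      LinearIndependent K e → (∀ i, lin (e i) ∈ Q) →
      (∀ q : Ideal (MvPolynomial σ K), q.IsPrime → badI Q U ≤ q → idealOfVars σ K ≤ q ∨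
        ringKrullDim (MvPolynomial σ K ⧸ q) ≤ (D : WithBot ℕ∞)) →
      3 * (r + 1 - lam) + lam + (D + k) < Fintype.card σ + 3 →
      ∀ g ∈ Q, InU U d g → g ∈ idealOfVars σ K * Q := by
  classical
  have : Infinite K := IsAlgClosed.instInfinite
  intro D
  induction D with
  | zero =>
    intro Q r lam e hQ hne he heQ hdim hnum g hg hgU
    apply trans_mem d hd k Q r lam e U hQ hne he heQ hU _ (by omega) g hg hgU
    intro z hz
    obtain ⟨l, hl⟩ := exists_lin_zero' 0 (badI Q U) hdim
    apply hz.2.1
    apply hl z _ (fun j => j.elim0)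
    intro t F hF
    have h1 : line F 0 z = 0 := poly_eq_zero _ (fun t ht => by
      rw [eval_line, zero_add]
      exact hF _ (hz.smul hQ t ht))
    have h2 := congrArg (Polynomial.eval t) h1
    rwa [eval_line, zero_add, Polynomial.eval_zero] at h2
  | succ D ih =>
    intro Q r lam e hQ hne he heQ hdim hnum g hg hgU
    rcases Nat.eq_zero_or_pos k with hk0 | hk0
    · apply trans_mem d hd k Q r lam e U hQ hne he heQ hU _ (by omega) g hg hgU
      rintro z ⟨-, -, -, ξ, -, hξU, hξ0⟩
      have h1 : U = ⊥ := Submodule.finrank_eq_zero.1 (by omega)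
      rw [h1, Submodule.mem_bot] at hξU
      exact hξ0 hξU
    · have hlr : lam ≤ r := by
        obtain ⟨x, hx, hx0⟩ := hne
        exact (exists_lframe hQ e he heQ x hx hx0).1
      set JU : Ideal (MvPolynomial σ K) := Q ⊔ Ideal.span (lin '' (U : Set (σ → K))) with hJU
      have hQJU : Q ≤ JU := le_sup_left
      have hUJU : ∀ u ∈ U, lin u ∈ JU := fun u hu =>
        Ideal.mem_sup_right (Ideal.subset_span ⟨u, hu, rfl⟩)
      have hfin := Ideal.finite_minimalPrimes_of_isNoetherianRing (MvPolynomial σ K) (badI Q U)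
      obtain ⟨c, hc1, hc2, hc3⟩ := exists_c Q JU
        (hfin.toFinset.filter (fun p => ¬ idealOfVars σ K ≤ p)) (by
          intro p hp
          rw [Finset.mem_filter] at hp
          exact hp.2)
      obtain ⟨Q', hS⟩ := exists_sect hQ hne c hc1 e he heQ (by omega)
      obtain ⟨he', heQ'⟩ := snoc_ind he heQ hS.notMem hS.le hS.mem
      have hbb : ∀ z, BadP Q' U z → BadP Q U z := by
        rintro z ⟨hz, hz0, hzU, ξ, hξ, hξU, hξ0⟩
        refine ⟨hS.coneI z hz, hz0, hzU, ξ, ?_, hξU, hξ0⟩
        rw [hS.conormal z hz hz0] at hξ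
        obtain ⟨ν, hν, y, hy, hνy⟩ := Submodule.mem_sup.1 hξ
        obtain ⟨a, rfl⟩ := Submodule.mem_span_singleton.1 hy
        by_cases ha : a = 0
        · rw [ha, zero_smul, add_zero] at hνy
          rw [← hνy]
          exact hν
        · exfalso
          have hzJU : z ∈ cone JU := by
            intro F hF
            obtain ⟨p, hp, q, hq, rfl⟩ := Submodule.mem_sup.1 hF
            have h1 : Ideal.span (lin '' (U : Set (σ → K))) ≤
                RingHom.ker (eval z : MvPolynomial σ K →+* K) := by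
              rw [Ideal.span_le]
              rintro _ ⟨u, hu, rfl⟩
              show eval z (lin u) = 0
              rw [eval_lin]
              exact hzU u hu
            rw [map_add, hS.coneI z hz p hp, zero_add]
            exact h1 hq
          apply hc2 z hzJU hz0 (hS.dot z hz)
          have h2 : c = a⁻¹ • (ξ - ν) := by
            rw [← hνy, add_sub_cancel_left, smul_smul, inv_mul_cancel₀ ha, one_smul]
          rw [h2]
          apply Submodule.smul_mem
          apply Submodule.sub_mem
          · have := grad_mem JU z (hUJU ξ hξU)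
            rwa [grad_lin] at this
          · have h3 : conormal Q z ≤ conormal JU z := by
              rw [conormal, Submodule.span_le]
              rintro _ ⟨F, hF, rfl⟩
              exact grad_mem JU z (hQJU hF)
            exact h3 hν
      have h1 := ih Q' (r + 1) (lam + 1) _ hS.sc' hS.ne he' heQ' (by
        intro q hq hbq
        have hbi : badI Q U ≤ badI Q' U := fun F hF z hz => hF z (hbb z hz)
        have hbq' : badI Q U ≤ q := hbi.trans hbq
        have hcq : lin c ∈ q := hbq (le_badI U hS.mem)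
        obtain ⟨p, hp, hpq⟩ := Ideal.exists_minimalPrimes_le hbq'
        by_cases hmp : idealOfVars σ K ≤ p
        · exact Or.inl (hmp.trans hpq)
        · right
          have hcp : lin c ∉ p := by
            apply hc3 p
            rw [Finset.mem_filter, Set.Finite.mem_toFinset]
            exact ⟨hp, hmp⟩
          have hpl := (hdim p hp.1.1 hp.1.2).resolve_left hmp
          have hpp := hp.1.1
          have h1 : ringKrullDim (MvPolynomial σ K ⧸ q) + 1 ≤
              ringKrullDim (MvPolynomial σ K ⧸ p) := by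
            apply ringKrullDim_succ_le_of_surjective (Ideal.Quotient.factor hpq)
              (Ideal.Quotient.factor_surjective hpq) (r := Ideal.Quotient.mk p (lin c))
            · rw [mem_nonZeroDivisors_iff_ne_zero]
              intro h
              exact hcp (Ideal.Quotient.eq_zero_iff_mem.1 h)
            · rw [Ideal.Quotient.factor_mk]
              exact Ideal.Quotient.eq_zero_iff_mem.2 hcq
          exact wb_cancel _ D (h1.trans hpl)) (by omega) g (hS.le hg) hgU
      apply hS.step e he heQ (by omega) d hd g 0 hg hgU.homog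
      rw [mul_zero, sub_zero]
      exact h1

/-- **Elements of `I` in ideals generated by few linear forms.** -/
theorem K3 [IsAlgClosed K] [CharZero K] (hI : SCone I r) (hne : ∃ x ∈ cone I, x ≠ 0)
    (hcard : 8 * r ≤ Fintype.card σ) (U : Submodule K (σ → K))
    (hU : Module.finrank K U ≤ 2 * r) (hUI : ∀ u ∈ U, lin u ∈ I → u = 0) (d : ℕ)
    (hd : d = 1 ∨ d = 2) (g : MvPolynomial σ K) (hg : g ∈ I) (hgU : InU U d g) :
    g ∈ idealOfVars σ K * I := by
  classical
  have hpos : 0 < Fintype.card σ := by
    obtain ⟨x, hx, hx0⟩ := hne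
    obtain ⟨a, ha⟩ := Function.ne_iff.1 hx0
    exact Fintype.card_pos_iff.2 ⟨a⟩
  rcases Nat.eq_zero_or_pos (Module.finrank K U) with hk0 | hk0
  · apply trans_mem d hd 0 I r 0 (fun i => i.elim0) U hI hne (linearIndependent_empty_type)
      (fun i => i.elim0) hk0 _ (by omega) g hg hgU
    rintro z ⟨-, -, -, ξ, -, hξU, hξ0⟩
    have h1 : U = ⊥ := Submodule.finrank_eq_zero.1 hk0
    rw [h1, Submodule.mem_bot] at hξU
    exact hξ0 hξU
  · apply inU_mem d hd _ U rfl (r + Module.finrank K U - 1) I r 0 (fun i => i.elim0) hI hne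
      (linearIndependent_empty_type) (fun i => i.elim0) _ (by omega) g hg hgU
    intro q hq hbq
    by_cases hmq : idealOfVars σ K ≤ q
    · exact Or.inl hmq
    · right
      apply wb_lt
      intro hdim
      rw [Nat.sub_add_cancel (by omega)] at hdim
      obtain ⟨x, hx, hx0, hxU⟩ := exists_transversal' hI hq ((le_badI U).trans hbq) hmq _ U hUI
        le_rfl hdim
      obtain ⟨-, -, -, ξ, hξ, hξU, hξ0⟩ := bad_closed hI U x (fun F hF => hx F (hbq hF)) hx0
      exact hξ0 (hxU ξ hξ hξU)

end Pool.Agent.J4.H17.CI
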