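import Pool.Agent.J4.H17.CI.F9

/-!
# Smooth varieties of small codimension with cubic equations
-/

set_option autoImplicit false
set_option maxHeartbeats 400000

namespace Pool.Agent.J4.H17.CI

open MvPolynomial Pool.Agent.H929R2.Hart

variable {σ : Type} [Fintype σ] [DecidableEq σ] {K : Type} [Field K]
variable {I : Ideal (MvPolynomial σ K)} {r : ℕ}

/-- **Forms with a singular point on the variety.** -/
theorem sing_mem2 [IsAlgClosed K] [CharZero K] (hI : SCone I r)
    (hK : ∀ U : Submodule K (σ → K), Module.finrank K U ≤ 2 * r →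
      (∀ u ∈ U, lin u ∈ I → u = 0) → ∀ d : ℕ, (d = 1 ∨ d = 2) → ∀ g ∈ I, InU U d g →
      g ∈ idealOfVars σ K * I)
    (g : MvPolynomial σ K) (e : ℕ) (he : e ≤ 3) (hg : g ∈ I) (hgh : g.IsHomogeneous e)
    (x0 : σ → K) (hx0 : x0 ∈ cone I) (hx00 : x0 ≠ 0) (hgrad : grad g x0 = 0) :
    g ∈ idealOfVars σ K * I := by
  classical
  have : Infinite K := IsAlgClosed.instInfinite
  rcases Nat.lt_or_ge e 2 with he2 | he2
  · have h0 : g = 0 := by
      rcases Nat.lt_or_ge e 1 with he1 | he1
      · have he0 : e = 0 := by omega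
        rw [he0] at hgh
        have h2 : g = C (coeff 0 g) := by
          rw [← homogeneousComponent_zero, homogeneousComponent_eq_self hgh]
        have h3 := hx0 g hg
        rw [h2, eval_C] at h3
        rw [h2, h3, map_zero]
      · have he0 : e = 1 := by omega
        rw [he0] at hgh
        have h1 := hgh.sum_X_mul_pderiv
        rw [one_smul] at h1
        rw [← h1]
        refine Finset.sum_eq_zero (fun i _ => ?_)
        have h2 : (pderiv i g).IsHomogeneous 0 := hgh.pderiv
        have h3 : pderiv i g = C (coeff 0 (pderiv i g)) := by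
          rw [← homogeneousComponent_zero, homogeneousComponent_eq_self h2]
        have h4 := congrFun hgrad i
        rw [grad, h3, eval_C, Pi.zero_apply] at h4
        rw [h3, h4, map_zero, mul_zero]
    rw [h0]
    exact Ideal.zero_mem _
  obtain ⟨e', rfl⟩ : ∃ e', e = e' + 1 := ⟨e - 1, by omega⟩
  obtain ⟨N0, hN0, hvan⟩ := sing_form hI g (e' + 1) (by omega) hg hgh x0 hx0 hx00 hgrad
  obtain ⟨C0, hC0⟩ := Submodule.exists_isCompl (N0 ⊓ linsub I)
  set A := N0 ⊓ linsub I with hA
  set U := C0 ⊓ N0 with hU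
  have hAN : A ≤ N0 := inf_le_left
  have hUA : U ⊓ A = ⊥ := by
    rw [eq_bot_iff, ← hC0.inf_eq_bot, hU]
    exact fun v hv => ⟨hv.2, hv.1.1⟩
  have hUA' : A ⊔ U = N0 := by
    rw [hU, ← sup_inf_assoc_of_le C0 hAN, hC0.sup_eq_top, top_inf_eq]
  set k := Module.finrank K U with hk
  have hk2 : k ≤ 2 * r := (Submodule.finrank_mono (inf_le_right : U ≤ N0)).trans hN0
  let bU := Module.finBasisOfFinrankEq K U (n := k) rfl
  let bA := Module.finBasisOfFinrankEq K A (n := Module.finrank K A) rfl
  let u : Fin k → σ → K := fun i => (bU i : σ → K)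
  let lam : Fin (Module.finrank K A) → σ → K := fun i => (bA i : σ → K)
  have hu : LinearIndependent K u := bU.linearIndependent.map' U.subtype (Submodule.ker_subtype U)
  have hlam : LinearIndependent K lam :=
    bA.linearIndependent.map' A.subtype (Submodule.ker_subtype A)
  have huU : Submodule.span K (Set.range u) = U := by
    have h1 : Set.range u = U.subtype '' Set.range bU := by
      rw [← Set.range_comp]; rfl
    rw [h1, ← Submodule.map_span, bU.span_eq, Submodule.map_top, Submodule.range_subtype]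
  have hlamA : Submodule.span K (Set.range lam) = A := by
    have h1 : Set.range lam = A.subtype '' Set.range bA := by
      rw [← Set.range_comp]; rfl
    rw [h1, ← Submodule.map_span, bA.span_eq, Submodule.map_top, Submodule.range_subtype]
  have hnind : LinearIndependent K (Sum.elim u lam) := by
    apply LinearIndependent.sum_type hu hlam
    rw [huU, hlamA, disjoint_iff]
    exact hUA
  have hgspan : g ∈ Ideal.span (Set.range (fun i => lin (Sum.elim u lam i))) := by
    apply mem_span_lin _ hnind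
    intro w hw
    apply hvan
    intro ξ hξ
    rw [← hUA', ← huU, ← hlamA] at hξ
    obtain ⟨a, ha, b, hb, rfl⟩ := Submodule.mem_sup.1 hξ
    rw [map_add, LinearMap.add_apply]
    have h1 : ∀ (m : ℕ) (v : Fin m → σ → K), (∀ i, dotB σ K (v i) w = 0) →
        ∀ ξ ∈ Submodule.span K (Set.range v), dotB σ K ξ w = 0 := by
      intro m v hv ξ hξ
      induction hξ using Submodule.span_induction with
      | mem x hx => obtain ⟨i, rfl⟩ := hx; exact hv i
      | zero => rw [map_zero, LinearMap.zero_apply]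
      | add x y _ _ hx hy => rw [map_add, LinearMap.add_apply, hx, hy, add_zero]
      | smul c x _ hx => rw [map_smul, LinearMap.smul_apply, hx, smul_zero]
    rw [h1 _ lam (fun i => hw (Sum.inr i)) a ha, h1 _ u (fun i => hw (Sum.inl i)) b hb, add_zero]
  obtain ⟨c, hch, hgc⟩ := homog_coeff _ g e' hgh hgspan
  rw [Fintype.sum_sum_type] at hgc
  simp only [Sum.elim_inl, Sum.elim_inr] at hgc
  have hlamI : ∀ i, lin (lam i) ∈ I := fun i => (bA i).2.2
  have h2 : ∑ i, c (Sum.inr i) * lin (lam i) ∈ idealOfVars σ K * I :=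
    Ideal.sum_mem _ (fun i _ => Ideal.mul_mem_mul (homog_mem_vars (by omega) (hch _)) (hlamI i))
  have hs1 : InU U e' (∑ i, c (Sum.inl i) * lin (u i)) :=
    ⟨k, fun i => c (Sum.inl i), u, fun i => hch _, fun i => (bU i).2, rfl⟩
  have hUI : ∀ v ∈ U, lin v ∈ I → v = 0 := by
    intro v hv hvI
    have h4 : v ∈ U ⊓ A := ⟨hv, hv.2, hvI⟩
    rw [hUA] at h4
    exact (Submodule.mem_bot K).1 h4
  have h2I : ∑ i, c (Sum.inr i) * lin (lam i) ∈ I :=
    (Ideal.mul_le_right : idealOfVars σ K * I ≤ I) h2
  have h3 : ∑ i, c (Sum.inl i) * lin (u i) ∈ I := by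
    have h5 : ∑ i, c (Sum.inl i) * lin (u i) = g - ∑ i, c (Sum.inr i) * lin (lam i) := by
      rw [hgc, add_sub_cancel_right]
    rw [h5]
    exact I.sub_mem hg h2I
  have h7 := hK U hk2 hUI e' (by omega) _ h3 hs1
  rw [hgc]
  exact Ideal.add_mem _ h7 h2

/-- elements of degree at most three with a singular point on the variety are not minimal -/
def SingProp (I : Ideal (MvPolynomial σ K)) : Prop :=
  ∀ (g : MvPolynomial σ K) (e : ℕ), e ≤ 3 → g ∈ I → g.IsHomogeneous e →
    ∀ x0 : σ → K, x0 ∈ cone I → x0 ≠ 0 → grad g x0 = 0 → g ∈ idealOfVars σ K * I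

theorem singProp_of_card [IsAlgClosed K] [CharZero K] (hI : SCone I r)
    (hcard : 8 * r ≤ Fintype.card σ) : SingProp I := by
  intro g e he hg hgh x0 hx0 hx00 hgrad
  exact sing_mem2 hI (fun U hU hUI d hd g hg hgU => K3 hI ⟨x0, hx0, hx00⟩ hcard U hU hUI d hd g hg
    hgU) g e he hg hgh x0 hx0 hx00 hgrad

theorem singProp_of_cm [IsAlgClosed K] [CharZero K] (hI : SCone I r)
    (hcm : ACM I (Fintype.card σ - r)) (hcard : 6 * r ≤ Fintype.card σ) : SingProp I :=
  fun g e he hg hgh x0 hx0 hx00 hgrad => sing_mem hI hcm hcard g e he hg hgh x0 hx0 hx00 hgrad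

/-- **Independent gradients.** -/
theorem MinFam.indep' (hS : SingProp I) {s : ℕ}
    {G : Fin s → MvPolynomial σ K} {d : Fin s → ℕ} (h : MinFam I 3 G d) (x : σ → K)
    (hx : x ∈ cone I) (hx0 : x ≠ 0) : LinearIndependent K (fun i => grad (G i) x) := by
  classical
  rw [Fintype.linearIndependent_iff]
  by_contra hcon
  push Not at hcon
  obtain ⟨c, hc, i0, hi0⟩ := hcon
  -- the largest degree
  have hne : (Finset.univ.filter (fun i => c i ≠ 0)).Nonempty :=
    ⟨i0, by rw [Finset.mem_filter]; exact ⟨Finset.mem_univ _, hi0⟩⟩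
  obtain ⟨i1, hi1, hmax⟩ := Finset.exists_max_image _ d hne
  rw [Finset.mem_filter] at hi1
  set e := d i1 with he
  have hle : ∀ i, c i ≠ 0 → d i ≤ e := fun i hi =>
    hmax i (by rw [Finset.mem_filter]; exact ⟨Finset.mem_univ _, hi⟩)
  obtain ⟨a, ha⟩ := Function.ne_iff.1 hx0
  set w : σ → K := Pi.single a (x a)⁻¹ with hw
  have hwx : dotB σ K w x = 1 := by
    rw [dotB_apply, Finset.sum_eq_single a]
    · simp only [w, Pi.single_eq_same]
      exact inv_mul_cancel₀ ha
    · intro k _ hk
      rw [hw, Pi.single_apply, if_neg hk, zero_mul]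
    · intro h; exact absurd (Finset.mem_univ _) h
  let T : Fin s → MvPolynomial σ K := fun i => C (c i) * (lin w ^ (e - d i) * G i)
  have hTI : ∀ i, T i ∈ I := fun i => I.mul_mem_left _ (I.mul_mem_left _ (h.mem i))
  have hTh : ∀ i, (T i).IsHomogeneous e := by
    intro i
    by_cases hi : c i = 0
    · simp only [T, hi, map_zero, zero_mul]
      exact isHomogeneous_zero _ _ _
    · have h1 := ((lin_homog w).pow (e - d i)).mul (h.hom i)
      rw [one_mul, Nat.sub_add_cancel (hle i hi)] at h1
      have h2 := (isHomogeneous_C σ (c i)).mul h1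
      rwa [zero_add] at h2
  have hgrad : ∀ i, grad (T i) x = c i • grad (G i) x := by
    intro i
    simp only [T]
    rw [grad_C_mul, grad_mul, map_pow, eval_lin, hwx, one_pow, one_smul, hx _ (h.mem i),
      zero_smul, zero_add]
  have hsum : ∑ i, T i ∈ idealOfVars σ K * I := by
    apply hS _ e (h.le i1) (I.sum_mem (fun i _ => hTI i))
      (IsHomogeneous.sum _ _ _ (fun i _ => hTh i)) x hx hx0
    rw [grad_sum, Finset.sum_congr rfl (fun i _ => hgrad i), hc]
  let c' : Fin s → K := fun i => if d i = e then c i else 0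
  have hc' : ∑ i, C (c' i) * G i ∈ idealOfVars σ K * I := by
    have h1 : ∀ i, C (c' i) * G i = T i - (if d i = e then 0 else T i) := by
      intro i
      by_cases hi : d i = e
      · simp [c', T, hi]
      · simp [c', hi]
    rw [Finset.sum_congr rfl (fun i _ => h1 i), Finset.sum_sub_distrib]
    refine Ideal.sub_mem _ hsum (Ideal.sum_mem _ (fun i _ => ?_))
    split_ifs with hi
    · exact Ideal.zero_mem _
    · by_cases hci : c i = 0
      · simp only [T, hci, map_zero, zero_mul]
        exact Ideal.zero_mem _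
      · have h2 : T i = (C (c i) * lin w ^ (e - d i)) * G i := by simp only [T]; ring
        rw [h2]
        apply Ideal.mul_mem_mul _ (h.mem i)
        apply Ideal.mul_mem_left
        apply Ideal.pow_mem_of_mem _ (lin_mem w)
        have := hle i hci
        omega
  have h3 := h.min e c' (fun i hi => by simp [c', hi]) hc' i1
  simp only [c', he, if_true] at h3
  exact hi1.2 h3

/-- **Main theorem.** -/
theorem cubic_main' {n r : ℕ} {K : Type} [Field K] [IsAlgClosed K] [CharZero K]
    {I : Ideal (MvPolynomial (Fin n) K)} (hI : SCone I r) (hS : SingProp I)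
    (hcard : 2 * r < n) (x1 : Fin n → K) (hx1 : x1 ∈ cone I) (hx10 : x1 ≠ 0)
    (hcub : conormal I x1 ≤ Submodule.span K {ξ | ∃ F ∈ I, F.totalDegree ≤ 3 ∧ ξ = grad F x1}) :
    ∃ (G : Fin r → MvPolynomial (Fin n) K) (d : Fin r → ℕ), (∀ i, 1 ≤ d i ∧ d i ≤ 3) ∧
      (∀ i, (G i).IsHomogeneous (d i)) ∧ I = Ideal.span (Set.range G) := by
  classical
  have hbound : ∀ (s : ℕ) (G : Fin s → MvPolynomial (Fin n) K) (d : Fin s → ℕ),
      MinFam I 3 G d → s ≤ r := by
    intro s G d h
    have h1 := h.indep' hS x1 hx1 hx10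
    have h2 : LinearIndependent K
        (fun i => (⟨grad (G i) x1, grad_mem I x1 (h.mem i)⟩ : conormal I x1)) :=
      LinearIndependent.of_comp (conormal I x1).subtype h1
    have h3 := h2.fintype_card_le_finrank
    rwa [Fintype.card_fin, hI.rank x1 hx1 hx10] at h3
  let Pr : ℕ → Prop := fun s => ∃ (G : Fin s → MvPolynomial (Fin n) K) (d : Fin s → ℕ),
    MinFam I 3 G d
  have hPr0 : Pr 0 := by
    refine ⟨fun i => i.elim0, fun i => i.elim0, fun i => i.elim0, fun i => i.elim0,
      fun i => i.elim0, fun _ _ _ _ i => i.elim0⟩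
  have hex : ∃ s, ¬ Pr s := ⟨r + 1, fun ⟨G, d, h⟩ => by have := hbound _ G d h; omega⟩
  have hpos : 0 < Nat.find hex := by
    rw [Nat.pos_iff_ne_zero]
    intro h0
    have := Nat.find_spec hex
    rw [h0] at this
    exact this hPr0
  obtain ⟨s, hs, hs1⟩ : ∃ s, Pr s ∧ ¬ Pr (s + 1) := by
    refine ⟨Nat.find hex - 1, ?_, ?_⟩
    · have := Nat.find_min hex (m := Nat.find hex - 1) (by omega)
      exact not_not.1 this
    · rw [Nat.sub_add_cancel hpos]
      exact Nat.find_spec hex
  obtain ⟨G, d, h⟩ := hs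
  have hspan : conormal I x1 ≤ Submodule.span K (Set.range (fun i => grad (G i) x1)) := by
    refine hcub.trans ?_
    rw [Submodule.span_le]
    rintro _ ⟨F, hF, hF3, rfl⟩
    rw [SetLike.mem_coe, ← sum_homogeneousComponent F, grad_sum]
    refine Submodule.sum_mem _ (fun e he => ?_)
    rw [Finset.mem_range] at he
    exact h.grads hI.homog hs1 x1 hx1 e (by omega) _ (hI.homog F hF e)
      (homogeneousComponent_isHomogeneous e F)
  have hrs : r ≤ s := by
    have h1 := Submodule.finrank_mono hspan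
    rw [hI.rank x1 hx1 hx10] at h1
    have h2 := finrank_range_le_card (R := K) (fun i => grad (G i) x1)
    rw [Fintype.card_fin] at h2
    exact h1.trans h2
  have hsr : s = r := le_antisymm (hbound s G d h) hrs
  subst hsr
  have hind : ∀ x ∈ cone I, x ≠ 0 → LinearIndependent K (fun i => grad (G i) x) :=
    fun x hx hx0 => h.indep' hS x hx hx0
  have hd1 : ∀ i, 1 ≤ d i := by
    intro i
    by_contra h0
    have h0' : d i = 0 := by omega
    have h1 := h.hom i
    rw [h0'] at h1
    have h2 : G i = C (coeff 0 (G i)) := by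
      rw [← homogeneousComponent_zero, homogeneousComponent_eq_self h1]
    have h3 : grad (G i) x1 = 0 := by
      rw [h2]
      funext j; simp [grad]
    exact (hind x1 hx1 hx10).ne_zero i h3
  refine ⟨G, d, fun i => ⟨hd1 i, h.le i⟩, h.hom, ?_⟩
  exact ci_of_indep hI ⟨x1, hx1, hx10⟩ (by omega) G d hd1 h.mem h.hom hind

/-- **Minimal generators of degree at most three.** -/
theorem min_gens {n r : ℕ} {K : Type} [Field K] [IsAlgClosed K] [CharZero K]
    {I : Ideal (MvPolynomial (Fin n) K)} (hI : SCone I r) (hS : SingProp I)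
    (hne : ∃ x ∈ cone I, x ≠ 0) (hcard : 2 * r < n) {s : ℕ} (G : Fin s → MvPolynomial (Fin n) K)
    (d : Fin s → ℕ) (h : MinFam I 3 G d) :
    s ≤ r ∧ (∀ x ∈ cone I, x ≠ 0 → LinearIndependent K (fun i => grad (G i) x)) ∧
      (s = r → I = Ideal.span (Set.range G)) := by
  classical
  have hind : ∀ x ∈ cone I, x ≠ 0 → LinearIndependent K (fun i => grad (G i) x) :=
    fun x hx hx0 => h.indep' hS x hx hx0
  obtain ⟨x1, hx1, hx10⟩ := hne
  refine ⟨?_, hind, ?_⟩
  · have h1 := hind x1 hx1 hx10
    have h2 : LinearIndependent K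
        (fun i => (⟨grad (G i) x1, grad_mem I x1 (h.mem i)⟩ : conormal I x1)) :=
      LinearIndependent.of_comp (conormal I x1).subtype h1
    have h3 := h2.fintype_card_le_finrank
    rwa [Fintype.card_fin, hI.rank x1 hx1 hx10] at h3
  · rintro rfl
    have hd1 : ∀ i, 1 ≤ d i := by
      intro i
      by_contra h0
      have h0' : d i = 0 := by omega
      have h1 := h.hom i
      rw [h0'] at h1
      have h2 : G i = C (coeff 0 (G i)) := by
        rw [← homogeneousComponent_zero, homogeneousComponent_eq_self h1]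
      have h3 : grad (G i) x1 = 0 := by
        rw [h2]
        funext j; simp [grad]
      exact (hind x1 hx1 hx10).ne_zero i h3
    exact ci_of_indep hI ⟨x1, hx1, hx10⟩ hcard G d hd1 h.mem h.hom hind

end Pool.Agent.J4.H17.CI
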