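import Pool.Agent.J4.H17.CI.G1

/-!
# The equations of degree at most three of a smooth variety of small codimension
-/

set_option autoImplicit false
set_option maxHeartbeats 400000

namespace Pool.Agent.J4.H17.CI

open MvPolynomial Pool.Agent.H929R2.Hart

variable {σ : Type} [Fintype σ] [DecidableEq σ] {K : Type} [Field K]
variable {I : Ideal (MvPolynomial σ K)} {r : ℕ}

/-- forms of degree at most `D` are generated by a maximal family -/
theorem MinFam.gens {D s : ℕ} {G : Fin s → MvPolynomial σ K} {d : Fin s → ℕ}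
    (hom : ∀ F ∈ I, ∀ d, homogeneousComponent d F ∈ I)
    (h : MinFam I D G d)
    (hmax : ¬ ∃ (G' : Fin (s + 1) → MvPolynomial σ K) (d' : Fin (s + 1) → ℕ), MinFam I D G' d') :
    ∀ (e : ℕ), e ≤ D → ∀ F ∈ I, F.IsHomogeneous e → F ∈ Ideal.span (Set.range G) := by
  classical
  intro e
  induction e with
  | zero =>
    intro he F hF hFh
    obtain ⟨c, hc, hH⟩ := h.spans hmax 0 he F hF hFh
    have hHh : (F - ∑ i, C (c i) * G i).IsHomogeneous 0 := by
      apply hFh.sub
      apply IsHomogeneous.sum
      intro i _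
      by_cases hi : d i = 0
      · have := (isHomogeneous_C σ (c i)).mul (h.hom i)
        rwa [zero_add, hi] at this
      · rw [hc i hi, map_zero, zero_mul]
        exact isHomogeneous_zero _ _ _
    have h0 : F - ∑ i, C (c i) * G i = 0 := by
      have h2 : F - ∑ i, C (c i) * G i = C (coeff 0 (F - ∑ i, C (c i) * G i)) := by
        rw [← homogeneousComponent_zero, homogeneousComponent_eq_self hHh]
      have h3 : F - ∑ i, C (c i) * G i ∈ idealOfVars σ K :=
        (Ideal.mul_le_left : idealOfVars σ K * I ≤ idealOfVars σ K) hH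
      rw [mem_idealOfVars] at h3
      rw [h2] at h3 ⊢
      rw [eval_C] at h3
      rw [h3, map_zero]
    rw [sub_eq_zero.1 h0]
    exact Ideal.sum_mem _ (fun i _ => Ideal.mul_mem_left _ _ (Ideal.subset_span ⟨i, rfl⟩))
  | succ e ih =>
    intro heD F hF hFh
    obtain ⟨c, hc, hH⟩ := h.spans hmax (e + 1) heD F hF hFh
    obtain ⟨b, hb, hHb⟩ := exists_sum_X _ hH
    have hHh : (F - ∑ i, C (c i) * G i).IsHomogeneous (e + 1) := by
      apply hFh.sub
      apply IsHomogeneous.sum
      intro i _
      by_cases hi : d i = e + 1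
      · have := (isHomogeneous_C σ (c i)).mul (h.hom i)
        rwa [zero_add, hi] at this
      · rw [hc i hi, map_zero, zero_mul]
        exact isHomogeneous_zero _ _ _
    have hH2 : F - ∑ i, C (c i) * G i = ∑ j, X j * homogeneousComponent e (b j) := by
      conv_lhs => rw [← homogeneousComponent_eq_self hHh, hHb, map_sum]
      refine Finset.sum_congr rfl (fun j _ => ?_)
      rw [add_comm e 1, H503R3.QCI.comp_mul (isHomogeneous_X K j)]
    have hF2 : F = ∑ i, C (c i) * G i + ∑ j, X j * homogeneousComponent e (b j) := by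
      rw [← hH2]; ring
    rw [hF2]
    apply Ideal.add_mem
    · exact Ideal.sum_mem _ (fun i _ => Ideal.mul_mem_left _ _ (Ideal.subset_span ⟨i, rfl⟩))
    · exact Ideal.sum_mem _ (fun j _ => Ideal.mul_mem_left _ _
        (ih (by omega) _ (hom _ (hb j) e) (homogeneousComponent_isHomogeneous _ _)))

/-- **The equations of degree at most three.** -/
theorem cubic_structure {n r : ℕ} {K : Type} [Field K] [IsAlgClosed K] [CharZero K]
    {I : Ideal (MvPolynomial (Fin n) K)} (hI : SCone I r) (hS : SingProp I)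
    (hne : ∃ x ∈ cone I, x ≠ 0) (hcard : 2 * r < n) :
    ∃ (s : ℕ) (G : Fin s → MvPolynomial (Fin n) K) (d : Fin s → ℕ), s ≤ r ∧
      (∀ i, G i ∈ I ∧ 1 ≤ d i ∧ d i ≤ 3 ∧ (G i).IsHomogeneous (d i)) ∧
      (∀ F ∈ I, F.totalDegree ≤ 3 → F ∈ Ideal.span (Set.range G)) ∧
      (∀ x ∈ cone I, x ≠ 0 → LinearIndependent K (fun i => grad (G i) x)) ∧
      ∀ x1 ∈ cone I, x1 ≠ 0 →
        conormal I x1 ≤ Submodule.span K {ξ | ∃ F ∈ I, F.totalDegree ≤ 3 ∧ ξ = grad F x1} →
        s = r ∧ I = Ideal.span (Set.range G) := by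
  classical
  have hbound : ∀ (s : ℕ) (G : Fin s → MvPolynomial (Fin n) K) (d : Fin s → ℕ),
      MinFam I 3 G d → s ≤ r := fun s G d h => (min_gens hI hS hne hcard G d h).1
  let Pr : ℕ → Prop := fun s => ∃ (G : Fin s → MvPolynomial (Fin n) K) (d : Fin s → ℕ),
    MinFam I 3 G d
  have hPr0 : Pr 0 := by
    refine ⟨fun i => i.elim0, fun i => i.elim0, fun i => i.elim0, fun i => i.elim0,
      fun i => i.elim0, fun _ _ _ _ i => i.elim0⟩
  have hex : ∃ s, ¬ Pr s := ⟨r + 1, fun ⟨G, d, h⟩ => by have := hbound _ G d h; omega⟩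
  have hpos : 0 < Nat.find hex := by
    rw [Nat.pos_iff_ne_zero]
    intro h0
    have := Nat.find_spec hex
    rw [h0] at this
    exact this hPr0
  obtain ⟨s, hs, hs1⟩ : ∃ s, Pr s ∧ ¬ Pr (s + 1) := by
    refine ⟨Nat.find hex - 1, ?_, ?_⟩
    · have := Nat.find_min hex (m := Nat.find hex - 1) (by omega)
      exact not_not.1 this
    · rw [Nat.sub_add_cancel hpos]
      exact Nat.find_spec hex
  obtain ⟨G, d, h⟩ := hs
  obtain ⟨hsr, hind, hci⟩ := min_gens hI hS hne hcard G d h
  have hgens := h.gens hI.homog hs1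
  refine ⟨s, G, d, hsr, ?_, ?_, hind, ?_⟩
  · intro i
    refine ⟨h.mem i, ?_, h.le i, h.hom i⟩
    obtain ⟨x1, hx1, hx10⟩ := hne
    by_contra h0
    have h0' : d i = 0 := by omega
    have h1 := h.hom i
    rw [h0'] at h1
    have h2 : G i = C (coeff 0 (G i)) := by
      rw [← homogeneousComponent_zero, homogeneousComponent_eq_self h1]
    have h3 : grad (G i) x1 = 0 := by
      rw [h2]
      funext j; simp [grad]
    exact (hind x1 hx1 hx10).ne_zero i h3
  · intro F hF hF3
    rw [← sum_homogeneousComponent F]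
    refine Ideal.sum_mem _ (fun e he => ?_)
    rw [Finset.mem_range] at he
    exact hgens e (by omega) _ (hI.homog F hF e) (homogeneousComponent_isHomogeneous e F)
  · intro x1 hx1 hx10 hcub
    have hspan : conormal I x1 ≤ Submodule.span K (Set.range (fun i => grad (G i) x1)) := by
      refine hcub.trans ?_
      rw [Submodule.span_le]
      rintro _ ⟨F, hF, hF3, rfl⟩
      rw [SetLike.mem_coe, ← sum_homogeneousComponent F, grad_sum]
      refine Submodule.sum_mem _ (fun e he => ?_)
      rw [Finset.mem_range] at he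
      exact h.grads hI.homog hs1 x1 hx1 e (by omega) _ (hI.homog F hF e)
        (homogeneousComponent_isHomogeneous e F)
    have hrs : r ≤ s := by
      have h1 := Submodule.finrank_mono hspan
      rw [hI.rank x1 hx1 hx10] at h1
      have h2 := finrank_range_le_card (R := K) (fun i => grad (G i) x1)
      rw [Fintype.card_fin] at h2
      exact h1.trans h2
    have hsr' : s = r := le_antisymm hsr hrs
    exact ⟨hsr', hci hsr'⟩

end Pool.Agent.J4.H17.CI
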